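import Pool.Agent.Helper38.SPT.Defs
import Pool.Agent.Helper29.TW.Sizes
import Pool.Agent.Helper29.TW.RepMain
import Pool.Agent.Helper29.TW.SatTy

/-!
# Block SPT-A1: pumping a protrusion

Proof.  `q` from `BF.sat φ` (TD/BFSat).  `p`, `B` from `Der.pump (BSt S ar q K 0) (USt S ar q K 0) (JSt S ar q K 0)` as in `pump_up` (TW/Sizes),
but for arbitrary active sources: if `Gen S ar K A V J` and `B ≤ Nat.card V` then for every `j` there are `V'`, `J'` with
`Gen S ar K A V' J'`, `ty q J' = ty q J`, `Nat.card V' = Nat.card V + j * p` (iterate the step `+ p`).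
Given `X`, `C`: `ℓ` injective on `C` (`exists_lab`), `Dec.rep` gives `V`, `J`, `code` (a bijection of `X \ C` with `V`; the source of
`c ∈ C` is `ℓ c`).  New structure: `Y ⊕ V'` with `Y = {x // x ∈ C ∨ x ∉ X}`; a tuple is in a relation iff it is a tuple of `I` in `Y`, or
the image of a tuple of `J'` under `inl (ℓ c) ↦ inl c`, `inr y ↦ inr y`.
Game: for a set `P` of pairs of inner elements let `src P` be the set of pairs in `Fin K ⊕ V`, `Fin K ⊕ V'` (all pairs of sources are added), `tgt P` the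
set of pairs in `M`, `Y ⊕ V'` (the pairs `(c, inl c)`, `c ∈ C`, are added).  The game for `src P` gives the game for `tgt P` with moves in `X \ C`;
`BF.emb` (TD/BFBasic) for the part outside `X`; `BF.union` (TD/BFUnion); `BF.consts` adds the moves in `C`; `BF.sat`, `Sat.iso`.
-/

set_option autoImplicit false

namespace Pool.Agent.Helper38.SPT

open FirstOrder FirstOrder.Language Pool.Agent.Helper20.Spectra Pool.Agent.Helper29.TD
  Pool.Agent.Helper29.TW

variable {S : Type} {ar : S → ℕ}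

/-- Pumping of structures with sources. -/
private theorem pump_act99 [Finite S] (q K : ℕ) : ∃ p B : ℕ, 1 ≤ p ∧ ∀ (A : Finset (Fin K)) (V : Type)
    (J : Interp S ar (Fin K ⊕ V)), Gen S ar K A V J → B ≤ Nat.card V → ∀ j : ℕ,
    ∃ (V' : Type) (J' : Interp S ar (Fin K ⊕ V')), Gen S ar K A V' J' ∧ ty q J' = ty q J ∧
      Nat.card V' = Nat.card V + j * p := by
  obtain ⟨p, N, hp, h⟩ := Der.pump (BSt S ar q K 0) (USt S ar q K 0) (JSt S ar q K 0)
  refine ⟨p, N, hp, fun A V J hG hN j => ?_⟩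
  induction j with
  | zero => exact ⟨V, J, hG, rfl, by simp⟩
  | succ j ih =>
    obtain ⟨V₁, J₁, hG₁, ht₁, hc₁⟩ := ih
    obtain ⟨σ, hσ⟩ := exists_st q (k := 0) A J₁ (∅ : Set V₁) (by simp)
    obtain ⟨B', V', J', W', hG', hσ', hc⟩ :=
      gen_of_der (h σ _ (by rw [hc₁]; omega) (der_of_gen hG₁ _ σ hσ))
    have hB : B' = A := hσ'.1.symm.trans hσ.1
    subst hB
    refine ⟨V', J', hG', (hσ'.2.1.symm.trans hσ.2.1).trans ht₁, ?_⟩
    rw [hc, hc₁]
    ring

/-- A decomposition with empty bags is empty. -/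
private theorem dec_zero99 {M : Type} [DecidableEq M] {I : Interp S ar M} {X C : Finset M}
    (h : Dec I 0 X C) : X = ∅ := by
  induction h with
  | leaf C hC => exact Finset.card_eq_zero.1 (Nat.le_zero.1 hC)
  | join X Y C _ _ _ _ ih1 ih2 => rw [ih1, ih2, Finset.union_empty]
  | move X C C' hC _ _ _ ih =>
    rw [ih, Finset.card_eq_zero.1 (Nat.le_zero.1 hC), Finset.union_empty]

section game

variable {M : Type} {K : ℕ} {V V' : Type} {I : Interp S ar M} {X C : Set M} {ℓ : M → Fin K}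

/-- The code of the elements of the new structure. -/
private def code99 {M : Type} {K : ℕ} (V' : Type) (X C : Set M) (ℓ : M → Fin K) :
    {x : M // x ∈ C ∨ x ∉ X} ⊕ V' → Fin K ⊕ V'
  | Sum.inl x => Sum.inl (ℓ x)
  | Sum.inr y => Sum.inr y

/-- The elements of the new structure in the pumped part. -/
private def dom99 {M : Type} (V' : Type) (X C : Set M) : {x : M // x ∈ C ∨ x ∉ X} ⊕ V' → Prop
  | Sum.inl x => (x : M) ∈ C
  | Sum.inr _ => True

/-- The new structure. -/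
private def new99 (I : Interp S ar M) (X C : Set M) (ℓ : M → Fin K)
    (J' : Interp S ar (Fin K ⊕ V')) : Interp S ar ({x : M // x ∈ C ∨ x ∉ X} ⊕ V') :=
  fun s w => (∃ u : Fin (ar s) → {x : M // x ∈ C ∨ x ∉ X}, w = (fun i => Sum.inl (u i)) ∧
      I s fun i => (u i : M)) ∨
    ((∀ i, dom99 V' X C (w i)) ∧ J' s fun i => code99 V' X C ℓ (w i))

/-- The pairs in the structures with sources. -/
private def src99 (K : ℕ) (P : Set (V × V')) : Set ((Fin K ⊕ V) × (Fin K ⊕ V')) :=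
  prs (Sum.inl : Fin K → Fin K ⊕ V) (Sum.inl : Fin K → Fin K ⊕ V') ∪
    {p | ∃ y ∈ P, p = (Sum.inr y.1, Sum.inr y.2)}

/-- The pairs in the old and the new structure. -/
private def tgt99 (X C : Set M) (γ : V → M) (P : Set (V × V')) :
    Set (M × ({x : M // x ∈ C ∨ x ∉ X} ⊕ V')) :=
  {p | ∃ (c : M) (h : c ∈ C), p = (c, Sum.inl ⟨c, Or.inl h⟩)} ∪
    {p | ∃ y ∈ P, p = (γ y.1, Sum.inr y.2)}

private theorem src_insert99 (P : Set (V × V')) (y : V) (y' : V') :
    src99 K (insert (y, y') P) = insert (Sum.inr y, Sum.inr y') (src99 K P) := by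
  unfold src99
  ext p
  simp only [Set.mem_union, Set.mem_ofPred_eq, Set.mem_insert_iff]
  constructor
  · rintro (h | ⟨z, rfl | hz, rfl⟩)
    · exact Or.inr (Or.inl h)
    · exact Or.inl rfl
    · exact Or.inr (Or.inr ⟨z, hz, rfl⟩)
  · rintro (rfl | h | ⟨z, hz, rfl⟩)
    · exact Or.inr ⟨(y, y'), Or.inl rfl, rfl⟩
    · exact Or.inl h
    · exact Or.inr ⟨z, Or.inr hz, rfl⟩

private theorem tgt_insert99 (γ : V → M) (P : Set (V × V')) (y : V) (y' : V') :
    tgt99 X C γ (insert (y, y') P) = insert (γ y, Sum.inr y') (tgt99 X C γ P) := by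
  unfold tgt99
  ext p
  simp only [Set.mem_union, Set.mem_ofPred_eq, Set.mem_insert_iff]
  constructor
  · rintro (h | ⟨z, rfl | hz, rfl⟩)
    · exact Or.inr (Or.inl h)
    · exact Or.inl rfl
    · exact Or.inr (Or.inr ⟨z, hz, rfl⟩)
  · rintro (rfl | h | ⟨z, hz, rfl⟩)
    · exact Or.inr ⟨(y, y'), Or.inl rfl, rfl⟩
    · exact Or.inl h
    · exact Or.inr ⟨z, Or.inr hz, rfl⟩

/-- The data of a representation. -/
private structure Data99 (I : Interp S ar M) (X C : Set M) (ℓ : M → Fin K)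
    (J : Interp S ar (Fin K ⊕ V)) (code : M → Fin K ⊕ V) (γ : V → M) : Prop where
  sub : C ⊆ X
  inC : ∀ x ∈ C, code x = Sum.inl (ℓ x)
  inX : ∀ x ∈ X, x ∉ C → ∃ y, γ y = x
  gam : ∀ y, γ y ∈ X ∧ γ y ∉ C ∧ code (γ y) = Sum.inr y
  inj : Set.InjOn code X
  rel : ∀ (s : S) (u : Fin (ar s) → Fin K ⊕ V), J s u ↔
      ∃ v : Fin (ar s) → M, I s v ∧ (∀ i, v i ∈ X) ∧ u = fun i => code (v i)

variable {J : Interp S ar (Fin K ⊕ V)} {J' : Interp S ar (Fin K ⊕ V')} {code : M → Fin K ⊕ V}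
  {γ : V → M}

private theorem rel_iff99 (d : Data99 I X C ℓ J code γ) (s : S) (v : Fin (ar s) → M)
    (hv : ∀ i, v i ∈ X) : I s v ↔ J s fun i => code (v i) := by
  rw [d.rel]
  constructor
  · intro h
    exact ⟨v, h, hv, rfl⟩
  · rintro ⟨w, hw, hX, he⟩
    have : v = w := by
      funext i
      exact d.inj (hv i) (hX i) (congrFun he i)
    rwa [this]

private theorem relC99 (d : Data99 I X C ℓ J code γ)
    (h0 : PIso J J' (prs (Sum.inl : Fin K → Fin K ⊕ V) (Sum.inl : Fin K → Fin K ⊕ V')))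
    (s : S) (v : Fin (ar s) → M) (hv : ∀ i, v i ∈ C) :
    I s v ↔ J' s fun i => Sum.inl (ℓ (v i)) := by
  rw [rel_iff99 d s v fun i => d.sub (hv i)]
  have e : (fun i => code (v i)) = fun i => Sum.inl (ℓ (v i)) := funext fun i => d.inC _ (hv i)
  rw [e]
  exact h0.2 s (fun i => (Sum.inl (ℓ (v i)), Sum.inl (ℓ (v i)))) fun i => ⟨ℓ (v i), rfl⟩

private theorem new_iff99 (d : Data99 I X C ℓ J code γ)
    (h0 : PIso J J' (prs (Sum.inl : Fin K → Fin K ⊕ V) (Sum.inl : Fin K → Fin K ⊕ V')))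
    (s : S) (w : Fin (ar s) → {x : M // x ∈ C ∨ x ∉ X} ⊕ V') (hw : ∀ i, dom99 V' X C (w i)) :
    new99 I X C ℓ J' s w ↔ J' s fun i => code99 V' X C ℓ (w i) := by
  constructor
  · rintro (⟨u, rfl, hu⟩ | h)
    · exact (relC99 d h0 s _ hw).1 hu
    · exact h.2
  · intro h
    exact Or.inr ⟨hw, h⟩

private theorem piso99 (d : Data99 I X C ℓ J code γ) (P : Set (V × V'))
    (h : PIso J J' (src99 K P)) : PIso I (new99 I X C ℓ J') (tgt99 X C γ P) := by
  have h0 : PIso J J' (prs (Sum.inl : Fin K → Fin K ⊕ V) (Sum.inl : Fin K → Fin K ⊕ V')) :=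
    ⟨fun p hp p' hp' => h.1 p (Or.inl hp) p' (Or.inl hp'),
      fun s v hv => h.2 s v fun i => Or.inl (hv i)⟩
  have hγ : Function.Injective γ := by
    intro y z hyz
    have h1 := (d.gam y).2.2
    rw [hyz, (d.gam z).2.2] at h1
    exact (Sum.inr.inj h1).symm
  refine ⟨?_, ?_⟩
  · rintro p (⟨c, hc, rfl⟩ | ⟨y, hy, rfl⟩) p' (⟨c', hc', rfl⟩ | ⟨z, hz, rfl⟩)
    · simp only [Sum.inl.injEq, Subtype.mk.injEq]
    · refine iff_of_false (fun e => ?_) (fun e => by cases e)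
      exact (d.gam z.1).2.1 (by rw [← (show c = γ z.1 from e)]; exact hc)
    · refine iff_of_false (fun e => ?_) (fun e => by cases e)
      exact (d.gam y.1).2.1 (by rw [(show γ y.1 = c' from e)]; exact hc')
    · have h1 := h.1 (Sum.inr y.1, Sum.inr y.2) (Or.inr ⟨y, hy, rfl⟩) (Sum.inr z.1, Sum.inr z.2)
        (Or.inr ⟨z, hz, rfl⟩)
      simp only [Sum.inr.injEq] at h1 ⊢
      rw [← h1]
      exact ⟨fun e => hγ e, fun e => by rw [e]⟩
  · intro s v hv
    have hX : ∀ i, (v i).1 ∈ X := by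
      intro i
      rcases hv i with ⟨c, hc, e⟩ | ⟨y, hy, e⟩
      · rw [e]
        exact d.sub hc
      · rw [e]
        exact (d.gam y.1).1
    have hD : ∀ i, dom99 V' X C (v i).2 := by
      intro i
      rcases hv i with ⟨c, hc, e⟩ | ⟨y, hy, e⟩
      · rw [e]
        exact hc
      · rw [e]
        trivial
    rw [new_iff99 d h0 s _ hD, rel_iff99 d s _ hX]
    refine h.2 s (fun i => (code (v i).1, code99 V' X C ℓ (v i).2)) fun i => ?_
    rcases hv i with ⟨c, hc, e⟩ | ⟨y, hy, e⟩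
    · rw [e]
      refine Or.inl ⟨ℓ c, ?_⟩
      rw [d.inC c hc]
      rfl
    · rw [e]
      refine Or.inr ⟨y, hy, ?_⟩
      rw [(d.gam y.1).2.2]
      rfl

private theorem bf99 (d : Data99 I X C ℓ J code γ) (q : ℕ) : ∀ P : Set (V × V'),
    BF J J' (Set.range Sum.inr) (Set.range Sum.inr) q (src99 K P) →
      BF I (new99 I X C ℓ J') (X \ C) (Set.range Sum.inr) q (tgt99 X C γ P) := by
  induction q with
  | zero => exact fun P h => piso99 d P h
  | succ q ih =>
    rintro P ⟨h, h1, h2⟩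
    refine ⟨piso99 d P h, ?_, ?_⟩
    · rintro x ⟨hx, hxC⟩
      obtain ⟨y, rfl⟩ := d.inX x hx hxC
      obtain ⟨_, ⟨y', rfl⟩, h3⟩ := h1 (Sum.inr y) ⟨y, rfl⟩
      refine ⟨Sum.inr y', ⟨y', rfl⟩, ?_⟩
      rw [← tgt_insert99]
      rw [← src_insert99] at h3
      exact ih _ h3
    · rintro _ ⟨y', rfl⟩
      obtain ⟨_, ⟨y, rfl⟩, h3⟩ := h2 (Sum.inr y') ⟨y', rfl⟩
      refine ⟨γ y, ⟨(d.gam y).1, (d.gam y).2.1⟩, ?_⟩
      rw [← tgt_insert99]
      rw [← src_insert99] at h3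
      exact ih _ h3

private theorem src_empty99 : src99 K (∅ : Set (V × V')) = prs Sum.inl Sum.inl := by
  unfold src99
  ext p
  simp

open scoped Classical in
private theorem game99 (d : Data99 I X C ℓ J code γ) (q : ℕ)
    (hsep : ∀ (s : S) (v : Fin (ar s) → M), I s v → (∀ i, v i ∈ X) ∨ ∀ i, v i ∈ C ∨ v i ∉ X)
    (h : BF J J' (Set.range Sum.inr) (Set.range Sum.inr) q
      (prs (Sum.inl : Fin K → Fin K ⊕ V) (Sum.inl : Fin K → Fin K ⊕ V')))
    (hne : Nonempty V') :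
    BF I (new99 I X C ℓ J') Set.univ Set.univ q ∅ := by
  have h0 := h.piso
  have b1 : BF I (new99 I X C ℓ J') (X \ C) (Set.range Sum.inr) q (tgt99 X C γ (∅ : Set (V × V'))) := by
    apply bf99 d
    rw [src_empty99]
    exact h
  -- the part outside `X`
  let f : M → {x : M // x ∈ C ∨ x ∉ X} ⊕ V' := fun x =>
    if hx : x ∈ C ∨ x ∉ X then Sum.inl ⟨x, hx⟩ else Sum.inr hne.some
  have hf : ∀ x (hx : x ∈ C ∨ x ∉ X), f x = Sum.inl ⟨x, hx⟩ := fun x hx => dif_pos hx
  have hfi : Set.InjOn f {x : M | x ∈ C ∨ x ∉ X} := by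
    intro x hx y hy hxy
    rw [hf x hx, hf y hy] at hxy
    simpa using hxy
  have b2 : BF I (new99 I X C ℓ J') Xᶜ (f '' Xᶜ) q (tgt99 X C γ (∅ : Set (V × V'))) := by
    refine BF.emb f {x : M | x ∈ C ∨ x ∉ X} hfi ?_ (fun x hx => Or.inr hx) q ?_
    · intro s v hv
      have e : (fun i => f (v i)) =
          fun i => Sum.inl (⟨v i, hv i⟩ : {x : M // x ∈ C ∨ x ∉ X}) :=
        funext fun i => hf _ (hv i)
      rw [e]
      constructor
      · intro hI
        exact Or.inl ⟨fun i => ⟨v i, hv i⟩, rfl, hI⟩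
      · rintro (⟨u, hu, hI⟩ | ⟨hD, hJ⟩)
        · have e1 : (fun i => (u i : M)) = v := by
            funext i
            have := congrFun hu i
            rw [Sum.inl.injEq] at this
            rw [← this]
          rwa [e1] at hI
        · exact (relC99 d h0 s v hD).2 hJ
    · rintro p (⟨c, hc, rfl⟩ | ⟨y, hy, rfl⟩)
      · exact ⟨Or.inl hc, (hf c (Or.inl hc)).symm⟩
      · exact absurd hy (Set.notMem_empty y)
  have s1 : Sep I (X \ C) Xᶜ := by
    refine ⟨fun x hx hx' => hx' hx.1, ?_⟩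
    rintro s v hI ⟨i, hi⟩ ⟨j, hj⟩
    rcases hsep s v hI with h1 | h1
    · exact hj (h1 j)
    · rcases h1 i with h2 | h2
      · exact hi.2 h2
      · exact h2 hi.1
  have s2 : Sep (new99 I X C ℓ J') (Set.range Sum.inr) (f '' Xᶜ) := by
    refine ⟨?_, ?_⟩
    · rintro _ ⟨y, rfl⟩ ⟨x, hx, e⟩
      rw [hf x (Or.inr hx)] at e
      cases e
    · rintro s w hI ⟨i, y, hy⟩ ⟨j, x, hx, e⟩
      rw [hf x (Or.inr hx)] at e
      rcases hI with ⟨u, rfl, hu⟩ | ⟨hD, hJ⟩
      · cases hy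
      · have h2 := hD j
        rw [← e] at h2
        exact hx (d.sub h2)
  have h3 : ∀ p ∈ tgt99 X C γ (∅ : Set (V × V')), p.1 ∉ X \ C ∧ p.1 ∉ Xᶜ ∧
      p.2 ∉ Set.range Sum.inr ∧ p.2 ∉ f '' Xᶜ := by
    rintro p (⟨c, hc, rfl⟩ | ⟨y, hy, rfl⟩)
    · refine ⟨fun h1 => h1.2 hc, fun h1 => h1 (d.sub hc), ?_, ?_⟩
      · rintro ⟨y, e⟩
        cases e
      · rintro ⟨x, hx, e⟩
        rw [hf x (Or.inr hx)] at e
        simp only [Sum.inl.injEq, Subtype.mk.injEq] at e
        rw [e] at hx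
        exact hx (d.sub hc)
    · exact absurd hy (Set.notMem_empty y)
  have b3 := BF.union s1 s2 h3 q (P₁ := tgt99 X C γ (∅ : Set (V × V')))
    (P₂ := tgt99 X C γ (∅ : Set (V × V'))) subset_rfl subset_rfl Set.subset_union_left
    Set.subset_union_left b1 b2
  rw [Set.union_self] at b3
  have b4 := BF.consts (P0 := tgt99 X C γ (∅ : Set (V × V'))) subset_rfl b3
  have e1 : X \ C ∪ Xᶜ ∪ Prod.fst '' tgt99 X C γ (∅ : Set (V × V')) = Set.univ := by
    rw [Set.eq_univ_iff_forall]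
    intro x
    by_cases hx : x ∈ X
    · by_cases hc : x ∈ C
      · exact Or.inr ⟨(x, Sum.inl ⟨x, Or.inl hc⟩), Or.inl ⟨x, hc, rfl⟩, rfl⟩
      · exact Or.inl (Or.inl ⟨hx, hc⟩)
    · exact Or.inl (Or.inr hx)
  have e2 : Set.range Sum.inr ∪ f '' Xᶜ ∪ Prod.snd '' tgt99 X C γ (∅ : Set (V × V')) = Set.univ := by
    rw [Set.eq_univ_iff_forall]
    rintro (⟨x, hx⟩ | y)
    · by_cases hc : x ∈ C
      · exact Or.inr ⟨(x, Sum.inl ⟨x, Or.inl hc⟩), Or.inl ⟨x, hc, rfl⟩, rfl⟩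
      · have hx' : x ∉ X := hx.resolve_left hc
        exact Or.inl (Or.inr ⟨x, hx', hf x hx⟩)
    · exact Or.inl (Or.inl ⟨y, rfl⟩)
  rw [e1, e2] at b4
  exact b4.anti (Set.empty_subset _)

end game

theorem pump_prot [Finite S] (φ : (RelLang S ar).Sentence) (K : ℕ) : ∃ p B : ℕ, 1 ≤ p ∧
    ∀ (n : ℕ) (I : Interp S ar (Fin n)), Prot I K B → Sat I φ → ∀ j : ℕ,
      ∃ I' : Interp S ar (Fin (n + j * p)), Sat I' φ := by
  obtain ⟨q, hq⟩ := BF.sat (S := S) (ar := ar) φ
  obtain ⟨p, B, hp, hpump⟩ := pump_act99 (S := S) (ar := ar) q K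
  refine ⟨p, max B 1, hp, ?_⟩
  rintro n I ⟨X, C, hdec, hsep, hB⟩ hI j
  have hB1 : 1 ≤ (X \ C).card := le_trans (le_max_right _ _) hB
  have hK : 1 ≤ K := by
    by_contra hK
    have hK0 : K = 0 := by omega
    subst hK0
    rw [dec_zero99 hdec, Finset.empty_sdiff, Finset.card_empty] at hB1
    omega
  obtain ⟨ℓ, hℓ, _⟩ := exists_lab (D := (∅ : Finset (Fin n))) (Finset.empty_subset C) hdec.card_le
    (fun _ => (⟨0, by omega⟩ : Fin K)) (by rw [Finset.coe_empty]; exact Set.injOn_empty _)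
  obtain ⟨V, J, code, hG, h1, h2, h3, h4, h5⟩ := hdec.rep ℓ hℓ
  choose γ hγX hγC hγ using h3
  have hCX : C ⊆ X := hdec.sub
  have d : Data99 I (X : Set (Fin n)) (C : Set (Fin n)) ℓ J code γ :=
    { sub := Finset.coe_subset.2 hCX
      inC := h1
      inX := by
        intro x hx hxC
        obtain ⟨y, hy⟩ := h2 x hx hxC
        refine ⟨y, h4 (hγX y) hx ?_⟩
        rw [hγ y, hy]
      gam := fun y => ⟨hγX y, hγC y, hγ y⟩
      inj := h4
      rel := h5 }
  -- the number of inner elements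
  have hfinV := hG.finite
  have hcV : Nat.card V = (X \ C).card := by
    have hb : Function.Bijective (fun y : V => (⟨γ y, by
        rw [Finset.mem_sdiff]; exact ⟨hγX y, hγC y⟩⟩ : {x // x ∈ X \ C})) := by
      constructor
      · intro y z hyz
        have e : γ y = γ z := congrArg Subtype.val hyz
        have e1 := hγ y
        rw [e, hγ z] at e1
        exact (Sum.inr.inj e1).symm
      · rintro ⟨x, hx⟩
        rw [Finset.mem_sdiff] at hx
        obtain ⟨y, hy⟩ := d.inX x hx.1 hx.2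
        exact ⟨y, Subtype.ext hy⟩
    rw [Nat.card_eq_of_bijective _ hb, Nat.card_eq_fintype_card, Fintype.card_coe]
  obtain ⟨V', J', hG', ht, hc'⟩ := hpump _ V J hG (by rw [hcV]; exact le_trans (le_max_left _ _) hB) j
  have hfinV' := hG'.finite
  have hne : Nonempty V' := (Nat.card_pos_iff.1 (by rw [hc', hcV]; omega)).1
  have hbf := (tp_eq_iff q _ _).1 ht.symm
  have hgame := game99 (J' := J') d q hsep hbf hne
  have hsat := (hq _ _ I (new99 I (X : Set (Fin n)) (C : Set (Fin n)) ℓ J') _ _ hgame).1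
    ((Sat.univ I φ).2 hI)
  rw [Sat.univ] at hsat
  -- the number of elements
  have hcN : Nat.card ({x : Fin n // x ∈ (C : Set (Fin n)) ∨ x ∉ (X : Set (Fin n))} ⊕ V') =
      n + j * p := by
    have h6 : Nat.card {x : Fin n // x ∈ (C : Set (Fin n)) ∨ x ∉ (X : Set (Fin n))} =
        (X \ C)ᶜ.card := by
      classical
      rw [Nat.card_eq_fintype_card]
      refine Fintype.card_of_subtype _ fun x => ?_
      rw [Finset.mem_compl, Finset.mem_sdiff, Finset.mem_coe, Finset.mem_coe]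
      tauto
    have h7 : (X \ C).card ≤ n := by
      have := Finset.card_le_univ (X \ C)
      rwa [Fintype.card_fin] at this
    rw [Nat.card_sum, h6, Finset.card_compl, Fintype.card_fin, hc', hcV]
    omega
  have e : ({x : Fin n // x ∈ (C : Set (Fin n)) ∨ x ∉ (X : Set (Fin n))} ⊕ V') ≃
      Fin (n + j * p) := Finite.equivFinOfCardEq hcN
  exact ⟨_, (Sat.iso _ e φ).1 hsat⟩

end Pool.Agent.Helper38.SPT
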