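import Pool.Agent.Helper38.SPT.Defs

/-!
# Block SPT-A2: decompositions from tree partitions

`dec_mono`: induction on `Dec`.
`dec_tree`: `X` is partitioned by `π` into parts with at most `c` elements, indexed by the nodes of a rooted forest (`par`; `t` is
a root if `dep t = 0`), adjacent elements are in the same part or in parts of a node and its parent.  Write `Xt := X.filter (π · = t)`
and let `D t` be the set of the `x ∈ X` such that the path of parents from `π x` meets `t` (for instance by induction:
`D t = Xt ∪ ⋃ D t'` over the `t' ∈ π '' X ∪ ancestors` with `dep t' ≠ 0`, `par t' = t`; or: `∃ k, par^[k] (π x) = t` and `dep` is not zero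
before).  Claim: `Dec I (2 * c + D.card) (D t ∪ D) (Xt ∪ D)`, by strong induction on `maxdep - dep t`: start with `leaf (Xt ∪ D)`; for a child
`t'`: `move` to `Xt ∪ Xt' ∪ D`, then `move` to `Xt ∪ D`; `join` over the children (no tuple meets the subtrees of two children: two elements
of a tuple are equal or adjacent).  Finally `move` to `D` and `join` over the roots.  Only nodes with `D t` nonempty matter, they are
finitely many.  (Elements of `X ∩ D` do no harm.)
-/

set_option autoImplicit false

namespace Pool.Agent.Helper38.SPT

open Pool.Agent.Helper20.Spectra Pool.Agent.Helper29.TD Pool.Agent.Helper29.TW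

variable {S : Type} {ar : S → ℕ} {M : Type} [DecidableEq M]

theorem dec_mono {I : Interp S ar M} {K K' : ℕ} (h : K ≤ K') {X C : Finset M} (hX : Dec I K X C) :
    Dec I K' X C := by
  induction hX with
  | leaf C hC => exact Dec.leaf C (hC.trans h)
  | join X Y C h1 h2 _ _ ih1 ih2 => exact Dec.join X Y C h1 h2 ih1 ih2
  | move X C C' h1 h2 h3 _ ih => exact Dec.move X C C' (h1.trans h) h2 h3 ih

/-- `t` is reached from `s` by taking parents. -/
private inductive Anc40 {T : Type} (par : T → T) (dep : T → ℕ) : T → T → Prop
  | refl (s : T) : Anc40 par dep s s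
  | step (s t : T) : dep s ≠ 0 → Anc40 par dep (par s) t → Anc40 par dep s t

section anc40

variable {T : Type} {par : T → T} {dep : T → ℕ}

private lemma anc_cases40 {s t : T} (h : Anc40 par dep s t) :
    s = t ∨ (dep s ≠ 0 ∧ Anc40 par dep (par s) t) := by
  cases h with
  | refl => exact Or.inl rfl
  | step _ _ h1 h2 => exact Or.inr ⟨h1, h2⟩

private lemma anc_dep40 (hpar : ∀ t, dep t ≠ 0 → dep (par t) < dep t) {s t : T}
    (h : Anc40 par dep s t) : dep t ≤ dep s := by
  induction h with
  | refl => exact le_rfl
  | step s t h1 _ ih => exact ih.trans (hpar s h1).le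

private lemma anc_tail40 {s t : T} (h : Anc40 par dep s t) (ht : dep t ≠ 0) :
    Anc40 par dep s (par t) := by
  induction h with
  | refl s => exact Anc40.step s _ ht (Anc40.refl _)
  | step s t h1 _ ih => exact Anc40.step s _ h1 (ih ht)

private lemma anc_last40 {s t : T} (h : Anc40 par dep s t) :
    s = t ∨ ∃ t', Anc40 par dep s t' ∧ dep t' ≠ 0 ∧ par t' = t := by
  induction h with
  | refl => exact Or.inl rfl
  | step s t h1 _ ih =>
    rcases ih with ih | ⟨t', h2, h3, h4⟩
    · exact Or.inr ⟨s, Anc40.refl s, h1, ih⟩
    · exact Or.inr ⟨t', Anc40.step s t' h1 h2, h3, h4⟩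

private lemma anc_comp40 {s t t' : T} (h : Anc40 par dep s t) (h' : Anc40 par dep s t') :
    Anc40 par dep t t' ∨ Anc40 par dep t' t := by
  induction h with
  | refl => exact Or.inl h'
  | step s t h1 h2 ih =>
    rcases anc_cases40 h' with h3 | ⟨_, h3⟩
    · subst h3
      exact Or.inr (Anc40.step _ _ h1 h2)
    · exact ih h3

private lemma anc_root40 (hpar : ∀ t, dep t ≠ 0 → dep (par t) < dep t) (s : T) :
    ∃ t, Anc40 par dep s t ∧ dep t = 0 := by
  obtain ⟨n, hn⟩ : ∃ n, n = dep s := ⟨_, rfl⟩
  induction n using Nat.strong_induction_on generalizing s with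
  | _ n ih =>
    by_cases hs : dep s = 0
    · exact ⟨s, Anc40.refl s, hs⟩
    · obtain ⟨t, h1, h2⟩ := ih (dep (par s)) (hn ▸ hpar s hs) (par s) rfl
      exact ⟨t, Anc40.step s t hs h1, h2⟩

private lemma anc_fin40 (hpar : ∀ t, dep t ≠ 0 → dep (par t) < dep t) (s : T) :
    {t | Anc40 par dep s t}.Finite := by
  obtain ⟨n, hn⟩ : ∃ n, n = dep s := ⟨_, rfl⟩
  induction n using Nat.strong_induction_on generalizing s with
  | _ n ih =>
    by_cases hs : dep s = 0
    · refine (Set.finite_singleton s).subset fun t ht => ?_
      rcases anc_cases40 ht with h | ⟨h, _⟩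
      · exact h.symm
      · exact absurd hs h
    · refine ((ih (dep (par s)) (hn ▸ hpar s hs) (par s) rfl).insert s).subset fun t ht => ?_
      rcases anc_cases40 ht with h | ⟨_, h⟩
      · exact Or.inl h.symm
      · exact Or.inr h

/-- Two children of the same node with a common descendant are equal. -/
private lemma anc_child40 (hpar : ∀ t, dep t ≠ 0 → dep (par t) < dep t) {s t t' t'' : T}
    (h' : Anc40 par dep s t') (h'' : Anc40 par dep s t'') (d' : dep t' ≠ 0) (d'' : dep t'' ≠ 0)
    (p' : par t' = t) (p'' : par t'' = t) : t' = t'' := by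
  rcases anc_comp40 h' h'' with h | h
  · rcases anc_cases40 h with h1 | ⟨_, h1⟩
    · exact h1
    · have h2 := anc_dep40 hpar h1
      have h3 := hpar t'' d''
      rw [p'] at h2
      rw [p''] at h3
      omega
  · rcases anc_cases40 h with h1 | ⟨_, h1⟩
    · exact h1.symm
    · have h2 := anc_dep40 hpar h1
      have h3 := hpar t' d'
      rw [p''] at h2
      rw [p'] at h3
      omega

private lemma anc_rootuniq40 {s t t' : T}
    (h : Anc40 par dep s t) (h' : Anc40 par dep s t') (d : dep t = 0) (d' : dep t' = 0) :
    t = t' := by
  rcases anc_comp40 h h' with h1 | h1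
  · rcases anc_cases40 h1 with h2 | ⟨h2, _⟩
    · exact h2
    · exact absurd d h2
  · rcases anc_cases40 h1 with h2 | ⟨h2, _⟩
    · exact h2.symm
    · exact absurd d' h2

end anc40

open scoped Classical in
theorem dec_tree {I : Interp S ar M} {T : Type} (π : M → T) (par : T → T) (dep : T → ℕ)
    (X D : Finset M) (c : ℕ) (hpar : ∀ t, dep t ≠ 0 → dep (par t) < dep t)
    (hfib : ∀ t, (X.filter (fun x => π x = t)).card ≤ c)
    (hadj : ∀ x ∈ X, ∀ y ∈ X, Adj I x y → π x = π y ∨ (dep (π x) ≠ 0 ∧ par (π x) = π y) ∨
      (dep (π y) ≠ 0 ∧ par (π y) = π x)) :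
    Dec I (2 * c + D.card) (X ∪ D) D := by
  -- the part over a node and the part over a subtree
  let Xt : T → Finset M := fun t => X.filter (fun x => π x = t)
  let Dt : T → Finset M := fun t => X.filter (fun x => Anc40 par dep (π x) t)
  have mXt : ∀ {x t}, x ∈ Xt t ↔ x ∈ X ∧ π x = t := fun {x t} => Finset.mem_filter
  have mDt : ∀ {x t}, x ∈ Dt t ↔ x ∈ X ∧ Anc40 par dep (π x) t := fun {x t} => Finset.mem_filter
  have hXD : ∀ t, Xt t ⊆ Dt t := by
    intro t x hx
    rw [mXt] at hx
    rw [mDt]
    exact ⟨hx.1, hx.2 ▸ Anc40.refl _⟩
  have hfin : {t | ∃ x ∈ X, Anc40 par dep (π x) t}.Finite := by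
    have h1 : {t | ∃ x ∈ X, Anc40 par dep (π x) t} = ⋃ x ∈ X, {t | Anc40 par dep (π x) t} := by
      ext t
      simp
    rw [h1]
    exact X.finite_toSet.biUnion fun x _ => anc_fin40 hpar (π x)
  let A : Finset T := hfin.toFinset
  have mA : ∀ {t}, t ∈ A ↔ ∃ x ∈ X, Anc40 par dep (π x) t := fun {t} => by
    rw [Set.Finite.mem_toFinset]; rfl
  -- adjacency in tuples
  have htup : ∀ (s : S) (v : Fin (ar s) → M), I s v → ∀ i j, v i ∈ X → v j ∈ X → v i ≠ v j →
      π (v i) = π (v j) ∨ (dep (π (v i)) ≠ 0 ∧ par (π (v i)) = π (v j)) ∨
      (dep (π (v j)) ≠ 0 ∧ par (π (v j)) = π (v i)) := fun s v hv i j hi hj hij =>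
    hadj _ hi _ hj ⟨hij, s, v, hv, ⟨i, rfl⟩, ⟨j, rfl⟩⟩
  have hcXD : ∀ t, (Xt t ∪ D).card ≤ 2 * c + D.card := by
    intro t
    have h1 := Finset.card_union_le (Xt t) D
    have h2 := hfib t
    change (Xt t).card ≤ c at h2
    omega
  -- the decomposition over a subtree
  have key : ∀ n t, (X.sup (fun x => dep (π x))) + 1 - dep t ≤ n →
      Dec I (2 * c + D.card) (Dt t ∪ D) (Xt t ∪ D) := by
    intro n
    induction n with
    | zero =>
      intro t ht
      have h1 : Dt t = ∅ := by
        rw [Finset.eq_empty_iff_forall_notMem]
        intro x hx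
        rw [mDt] at hx
        have h2 := anc_dep40 hpar hx.2
        have h3 : dep (π x) ≤ X.sup (fun x => dep (π x)) :=
          Finset.le_sup (f := fun x => dep (π x)) hx.1
        omega
      have h2 : Xt t = ∅ := Finset.subset_empty.1 (h1 ▸ hXD t)
      rw [h1, h2, Finset.empty_union]
      exact Dec.leaf D (by omega)
    | succ n ih =>
      intro t ht
      have hch : ∀ s : Finset T, (∀ t' ∈ s, dep t' ≠ 0 ∧ par t' = t) →
          Dec I (2 * c + D.card) ((Xt t ∪ s.biUnion Dt) ∪ D) (Xt t ∪ D) := by
        intro s
        induction s using Finset.induction_on with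
        | empty =>
          intro _
          rw [Finset.biUnion_empty, Finset.union_empty]
          exact Dec.leaf _ (hcXD t)
        | insert t' s hts ihs =>
          intro hs
          obtain ⟨d', p'⟩ := hs t' (Finset.mem_insert_self t' s)
          have ihs' := ihs fun t'' h => hs t'' (Finset.mem_insert_of_mem h)
          have hlt : dep t < dep t' := p' ▸ hpar t' d'
          by_cases hne : Dt t' = ∅
          · rw [Finset.biUnion_insert, hne, Finset.empty_union]
            exact ihs'
          have hdep : dep t' ≤ X.sup (fun x => dep (π x)) := by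
            obtain ⟨x, hx⟩ := Finset.nonempty_iff_ne_empty.2 hne
            rw [mDt] at hx
            exact (anc_dep40 hpar hx.2).trans (Finset.le_sup (f := fun x => dep (π x)) hx.1)
          have ih1 := ih t' (by omega)
          -- no element of `Dt t'` lies over `t`
          have hno : ∀ x ∈ Dt t', π x ≠ t := by
            intro x hx h
            rw [mDt] at hx
            have h1 := anc_dep40 hpar hx.2
            rw [h] at h1
            omega
          -- move to `Xt t ∪ Xt t' ∪ D`
          have h1 : Dec I (2 * c + D.card) ((Dt t' ∪ D) ∪ (Xt t ∪ Xt t' ∪ D))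
              (Xt t ∪ Xt t' ∪ D) := by
            refine Dec.move _ (Xt t' ∪ D) _ ?_ ?_ ?_ ih1
            · have h2 := Finset.card_union_le (Xt t ∪ Xt t') D
              have h3 := Finset.card_union_le (Xt t) (Xt t')
              have h4 := hfib t
              have h5 := hfib t'
              change (Xt t).card ≤ c at h4
              change (Xt t').card ≤ c at h5
              omega
            · intro x hx
              rw [Finset.mem_inter, Finset.mem_union, Finset.mem_union, Finset.mem_union] at hx
              obtain ⟨hx1, hx2⟩ := hx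
              rw [Finset.mem_union]
              rcases hx2 with (hx2 | hx2) | hx2
              · rcases hx1 with hx1 | hx1
                · exact absurd (mXt.1 hx2).2 (hno x hx1)
                · exact Or.inr hx1
              · exact Or.inl hx2
              · exact Or.inr hx2
            · intro s' v hv hall
              by_contra hcon
              push Not at hcon
              obtain ⟨⟨i, hi⟩, ⟨j, hj⟩⟩ := hcon
              have hi' := hall i
              have hj' := hall j
              simp only [Finset.mem_union] at hi hj hi' hj'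
              have hiX : v i ∈ Xt t := by
                rcases hi' with h | (h | h) | h
                · exact absurd h hi
                · exact h
                · exact absurd (Or.inl (hXD t' h)) hi
                · exact absurd (Or.inr h) hi
              have hjD : v j ∈ Dt t' := by
                rcases hj' with (h | h) | h
                · exact h
                · exact absurd (Or.inr h) hj
                · exact absurd h hj
              have hne' : v i ≠ v j := fun h => hi (Or.inl (h ▸ hjD))
              have hjt : π (v j) ≠ t' := fun h => hj (Or.inl (Or.inr (mXt.2 ⟨(mDt.1 hjD).1, h⟩)))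
              have hpi := (mXt.1 hiX).2
              have hdj := anc_dep40 hpar (mDt.1 hjD).2
              rcases htup s' v hv i j (mXt.1 hiX).1 (mDt.1 hjD).1 hne' with h | ⟨h, h'⟩ | ⟨h, h'⟩
              · exact hno _ hjD (h.symm.trans hpi)
              · have h6 := hpar _ h
                rw [h', hpi] at h6
                omega
              · rcases anc_cases40 (mDt.1 hjD).2 with h6 | ⟨_, h6⟩
                · exact hjt h6
                · have h7 := anc_dep40 hpar h6
                  rw [h', hpi] at h7
                  omega
          -- move back to `Xt t ∪ D`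
          have h2 : Dec I (2 * c + D.card) (((Dt t' ∪ D) ∪ (Xt t ∪ Xt t' ∪ D)) ∪ (Xt t ∪ D))
              (Xt t ∪ D) := by
            have hsub : Xt t ∪ D ⊆ Xt t ∪ Xt t' ∪ D := by
              intro x hx
              simp only [Finset.mem_union] at hx ⊢
              tauto
            refine Dec.move _ _ _ (hcXD t) (Finset.inter_subset_right.trans hsub) ?_ h1
            intro s' v _ hall
            left
            intro i
            rcases Finset.mem_union.1 (hall i) with h | h
            · exact h
            · exact Finset.mem_union_right _ (hsub h)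
          have h3 : ((Dt t' ∪ D) ∪ (Xt t ∪ Xt t' ∪ D)) ∪ (Xt t ∪ D) = Dt t' ∪ Xt t ∪ D := by
            ext x
            have := @hXD t' x
            simp only [Finset.mem_union]
            tauto
          rw [h3] at h2
          have h4 : (Xt t ∪ (insert t' s).biUnion Dt) ∪ D =
              (Dt t' ∪ Xt t ∪ D) ∪ ((Xt t ∪ s.biUnion Dt) ∪ D) := by
            rw [Finset.biUnion_insert]
            ext x
            simp only [Finset.mem_union]
            tauto
          rw [h4]
          refine Dec.join _ _ _ ?_ ?_ h2 ihs'
          · intro x hx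
            rw [Finset.mem_inter] at hx
            simp only [Finset.mem_union, Finset.mem_biUnion] at hx ⊢
            rcases hx with ⟨(h | h) | h, h'⟩
            · rcases h' with (h' | ⟨t'', h5, h6⟩) | h'
              · exact Or.inl h'
              · obtain ⟨d'', p''⟩ := hs t'' (Finset.mem_insert_of_mem h5)
                have h7 := anc_child40 hpar (mDt.1 h).2 (mDt.1 h6).2 d' d'' p' p''
                exact absurd (h7 ▸ h5) hts
              · exact Or.inr h'
            · exact Or.inl h
            · exact Or.inr h
          · intro s' v hv hall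
            by_contra hcon
            push Not at hcon
            obtain ⟨⟨i, hi⟩, ⟨j, hj⟩⟩ := hcon
            have hi' := hall i
            have hj' := hall j
            simp only [Finset.mem_union, Finset.mem_biUnion] at hi hj hi' hj'
            -- `v i` is in the second part, `v j` in the first
            obtain ⟨t'', ht'', hiD⟩ : ∃ t'' ∈ s, v i ∈ Dt t'' := by
              rcases hi' with h | (h | h) | h
              · exact absurd h hi
              · exact absurd (Or.inl (Or.inr h)) hi
              · exact h
              · exact absurd (Or.inr h) hi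
            have hjD : v j ∈ Dt t' := by
              rcases hj' with ((h | h) | h) | h
              · exact h
              · exact absurd (Or.inl (Or.inl h)) hj
              · exact absurd (Or.inr h) hj
              · exact absurd h hj
            obtain ⟨d'', p''⟩ := hs t'' (Finset.mem_insert_of_mem ht'')
            have hne' : v i ≠ v j := fun h => hi (Or.inl (Or.inl (h ▸ hjD)))
            rcases htup s' v hv i j (mDt.1 hiD).1 (mDt.1 hjD).1 hne' with h | ⟨h, h'⟩ | ⟨h, h'⟩
            · exact hi (Or.inl (Or.inl (mDt.2 ⟨(mDt.1 hiD).1, h ▸ (mDt.1 hjD).2⟩)))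
            · -- the parent of `π (v i)` is `π (v j)`
              rcases anc_cases40 (mDt.1 hiD).2 with h6 | ⟨_, h6⟩
              · exact hno _ hjD (h'.symm.trans (h6 ▸ p''))
              · rw [h'] at h6
                exact hj (Or.inl (Or.inr ⟨t'', ht'', mDt.2 ⟨(mDt.1 hjD).1, h6⟩⟩))
            · rcases anc_cases40 (mDt.1 hjD).2 with h6 | ⟨_, h6⟩
              · have h7 : π (v i) = t := h'.symm.trans (h6 ▸ p')
                exact hi (Or.inl (Or.inr (mXt.2 ⟨(mDt.1 hiD).1, h7⟩)))
              · rw [h'] at h6
                exact hi (Or.inl (Or.inl (mDt.2 ⟨(mDt.1 hiD).1, h6⟩)))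
      have h1 := hch (A.filter (fun t' => dep t' ≠ 0 ∧ par t' = t))
        (fun t' h => (Finset.mem_filter.1 h).2)
      have h2 : Xt t ∪ (A.filter (fun t' => dep t' ≠ 0 ∧ par t' = t)).biUnion Dt = Dt t := by
        ext x
        rw [Finset.mem_union, Finset.mem_biUnion]
        constructor
        · rintro (h | ⟨t', h, h'⟩)
          · exact hXD t h
          · obtain ⟨-, h3, h4⟩ := Finset.mem_filter.1 h
            rw [mDt] at h' ⊢
            exact ⟨h'.1, h4 ▸ anc_tail40 h'.2 h3⟩
        · intro h
          rw [mDt] at h
          rcases anc_last40 h.2 with h3 | ⟨t', h3, h4, h5⟩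
          · exact Or.inl (mXt.2 ⟨h.1, h3⟩)
          · exact Or.inr ⟨t', Finset.mem_filter.2 ⟨mA.2 ⟨x, h.1, h3⟩, h4, h5⟩,
              mDt.2 ⟨h.1, h3⟩⟩
      rw [h2] at h1
      exact h1
  -- the roots
  have hroots : ∀ s : Finset T, (∀ t ∈ s, dep t = 0) →
      Dec I (2 * c + D.card) (s.biUnion Dt ∪ D) D := by
    intro s
    induction s using Finset.induction_on with
    | empty =>
      intro _
      rw [Finset.biUnion_empty, Finset.empty_union]
      exact Dec.leaf D (by omega)
    | insert t s hts ihs =>
      intro hs
      have hd := hs t (Finset.mem_insert_self t s)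
      have ihs' := ihs fun t' h => hs t' (Finset.mem_insert_of_mem h)
      have h1 := key _ t le_rfl
      have h2 : Dec I (2 * c + D.card) ((Dt t ∪ D) ∪ D) D := by
        refine Dec.move _ _ _ (by omega) (Finset.inter_subset_right.trans
          Finset.subset_union_right) ?_ h1
        intro s' v _ hall
        left
        intro i
        rcases Finset.mem_union.1 (hall i) with h | h
        · exact h
        · exact Finset.mem_union_right _ h
      have h3 : (Dt t ∪ D) ∪ D = Dt t ∪ D := by
        rw [Finset.union_assoc, Finset.union_self]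
      rw [h3] at h2
      have h4 : (insert t s).biUnion Dt ∪ D = (Dt t ∪ D) ∪ (s.biUnion Dt ∪ D) := by
        rw [Finset.biUnion_insert]
        ext x
        simp only [Finset.mem_union]
        tauto
      rw [h4]
      have huniq : ∀ x t', t' ∈ s → x ∈ Dt t → x ∈ Dt t' → False := by
        intro x t' ht' hx hx'
        have h5 := anc_rootuniq40 (mDt.1 hx).2 (mDt.1 hx').2 hd
          (hs t' (Finset.mem_insert_of_mem ht'))
        exact hts (h5 ▸ ht')
      refine Dec.join _ _ _ ?_ ?_ h2 ihs'
      · intro x hx
        rw [Finset.mem_inter] at hx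
        simp only [Finset.mem_union, Finset.mem_biUnion] at hx
        rcases hx with ⟨h | h, h'⟩
        · rcases h' with ⟨t', h5, h6⟩ | h'
          · exact absurd h6 fun h6 => huniq x t' h5 h h6
          · exact h'
        · exact h
      · intro s' v hv hall
        by_contra hcon
        push Not at hcon
        obtain ⟨⟨i, hi⟩, ⟨j, hj⟩⟩ := hcon
        have hi' := hall i
        have hj' := hall j
        simp only [Finset.mem_union, Finset.mem_biUnion] at hi hj hi' hj'
        obtain ⟨t', ht', hiD⟩ : ∃ t' ∈ s, v i ∈ Dt t' := by
          rcases hi' with h | h | h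
          · exact absurd h hi
          · exact h
          · exact absurd (Or.inr h) hi
        have hjD : v j ∈ Dt t := by
          rcases hj' with (h | h) | h
          · exact h
          · exact absurd (Or.inr h) hj
          · exact absurd h hj
        have hd' := hs t' (Finset.mem_insert_of_mem ht')
        have hne' : v i ≠ v j := fun h => hi (Or.inl (h ▸ hjD))
        rcases htup s' v hv i j (mDt.1 hiD).1 (mDt.1 hjD).1 hne' with h | ⟨h, h'⟩ | ⟨h, h'⟩
        · exact hi (Or.inl (mDt.2 ⟨(mDt.1 hiD).1, h ▸ (mDt.1 hjD).2⟩))
        · rcases anc_cases40 (mDt.1 hiD).2 with h6 | ⟨_, h6⟩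
          · rw [h6] at h
            exact h hd'
          · rw [h'] at h6
            exact hj (Or.inl ⟨t', ht', mDt.2 ⟨(mDt.1 hjD).1, h6⟩⟩)
        · rcases anc_cases40 (mDt.1 hjD).2 with h6 | ⟨_, h6⟩
          · rw [h6] at h
            exact h hd
          · rw [h'] at h6
            exact hi (Or.inl (mDt.2 ⟨(mDt.1 hiD).1, h6⟩))
  have h1 := hroots (A.filter (fun t => dep t = 0)) (fun t h => (Finset.mem_filter.1 h).2)
  have h2 : (A.filter (fun t => dep t = 0)).biUnion Dt = X := by
    ext x
    rw [Finset.mem_biUnion]
    constructor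
    · rintro ⟨t, _, h⟩
      exact (mDt.1 h).1
    · intro h
      obtain ⟨t, h3, h4⟩ := anc_root40 hpar (π x)
      exact ⟨t, Finset.mem_filter.2 ⟨mA.2 ⟨x, h, h3⟩, h4⟩, mDt.2 ⟨h, h3⟩⟩
  rw [h2] at h1
  exact h1

end Pool.Agent.Helper38.SPT
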