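import Mathlib

/-!
# Block SPT-A3: a spanning forest

Proof.  For each connected component choose a root `r`; `dep v` := distance of `v` to the root of its component (`SimpleGraph.dist`);
for `dep v ≠ 0` there is a neighbour `par v` with `dep (par v) + 1 = dep v` (last step of a shortest path).  The edges `s(v, par v)` with
`dep v ≠ 0` are distinct (`s(v, par v) = s(v', par v')`, `v ≠ v'` would give `dep v < dep v' < dep v`); the vertices with `dep v = 0` are the
roots, one for each component.  So there are `|V| - c` forest edges and `m + c - |V|` other edges; `X` := the set of the ends of the other edges,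
`|X| ≤ 2 (m + c - |V|)`.
-/

set_option autoImplicit false

namespace Pool.Agent.Helper38.SPT

/-- the root of the component of `v` -/
private noncomputable def rt19 {V : Type} (G : SimpleGraph V) (v : V) : V := Quot.out (G.connectedComponentMk v)

private lemma rt19_reach {V : Type} (G : SimpleGraph V) (v : V) : G.Reachable (rt19 G v) v := by
  apply SimpleGraph.ConnectedComponent.exact
  exact Quot.out_eq (G.connectedComponentMk v)

private lemma rt19_adj {V : Type} (G : SimpleGraph V) {u v : V} (h : G.Adj v u) : rt19 G u = rt19 G v := by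
  have h1 : G.connectedComponentMk u = G.connectedComponentMk v :=
    SimpleGraph.ConnectedComponent.sound h.symm.reachable
  unfold rt19
  rw [h1]

private lemma par19_exists {V : Type} (G : SimpleGraph V) (v : V) (hv : G.dist (rt19 G v) v ≠ 0) :
    ∃ u, G.Adj v u ∧ G.dist (rt19 G u) u + 1 = G.dist (rt19 G v) v := by
  obtain ⟨p, hp⟩ := (rt19_reach G v).exists_walk_length_eq_dist
  have key : ∀ (a b : V) (q : G.Walk b a), q.length = G.dist a b → G.dist a b ≠ 0 →
      ∃ u, G.Adj b u ∧ G.dist a u + 1 = G.dist a b := by
    intro a b q hq h0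
    cases q with
    | nil => simp at h0
    | @cons _ u _ h q' =>
      refine ⟨u, h, ?_⟩
      rw [SimpleGraph.Walk.length_cons] at hq
      have h1 : G.dist a u ≤ q'.length := by
        have := SimpleGraph.dist_le q'.reverse
        rwa [SimpleGraph.Walk.length_reverse] at this
      obtain ⟨r, hr⟩ := (q'.reverse.reachable).exists_walk_length_eq_dist
      have h2 : G.dist a b ≤ G.dist a u + 1 := by
        have := SimpleGraph.dist_le (r.concat h.symm)
        rwa [SimpleGraph.Walk.length_concat, hr] at this
      omega
  obtain ⟨u, hu, hd⟩ := key (rt19 G v) v p.reverse (by rw [SimpleGraph.Walk.length_reverse]; exact hp) hv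
  refine ⟨u, hu, ?_⟩
  rw [rt19_adj G hu]
  exact hd

theorem exists_forest {V : Type} [Finite V] (G : SimpleGraph V) :
    ∃ (par : V → V) (dep : V → ℕ) (X : Finset V),
      (∀ v, dep v ≠ 0 → G.Adj v (par v) ∧ dep (par v) + 1 = dep v) ∧
      (∀ x y, G.Adj x y → (x ∈ X ∧ y ∈ X) ∨ (dep x ≠ 0 ∧ par x = y) ∨ (dep y ≠ 0 ∧ par y = x)) ∧
      X.card + 2 * Nat.card V ≤ 2 * G.edgeSet.ncard + 2 * Nat.card G.ConnectedComponent := by
  classical
  have : Fintype V := Fintype.ofFinite V
  set dep : V → ℕ := fun v => G.dist (rt19 G v) v with hdep
  have hex : ∀ v, ∃ u, dep v ≠ 0 → G.Adj v u ∧ dep u + 1 = dep v := by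
    intro v
    by_cases h : dep v = 0
    · exact ⟨v, fun h' => absurd h h'⟩
    · obtain ⟨u, h1, h2⟩ := par19_exists G v h
      exact ⟨u, fun _ => ⟨h1, h2⟩⟩
  choose par hpar using hex
  set E : Finset (Sym2 V) := G.edgeFinset with hE
  set F : Finset (Sym2 V) := (Finset.univ.filter (fun v => dep v ≠ 0)).image (fun v => s(v, par v)) with hF
  set X : Finset V := (E \ F).biUnion (fun e => e.toFinset) with hX
  refine ⟨par, dep, X, hpar, ?_, ?_⟩
  · intro x y hxy
    by_cases hm : s(x, y) ∈ F
    · right
      rw [hF, Finset.mem_image] at hm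
      obtain ⟨v, hv, he⟩ := hm
      have hv0 : dep v ≠ 0 := (Finset.mem_filter.1 hv).2
      rw [Sym2.eq_iff] at he
      rcases he with ⟨h1, h2⟩ | ⟨h1, h2⟩
      · left
        subst h1
        exact ⟨hv0, h2⟩
      · right
        subst h1
        exact ⟨hv0, h2⟩
    · left
      have hmem : s(x, y) ∈ E \ F := by
        rw [Finset.mem_sdiff]
        refine ⟨?_, hm⟩
        rw [hE, SimpleGraph.mem_edgeFinset, SimpleGraph.mem_edgeSet]
        exact hxy
      constructor
      · rw [hX, Finset.mem_biUnion]
        exact ⟨_, hmem, by simp⟩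
      · rw [hX, Finset.mem_biUnion]
        exact ⟨_, hmem, by simp⟩
  · have hFE : F ⊆ E := by
      intro e he
      rw [hF, Finset.mem_image] at he
      obtain ⟨v, hv, rfl⟩ := he
      rw [hE, SimpleGraph.mem_edgeFinset, SimpleGraph.mem_edgeSet]
      exact (hpar v (Finset.mem_filter.1 hv).2).1
    have hFcard : F.card = (Finset.univ.filter (fun v => dep v ≠ 0)).card := by
      rw [hF]
      apply Finset.card_image_of_injOn
      intro v hv w hw he
      have hv0 : dep v ≠ 0 := (Finset.mem_filter.1 (Finset.mem_coe.1 hv)).2
      have hw0 : dep w ≠ 0 := (Finset.mem_filter.1 (Finset.mem_coe.1 hw)).2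
      simp only [Sym2.eq_iff] at he
      rcases he with ⟨h1, _⟩ | ⟨h1, h2⟩
      · exact h1
      · exfalso
        have e1 := (hpar v hv0).2
        have e2 := (hpar w hw0).2
        rw [h2] at e1
        rw [← h1] at e2
        omega
    have hZ : (Finset.univ.filter (fun v => dep v = 0)).card ≤ Nat.card G.ConnectedComponent := by
      rw [Nat.card_eq_fintype_card, ← Finset.card_univ]
      apply Finset.card_le_card_of_injOn (fun v => G.connectedComponentMk v)
      · intro v _
        simp
      · intro v hv w hw he
        have hv0 : dep v = 0 := (Finset.mem_filter.1 (Finset.mem_coe.1 hv)).2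
        have hw0 : dep w = 0 := (Finset.mem_filter.1 (Finset.mem_coe.1 hw)).2
        have e1 : rt19 G v = v := ((rt19_reach G v).dist_eq_zero_iff).1 hv0
        have e2 : rt19 G w = w := ((rt19_reach G w).dist_eq_zero_iff).1 hw0
        have e3 : rt19 G v = rt19 G w := by
          have he' : G.connectedComponentMk v = G.connectedComponentMk w := he
          unfold rt19
          rw [he']
        rw [← e1, ← e2, e3]
    have hV : (Finset.univ.filter (fun v => dep v = 0)).card + (Finset.univ.filter (fun v => dep v ≠ 0)).card = Nat.card V := by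
      rw [Nat.card_eq_fintype_card, ← Finset.card_univ]
      exact Finset.card_filter_add_card_filter_not (s := Finset.univ) (fun v => dep v = 0)
    have hXc : X.card ≤ 2 * (E \ F).card := by
      rw [hX, Nat.mul_comm]
      apply Finset.card_biUnion_le_card_mul
      intro e _
      induction e with
      | h x y =>
        have : (s(x, y)).toFinset ⊆ {x, y} := by
          intro z hz
          rw [Sym2.mem_toFinset, Sym2.mem_iff] at hz
          simpa using hz
        exact (Finset.card_le_card this).trans Finset.card_le_two
    have hsd : (E \ F).card + F.card = E.card := Finset.card_sdiff_add_card_eq_card hFE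
    have hEc : G.edgeSet.ncard = E.card := by
      rw [hE, ← SimpleGraph.coe_edgeFinset, Set.ncard_coe_finset]
    rw [hEc]
    omega

end Pool.Agent.Helper38.SPT
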