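import Pool.Agent.Helper38.SPT.Defs
import Pool.Agent.Helper29.TD.BFSat
import Pool.Agent.Helper29.TD.BFBasic

/-!
# Block SPT-A6: small vertex cover

Proof.  `q` from `BF.sat φ`.  Let `C` be a vertex cover with at most `k` elements.  For `x ∉ C` the relations between `x` and the other
elements are relations with elements of `C` (arity at most two).  Type of `x ∉ C`: for every symbol `s` the truth value of `I s (x, .., x)`, and
for every `c ∈ C` and every `s` of arity two the truth values of `I s (x, c)` and `I s (c, x)`.  The number of types is at most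
`(4 ^ |S|) ^ (k + 1)`.  If `n ≥ a ^ (k + 1)` with `a` large (`a = 4 ^ |S| * (q + 3)` or so) then there is a type `τ` with at least `q + 1`
elements `U`.  New structure on `Option (Fin n)`: `none` is a new element of type `τ` (a tuple containing `none` is in a relation iff the
tuple with `none` replaced by a fixed `u ∈ U` is, provided all its other elements are in `C ∪ {none}`; tuples with `none` and an
element outside `C` are in no relation).  Duplicator: `P` is contained in the identity outside `U` and a bijection between subsets of `U` and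
`U ∪ {none}` with at most `q - (remaining rounds)` elements; every move in `U` or `U ∪ {none}` can be answered by a new element.
0-ary symbols keep their values.
-/

set_option autoImplicit false

namespace Pool.Agent.Helper38.SPT

open FirstOrder FirstOrder.Language Pool.Agent.Helper20.Spectra Pool.Agent.Helper29.TD
  Pool.Agent.Helper29.TW

variable {S : Type} {ar : S → ℕ} {M : Type}

/-- the type of an element over `C` -/
private def typ85 (I : Interp S ar M) (C : Finset M) (x : M) : S × Option C → Prop × Prop :=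
  fun z => match z.2 with
    | none => (I z.1 (fun _ => x), True)
    | some c => (I z.1 (fun i => if i.val = 0 then x else (c : M)),
        I z.1 (fun i => if i.val = 0 then (c : M) else x))

open Classical in
private lemma typ_subst85 (har : ∀ s, ar s ≤ 2) {I : Interp S ar M} {C : Finset M} {u u' : M}
    (h : typ85 I C u = typ85 I C u') (s : S) (w : Fin (ar s) → M) (hw : ∀ i, w i ∈ C ∨ w i = u)
    (_hu : u ∉ C) : I s w ↔ I s (fun i => if w i = u then u' else w i) := by
  by_cases hall : ∀ i, w i = u
  · have e1 : w = fun _ => u := funext hall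
    have e2 : (fun i => if w i = u then u' else w i) = fun _ => u' := by
      funext i
      rw [if_pos (hall i)]
    rw [e2, e1]
    have h1 := congrArg Prod.fst (congrFun h (s, none))
    exact iff_of_eq h1
  · push Not at hall
    obtain ⟨i₀, hi₀⟩ := hall
    have hc : w i₀ ∈ C := (hw i₀).resolve_right hi₀
    by_cases hex : ∃ i₁, w i₁ = u
    · obtain ⟨i₁, hi₁⟩ := hex
      have hne : i₀ ≠ i₁ := by
        rintro rfl
        exact hi₀ hi₁
      have hne' : i₀.val ≠ i₁.val := fun h' => hne (Fin.ext h')
      have hs := har s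
      have l0 := i₀.isLt
      have l1 := i₁.isLt
      by_cases h0 : i₁.val = 0
      · have e0 : ∀ i : Fin (ar s), (i.val = 0 → i = i₁) ∧ (i.val ≠ 0 → i = i₀) := by
          intro i
          have := i.isLt
          exact ⟨fun h' => Fin.ext (by omega), fun h' => Fin.ext (by omega)⟩
        have e1 : w = fun i => if i.val = 0 then u else w i₀ := by
          funext i
          split_ifs with h'
          · rw [(e0 i).1 h', hi₁]
          · rw [(e0 i).2 h']
        have e2 : (fun i => if w i = u then u' else w i) = fun i => if i.val = 0 then u' else w i₀ := by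
          funext i
          by_cases h' : i.val = 0
          · rw [(e0 i).1 h', if_pos hi₁, if_pos (by rw [h0])]
          · rw [(e0 i).2 h', if_neg hi₀, if_neg]
            intro h''
            exact hne' (by rw [h'', h0])
        rw [e2]
        have h1 := congrArg Prod.fst (congrFun h (s, some ⟨w i₀, hc⟩))
        have h2 : I s (fun i => if i.val = 0 then u else w i₀) ↔
            I s (fun i => if i.val = 0 then u' else w i₀) := iff_of_eq h1
        rw [← h2, ← e1]
      · have e0 : ∀ i : Fin (ar s), (i.val = 0 → i = i₀) ∧ (i.val ≠ 0 → i = i₁) := by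
          intro i
          have := i.isLt
          exact ⟨fun h' => Fin.ext (by omega), fun h' => Fin.ext (by omega)⟩
        have h0' : i₀.val = 0 := by omega
        have e1 : w = fun i => if i.val = 0 then w i₀ else u := by
          funext i
          split_ifs with h'
          · rw [(e0 i).1 h']
          · rw [(e0 i).2 h', hi₁]
        have e2 : (fun i => if w i = u then u' else w i) = fun i => if i.val = 0 then w i₀ else u' := by
          funext i
          by_cases h' : i.val = 0
          · rw [(e0 i).1 h', if_neg hi₀, if_pos h0']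
          · rw [(e0 i).2 h', if_pos hi₁, if_neg h0]
        rw [e2]
        have h1 := congrArg Prod.snd (congrFun h (s, some ⟨w i₀, hc⟩))
        have h2 : I s (fun i => if i.val = 0 then w i₀ else u) ↔
            I s (fun i => if i.val = 0 then w i₀ else u') := iff_of_eq h1
        rw [← h2, ← e1]
    · push Not at hex
      have e2 : (fun i => if w i = u then u' else w i) = w := by
        funext i
        rw [if_neg (hex i)]
      rw [e2]

/-- the structure with one more element -/
private def ext85 (I : Interp S ar M) (C : Finset M) (u : M) : Interp S ar (Option M) := fun s v =>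
  I s (fun i => (v i).getD u) ∧ ((∃ i, v i = none) → ∀ i, v i = none ∨ ∃ c ∈ C, v i = some c)

/-- the positions -/
private def Inv85 (U : Finset M) (P : Set (M × Option M)) : Prop :=
  (∀ p ∈ P, (p.1 ∉ U ∧ p.2 = some p.1) ∨ (p.1 ∈ U ∧ (p.2 = none ∨ ∃ u ∈ U, p.2 = some u))) ∧
  ∀ p ∈ P, ∀ p' ∈ P, p.1 = p'.1 ↔ p.2 = p'.2

private lemma Inv_insert85 {U : Finset M} {P : Set (M × Option M)} (h : Inv85 U P) {x : M} {y : Option M}
    (h1 : (x ∉ U ∧ y = some x) ∨ (x ∈ U ∧ (y = none ∨ ∃ u ∈ U, y = some u)))
    (h2 : ∀ p' ∈ P, x = p'.1 ↔ y = p'.2) : Inv85 U (insert (x, y) P) := by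
  obtain ⟨ha, hb⟩ := h
  refine ⟨?_, ?_⟩
  · rintro p (rfl | hp)
    · exact h1
    · exact ha p hp
  · rintro p (rfl | hp) p' (rfl | hp')
    · exact ⟨fun _ => rfl, fun _ => rfl⟩
    · exact h2 p' hp'
    · have := h2 p hp
      exact ⟨fun h => (this.1 h.symm).symm, fun h => (this.2 h.symm).symm⟩
    · exact hb p hp p' hp'

open Classical in
private lemma piso85 (har : ∀ s, ar s ≤ 2) {I : Interp S ar M} {C U : Finset M}
    (hC : ∀ (s : S) (w : Fin (ar s) → M), I s w → ∀ i j, w i ≠ w j → w i ∈ C ∨ w j ∈ C)
    (hU : ∀ u ∈ U, u ∉ C) (hty : ∀ u ∈ U, ∀ u' ∈ U, typ85 I C u = typ85 I C u') {u₀ : M}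
    (hu₀ : u₀ ∈ U) {P : Set (M × Option M)} (hP : Inv85 U P) : PIso I (ext85 I C u₀) P := by
  obtain ⟨ha, hb⟩ := hP
  have hK : ∀ p ∈ P, p.1 ∉ C → ∀ c ∈ C, p.2 ≠ some c := by
    intro p hp hpc c hc heq
    rcases ha p hp with ⟨-, h⟩ | ⟨-, h | ⟨u, hu, h⟩⟩
    · rw [h] at heq
      exact hpc ((Option.some_injective _ heq) ▸ hc)
    · rw [h] at heq
      exact absurd heq (by simp)
    · rw [h] at heq
      exact hU u hu ((Option.some_injective _ heq) ▸ hc)
  refine ⟨hb, fun s v hv => ?_⟩
  by_cases H : ∃ i j, (v i).1 ≠ (v j).1 ∧ (v i).1 ∉ C ∧ (v j).1 ∉ C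
  · obtain ⟨i, j, hij, hi, hj⟩ := H
    have hij2 : (v i).2 ≠ (v j).2 := fun h => hij ((hb _ (hv i) _ (hv j)).2 h)
    constructor
    · intro h
      rcases hC s _ h i j hij with h' | h'
      · exact absurd h' hi
      · exact absurd h' hj
    · rintro ⟨h1, h2⟩
      exfalso
      by_cases hn : ∃ l, (v l).2 = none
      · rcases h2 hn i with e1 | ⟨c, hc, e1⟩
        · rcases h2 hn j with e2 | ⟨c, hc, e2⟩
          · exact hij2 (e1.trans e2.symm)
          · exact hK _ (hv j) hj c hc e2
        · exact hK _ (hv i) hi c hc e1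
      · push Not at hn
        obtain ⟨x, hx⟩ := Option.ne_none_iff_exists'.1 (hn i)
        obtain ⟨y, hy⟩ := Option.ne_none_iff_exists'.1 (hn j)
        have hxy : x ≠ y := fun h => hij2 (by rw [hx, hy, h])
        have h3 : (v i).2.getD u₀ ∈ C ∨ (v j).2.getD u₀ ∈ C := hC s _ h1 i j (by
          change (v i).2.getD u₀ ≠ (v j).2.getD u₀
          rw [hx, hy]
          exact hxy)
        rw [hx, hy] at h3
        rcases h3 with h3 | h3
        · exact hK _ (hv i) hi x h3 hx
        · exact hK _ (hv j) hj y h3 hy
  · push Not at H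
    by_cases hU1 : ∃ i₁, (v i₁).1 ∈ U
    · obtain ⟨i₁, hi₁⟩ := hU1
      have hu1 : (v i₁).1 ∉ C := hU _ hi₁
      have hall : ∀ i, (v i).1 ∈ C ∨ (v i).1 = (v i₁).1 := by
        intro i
        by_cases h : (v i).1 = (v i₁).1
        · exact Or.inr h
        · exact Or.inl (by
            by_contra hcon
            exact hcon (H i₁ i (fun h' => h h'.symm) hu1))
      have hu2 : (v i₁).2.getD u₀ ∈ U := by
        rcases ha _ (hv i₁) with ⟨h, -⟩ | ⟨-, h | ⟨u, hu, h⟩⟩
        · exact absurd hi₁ h
        · rw [h]
          exact hu₀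
        · rw [h]
          exact hu
      have hsome : ∀ i, (v i).1 ≠ (v i₁).1 → (v i).2 = some (v i).1 := by
        intro i h
        rcases ha _ (hv i) with ⟨-, h'⟩ | ⟨h', -⟩
        · exact h'
        · exact absurd ((hall i).resolve_right h) (hU _ h')
      have hsame : ∀ i, (v i).1 = (v i₁).1 → (v i).2 = (v i₁).2 := fun i h =>
        (hb _ (hv i) _ (hv i₁)).1 h
      have hget : (fun i => (v i).2.getD u₀) =
          fun i => if (v i).1 = (v i₁).1 then (v i₁).2.getD u₀ else (v i).1 := by
        funext i
        split_ifs with h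
        · rw [hsame i h]
        · rw [hsome i h]
          rfl
      have hcond : (∃ i, (v i).2 = none) → ∀ i, (v i).2 = none ∨ ∃ c ∈ C, (v i).2 = some c := by
        rintro ⟨l, hl⟩ i
        have hl1 : (v l).1 = (v i₁).1 := by
          by_contra h
          rw [hsome l h] at hl
          exact absurd hl (by simp)
        have hn : (v i₁).2 = none := by rw [← hsame l hl1, hl]
        by_cases h : (v i).1 = (v i₁).1
        · left
          rw [hsame i h, hn]
        · right
          exact ⟨(v i).1, (hall i).resolve_right h, hsome i h⟩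
      have h1 := typ_subst85 har (hty _ hi₁ _ hu2) s (fun i => (v i).1) hall hu1
      rw [h1]
      constructor
      · intro h
        refine ⟨?_, hcond⟩
        rw [hget]
        exact h
      · rintro ⟨h, -⟩
        rw [hget] at h
        exact h
    · push Not at hU1
      have hsome : ∀ i, (v i).2 = some (v i).1 := by
        intro i
        rcases ha _ (hv i) with ⟨-, h'⟩ | ⟨h', -⟩
        · exact h'
        · exact absurd h' (hU1 i)
      have hget : (fun i => (v i).2.getD u₀) = fun i => (v i).1 := by
        funext i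
        rw [hsome i]
        rfl
      constructor
      · intro h
        refine ⟨?_, ?_⟩
        · rw [hget]
          exact h
        · rintro ⟨l, hl⟩
          have hl' : (v l).2 = none := hl
          rw [hsome l] at hl'
          exact absurd hl' (by simp)
      · rintro ⟨h, -⟩
        rw [hget] at h
        exact h

open Classical in
private lemma bf85 (har : ∀ s, ar s ≤ 2) {I : Interp S ar M} {C U : Finset M}
    (hC : ∀ (s : S) (w : Fin (ar s) → M), I s w → ∀ i j, w i ≠ w j → w i ∈ C ∨ w j ∈ C)
    (hU : ∀ u ∈ U, u ∉ C) (hty : ∀ u ∈ U, ∀ u' ∈ U, typ85 I C u = typ85 I C u') {u₀ : M}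
    (hu₀ : u₀ ∈ U) {q : ℕ} (hq : q < U.card) (r : ℕ) {P : Set (M × Option M)} (hP : Inv85 U P)
    (F : Finset (M × Option M)) (hF : ∀ p ∈ P, p.1 ∈ U → p ∈ F) (hc : F.card + r ≤ q) :
    BF I (ext85 I C u₀) Set.univ Set.univ r P := by
  induction r generalizing P F with
  | zero => exact piso85 har hC hU hty hu₀ hP
  | succ r ih =>
    have hsingle : ∀ x : M, x ∉ U → BF I (ext85 I C u₀) Set.univ Set.univ r (insert (x, some x) P) := by
      intro x hx
      refine ih (Inv_insert85 hP (Or.inl ⟨hx, rfl⟩) ?_) F ?_ (by omega)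
      · intro p' hp'
        constructor
        · intro h
          rcases hP.1 p' hp' with ⟨-, h'⟩ | ⟨h', -⟩
          · rw [h', h]
          · exact absurd (h ▸ h') hx
        · intro h
          rcases hP.1 p' hp' with ⟨-, h'⟩ | ⟨-, h' | ⟨u, hu, h'⟩⟩
          · rw [h'] at h
            exact Option.some_injective _ h
          · rw [h'] at h
            exact absurd h (by simp)
          · rw [h'] at h
            exact absurd ((Option.some_injective _ h) ▸ hu) hx
      · rintro p (rfl | hp) hpU
        · exact absurd hpU hx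
        · exact hF p hp hpU
    have hold : ∀ p ∈ P, BF I (ext85 I C u₀) Set.univ Set.univ r (insert (p.1, p.2) P) := by
      intro p hp
      have e : insert (p.1, p.2) P = P := Set.insert_eq_of_mem hp
      rw [e]
      exact ih hP F hF (by omega)
    have hnew : ∀ (x : M) (y : Option M), x ∈ U → (y = none ∨ ∃ u ∈ U, y = some u) →
        (∀ p ∈ P, x ≠ p.1) → (∀ p ∈ P, y ≠ p.2) →
        BF I (ext85 I C u₀) Set.univ Set.univ r (insert (x, y) P) := by
      intro x y hx hy h1 h2
      refine ih (Inv_insert85 hP (Or.inr ⟨hx, hy⟩) ?_) (insert (x, y) F) ?_ ?_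
      · intro p' hp'
        exact ⟨fun h => absurd h (h1 p' hp'), fun h => absurd h (h2 p' hp')⟩
      · rintro p (rfl | hp) hpU
        · exact Finset.mem_insert_self _ _
        · exact Finset.mem_insert_of_mem (hF p hp hpU)
      · have := Finset.card_insert_le (x, y) F
        omega
    refine ⟨piso85 har hC hU hty hu₀ hP, ?_, ?_⟩
    · intro x _
      by_cases hx : x ∈ U
      · by_cases hex : ∃ p ∈ P, p.1 = x
        · obtain ⟨p, hp, rfl⟩ := hex
          exact ⟨p.2, Set.mem_univ _, hold p hp⟩
        · push Not at hex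
          have hcard : (F.image Prod.snd).card < (insert none (U.image some)).card := by
            have e1 : (F.image Prod.snd).card ≤ F.card := Finset.card_image_le
            have e2 : (insert none (U.image some)).card = U.card + 1 := by
              rw [Finset.card_insert_of_notMem (by simp), Finset.card_image_of_injective _
                (Option.some_injective _)]
            omega
          obtain ⟨y, hy, hyF⟩ := Finset.exists_mem_notMem_of_card_lt_card hcard
          have hy' : y = none ∨ ∃ u ∈ U, y = some u := by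
            rcases Finset.mem_insert.1 hy with h | h
            · exact Or.inl h
            · obtain ⟨u, hu, h⟩ := Finset.mem_image.1 h
              exact Or.inr ⟨u, hu, h.symm⟩
          refine ⟨y, Set.mem_univ _, hnew x y hx hy' (fun p hp h => hex p hp h.symm) ?_⟩
          intro p hp h
          by_cases hpU : p.1 ∈ U
          · exact hyF (Finset.mem_image.2 ⟨p, hF p hp hpU, h.symm⟩)
          · rcases hP.1 p hp with ⟨-, h'⟩ | ⟨h', -⟩
            · rw [h'] at h
              rcases hy' with h'' | ⟨u, hu, h''⟩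
              · rw [h''] at h
                exact absurd h (by simp)
              · rw [h''] at h
                exact hpU ((Option.some_injective _ h) ▸ hu)
            · exact hpU h'
      · exact ⟨some x, Set.mem_univ _, hsingle x hx⟩
    · intro y _
      by_cases hy : y = none ∨ ∃ u ∈ U, y = some u
      · by_cases hex : ∃ p ∈ P, p.2 = y
        · obtain ⟨p, hp, rfl⟩ := hex
          exact ⟨p.1, Set.mem_univ _, hold p hp⟩
        · push Not at hex
          have hcard : (F.image Prod.fst).card < U.card := by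
            have e1 : (F.image Prod.fst).card ≤ F.card := Finset.card_image_le
            omega
          obtain ⟨x, hx, hxF⟩ := Finset.exists_mem_notMem_of_card_lt_card hcard
          refine ⟨x, Set.mem_univ _, hnew x y hx hy ?_ (fun p hp h => hex p hp h.symm)⟩
          intro p hp h
          exact hxF (Finset.mem_image.2 ⟨p, hF p hp (h ▸ hx), h.symm⟩)
      · push Not at hy
        obtain ⟨x, rfl⟩ := Option.ne_none_iff_exists'.1 hy.1
        refine ⟨x, Set.mem_univ _, hsingle x ?_⟩
        intro hx
        exact hy.2 x hx rfl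

open Classical in
theorem cover_succ [Finite S] (har : ∀ s, ar s ≤ 2) (φ : (RelLang S ar).Sentence) :
    ∃ a : ℕ, 1 ≤ a ∧ ∀ (n k : ℕ) (I : Interp S ar (Fin n)), MeasLe .cover I k → a ^ (k + 1) ≤ n →
      Sat I φ → ∃ I' : Interp S ar (Fin (n + 1)), Sat I' φ := by
  obtain ⟨q, hq⟩ := BF.sat φ
  have := Fintype.ofFinite S
  obtain ⟨b, hb⟩ : ∃ b, b = 4 ^ Fintype.card S := ⟨_, rfl⟩
  have hb1 : 1 ≤ b := by
    rw [hb]
    exact Nat.one_le_pow _ _ (by norm_num)
  refine ⟨b * (q + 3), Nat.mul_pos hb1 (by omega), ?_⟩
  intro n k I hcov hn hsat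
  obtain ⟨C', hC'k, hC'⟩ := hcov
  obtain ⟨C, hCdef⟩ : ∃ C : Finset (Fin n), C = C'.toFinset := ⟨_, rfl⟩
  have hmem : ∀ x, x ∈ C ↔ x ∈ C' := by
    intro x
    rw [hCdef, Set.mem_toFinset]
  have hCk : C.card ≤ k := by
    rw [hCdef, ← Set.ncard_eq_toFinset_card']
    exact hC'k
  have hC : ∀ (s : S) (w : Fin (ar s) → Fin n), I s w → ∀ i j, w i ≠ w j → w i ∈ C ∨ w j ∈ C := by
    intro s w hw i j hij
    rcases hC' (w i) (w j) ⟨hij, s, w, hw, ⟨i, rfl⟩, ⟨j, rfl⟩⟩ with h | h
    · exact Or.inl ((hmem _).2 h)
    · exact Or.inr ((hmem _).2 h)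
  have hcardT : Fintype.card (S × Option C → Prop × Prop) ≤ b ^ (k + 1) := by
    rw [Fintype.card_fun, Fintype.card_prod, Fintype.card_prod, Fintype.card_option, Fintype.card_coe]
    have e1 : Fintype.card Prop * Fintype.card Prop = 4 := by
      have e0 : Fintype.card Prop = 2 := by
        rw [Fintype.card_congr Equiv.propEquivBool]
        exact Fintype.card_bool
      rw [e0]
    rw [e1, hb, ← pow_mul]
    exact Nat.pow_le_pow_right (by norm_num) (Nat.mul_le_mul_left _ (by omega))
  have hpg : Fintype.card (S × Option C → Prop × Prop) * q < (Finset.univ \ C).card := by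
    rw [Finset.card_sdiff_of_subset (Finset.subset_univ C), Finset.card_univ, Fintype.card_fin]
    have e1 : b ^ (k + 1) * q ≤ b ^ (k + 1) * q := le_refl _
    have e2 : Fintype.card (S × Option C → Prop × Prop) * q ≤ b ^ (k + 1) * q :=
      Nat.mul_le_mul_right _ hcardT
    have e3 : k + 1 ≤ 2 ^ (k + 1) := (Nat.lt_two_pow_self (n := k + 1)).le
    have e4 : q + 2 ^ (k + 1) ≤ (q + 3) ^ (k + 1) := by
      have f1 : q + 2 ^ (k + 1) ≤ q + 3 * 3 ^ k := by
        have : 2 ^ (k + 1) ≤ 3 ^ (k + 1) := Nat.pow_le_pow_left (by norm_num) _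
        rw [pow_succ] at this ⊢
        rw [pow_succ] at this
        omega
      have f2 : 3 ^ k ≤ (q + 3) ^ k := Nat.pow_le_pow_left (by omega) _
      have f3 : 1 ≤ 3 ^ k := Nat.one_le_pow _ _ (by norm_num)
      have f4 : (q + 3) ^ (k + 1) = (q + 3) ^ k * (q + 3) := pow_succ _ _
      rw [f4]
      nlinarith
    have e5 : 1 ≤ b ^ (k + 1) := Nat.one_le_pow _ _ hb1
    have e6 : (b * (q + 3)) ^ (k + 1) = b ^ (k + 1) * (q + 3) ^ (k + 1) := mul_pow _ _ _
    have e7 : b ^ (k + 1) * (q + 2 ^ (k + 1)) ≤ n := by
      refine le_trans (Nat.mul_le_mul_left _ e4) ?_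
      rw [← e6]
      exact hn
    have e8 : 2 ^ (k + 1) ≤ b ^ (k + 1) * 2 ^ (k + 1) := Nat.le_mul_of_pos_left _ e5
    have e9 : b ^ (k + 1) * (q + 2 ^ (k + 1)) = b ^ (k + 1) * q + b ^ (k + 1) * 2 ^ (k + 1) := mul_add _ _ _
    omega
  obtain ⟨τ, -, hτ⟩ := Finset.exists_lt_card_fiber_of_mul_lt_card_of_maps_to
    (s := Finset.univ \ C) (t := (Finset.univ : Finset (S × Option C → Prop × Prop)))
    (f := typ85 I C) (n := q) (fun _ _ => Finset.mem_univ _) (by rw [Finset.card_univ]; exact hpg)
  obtain ⟨U, hUdef⟩ : ∃ U, U = (Finset.univ \ C).filter (fun x => typ85 I C x = τ) := ⟨_, rfl⟩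
  rw [← hUdef] at hτ
  have hU : ∀ u ∈ U, u ∉ C := by
    intro u hu
    rw [hUdef, Finset.mem_filter, Finset.mem_sdiff] at hu
    exact hu.1.2
  have hty : ∀ u ∈ U, ∀ u' ∈ U, typ85 I C u = typ85 I C u' := by
    intro u hu u' hu'
    rw [hUdef, Finset.mem_filter] at hu hu'
    rw [hu.2, hu'.2]
  obtain ⟨u₀, hu₀⟩ : U.Nonempty := Finset.card_pos.1 (by omega)
  have hbf := bf85 har hC hU hty hu₀ hτ q (P := ∅) ⟨fun p hp => absurd hp (Set.notMem_empty p),
    fun p hp => absurd hp (Set.notMem_empty p)⟩ ∅ (fun p hp => absurd hp (Set.notMem_empty p)) (by simp)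
  have h1 := hq _ _ I (ext85 I C u₀) Set.univ Set.univ hbf
  rw [Sat.univ, Sat.univ] at h1
  have h2 := h1.1 hsat
  rw [Sat.iso (ext85 I C u₀) (finSuccEquiv n).symm φ] at h2
  exact ⟨_, h2⟩

end Pool.Agent.Helper38.SPT
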