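import Pool.Agent.Helper38.SPT.A2
import Pool.Agent.Helper38.SPT.A3
import Pool.Agent.Helper38.SPT.A4

/-!
# Block SPT-A7: protrusions in structures with few edges

`prot_components`: there are `c ≥ n / a` components; fewer than `n / (2 a) ≤ c / 2` of them have more than `2 a` elements; so the union `X` of the
others has at least `c / 2 ≥ n / (2 a) ≥ B` elements.  `dec_tree` with `T` the set of components, `dep = 0`, `D = ∅`, parts with at most `2 a`
elements: `Dec I (4 a) X ∅`.
`prot_forest`: `exists_forest` for the Gaifman graph; `|X| ≤ 2 (m + c - n) ≤ 2 n / a`; `exists_group`; `dec_tree` with `π = id`.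
-/

set_option autoImplicit false

namespace Pool.Agent.Helper38.SPT

open Pool.Agent.Helper20.Spectra Pool.Agent.Helper29.TD Pool.Agent.Helper29.TW

variable {S : Type} {ar : S → ℕ}

private lemma prot_of38 {n : ℕ} (I : Interp S ar (Fin n)) {K K' B : ℕ} (Y D : Finset (Fin n))
    (hYD : Disjoint Y D) (hB : B ≤ Y.card) (hK : K ≤ K') (hdec : Dec I K (Y ∪ D) D)
    (hadj : ∀ x ∈ Y, ∀ y, Adj I x y → y ∈ Y ∨ y ∈ D) : Prot I K' B := by
  refine ⟨Y ∪ D, D, dec_mono hK hdec, fun s v hv => ?_, ?_⟩
  · by_cases h : ∃ i, v i ∈ Y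
    · obtain ⟨i, hi⟩ := h
      refine Or.inl fun j => ?_
      rw [Finset.mem_union]
      by_cases hij : v i = v j
      · rw [← hij]
        exact Or.inl hi
      · exact hadj _ hi _ ⟨hij, s, v, hv, ⟨i, rfl⟩, ⟨j, rfl⟩⟩
    · push Not at h
      refine Or.inr fun j => ?_
      by_cases hj : v j ∈ D
      · exact Or.inl hj
      · refine Or.inr ?_
        rw [Finset.mem_union]
        rintro (h1 | h1)
        · exact h j h1
        · exact hj h1
  · have e : (Y ∪ D) \ D = Y := by
      rw [Finset.union_sdiff_right]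
      exact Finset.sdiff_eq_self_of_disjoint hYD
    rw [e]
    exact hB

theorem prot_components {a : ℕ} (ha : 1 ≤ a) (B : ℕ) {n : ℕ} (I : Interp S ar (Fin n)) (hn : 2 * a * B ≤ n)
    (hc : n ≤ a * Nat.card (gaif I).ConnectedComponent) : Prot I (4 * a) B := by
  classical
  let H := gaif I
  let _ : Fintype H.ConnectedComponent := Fintype.ofFinite _
  let π : Fin n → H.ConnectedComponent := fun x => H.connectedComponentMk x
  let sz : H.ConnectedComponent → ℕ := fun t => (Finset.univ.filter fun x => π x = t).card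
  let Y : Finset (Fin n) := Finset.univ.filter fun x => sz (π x) ≤ 2 * a
  let C₁ : Finset H.ConnectedComponent := Finset.univ.filter fun t => 2 * a < sz t
  let C₂ : Finset H.ConnectedComponent := Finset.univ.filter fun t => ¬ 2 * a < sz t
  have hsum : ∑ t, sz t = n := by
    have h1 := Finset.card_eq_sum_card_fiberwise (f := π) (s := Finset.univ) (t := Finset.univ)
      (fun _ _ => Finset.mem_coe.2 (Finset.mem_univ _))
    rw [Finset.card_univ, Fintype.card_fin] at h1
    exact h1.symm
  have h1 : C₁.card * (2 * a + 1) ≤ n := by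
    have h0 : C₁.card * (2 * a + 1) ≤ ∑ t, sz t := by
      rw [← smul_eq_mul]
      refine (Finset.card_nsmul_le_sum C₁ sz (2 * a + 1) fun t ht => ?_).trans
        (Finset.sum_le_sum_of_subset (Finset.subset_univ _))
      have h2 := (Finset.mem_filter.1 ht).2
      omega
    exact h0.trans hsum.le
  have h2 : C₁.card + C₂.card = Nat.card H.ConnectedComponent := by
    rw [Nat.card_eq_fintype_card, ← Finset.card_univ]
    exact Finset.card_filter_add_card_filter_not (fun t => 2 * a < sz t)
  have h3 : C₂.card ≤ Y.card := by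
    have h4 : C₂ ⊆ Y.image π := by
      intro t ht
      obtain ⟨x, rfl⟩ := t.exists_rep
      refine Finset.mem_image.2 ⟨x, ?_, rfl⟩
      have h5 := (Finset.mem_filter.1 ht).2
      exact Finset.mem_filter.2 ⟨Finset.mem_univ _, not_lt.1 h5⟩
    exact (Finset.card_le_card h4).trans Finset.card_image_le
  have hc' : n ≤ a * (C₁.card + C₂.card) := by
    rw [h2]
    exact hc
  have h6 : C₁.card ≤ C₂.card := by
    by_contra hlt
    push Not at hlt
    have h7 : a * (C₁.card + C₂.card) < C₁.card * (2 * a + 1) := by nlinarith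
    omega
  have h7 : B ≤ C₂.card := by
    by_contra hlt
    push Not at hlt
    have h8 : a * (C₁.card + C₂.card) < 2 * a * B := by nlinarith
    omega
  have hpi : ∀ x y : Fin n, Adj I x y → π x = π y := fun x y h =>
    SimpleGraph.ConnectedComponent.eq.2 (SimpleGraph.Adj.reachable (G := H) h)
  have hdec : Dec I (2 * (2 * a) + (∅ : Finset (Fin n)).card) (Y ∪ ∅) ∅ := by
    refine dec_tree π id (fun _ => 0) Y ∅ (2 * a) (fun t ht => absurd rfl ht) (fun t => ?_)
      (fun x _ y _ h => Or.inl (hpi x y h))
    by_cases ht : sz t ≤ 2 * a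
    · refine le_trans (Finset.card_le_card ?_) ht
      intro x hx
      rw [Finset.mem_filter] at hx ⊢
      exact ⟨Finset.mem_univ _, hx.2⟩
    · have h9 : (Y.filter fun x => π x = t) = ∅ := by
        rw [Finset.filter_eq_empty_iff]
        intro x hx hxt
        have h10 := (Finset.mem_filter.1 hx).2
        rw [hxt] at h10
        exact ht h10
      rw [h9, Finset.card_empty]
      exact Nat.zero_le _
  refine prot_of38 I Y ∅ (Finset.disjoint_empty_right _) (h7.trans h3) ?_ hdec
    (fun x hx y h => Or.inl ?_)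
  · rw [Finset.card_empty]
    omega
  · rw [Finset.mem_filter] at hx ⊢
    rw [← hpi x y h]
    exact ⟨Finset.mem_univ _, hx.2⟩

theorem prot_forest (B : ℕ) {n : ℕ} (I : Interp S ar (Fin n)) (hn : 4 * B ≤ n)
    (hc : (16 * (B + 1)) * ((gaif I).edgeSet.ncard + Nat.card (gaif I).ConnectedComponent - n) ≤ n) :
    Prot I 4 B := by
  classical
  obtain ⟨par, dep, X, hpar, hadj, hcard⟩ := exists_forest (gaif I)
  rw [Nat.card_fin] at hcard
  obtain ⟨e, he⟩ : ∃ e, e = (gaif I).edgeSet.ncard + Nat.card (gaif I).ConnectedComponent - n :=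
    ⟨_, rfl⟩
  rw [← he] at hc
  have hX : X.card ≤ 2 * e := by omega
  have hB : (4 * X.card + 1) * B + 2 * X.card ≤ Fintype.card (Fin n) := by
    rw [Fintype.card_fin]
    have h1 : X.card * B ≤ 2 * e * B := Nat.mul_le_mul_right B hX
    have h2 : 16 * (B + 1) * e = 16 * (e * B) + 16 * e := by ring
    have h3 : (4 * X.card + 1) * B = 4 * (X.card * B) + B := by ring
    have h4 : 2 * e * B = 2 * (e * B) := by ring
    rw [h2] at hc
    rw [h3]
    rw [h4] at h1
    omega
  obtain ⟨Y, D, hYX, hYD, hD, hBY, h1, h2⟩ := exists_group par dep (fun v hv => (hpar v hv).2) X B hB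
  have hdec : Dec I (2 * 1 + D.card) (Y ∪ D) D := by
    refine dec_tree id par dep Y D 1 (fun t ht => ?_) (fun t => ?_) (fun x hx y hy h => ?_)
    · have := (hpar t ht).2
      omega
    · refine Finset.card_le_one.2 fun x hx y hy => ?_
      simp only [Finset.mem_filter] at hx hy
      exact hx.2.trans hy.2.symm
    · rcases hadj x y h with h3 | h3 | h3
      · exact absurd h3.1 (Finset.disjoint_left.1 hYX hx)
      · exact Or.inr (Or.inl h3)
      · exact Or.inr (Or.inr h3)
  refine prot_of38 I Y D hYD hBY (by omega) hdec (fun x hx y h => ?_)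
  rcases hadj x y h with h3 | h3 | h3
  · exact absurd h3.1 (Finset.disjoint_left.1 hYX hx)
  · rw [← h3.2]
    exact h1 x hx h3.1
  · exact h2 y h3.1 (by rw [h3.2]; exact hx)

end Pool.Agent.Helper38.SPT
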