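import Pool.Agent.Helper38.SPT.CDefs
import Pool.Agent.Helper20.OP.SqDef
import Pool.Agent.Helper20.OP.SqTiles

/-!
# Block SPT-C1: cover codes are definable; tiled squares

`TileAx.tiles`: apply `SqCode.tiles` to the structure on the subtype `{x // I x}` with `m₁ = 1`, `m₂ = 0`, `e = 0`, `O₁ v x := v = x`, `O₂ := False`,
`Ex := False` (or copy the proof of `SqCode.tiles`).
`def_coverCode`: write the structures as conjunctions of their fields and use the closure lemmas of `Def`, as in the proof of `def_sqCode`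
(OP/SqDef).
-/

set_option autoImplicit false

namespace Pool.Agent.Helper38.SPT

open Pool.Agent.Helper20.OP Pool.Agent.Helper29.Prefix

theorem TileAx.tiles {V Γ : Type} [Finite V] {W : Wang Γ} {I : V → Prop} {lt : V → V → Prop}
    {t : V → V → Γ → Prop} (h : TileAx W I lt t) : Tiles W (Nat.card {x // I x}) := by
  classical
  let _ : LinearOrder {x // I x} :=
    { le := fun x y => lt x.1 y.1 ∨ x = y
      lt := fun x y => lt x.1 y.1
      le_refl := fun x => Or.inr rfl
      le_trans := by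
        rintro x y z (hxy | rfl) (hyz | rfl)
        · exact Or.inl (h.trans _ _ _ x.2 y.2 z.2 hxy hyz)
        · exact Or.inl hxy
        · exact Or.inl hyz
        · exact Or.inr rfl
      lt_iff_le_not_ge := by
        intro x y
        constructor
        · intro hxy
          refine ⟨Or.inl hxy, ?_⟩
          rintro (hyx | rfl)
          · exact h.irr _ x.2 (h.trans _ _ _ x.2 y.2 x.2 hxy hyx)
          · exact h.irr _ y.2 hxy
        · rintro ⟨hxy | rfl, h'⟩
          · exact hxy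
          · exact absurd (Or.inr rfl) h'
      le_antisymm := by
        rintro x y (hxy | rfl) (hyx | h')
        · exact absurd (h.trans _ _ _ x.2 y.2 x.2 hxy hyx) (h.irr _ x.2)
        · exact h'.symm
        · rfl
        · rfl
      le_total := by
        intro x y
        rcases h.lin x.1 y.1 x.2 y.2 with h' | h' | h'
        · exact Or.inl (Or.inl h')
        · exact Or.inl (Or.inr (Subtype.ext h'))
        · exact Or.inr (Or.inl h')
      toDecidableLE := Classical.decRel _ }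
  have hlt : ∀ x y : {x // I x}, x < y ↔ lt x.1 y.1 := fun x y => Iff.rfl
  have _ : Fintype {x // I x} := Fintype.ofFinite _
  have h1 : 1 < Nat.card {x // I x} := by
    rw [Finite.one_lt_card_iff_nontrivial]
    obtain ⟨x, y, hx, hy, hxy⟩ := h.big
    exact ⟨⟨x, hx⟩, ⟨y, hy⟩, fun h' => hxy (congrArg Subtype.val h')⟩
  obtain ⟨N, hN⟩ : ∃ N, N = Nat.card {x // I x} := ⟨_, rfl⟩
  rw [← hN] at h1 ⊢
  let ι : Fin N ≃o {x // I x} := Fintype.orderIsoFinOfCardEq {x // I x}
    (by rw [hN, Nat.card_eq_fintype_card])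
  choose tile htile using h.tot
  let z : ℕ → {x // I x} := fun i => ι ⟨min i (N - 1), by omega⟩
  have hz : ∀ i j, i < N → j < N → (lt (z i).1 (z j).1 ↔ i < j) := by
    intro i j hi hj
    rw [← hlt]
    show ι _ < ι _ ↔ _
    rw [ι.lt_iff_lt, Fin.mk_lt_mk, min_eq_left (by omega), min_eq_left (by omega)]
  have hs : ∀ x, I x → ∃ i, i < N ∧ x = (z i).1 := by
    intro x hx
    obtain ⟨i, hi⟩ := ι.surjective ⟨x, hx⟩
    refine ⟨i.1, i.2, ?_⟩
    have h2 : z i.1 = ι i := by
      show ι _ = ι i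
      congr 1
      apply Fin.ext
      show min i.1 (N - 1) = i.1
      have := i.2
      omega
    rw [h2, hi]
  have hsucc : ∀ i, i + 1 < N → lt (z i).1 (z (i + 1)).1 ∧
      ∀ y, I y → ¬ (lt (z i).1 y ∧ lt y (z (i + 1)).1) := by
    intro i hi
    refine ⟨(hz _ _ (by omega) hi).2 (by omega), ?_⟩
    rintro y hy ⟨h3, h4⟩
    obtain ⟨k, hk, rfl⟩ := hs y hy
    rw [hz _ _ (by omega) hk] at h3
    rw [hz _ _ hk hi] at h4
    omega
  have hlow : ∀ y, I y → ¬ lt y (z 0).1 := by
    intro y hy h3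
    obtain ⟨k, hk, rfl⟩ := hs y hy
    rw [hz _ _ hk (by omega)] at h3
    omega
  have hup : ∀ y, I y → ¬ lt (z (N - 1)).1 y := by
    intro y hy h3
    obtain ⟨k, hk, rfl⟩ := hs y hy
    rw [hz _ _ (by omega) hk] at h3
    omega
  refine ⟨fun x y => tile (z x).1 (z y).1 (z x).2 (z y).2, ?_, ?_, ?_, ?_, ?_, ?_, ?_⟩
  · intro x y hx _
    exact h.hR _ _ (z y).1 _ _ (z x).2 (z (x + 1)).2 (z y).2 (hsucc x hx).1 (hsucc x hx).2
      (htile _ _ _ _) (htile _ _ _ _)
  · intro x y _ hy
    exact h.hU (z x).1 _ _ _ _ (z x).2 (z y).2 (z (y + 1)).2 (hsucc y hy).1 (hsucc y hy).2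
      (htile _ _ _ _) (htile _ _ _ _)
  · intro y _
    exact h.hl _ (z y).1 _ (z 0).2 (z y).2 hlow (htile _ _ _ _)
  · intro y _
    exact h.hr _ (z y).1 _ (z (N - 1)).2 (z y).2 hup (htile _ _ _ _)
  · intro x _
    exact h.hb (z x).1 _ _ (z x).2 (z 0).2 hlow (htile _ _ _ _)
  · intro x _
    exact h.ht (z x).1 _ _ (z x).2 (z (N - 1)).2 hup (htile _ _ _ _)
  · exact h.hc _ _ (z 0).2 hlow (htile _ _ _ _)

section Def1

variable {q m : ℕ}

private lemma h1_clt : Def2 (m + q + 4) (fun _ R x y => clt (m := m) (q := q) R x y) :=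
  Def.rel _ _ _

private lemma h1_cK : Def1 (m + q + 4) (fun _ R x => cK (m := m) (q := q) R x) :=
  Def.rel _ _ _

private lemma h1_dg (r : Fin (m + 2)) :
    Def2 (m + q + 4) (fun _ R x y => dg (m := m) (q := q) R r x y) :=
  Def.rel _ _ _

private lemma h1_ctile (g : Fin q) :
    Def1 (m + q + 4) (fun _ R x => ctile (m := m) (q := q) R g x) :=
  Def.rel _ _ _

private lemma h1_axis : Def1 (m + q + 4) (fun _ R x => axis (m := m) (q := q) R x) :=
  Def.all_fin (fun _ => Def.imp (Def.const _) (Def.all (Def.not ((h1_dg _).app _ _))))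

private lemma h1_less : Def2 (m + q + 4) (fun _ R x y => less (m := m) (q := q) R x y) := by
  refine Def.ex ?_
  refine Def.and (h1_cK.app _) (Def.and (Def.not ((h1_dg _).app _ _))
    (Def.and ((h1_dg _).app _ _) (Def.all (Def.imp (h1_clt.app _ _) ?_))))
  exact Def.iff ((h1_dg _).app _ _) ((h1_dg _).app _ _)

private lemma h1_inc : Def2 (m + q + 4) (fun _ R x y => inc (m := m) (q := q) R x y) := by
  refine Def.ex ?_
  refine Def.and (h1_cK.app _) (Def.and (Def.not ((h1_dg _).app _ _))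
    (Def.and ((h1_dg _).app _ _) (Def.and (Def.all (Def.imp (h1_clt.app _ _) ?_))
      (Def.all (Def.imp (h1_clt.app _ _) ?_)))))
  · exact Def.iff ((h1_dg _).app _ _) ((h1_dg _).app _ _)
  · exact Def.and ((h1_dg _).app _ _) (Def.not ((h1_dg _).app _ _))

private lemma h1_CT {Γ : Type} (c₀ : Fin q → Γ) (γ : Γ) :
    Def2 (m + q + 4) (fun _ R x y => CT (m := m) (q := q) R c₀ x y γ) := by
  refine Def.ex ?_
  refine Def.and (Def.all (Def.iff ((h1_dg _).app _ _) ((h1_dg _).app _ _)))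
    (Def.and (Def.all (Def.iff ((h1_dg _).app _ _) ((h1_dg _).app _ _)))
    (Def.and (Def.all_fin (fun _ => Def.imp (Def.const _) (Def.all (Def.not ((h1_dg _).app _ _)))))
      (Def.ex_fin (fun _ => Def.and (Def.const _) ((h1_ctile _).app _)))))

end Def1

theorem def_coverCode {q m : ℕ} {Γ : Type} [Finite Γ] (W : Wang Γ) (c₀ : Fin q → Γ) :
    Def0 (m + q + 4) (fun _ R => CoverCode (m := m) R W c₀) := by
  refine Def.congr (P := fun V R _ =>
    (∀ r : Fin (m + q + 4), (r.1 = 1 ∨ m + 4 ≤ r.1) → ∀ x y, R r x y → x = y) ∧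
    (∀ a b, clt (m := m) (q := q) R a b → cK (m := m) (q := q) R a ∧ cK (m := m) (q := q) R b) ∧
    (∀ a, ¬ clt (m := m) (q := q) R a a) ∧
    (∀ a b c, clt (m := m) (q := q) R a b → clt (m := m) (q := q) R b c →
      clt (m := m) (q := q) R a c) ∧
    (∀ a b, cK (m := m) (q := q) R a → cK (m := m) (q := q) R b →
      clt (m := m) (q := q) R a b ∨ a = b ∨ clt (m := m) (q := q) R b a) ∧
    (∀ r x a, dg (m := m) (q := q) R r x a → cK (m := m) (q := q) R a) ∧
    (∀ x y, (∀ r a, dg (m := m) (q := q) R r x a ↔ dg (m := m) (q := q) R r y a) → x = y) ∧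
    (∀ x y, ∀ r : Fin (m + 2), ∃ z, (∀ a, dg (m := m) (q := q) R r z a ↔
        dg (m := m) (q := q) R r y a) ∧
      ∀ r' : Fin (m + 2), r' ≠ r → ∀ a, dg (m := m) (q := q) R r' z a ↔
        dg (m := m) (q := q) R r' x a) ∧
    (∀ x, ∀ r r' : Fin (m + 2), ∃ z, ∀ a, dg (m := m) (q := q) R r' z a ↔
      dg (m := m) (q := q) R r x a) ∧
    (∀ x, (∃ a, dg (m := m) (q := q) R 0 x a) → ∃ y, inc (m := m) (q := q) R y x) ∧
    (∃ x a, cK (m := m) (q := q) R a ∧ (∀ b, ¬ clt (m := m) (q := q) R a b) ∧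
      dg (m := m) (q := q) R 0 x a) ∧
    (∀ a, cK (m := m) (q := q) R a → (∀ b, dg (m := m) (q := q) R 0 a b ↔ b = a) ∧
      axis (m := m) (q := q) R a) ∧
    ((∀ x, axis (m := m) (q := q) R x → ¬ less (m := m) (q := q) R x x) ∧
    (∀ x y z, axis (m := m) (q := q) R x → axis (m := m) (q := q) R y →
      axis (m := m) (q := q) R z → less (m := m) (q := q) R x y →
      less (m := m) (q := q) R y z → less (m := m) (q := q) R x z) ∧
    (∀ x y, axis (m := m) (q := q) R x → axis (m := m) (q := q) R y →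
      less (m := m) (q := q) R x y ∨ x = y ∨ less (m := m) (q := q) R y x) ∧
    (∃ x y, axis (m := m) (q := q) R x ∧ axis (m := m) (q := q) R y ∧ ¬ x = y) ∧
    (∀ x y, axis (m := m) (q := q) R x → axis (m := m) (q := q) R y →
      ∃ γ, CT (m := m) (q := q) R c₀ x y γ) ∧
    (∀ x x' y, ∀ γ δ : Γ, axis (m := m) (q := q) R x → axis (m := m) (q := q) R x' →
      axis (m := m) (q := q) R y → less (m := m) (q := q) R x x' →
      (∀ z, axis (m := m) (q := q) R z →
        ¬ (less (m := m) (q := q) R x z ∧ less (m := m) (q := q) R z x')) →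
      CT (m := m) (q := q) R c₀ x y γ → CT (m := m) (q := q) R c₀ x' y δ → W.R γ δ) ∧
    (∀ x y y', ∀ γ δ : Γ, axis (m := m) (q := q) R x → axis (m := m) (q := q) R y →
      axis (m := m) (q := q) R y' → less (m := m) (q := q) R y y' →
      (∀ z, axis (m := m) (q := q) R z →
        ¬ (less (m := m) (q := q) R y z ∧ less (m := m) (q := q) R z y')) →
      CT (m := m) (q := q) R c₀ x y γ → CT (m := m) (q := q) R c₀ x y' δ → W.U γ δ) ∧
    (∀ x y, ∀ γ : Γ, axis (m := m) (q := q) R x → axis (m := m) (q := q) R y →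
      (∀ z, axis (m := m) (q := q) R z → ¬ less (m := m) (q := q) R z x) →
      CT (m := m) (q := q) R c₀ x y γ → W.l γ) ∧
    (∀ x y, ∀ γ : Γ, axis (m := m) (q := q) R x → axis (m := m) (q := q) R y →
      (∀ z, axis (m := m) (q := q) R z → ¬ less (m := m) (q := q) R x z) →
      CT (m := m) (q := q) R c₀ x y γ → W.r γ) ∧
    (∀ x y, ∀ γ : Γ, axis (m := m) (q := q) R x → axis (m := m) (q := q) R y →
      (∀ z, axis (m := m) (q := q) R z → ¬ less (m := m) (q := q) R z y) →
      CT (m := m) (q := q) R c₀ x y γ → W.b γ) ∧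
    (∀ x y, ∀ γ : Γ, axis (m := m) (q := q) R x → axis (m := m) (q := q) R y →
      (∀ z, axis (m := m) (q := q) R z → ¬ less (m := m) (q := q) R y z) →
      CT (m := m) (q := q) R c₀ x y γ → W.t γ) ∧
    (∀ x, ∀ γ : Γ, axis (m := m) (q := q) R x →
      (∀ z, axis (m := m) (q := q) R z → ¬ less (m := m) (q := q) R z x) →
      CT (m := m) (q := q) R c₀ x x γ → W.c γ))) ?_
    (fun V R _ => ⟨fun h => ⟨h.loops, h.lt_K, h.lt_irr, h.lt_trans, h.lt_tot, h.dg_K, h.ext,
      h.mix, h.sym, h.pred, h.top, h.pos, h.tiles.irr, h.tiles.trans, h.tiles.lin, h.tiles.big,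
      h.tiles.tot, h.tiles.hR, h.tiles.hU, h.tiles.hl, h.tiles.hr, h.tiles.hb, h.tiles.ht,
      h.tiles.hc⟩,
      fun ⟨h1, h2, h3, h4, h5, h6, h7, h8, h9, h10, h11, h12, t1, t2, t3, t4, t5, t6, t7, t8, t9,
        t10, t11, t12⟩ =>
        ⟨h1, h2, h3, h4, h5, h6, h7, h8, h9, h10, h11, h12,
          ⟨t1, t2, t3, t4, t5, t6, t7, t8, t9, t10, t11, t12⟩⟩⟩)
  repeat' first
    | exact Def.const _
    | exact h1_axis.app _
    | exact h1_less.app _ _
    | exact h1_inc.app _ _
    | exact h1_clt.app _ _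
    | exact h1_cK.app _
    | exact (h1_CT _ _).app _ _
    | exact (h1_dg _).app _ _
    | exact Def.eq _ _
    | exact Def.rel _ _ _
    | refine Def.not ?_
    | refine Def.iff ?_ ?_
    | refine Def.and ?_ ?_
    | refine Def.or ?_ ?_
    | refine Def.imp ?_ ?_
    | refine Def.all ?_
    | refine Def.ex ?_
    | refine Def.all_fin (fun _ => ?_)
    | refine Def.ex_fin (fun _ => ?_)

end Pool.Agent.Helper38.SPT
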