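import Pool.Agent.Helper38.SPT.C1

/-!
# Block SPT-C2: decoding of cover codes

Let `L := Nat.card {a // cK a}`; enumerate the positions in increasing order (rank of `a` := number of the `b` with `clt b a`).
`val r x := ∑ 2 ^ rank a` over the `a` with `dg r x a`; `val r x < 2 ^ L`, and `val r x = val r' y` iff the digits agree.
Let `A := {val 0 x | x}`, `N := A.card`.  `pred` (with `inc y x`: `val 0 x = val 0 y + 1`) shows that `A` is closed under predecessors, so
`A = [0, N)`.  By `sym` all coordinates have the values `A`; by `mix` and `ext` the map `x ↦ (val r x)_r` is a bijection of `V` with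
`[0, N) ^ (m + 2)`, so `Nat.card V = N ^ (m + 2)`.  The axis is in bijection with `A` (`val 0`; `mix`), so `Nat.card {x // axis x} = N`, and
`TileAx.tiles` gives the tiling.  `top`: `2 ^ (L - 1) < N`, so `2 ^ L ≤ 2 * N` and `2 ≤ N`.  Adjacent elements of the Gaifman graph: one of them is in `cK`
(`loops`, `lt_K`, `dg_K`).
-/

set_option autoImplicit false

namespace Pool.Agent.Helper38.SPT

open Pool.Agent.Helper20.OP Pool.Agent.Helper29.Prefix

/-- ranks of the elements of a finite linear order -/
private lemma rank74 {M : Type} [Fintype M] {l : M → M → Prop} (irr : ∀ x, ¬ l x x)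
    (tr : ∀ x y z, l x y → l y z → l x z) (tot : ∀ x y, l x y ∨ x = y ∨ l y x) :
    ∃ rk : M → ℕ, (∀ x, rk x < Fintype.card M) ∧
      (∀ x y, rk x = rk y → x = y) ∧ (∀ x y, l x y ↔ rk x < rk y) ∧
      ∀ i, i < Fintype.card M → ∃ x, rk x = i := by
  classical
  let rk : M → ℕ := fun x => (Finset.univ.filter (fun y => l y x)).card
  have h1 : ∀ x y, l x y → rk x < rk y := by
    intro x y hxy
    refine Finset.card_lt_card ?_
    rw [Finset.ssubset_iff_of_subset]
    · exact ⟨x, by simp [hxy], by simp [irr]⟩
    · intro z hz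
      rw [Finset.mem_filter] at hz ⊢
      exact ⟨hz.1, tr _ _ _ hz.2 hxy⟩
  have h2 : ∀ x y, l x y ↔ rk x < rk y := by
    intro x y
    refine ⟨h1 x y, fun h => ?_⟩
    rcases tot x y with h' | h' | h'
    · exact h'
    · rw [h'] at h; omega
    · have := h1 y x h'; omega
  have h3 : ∀ x y, rk x = rk y → x = y := by
    intro x y h
    rcases tot x y with h' | h' | h'
    · have := h1 x y h'; omega
    · exact h'
    · have := h1 y x h'; omega
  have h4 : ∀ x, rk x < Fintype.card M := by
    intro x
    refine Finset.card_lt_univ_of_notMem (x := x) ?_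
    simp [irr]
  refine ⟨rk, h4, h3, h2, fun i hi => ?_⟩
  have h5 : Function.Injective (fun x => (⟨rk x, h4 x⟩ : Fin (Fintype.card M))) := by
    intro x y h
    exact h3 x y (by simpa using h)
  have h6 := (Fintype.bijective_iff_injective_and_card
    (fun x => (⟨rk x, h4 x⟩ : Fin (Fintype.card M)))).2 ⟨h5, by simp⟩
  obtain ⟨x, hx⟩ := h6.2 ⟨i, hi⟩
  exact ⟨x, by simpa using hx⟩

/-- binary successor -/
private lemma succ74 {x y a : ℕ} (hx : x.testBit a = false) (hy : y.testBit a = true)
    (hhi : ∀ b, a < b → x.testBit b = y.testBit b)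
    (hlo : ∀ b, b < a → x.testBit b = true ∧ y.testBit b = false) : y = x + 1 := by
  have h1 : x / 2 ^ (a + 1) = y / 2 ^ (a + 1) := by
    refine Nat.eq_of_testBit_eq (fun i => ?_)
    rw [Nat.testBit_div_two_pow, Nat.testBit_div_two_pow]
    exact hhi _ (by omega)
  have h2 : x % 2 ^ (a + 1) = 2 ^ a - 1 := by
    refine Nat.eq_of_testBit_eq (fun i => ?_)
    rw [Nat.testBit_mod_two_pow, Nat.testBit_two_pow_sub_one]
    rcases lt_trichotomy i a with h | h | h
    · rw [(hlo i h).1]
      simp [h, show i < a + 1 by omega]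
    · rw [h, hx]
      simp
    · simp [show ¬ i < a + 1 by omega, show ¬ i < a by omega]
  have h3 : y % 2 ^ (a + 1) = 2 ^ a := by
    refine Nat.eq_of_testBit_eq (fun i => ?_)
    rw [Nat.testBit_mod_two_pow, Nat.testBit_two_pow]
    rcases lt_trichotomy i a with h | h | h
    · rw [(hlo i h).2]
      simp [show ¬ a = i by omega]
    · rw [h, hy]
      simp
    · simp [show ¬ i < a + 1 by omega, show ¬ a = i by omega]
  have h4 := Nat.div_add_mod x (2 ^ (a + 1))
  have h5 := Nat.div_add_mod y (2 ^ (a + 1))
  rw [h2] at h4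
  rw [h3, ← h1] at h5
  have h6 : 0 < 2 ^ a := Nat.two_pow_pos a
  omega

/-- sets closed under predecessors -/
private lemma pred74 {A : Finset ℕ} (h : ∀ n, n + 1 ∈ A → n ∈ A) : A = Finset.range A.card := by
  have h1 : ∀ k n, n + k ∈ A → n ∈ A := by
    intro k
    induction k with
    | zero => intro n hn; exact hn
    | succ k ih => intro n hn; exact ih n (h _ hn)
  have h2 : ∀ n, n ∈ A → n < A.card := by
    intro n hn
    have h3 : Finset.range (n + 1) ⊆ A := by
      intro i hi
      rw [Finset.mem_range] at hi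
      exact h1 (n - i) i (by rwa [Nat.add_sub_cancel' (by omega)])
    have := Finset.card_le_card h3
    rw [Finset.card_range] at this
    omega
  exact Finset.eq_of_subset_of_card_le (fun n hn => Finset.mem_range.2 (h2 n hn))
    (by rw [Finset.card_range])

theorem cover_decode {q m : ℕ} {Γ : Type} {W : Wang Γ} {c₀ : Fin q → Γ} {V : Type} [Finite V]
    {R : Str (m + q + 4) V} (h : CoverCode (m := m) R W c₀) :
    ∃ N L, 2 ≤ N ∧ Nat.card V = N ^ (m + 2) ∧ Tiles W N ∧ MeasLe .cover (toI R) L ∧
      2 ^ L ≤ 2 * N := by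
  classical
  have := Fintype.ofFinite V
  obtain ⟨rk, r0, r1, r2, r3⟩ := rank74 (l := fun a b : {a // cK R a} => clt R a.1 b.1)
    (fun a => h.lt_irr _) (fun a b c => h.lt_trans _ _ _) (fun a b => by
      rcases h.lt_tot a.1 b.1 a.2 b.2 with h' | h' | h'
      · exact Or.inl h'
      · exact Or.inr (Or.inl (Subtype.ext h'))
      · exact Or.inr (Or.inr h'))
  set L := Fintype.card {a // cK R a} with hL
  choose g hg using r3
  have hgr : ∀ a : {a // cK R a}, g (rk a) (r0 a) = a := fun a => r1 _ _ (hg _ _)
  -- the values of the coordinates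
  let val : Fin (m + 2) → V → ℕ := fun r x =>
    Nat.ofBits (fun i : Fin L => decide (dg R r x (g i.1 i.2).1))
  have vbit : ∀ r x (a : {a // cK R a}), (val r x).testBit (rk a) = decide (dg R r x a.1) := by
    intro r x a
    show (Nat.ofBits _).testBit (rk a) = _
    rw [Nat.testBit_ofBits_lt _ _ (r0 a)]
    simp only [hgr]
  have vbit' : ∀ r x i, L ≤ i → (val r x).testBit i = false := by
    intro r x i hi
    exact Nat.testBit_ofBits_ge _ _ hi
  have vlt : ∀ r x, val r x < 2 ^ L := fun r x => Nat.ofBits_lt_two_pow _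
  have veq : ∀ r r' x y, val r x = val r' y ↔ ∀ a, dg R r x a ↔ dg R r' y a := by
    intro r r' x y
    constructor
    · intro he a
      by_cases ha : cK R a
      · have h1 := vbit r x ⟨a, ha⟩
        rw [he, vbit] at h1
        simpa using h1.symm
      · exact ⟨fun h' => absurd (h.dg_K _ _ _ h') ha, fun h' => absurd (h.dg_K _ _ _ h') ha⟩
    · intro he
      show Nat.ofBits _ = Nat.ofBits _
      congr 1
      funext i
      simp only [he]
  have vzero : ∀ r x, val r x = 0 ↔ ∀ a, ¬ dg R r x a := by
    intro r x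
    constructor
    · intro he a ha
      have h1 := vbit r x ⟨a, h.dg_K _ _ _ ha⟩
      rw [he, Nat.zero_testBit] at h1
      simp [ha] at h1
    · intro he
      refine Nat.eq_of_testBit_eq (fun i => ?_)
      rw [Nat.zero_testBit]
      by_cases hi : i < L
      · show (Nat.ofBits _).testBit i = _
        rw [Nat.testBit_ofBits_lt _ _ hi]
        simp [he]
      · exact vbit' r x i (by omega)
  have vinc : ∀ x y, inc R x y → val 0 y = val 0 x + 1 := by
    rintro x y ⟨a, ha, hx, hy, hhi, hlo⟩
    refine succ74 (a := rk ⟨a, ha⟩) ?_ ?_ ?_ ?_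
    · rw [vbit]; simpa using hx
    · rw [vbit]; simpa using hy
    · intro b hb
      by_cases hbL : b < L
      · have h1 := hhi (g b hbL).1 ((r2 ⟨a, ha⟩ (g b hbL)).2 (by rw [hg]; exact hb))
        have h2 := vbit 0 x (g b hbL)
        have h3 := vbit 0 y (g b hbL)
        rw [hg] at h2 h3
        rw [h2, h3]
        simp only [h1]
      · rw [vbit' 0 x b (by omega), vbit' 0 y b (by omega)]
    · intro b hb
      have hbL : b < L := lt_trans hb (r0 _)
      have h1 := hlo (g b hbL).1 ((r2 (g b hbL) ⟨a, ha⟩).2 (by rw [hg]; exact hb))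
      have h2 := vbit 0 x (g b hbL)
      have h3 := vbit 0 y (g b hbL)
      rw [hg] at h2 h3
      rw [h2, h3]
      simpa using h1
  -- the values are an initial segment
  set A : Finset ℕ := Finset.univ.image (val 0) with hA
  set N := A.card with hN
  have hAr : A = Finset.range N := by
    refine pred74 (fun n hn => ?_)
    rw [hA, Finset.mem_image] at hn
    obtain ⟨x, -, hx⟩ := hn
    have h1 : ∃ a, dg R 0 x a := by
      by_contra hcon
      push Not at hcon
      rw [(vzero 0 x).2 hcon] at hx
      omega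
    obtain ⟨y, hy⟩ := h.pred x h1
    have h2 := vinc y x hy
    rw [hA, Finset.mem_image]
    exact ⟨y, Finset.mem_univ _, by omega⟩
  have hval : ∀ r x, val r x < N := by
    intro r x
    obtain ⟨z, hz⟩ := h.sym x r 0
    rw [← Finset.mem_range, ← hAr, hA, Finset.mem_image]
    exact ⟨z, Finset.mem_univ _, (veq 0 r z x).2 hz⟩
  have hsur : ∀ r v, v < N → ∃ x, val r x = v := by
    intro r v hv
    rw [← Finset.mem_range, ← hAr, hA, Finset.mem_image] at hv
    obtain ⟨x, -, hx⟩ := hv
    obtain ⟨z, hz⟩ := h.sym x 0 r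
    exact ⟨z, by rw [(veq r 0 z x).2 hz, hx]⟩
  obtain ⟨xt, at', ht1, ht2, ht3⟩ := h.top
  have hinj : ∀ x y, (∀ r, val r x = val r y) → x = y := by
    intro x y hxy
    exact h.ext x y (fun r a => (veq r r x y).1 (hxy r) a)
  have hall : ∀ f : Fin (m + 2) → ℕ, (∀ r, f r < N) → ∃ x, ∀ r, val r x = f r := by
    intro f hf
    have key : ∀ T : Finset (Fin (m + 2)), ∃ x, ∀ r ∈ T, val r x = f r := by
      intro T
      induction T using Finset.induction_on with
      | empty => exact ⟨xt, fun r hr => absurd hr (Finset.notMem_empty r)⟩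
      | insert r0 T hr0 ih =>
        obtain ⟨x, hx⟩ := ih
        obtain ⟨y, hy⟩ := hsur r0 (f r0) (hf r0)
        obtain ⟨z, hz1, hz2⟩ := h.mix x y r0
        refine ⟨z, fun r hr => ?_⟩
        rw [Finset.mem_insert] at hr
        rcases hr with rfl | hr
        · rw [(veq r r z y).2 hz1, hy]
        · have hne : r ≠ r0 := fun he => hr0 (he ▸ hr)
          rw [(veq r r z x).2 (hz2 r hne), hx r hr]
    obtain ⟨x, hx⟩ := key Finset.univ
    exact ⟨x, fun r => hx r (Finset.mem_univ r)⟩
  have hcard : Nat.card V = N ^ (m + 2) := by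
    have hb : Function.Bijective (fun x : V => (fun r => (⟨val r x, hval r x⟩ : Fin N))) := by
      constructor
      · intro x y hxy
        refine hinj x y (fun r => ?_)
        have := congrFun hxy r
        simpa using this
      · intro f
        obtain ⟨x, hx⟩ := hall (fun r => (f r : ℕ)) (fun r => (f r).2)
        refine ⟨x, ?_⟩
        funext r
        exact Fin.ext (hx r)
    rw [Nat.card_eq_of_bijective _ hb]
    simp
  have hax : ∀ x, axis R x ↔ ∀ r : Fin (m + 2), r ≠ 0 → val r x = 0 := by
    intro x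
    constructor
    · intro hx r hr
      exact (vzero r x).2 (hx r hr)
    · intro hx r hr
      exact (vzero r x).1 (hx r hr)
  have hN0 : 0 < N := lt_of_le_of_lt (Nat.zero_le _) (hval 0 xt)
  have haxc : Nat.card {x // axis R x} = N := by
    have hb : Function.Bijective (fun x : {x // axis R x} => (⟨val 0 x.1, hval 0 x.1⟩ : Fin N)) := by
      constructor
      · intro x y hxy
        refine Subtype.ext (hinj _ _ (fun r => ?_))
        by_cases hr : r = 0
        · rw [hr]
          simpa using hxy
        · rw [(hax x.1).1 x.2 r hr, (hax y.1).1 y.2 r hr]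
      · intro v
        obtain ⟨x, hx⟩ := hall (fun r => if r = 0 then (v : ℕ) else 0) (fun r => by
          show (if r = 0 then (v : ℕ) else 0) < N
          split_ifs
          · exact v.2
          · exact hN0)
        refine ⟨⟨x, (hax x).2 (fun r hr => by rw [hx r, if_neg hr])⟩, Fin.ext ?_⟩
        show val 0 x = v
        rw [hx 0, if_pos rfl]
    rw [Nat.card_eq_of_bijective _ hb]
    simp
  have htiles : Tiles W N := by
    have := h.tiles.tiles
    rwa [haxc] at this
  -- the number of positions
  have hpow : 2 ^ rk ⟨at', ht1⟩ < N := by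
    refine lt_of_le_of_lt ?_ (hval 0 xt)
    refine Nat.ge_two_pow_of_testBit ?_
    rw [vbit]
    simpa using ht3
  have htop : rk ⟨at', ht1⟩ + 1 = L := by
    by_contra hne
    have h1 := r0 ⟨at', ht1⟩
    have h2 : rk ⟨at', ht1⟩ + 1 < L := by omega
    exact ht2 (g _ h2).1 ((r2 ⟨at', ht1⟩ (g _ h2)).2 (by rw [hg]; omega))
  refine ⟨N, L, ?_, hcard, htiles, ⟨{a | cK R a}, ?_, ?_⟩, ?_⟩
  · have := Nat.one_le_two_pow (n := rk ⟨at', ht1⟩)
    omega
  · refine le_of_eq ?_
    rw [hL, ← Nat.card_eq_fintype_card]
    rfl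
  · rintro x y ⟨hxy, s, v, hv, ⟨i, hi⟩, j, hj⟩
    change R s (v 0) (v 1) at hv
    have hne : v 0 ≠ v 1 := by
      intro h01
      apply hxy
      rw [← hi, ← hj]
      have h1 : ∀ k : Fin 2, v k = v 0 := by
        intro k
        fin_cases k
        · rfl
        · exact h01.symm
      rw [h1 i, h1 j]
    have hK : cK R (v 1) ∨ cK R (v 0) := by
      by_cases hs : s.1 = 1 ∨ m + 4 ≤ s.1
      · exact absurd (h.loops s hs _ _ hv) hne
      · push Not at hs
        by_cases hs0 : s.1 = 0
        · have : s = ⟨0, by omega⟩ := Fin.ext hs0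
          rw [this] at hv
          exact Or.inl (h.lt_K _ _ hv).2
        · have hlt : s.1 - 2 < m + 2 := by omega
          have : s = ⟨2 + (⟨s.1 - 2, hlt⟩ : Fin (m + 2)).1, by
            show 2 + (s.1 - 2) < m + q + 4
            omega⟩ := Fin.ext (by show s.1 = 2 + (s.1 - 2); omega)
          rw [this] at hv
          exact Or.inl (h.dg_K ⟨s.1 - 2, hlt⟩ _ _ hv)
    have h2 : ∀ k : Fin 2, v k = x ∨ v k = y := by
      intro k
      have h3 : i = 0 ∨ i = 1 := by
        fin_cases i
        · exact Or.inl rfl
        · exact Or.inr rfl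
      have h4 : j = 0 ∨ j = 1 := by
        fin_cases j
        · exact Or.inl rfl
        · exact Or.inr rfl
      have h5 : i ≠ j := fun he => hxy (by rw [← hi, ← hj, he])
      have h6 : k = i ∨ k = j := by
        rcases h3 with h3 | h3 <;> rcases h4 with h4 | h4
        · exact absurd (h3.trans h4.symm) h5
        · rw [h3, h4]
          fin_cases k
          · exact Or.inl rfl
          · exact Or.inr rfl
        · rw [h3, h4]
          fin_cases k
          · exact Or.inr rfl
          · exact Or.inl rfl
        · exact absurd (h3.trans h4.symm) h5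
      rcases h6 with h6 | h6
      · exact Or.inl (by rw [h6, hi])
      · exact Or.inr (by rw [h6, hj])
    rcases hK with hK | hK
    · rcases h2 1 with h3 | h3
      · exact Or.inl (h3 ▸ hK)
      · exact Or.inr (h3 ▸ hK)
    · rcases h2 0 with h3 | h3
      · exact Or.inl (h3 ▸ hK)
      · exact Or.inr (h3 ▸ hK)
  · rw [← htop, pow_succ]
    omega

end Pool.Agent.Helper38.SPT
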