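import Pool.Agent.Helper38.SPT.CDefs

/-!
# Block SPT-C3: the intended cover codes

`V := Fin (m + 2) → Fin N`; `L` := the number of binary digits of `N - 1` (so `2 ^ (L - 1) ≤ N - 1 < 2 ^ L`, `1 ≤ L`); the positions are the
points `pt i = (2 ^ i, 0, …, 0)`, `i < L`.  `clt (pt i) (pt i') ↔ i < i'`; `dg r x (pt i) ↔ (x r).testBit i`; the tile `g` is marked at `x`
if `c₀ g = f (x 0) (x 1)` (choose one `g`); the relations of index `1` and `≥ m + 4` are contained in the diagonal.
`less x y ↔ x 0 < y 0`, `inc x y ↔ x 0 + 1 = y 0` (binary numbers with `L` digits; `Nat.lt_of_testBit` and similar lemmas, or by sums of powers of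
two).  The tiling conditions: `axis` is `{(x, 0, …, 0)}`, ordered by `x`.
-/

set_option autoImplicit false

namespace Pool.Agent.Helper38.SPT

open Pool.Agent.Helper20.OP Pool.Agent.Helper29.Prefix

/-- digits of the successor -/
private lemma inc53 (v : ℕ) : ∃ i, v.testBit i = false ∧ (v + 1).testBit i = true ∧ (∀ j, i < j → v.testBit j = (v + 1).testBit j) ∧
    ∀ j, j < i → v.testBit j = true ∧ (v + 1).testBit j = false := by
  induction v using Nat.strong_induction_on with
  | _ v ih =>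
    rcases Nat.even_or_odd' v with ⟨u, rfl | rfl⟩
    · refine ⟨0, ?_, ?_, ?_, fun j hj => absurd hj (Nat.not_lt_zero _)⟩
      · rw [Nat.testBit_zero]
        simp
      · rw [Nat.testBit_zero]
        simp
        try omega
      · intro j hj
        obtain ⟨j, rfl⟩ : ∃ k, j = k + 1 := ⟨j - 1, by omega⟩
        rw [Nat.testBit_succ, Nat.testBit_succ]
        congr 1
        omega
    · obtain ⟨i, h1, h2, h3, h4⟩ := ih u (by omega)
      have e1 : (2 * u + 1) / 2 = u := by omega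
      have e2 : (2 * u + 1 + 1) / 2 = u + 1 := by omega
      refine ⟨i + 1, ?_, ?_, ?_, ?_⟩
      · rw [Nat.testBit_succ, e1]
        exact h1
      · rw [Nat.testBit_succ, e2]
        exact h2
      · intro j hj
        obtain ⟨j, rfl⟩ : ∃ k, j = k + 1 := ⟨j - 1, by omega⟩
        rw [Nat.testBit_succ, Nat.testBit_succ, e1, e2]
        exact h3 j (by omega)
      · intro j hj
        rcases j with _ | j
        · rw [Nat.testBit_zero, Nat.testBit_zero]
          constructor
          · simp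
            try omega
          · simp
            try omega
        · rw [Nat.testBit_succ, Nat.testBit_succ, e1, e2]
          exact h4 j (by omega)

/-- digits and the order -/
private lemma less53 (v : ℕ) : ∀ w, v < w → ∃ i, v.testBit i = false ∧ w.testBit i = true ∧ ∀ j, i < j → v.testBit j = w.testBit j := by
  induction v using Nat.strong_induction_on with
  | _ v ih =>
    intro w hw
    by_cases h : v / 2 = w / 2
    · refine ⟨0, ?_, ?_, ?_⟩
      · rw [Nat.testBit_zero]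
        simp
        omega
      · rw [Nat.testBit_zero]
        simp
        omega
      · intro j hj
        obtain ⟨j, rfl⟩ : ∃ k, j = k + 1 := ⟨j - 1, by omega⟩
        rw [Nat.testBit_succ, Nat.testBit_succ, h]
    · by_cases hv : v = 0
      · subst hv
        obtain ⟨i, hi⟩ : ∃ i, i = Nat.log 2 w := ⟨_, rfl⟩
        have hw0 : w ≠ 0 := by omega
        have h1 : w < 2 ^ (i + 1) := by
          rw [hi]
          exact Nat.lt_pow_succ_log_self (by norm_num) w
        have h2 : 2 ^ i ≤ w := by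
          rw [hi]
          exact Nat.pow_log_le_self 2 hw0
        refine ⟨i, Nat.zero_testBit i, ?_, ?_⟩
        · by_contra hcon
          rw [Bool.not_eq_true] at hcon
          have h3 : w = 0 ∨ w < 2 ^ i := by
            right
            refine Nat.lt_of_testBit i hcon Nat.testBit_two_pow_self ?_
            intro j hj
            rw [Nat.testBit_lt_two_pow (lt_of_lt_of_le h1 (Nat.pow_le_pow_right (by norm_num) hj)), Nat.testBit_two_pow]
            simp
            omega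
          omega
        · intro j hj
          rw [Nat.zero_testBit, Nat.testBit_lt_two_pow (lt_of_lt_of_le h1 (Nat.pow_le_pow_right (by norm_num) hj))]
      · obtain ⟨i, h1, h2, h3⟩ := ih (v / 2) (by omega) (w / 2) (by omega)
        refine ⟨i + 1, ?_, ?_, ?_⟩
        · rw [Nat.testBit_succ]
          exact h1
        · rw [Nat.testBit_succ]
          exact h2
        · intro j hj
          obtain ⟨j, rfl⟩ : ∃ k, j = k + 1 := ⟨j - 1, by omega⟩
          rw [Nat.testBit_succ, Nat.testBit_succ]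
          exact h3 j (by omega)

/-- `a` is the position `i` -/
private def P53 {m N : ℕ} (a : Fin (m + 2) → Fin N) (i : ℕ) : Prop := (a 0).val = 2 ^ i ∧ ∀ r, r ≠ 0 → (a r).val = 0

/-- the structure -/
private def R53 {q m N : ℕ} {Γ : Type} (c₀ : Fin q → Γ) (f : ℕ → ℕ → Γ) : Str (m + q + 4) (Fin (m + 2) → Fin N) := fun s x y =>
  (s.1 = 0 ∧ ∃ i j, i < j ∧ P53 x i ∧ P53 y j) ∨ (s.1 = 1 ∧ x = y ∧ ∃ i, P53 x i) ∨
    (∃ r : Fin (m + 2), s.1 = 2 + r.1 ∧ ∃ i, P53 y i ∧ (x r).val.testBit i = true) ∨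
    (∃ g : Fin q, s.1 = m + 4 + g.1 ∧ x = y ∧ c₀ g = f (x 0).val (x 1).val)

section
variable {q m N : ℕ} {Γ : Type} {c₀ : Fin q → Γ} {f : ℕ → ℕ → Γ}

private lemma clt53 (a b : Fin (m + 2) → Fin N) : clt (m := m) (R53 c₀ f) a b ↔ ∃ i j, i < j ∧ P53 a i ∧ P53 b j := by
  unfold clt R53
  constructor
  · rintro (h | h | ⟨r, h, _⟩ | ⟨g, h, _⟩)
    · exact h.2
    · have h1 : (0 : ℕ) = 1 := h.1
      omega
    · have h1 : (0 : ℕ) = 2 + r.1 := h
      omega
    · have h1 : (0 : ℕ) = m + 4 + g.1 := h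
      omega
  · intro h
    exact Or.inl ⟨rfl, h⟩

private lemma cK53 (a : Fin (m + 2) → Fin N) : cK (m := m) (R53 c₀ f) a ↔ ∃ i, P53 a i := by
  unfold cK R53
  constructor
  · rintro (h | h | ⟨r, h, _⟩ | ⟨g, h, _⟩)
    · have h1 : (1 : ℕ) = 0 := h.1
      omega
    · exact h.2.2
    · have h1 : (1 : ℕ) = 2 + r.1 := h
      omega
    · have h1 : (1 : ℕ) = m + 4 + g.1 := h
      omega
  · intro h
    exact Or.inr (Or.inl ⟨rfl, rfl, h⟩)

private lemma dg53 (r : Fin (m + 2)) (x a : Fin (m + 2) → Fin N) :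
    dg (m := m) (R53 c₀ f) r x a ↔ ∃ i, P53 a i ∧ (x r).val.testBit i = true := by
  unfold dg R53
  have hr := r.2
  constructor
  · rintro (h | h | ⟨r', h, h'⟩ | ⟨g, h, _⟩)
    · have h1 : 2 + r.1 = 0 := h.1
      omega
    · have h1 : 2 + r.1 = 1 := h.1
      omega
    · have h1 : 2 + r.1 = 2 + r'.1 := h
      have : r = r' := Fin.ext (by omega)
      rw [this]
      exact h'
    · have h1 : 2 + r.1 = m + 4 + g.1 := h
      omega
  · intro h
    exact Or.inr (Or.inr (Or.inl ⟨r, rfl, h⟩))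

private lemma ctile53 (g : Fin q) (x : Fin (m + 2) → Fin N) :
    ctile (m := m) (R53 c₀ f) g x ↔ c₀ g = f (x 0).val (x 1).val := by
  unfold ctile R53
  constructor
  · rintro (h | h | ⟨r', h, h'⟩ | ⟨g', h, h'⟩)
    · have h1 : m + 4 + g.1 = 0 := h.1
      omega
    · have h1 : m + 4 + g.1 = 1 := h.1
      omega
    · have := r'.2
      have h1 : m + 4 + g.1 = 2 + r'.1 := h
      omega
    · have h1 : m + 4 + g.1 = m + 4 + g'.1 := h
      have : g = g' := Fin.ext (by omega)
      rw [this]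
      exact h'.2
  · intro h
    exact Or.inr (Or.inr (Or.inr ⟨g, rfl, rfl, h⟩))

private lemma P_inj53 {a : Fin (m + 2) → Fin N} {i j : ℕ} (h : P53 a i) (h' : P53 a j) : i = j := by
  have h1 : 2 ^ i = 2 ^ j := h.1.symm.trans h'.1
  exact Nat.pow_right_injective le_rfl h1

private lemma P_uniq53 {a b : Fin (m + 2) → Fin N} {i : ℕ} (h : P53 a i) (h' : P53 b i) : a = b := by
  funext r
  apply Fin.ext
  by_cases hr : r = 0
  · rw [hr, h.1, h'.1]
  · rw [h.2 r hr, h'.2 r hr]

private lemma P_ex53 {i : ℕ} (h : 2 ^ i < N) : ∃ a : Fin (m + 2) → Fin N, P53 a i := by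
  have h0 : 0 < N := lt_of_le_of_lt (Nat.zero_le _) h
  refine ⟨fun r => if r = 0 then ⟨2 ^ i, h⟩ else ⟨0, h0⟩, ?_, ?_⟩
  · simp
  · intro r hr
    simp [hr]

private lemma P_lt53 {a : Fin (m + 2) → Fin N} {i : ℕ} (h : P53 a i) : 2 ^ i < N := by
  rw [← h.1]
  exact (a 0).2

/-- a digit is one only at the positions -/
private lemma bit_ex53 {v : Fin N} {i : ℕ} (h : v.val.testBit i = true) : ∃ a : Fin (m + 2) → Fin N, P53 a i :=
  P_ex53 (lt_of_le_of_lt (Nat.ge_two_pow_of_testBit h) v.2)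

private lemma dgP53 {r : Fin (m + 2)} {x a : Fin (m + 2) → Fin N} {i : ℕ} (h : P53 a i) :
    dg (m := m) (R53 c₀ f) r x a ↔ (x r).val.testBit i = true := by
  rw [dg53]
  constructor
  · rintro ⟨j, h1, h2⟩
    rw [P_inj53 h h1]
    exact h2
  · intro h2
    exact ⟨i, h, h2⟩

private lemma all_bit53 {v w : Fin N} {Q : ℕ → Prop} (h : ∀ (i : ℕ) (a : Fin (m + 2) → Fin N), P53 a i → Q i →
    (v.val.testBit i = true ↔ w.val.testBit i = true)) (i : ℕ) (hi : Q i) : v.val.testBit i = w.val.testBit i := by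
  by_cases h2 : 2 ^ i < N
  · obtain ⟨a, ha⟩ := P_ex53 (m := m) h2
    exact Bool.eq_iff_iff.2 (h i a ha hi)
  · rw [Nat.testBit_lt_two_pow (by have := v.2; omega), Nat.testBit_lt_two_pow (by have := w.2; omega)]

private lemma dg_ext53 {r r' : Fin (m + 2)} {x y : Fin (m + 2) → Fin N}
    (h : ∀ a, dg (m := m) (R53 c₀ f) r x a ↔ dg (m := m) (R53 c₀ f) r' y a) : x r = y r' := by
  apply Fin.ext
  apply Nat.eq_of_testBit_eq
  intro i
  exact all_bit53 (m := m) (Q := fun _ => True) (fun i a ha _ => by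
    rw [← dgP53 (c₀ := c₀) (f := f) ha, ← dgP53 (c₀ := c₀) (f := f) ha]
    exact h a) i trivial

private lemma dg_of53 {r r' : Fin (m + 2)} {x y : Fin (m + 2) → Fin N} (h : x r = y r') (a : Fin (m + 2) → Fin N) :
    dg (m := m) (R53 c₀ f) r x a ↔ dg (m := m) (R53 c₀ f) r' y a := by
  rw [dg53, dg53, h]

private lemma dg_zero53 {r : Fin (m + 2)} {x : Fin (m + 2) → Fin N} : (∀ a, ¬ dg (m := m) (R53 c₀ f) r x a) ↔ (x r).val = 0 := by
  constructor
  · intro h
    apply Nat.eq_of_testBit_eq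
    intro i
    rw [Nat.zero_testBit]
    by_contra hcon
    rw [Bool.not_eq_false] at hcon
    obtain ⟨a, ha⟩ := bit_ex53 (m := m) hcon
    exact h a ((dgP53 ha).2 hcon)
  · intro h a ha
    rw [dg53, h] at ha
    obtain ⟨i, _, h1⟩ := ha
    rw [Nat.zero_testBit] at h1
    exact Bool.false_ne_true h1

private lemma axis53 {x : Fin (m + 2) → Fin N} : axis (m := m) (R53 c₀ f) x ↔ ∀ r, r ≠ 0 → (x r).val = 0 := by
  unfold axis
  constructor
  · intro h r hr
    exact dg_zero53.1 (h r hr)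
  · intro h r hr
    exact dg_zero53.2 (h r hr)

private lemma less_iff53 {x y : Fin (m + 2) → Fin N} : less (m := m) (R53 c₀ f) x y ↔ (x 0).val < (y 0).val := by
  unfold less
  constructor
  · rintro ⟨a, ha, h1, h2, h3⟩
    obtain ⟨i, hi⟩ := (cK53 a).1 ha
    rw [dgP53 hi] at h1 h2
    refine Nat.lt_of_testBit i (Bool.eq_false_iff.2 h1) h2 ?_
    exact all_bit53 (m := m) (Q := fun j => i < j) (fun j b hb hj => by
      rw [← dgP53 (c₀ := c₀) (f := f) hb, ← dgP53 (c₀ := c₀) (f := f) hb]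
      exact h3 b ((clt53 a b).2 ⟨i, j, hj, hi, hb⟩))
  · intro h
    obtain ⟨i, h1, h2, h3⟩ := less53 _ _ h
    obtain ⟨a, ha⟩ := bit_ex53 (m := m) h2
    refine ⟨a, (cK53 a).2 ⟨i, ha⟩, ?_, (dgP53 ha).2 h2, ?_⟩
    · rw [dgP53 ha, h1]
      exact Bool.false_ne_true
    · intro b hb
      obtain ⟨i', j, hij, hi', hj⟩ := (clt53 a b).1 hb
      rw [dgP53 hj, dgP53 hj, h3 j (by rw [P_inj53 ha hi']; exact hij)]

private lemma inc_of53 {x y : Fin (m + 2) → Fin N} (h : (x 0).val + 1 = (y 0).val) : inc (m := m) (R53 c₀ f) x y := by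
  obtain ⟨i, h1, h2, h3, h4⟩ := inc53 (x 0).val
  rw [h] at h2 h3 h4
  obtain ⟨a, ha⟩ := bit_ex53 (m := m) h2
  refine ⟨a, (cK53 a).2 ⟨i, ha⟩, ?_, (dgP53 ha).2 h2, ?_, ?_⟩
  · rw [dgP53 ha, h1]
    exact Bool.false_ne_true
  · intro b hb
    obtain ⟨i', j, hij, hi', hj⟩ := (clt53 a b).1 hb
    rw [dgP53 hj, dgP53 hj, h3 j (by rw [P_inj53 ha hi']; exact hij)]
  · intro b hb
    obtain ⟨j, i', hij, hj, hi'⟩ := (clt53 b a).1 hb
    obtain ⟨g1, g2⟩ := h4 j (by rw [P_inj53 ha hi']; exact hij)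
    rw [dgP53 hj, dgP53 hj, g1, g2]
    exact ⟨rfl, Bool.false_ne_true⟩

private lemma CT53 (hN : 0 < N) (hc₀ : Function.Surjective c₀) {x y : Fin (m + 2) → Fin N} {γ : Γ} :
    CT (m := m) (R53 c₀ f) c₀ x y γ ↔ γ = f (x 0).val (y 0).val := by
  unfold CT
  constructor
  · rintro ⟨z, h1, h2, h3, g, h4, h5⟩
    rw [ctile53] at h5
    rw [← h4, h5, dg_ext53 h1, dg_ext53 h2]
  · intro h
    obtain ⟨g, hg⟩ := hc₀ γ
    refine ⟨fun r => if r = 0 then x 0 else if r = 1 then y 0 else ⟨0, hN⟩, ?_, ?_, ?_, g, hg, ?_⟩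
    · exact dg_of53 (by simp)
    · exact dg_of53 (by simp)
    · intro r hr
      apply dg_zero53.2
      have h1 : r ≠ 0 := by
        rintro rfl
        simp at hr
      have h2 : r ≠ 1 := by
        rintro rfl
        simp at hr
      simp [h1, h2]
    · rw [ctile53, hg, h]
      simp

end

theorem cover_encode {q m : ℕ} {Γ : Type} (W : Wang Γ) (c₀ : Fin q → Γ)
    (hc₀ : Function.Surjective c₀) {N : ℕ} (hN : 2 ≤ N) (ht : Tiles W N) :
    ∃ (V : Type) (_ : Finite V) (R : Str (m + q + 4) V),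
      Nat.card V = N ^ (m + 2) ∧ CoverCode (m := m) R W c₀ := by
  classical
  obtain ⟨f, hfR, hfU, hfl, hfr, hfb, hft, hfc⟩ := ht
  refine ⟨Fin (m + 2) → Fin N, inferInstance, R53 c₀ f, by simp, ?_⟩
  -- the points of the axis
  have hpt : ∀ v : ℕ, v < N → ∃ x : Fin (m + 2) → Fin N, axis (m := m) (R53 c₀ f) x ∧ (x 0).val = v := by
    intro v hv
    refine ⟨fun r => if r = 0 then ⟨v, hv⟩ else ⟨0, by omega⟩, ?_, ?_⟩
    · rw [axis53]
      intro r hr
      simp [hr]
    · simp
  have hax : ∀ x y : Fin (m + 2) → Fin N, axis (m := m) (R53 c₀ f) x → axis (m := m) (R53 c₀ f) y → (x 0).val = (y 0).val → x = y := by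
    intro x y hx hy h
    rw [axis53] at hx hy
    funext r
    apply Fin.ext
    by_cases hr : r = 0
    · rw [hr, h]
    · rw [hx r hr, hy r hr]
  have hlast : ∀ x : Fin (m + 2) → Fin N, (∀ z, axis (m := m) (R53 c₀ f) z → ¬ less (m := m) (R53 c₀ f) x z) → (x 0).val = N - 1 := by
    intro x h
    obtain ⟨z, hz, hz0⟩ := hpt (N - 1) (by omega)
    have h1 := h z hz
    rw [less_iff53, hz0] at h1
    have := (x 0).2
    omega
  have hfirst : ∀ x : Fin (m + 2) → Fin N, (∀ z, axis (m := m) (R53 c₀ f) z → ¬ less (m := m) (R53 c₀ f) z x) → (x 0).val = 0 := by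
    intro x h
    obtain ⟨z, hz, hz0⟩ := hpt 0 (by omega)
    have h1 := h z hz
    rw [less_iff53, hz0] at h1
    omega
  have hsucc : ∀ x y : Fin (m + 2) → Fin N, less (m := m) (R53 c₀ f) x y →
      (∀ z, axis (m := m) (R53 c₀ f) z → ¬ (less (m := m) (R53 c₀ f) x z ∧ less (m := m) (R53 c₀ f) z y)) → (y 0).val = (x 0).val + 1 := by
    intro x y hxy h
    rw [less_iff53] at hxy
    by_contra hne
    obtain ⟨z, hz, hz0⟩ := hpt ((x 0).val + 1) (by have := (y 0).2; omega)
    apply h z hz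
    rw [less_iff53, less_iff53, hz0]
    omega
  refine
    { loops := ?_
      lt_K := ?_
      lt_irr := ?_
      lt_trans := ?_
      lt_tot := ?_
      dg_K := ?_
      ext := ?_
      mix := ?_
      sym := ?_
      pred := ?_
      top := ?_
      pos := ?_
      tiles := ?_ }
  · rintro r hr x y (h | h | ⟨r', h, _⟩ | ⟨g, h, h'⟩)
    · omega
    · exact h.2.1
    · have := r'.2
      omega
    · exact h'.1
  · intro a b h
    obtain ⟨i, j, _, h1, h2⟩ := (clt53 a b).1 h
    exact ⟨(cK53 a).2 ⟨i, h1⟩, (cK53 b).2 ⟨j, h2⟩⟩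
  · intro a h
    obtain ⟨i, j, hij, h1, h2⟩ := (clt53 a a).1 h
    rw [P_inj53 h1 h2] at hij
    exact lt_irrefl _ hij
  · intro a b c h h'
    obtain ⟨i, j, hij, h1, h2⟩ := (clt53 a b).1 h
    obtain ⟨i', j', hij', h1', h2'⟩ := (clt53 b c).1 h'
    have := P_inj53 h2 h1'
    exact (clt53 a c).2 ⟨i, j', by omega, h1, h2'⟩
  · intro a b h h'
    obtain ⟨i, hi⟩ := (cK53 a).1 h
    obtain ⟨j, hj⟩ := (cK53 b).1 h'
    rcases lt_trichotomy i j with hij | hij | hij
    · exact Or.inl ((clt53 a b).2 ⟨i, j, hij, hi, hj⟩)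
    · rw [← hij] at hj
      exact Or.inr (Or.inl (P_uniq53 hi hj))
    · exact Or.inr (Or.inr ((clt53 b a).2 ⟨j, i, hij, hj, hi⟩))
  · intro r x a h
    obtain ⟨i, hi, _⟩ := (dg53 r x a).1 h
    exact (cK53 a).2 ⟨i, hi⟩
  · intro x y h
    funext r
    exact dg_ext53 (h r)
  · intro x y r
    refine ⟨Function.update x r (y r), dg_of53 (by simp), fun r' hr' => dg_of53 (by simp [hr'])⟩
  · intro x r r'
    exact ⟨fun _ => x r, dg_of53 rfl⟩
  · rintro x ⟨a, ha⟩
    have h1 : (x 0).val ≠ 0 := by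
      intro h
      exact dg_zero53.2 h a ha
    have h2 := (x 0).2
    refine ⟨Function.update x 0 ⟨(x 0).val - 1, by omega⟩, inc_of53 ?_⟩
    simp
    omega
  · obtain ⟨i, hi⟩ : ∃ i, i = Nat.log 2 (N - 1) := ⟨_, rfl⟩
    have h1 : N - 1 < 2 ^ (i + 1) := by
      rw [hi]
      exact Nat.lt_pow_succ_log_self (by norm_num) _
    have h2 : 2 ^ i ≤ N - 1 := by
      rw [hi]
      exact Nat.pow_log_le_self 2 (by omega)
    obtain ⟨a, ha⟩ := P_ex53 (m := m) (N := N) (i := i) (by omega)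
    refine ⟨a, a, (cK53 a).2 ⟨i, ha⟩, ?_, ?_⟩
    · intro b hb
      obtain ⟨i', j, hij, h3, h4⟩ := (clt53 a b).1 hb
      have h5 := P_inj53 ha h3
      have h6 := P_lt53 h4
      have h7 : 2 ^ (i + 1) ≤ 2 ^ j := Nat.pow_le_pow_right (by norm_num) (by omega)
      omega
    · rw [dgP53 ha, ha.1]
      exact Nat.testBit_two_pow_self
  · intro a ha
    obtain ⟨i, hi⟩ := (cK53 a).1 ha
    refine ⟨fun b => ?_, axis53.2 hi.2⟩
    rw [dg53, hi.1]
    constructor
    · rintro ⟨j, hj, h⟩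
      rw [Nat.testBit_two_pow] at h
      simp only [decide_eq_true_eq] at h
      rw [← h] at hj
      exact P_uniq53 hj hi
    · rintro rfl
      exact ⟨i, hi, Nat.testBit_two_pow_self⟩
  · refine
      { irr := ?_
        trans := ?_
        lin := ?_
        big := ?_
        tot := ?_
        hR := ?_
        hU := ?_
        hl := ?_
        hr := ?_
        hb := ?_
        ht := ?_
        hc := ?_ }
    · intro x _ h
      rw [less_iff53] at h
      omega
    · intro x y z _ _ _ h h'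
      rw [less_iff53] at h h' ⊢
      omega
    · intro x y hx hy
      rw [less_iff53, less_iff53]
      rcases lt_trichotomy (x 0).val (y 0).val with h | h | h
      · exact Or.inl h
      · exact Or.inr (Or.inl (hax x y hx hy h))
      · exact Or.inr (Or.inr h)
    · obtain ⟨x, hx, hx0⟩ := hpt 0 (by omega)
      obtain ⟨y, hy, hy0⟩ := hpt 1 (by omega)
      refine ⟨x, y, hx, hy, ?_⟩
      rintro rfl
      omega
    · intro x y _ _
      exact ⟨f (x 0).val (y 0).val, (CT53 (by omega) hc₀).2 rfl⟩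
    · intro x x' y γ δ _ _ _ h1 h2 h3 h4
      rw [CT53 (by omega) hc₀] at h3 h4
      rw [h3, h4, hsucc x x' h1 h2]
      have := (x' 0).2
      rw [hsucc x x' h1 h2] at this
      exact hfR _ _ this (y 0).2
    · intro x y y' γ δ _ _ _ h1 h2 h3 h4
      rw [CT53 (by omega) hc₀] at h3 h4
      rw [h3, h4, hsucc y y' h1 h2]
      have := (y' 0).2
      rw [hsucc y y' h1 h2] at this
      exact hfU _ _ (x 0).2 this
    · intro x y γ _ _ h1 h2
      rw [CT53 (by omega) hc₀] at h2
      rw [h2, hfirst x h1]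
      exact hfl _ (y 0).2
    · intro x y γ _ _ h1 h2
      rw [CT53 (by omega) hc₀] at h2
      rw [h2, hlast x h1]
      exact hfr _ (y 0).2
    · intro x y γ _ _ h1 h2
      rw [CT53 (by omega) hc₀] at h2
      rw [h2, hfirst y h1]
      exact hfb _ (x 0).2
    · intro x y γ _ _ h1 h2
      rw [CT53 (by omega) hc₀] at h2
      rw [h2, hlast y h1]
      exact hft _ (x 0).2
    · intro x γ _ h1 h2
      rw [CT53 (by omega) hc₀] at h2
      rw [h2, hfirst x h1]
      exact hfc

end Pool.Agent.Helper38.SPT
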