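import Pool.Agent.Helper38.SPT.Defs
import Pool.Agent.Helper20.OP.Sq

/-!
# Cover codes

The elements are the points of the cube `[0, N) ^ (m + 2)`; the coordinates are given by their binary digits, which are relations to the
elements of a linearly ordered set `cK` (the digit positions); the digit position `i` is itself the point `(2 ^ i, 0, …, 0)`.
-/

set_option autoImplicit false

namespace Pool.Agent.Helper38.SPT

open Pool.Agent.Helper20.OP Pool.Agent.Helper29.Prefix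

/-- a tiled square: `I` is linearly ordered by `lt`, the pair `(x, y)` has the tile `γ` if `t x y γ` -/
structure TileAx {V Γ : Type} (W : Wang Γ) (I : V → Prop) (lt : V → V → Prop)
    (t : V → V → Γ → Prop) : Prop where
  irr : ∀ x, I x → ¬ lt x x
  trans : ∀ x y z, I x → I y → I z → lt x y → lt y z → lt x z
  lin : ∀ x y, I x → I y → lt x y ∨ x = y ∨ lt y x
  big : ∃ x y, I x ∧ I y ∧ x ≠ y
  tot : ∀ x y, I x → I y → ∃ γ, t x y γ
  hR : ∀ x x' y γ δ, I x → I x' → I y → lt x x' → (∀ z, I z → ¬ (lt x z ∧ lt z x')) →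
    t x y γ → t x' y δ → W.R γ δ
  hU : ∀ x y y' γ δ, I x → I y → I y' → lt y y' → (∀ z, I z → ¬ (lt y z ∧ lt z y')) →
    t x y γ → t x y' δ → W.U γ δ
  hl : ∀ x y γ, I x → I y → (∀ z, I z → ¬ lt z x) → t x y γ → W.l γ
  hr : ∀ x y γ, I x → I y → (∀ z, I z → ¬ lt x z) → t x y γ → W.r γ
  hb : ∀ x y γ, I x → I y → (∀ z, I z → ¬ lt z y) → t x y γ → W.b γ
  ht : ∀ x y γ, I x → I y → (∀ z, I z → ¬ lt y z) → t x y γ → W.t γ
  hc : ∀ x γ, I x → (∀ z, I z → ¬ lt z x) → t x x γ → W.c γ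

section

variable {q m : ℕ} {V : Type} (R : Str (m + q + 4) V)

/-- the order of the digit positions -/
def clt (a b : V) : Prop := R ⟨0, by omega⟩ a b

/-- the digit positions -/
def cK (a : V) : Prop := R ⟨1, by omega⟩ a a

/-- the digit of the coordinate `r` of `x` at the position `a` is one -/
def dg (r : Fin (m + 2)) (x a : V) : Prop := R ⟨2 + r.1, by omega⟩ x a

/-- the tile `g` is marked at `x` -/
def ctile (g : Fin q) (x : V) : Prop := R ⟨m + 4 + g.1, by omega⟩ x x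

/-- the points `(x, 0, …, 0)` -/
def axis (x : V) : Prop := ∀ r : Fin (m + 2), r ≠ 0 → ∀ a, ¬ dg R r x a

/-- the order of the first coordinates -/
def less (x y : V) : Prop :=
  ∃ a, cK R a ∧ ¬ dg R 0 x a ∧ dg R 0 y a ∧ ∀ b, clt R a b → (dg R 0 x b ↔ dg R 0 y b)

/-- the first coordinate of `y` is the successor of the first coordinate of `x` -/
def inc (x y : V) : Prop :=
  ∃ a, cK R a ∧ ¬ dg R 0 x a ∧ dg R 0 y a ∧ (∀ b, clt R a b → (dg R 0 x b ↔ dg R 0 y b)) ∧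
    ∀ b, clt R b a → dg R 0 x b ∧ ¬ dg R 0 y b

/-- the tile of the point `(x, y, 0, …, 0)` is `γ` -/
def CT {Γ : Type} (c₀ : Fin q → Γ) (x y : V) (γ : Γ) : Prop :=
  ∃ z, (∀ a, dg R 0 z a ↔ dg R 0 x a) ∧ (∀ a, dg R 1 z a ↔ dg R 0 y a) ∧
    (∀ r : Fin (m + 2), 2 ≤ r.1 → ∀ a, ¬ dg R r z a) ∧ ∃ g, c₀ g = γ ∧ ctile R g z

/-- cover codes -/
structure CoverCode {Γ : Type} (W : Wang Γ) (c₀ : Fin q → Γ) : Prop where
  loops : ∀ r : Fin (m + q + 4), (r.1 = 1 ∨ m + 4 ≤ r.1) → ∀ x y, R r x y → x = y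
  lt_K : ∀ a b, clt R a b → cK R a ∧ cK R b
  lt_irr : ∀ a, ¬ clt R a a
  lt_trans : ∀ a b c, clt R a b → clt R b c → clt R a c
  lt_tot : ∀ a b, cK R a → cK R b → clt R a b ∨ a = b ∨ clt R b a
  dg_K : ∀ r x a, dg R r x a → cK R a
  ext : ∀ x y, (∀ r a, dg R r x a ↔ dg R r y a) → x = y
  mix : ∀ x y r, ∃ z, (∀ a, dg R r z a ↔ dg R r y a) ∧
    ∀ r', r' ≠ r → ∀ a, dg R r' z a ↔ dg R r' x a
  sym : ∀ x r r', ∃ z, ∀ a, dg R r' z a ↔ dg R r x a
  pred : ∀ x, (∃ a, dg R 0 x a) → ∃ y, inc R y x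
  top : ∃ x a, cK R a ∧ (∀ b, ¬ clt R a b) ∧ dg R 0 x a
  pos : ∀ a, cK R a → (∀ b, dg R 0 a b ↔ b = a) ∧ axis R a
  tiles : TileAx W (axis R) (less R) (CT R c₀)

end

end Pool.Agent.Helper38.SPT
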