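import Pool.Agent.Helper20.OP.UltP
import Pool.Agent.Helper29.TW.Base

/-!
# Spectra of sentences whose models are sparse: definitions

Three measures of a finite structure: the number of edges of its Gaifman graph, the number of elements with at least
three neighbours, the vertex cover number.  The thresholds are `n`, `√n`, `log n`.
-/

set_option autoImplicit false

namespace Pool.Agent.Helper38.SPT

open FirstOrder FirstOrder.Language Filter Pool.Agent.Helper20.Spectra Pool.Agent.Helper20.OP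
  Pool.Agent.Helper29.TD Pool.Agent.Helper29.TW

variable {S : Type} {ar : S → ℕ} {M : Type}

/-- the Gaifman graph -/
def gaif (I : Interp S ar M) : SimpleGraph M where
  Adj := Adj I
  symm := ⟨fun _ _ h => ⟨h.1.symm, h.2.imp fun _ h1 => h1.imp fun _ h2 => ⟨h2.1, h2.2.2, h2.2.1⟩⟩⟩
  loopless := ⟨fun _ h => h.1 rfl⟩

/-- The three measures. -/
inductive Meas
  /-- the number of edges of the Gaifman graph -/
  | edges
  /-- the number of elements with at least three neighbours in the Gaifman graph -/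
  | branch
  /-- the least number of elements meeting all edges of the Gaifman graph -/
  | cover

/-- the measure is at most `w` -/
def MeasLe : Meas → Interp S ar M → ℕ → Prop
  | .edges, I, w => (gaif I).edgeSet.ncard ≤ w
  | .branch, I, w => {x : M | 3 ≤ {y : M | Adj I x y}.ncard}.ncard ≤ w
  | .cover, I, w => ∃ C : Set M, C.ncard ≤ w ∧ ∀ x y, Adj I x y → x ∈ C ∨ y ∈ C

/-- `A` is the spectrum of a first-order sentence `φ` in a finite relational vocabulary (for the vertex
cover number: with relations of arity at most two) such that the measure of every model of `φ` with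
`n` elements is at most `w n` -/
def SparseSpectrum (μ : Meas) (w : ℕ → ℕ) (A : Set ℕ) : Prop :=
  ∃ (S : Type) (_ : Finite S) (ar : S → ℕ) (φ : (RelLang S ar).Sentence),
    (μ = .cover → ∀ s, ar s ≤ 2) ∧
    (∀ (n : ℕ) (I : Interp S ar (Fin n)), 1 ≤ n → Sat I φ → MeasLe μ I (w n)) ∧
    ∀ n : ℕ, n ∈ A ↔ (1 ≤ n ∧ ∃ I : Interp S ar (Fin n), Sat I φ)

/-- `w` is above the threshold: `(1 + δ) n`, `δ √n`, `δ log n` -/
def Above : Meas → (ℕ → ℕ) → Prop
  | .edges, w => ∃ δ : ℝ, 0 < δ ∧ ∀ᶠ n : ℕ in atTop, (1 + δ) * n ≤ w n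
  | .branch, w => ∃ δ : ℝ, 0 < δ ∧ ∀ᶠ n : ℕ in atTop, δ * √n ≤ w n
  | .cover, w => ∃ δ : ℝ, 0 < δ ∧ ∀ᶠ n : ℕ in atTop, δ * Real.log n ≤ w n

/-- `w` is below the threshold: `n + o(n)`, `o(√n)`, `o(log n)` -/
def Below : Meas → (ℕ → ℕ) → Prop
  | .edges, w => ∀ ε : ℝ, 0 < ε → ∀ᶠ n : ℕ in atTop, (w n : ℝ) ≤ (1 + ε) * n
  | .branch, w => ∀ ε : ℝ, 0 < ε → ∀ᶠ n : ℕ in atTop, (w n : ℝ) ≤ ε * √n
  | .cover, w => ∀ ε : ℝ, 0 < ε → ∀ᶠ n : ℕ in atTop, (w n : ℝ) ≤ ε * Real.log n

/-- A protrusion: a set `X` whose substructure has a tree decomposition with root bag `C` and bags of at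
most `K` elements, which is attached to the rest only by `C`, and which has at least `B` elements outside `C`. -/
def Prot [DecidableEq M] (I : Interp S ar M) (K B : ℕ) : Prop :=
  ∃ X C : Finset M, Dec I K X C ∧
    (∀ (s : S) (v : Fin (ar s) → M), I s v → (∀ i, v i ∈ X) ∨ ∀ i, v i ∈ C ∨ v i ∉ X) ∧
    B ≤ (X \ C).card

/-- structures with binary relations as interpretations -/
def toI {b : ℕ} {V : Type} (R : Str b V) : Interp (Fin b) (fun _ => 2) V := fun r v => R r (v 0) (v 1)

lemma sat_toI {b : ℕ} {V : Type} (R : Str b V) (φ : (binLang b).Sentence) :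
    Sat (toI R) φ ↔ Models R φ := Iff.rfl

end Pool.Agent.Helper38.SPT
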