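import Pool.Agent.Helper38.SPT.Defs
import Pool.Agent.Helper29.TW.Sizes
import Pool.Agent.Helper29.TW.RepMain
import Pool.Agent.Helper29.TW.SatTy

/-!
# Block SPT-G1: shrinking a protrusion

As `pump_prot` (file A1, by helper99: copy its private lemmas), with two changes.
(1) Instead of `Der.pump` use `Der.small` (TW/DerSmall): the state (with `k = 0`) of the represented part is derivable with `m < 2 ^ Nat.card (Stt S ar q' K 0)`
inner elements; `B := 2 ^ Nat.card (Stt S ar q' K 0) + 1`, so `Nat.card V' < Nat.card V` and `n' < n`.  (Work with `q' = q + 1`, so that the new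
structure is not empty, and `BF.mono`.)
(2) The game is played with the pairs `(x, ι x)` for all elements `x ∈ C` or `x ∉ X` chosen before: in `game99` take for the part outside `X`
the set of pairs `{(x, f x) | x ∈ C ∨ x ∉ X}` (`BF.emb` allows it), then `BF.union`, `BF.consts`.  `ι x` is arbitrary for `x ∈ X \ C`.
-/

set_option autoImplicit false

namespace Pool.Agent.Helper38.SPT

open FirstOrder FirstOrder.Language Pool.Agent.Helper20.Spectra Pool.Agent.Helper29.TD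
  Pool.Agent.Helper29.TW

variable {S : Type} {ar : S → ℕ}

/-- Shrinking of structures with sources. -/
private theorem shrink_act57 [Finite S] (q K : ℕ) (A : Finset (Fin K)) (V : Type)
    (J : Interp S ar (Fin K ⊕ V)) (hG : Gen S ar K A V J) :
    ∃ (V' : Type) (J' : Interp S ar (Fin K ⊕ V')), Gen S ar K A V' J' ∧ ty q J' = ty q J ∧
      Nat.card V' < 2 ^ Nat.card (Stt S ar q K 0) := by
  obtain ⟨σ, hσ⟩ := exists_st q (k := 0) A J (∅ : Set V) (by simp)
  obtain ⟨m, hm, hder⟩ := (der_of_gen hG _ σ hσ).small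
  obtain ⟨B', V', J', W', hG', hσ', hc⟩ := gen_of_der hder
  have hB : B' = A := hσ'.1.symm.trans hσ.1
  subst hB
  exact ⟨V', J', hG', hσ'.2.1.symm.trans hσ.2.1, by rw [hc]; exact hm⟩

/-- Transport of the game along a bijection. -/
private theorem bf_equiv57 {M N N' : Type} {I : Interp S ar M} {J : Interp S ar N} (e : N ≃ N') (q : ℕ) :
    ∀ P : Set (M × N), BF I J Set.univ Set.univ q P →
      BF I (fun s (v : Fin (ar s) → N') => J s fun i => e.symm (v i)) Set.univ Set.univ q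
        {p | (p.1, e.symm p.2) ∈ P} := by
  have h0 : ∀ P : Set (M × N), PIso I J P →
      PIso I (fun s (v : Fin (ar s) → N') => J s fun i => e.symm (v i)) {p | (p.1, e.symm p.2) ∈ P} := by
    intro P h
    refine ⟨fun p hp p' hp' => ?_, fun s v hv => ?_⟩
    · have h1 := h.1 _ hp _ hp'
      rw [h1]
      exact e.symm.injective.eq_iff
    · exact h.2 s (fun i => ((v i).1, e.symm (v i).2)) hv
  induction q with
  | zero => exact fun P h => h0 P h
  | succ q ih =>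
    rintro P ⟨h, h1, h2⟩
    have h3 : ∀ (x : M) (y : N), {p : M × N' | (p.1, e.symm p.2) ∈ insert (x, y) P} =
        insert (x, e y) {p : M × N' | (p.1, e.symm p.2) ∈ P} := by
      intro x y
      ext ⟨a, b⟩
      simp only [Set.mem_ofPred_eq, Set.mem_insert_iff, Prod.mk.injEq]
      rw [Equiv.symm_apply_eq]
    refine ⟨h0 P h, fun x hx => ?_, fun y hy => ?_⟩
    · obtain ⟨y, hy, h4⟩ := h1 x hx
      refine ⟨e y, Set.mem_univ _, ?_⟩
      rw [← h3]
      exact ih _ h4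
    · obtain ⟨x, hx, h4⟩ := h2 (e.symm y) (Set.mem_univ _)
      refine ⟨x, Set.mem_univ _, ?_⟩
      have h5 := ih _ h4
      rw [h3, Equiv.apply_symm_apply] at h5
      exact h5

/-- A decomposition with empty bags is empty. -/
private theorem dec_zero57 {M : Type} [DecidableEq M] {I : Interp S ar M} {X C : Finset M}
    (h : Dec I 0 X C) : X = ∅ := by
  induction h with
  | leaf C hC => exact Finset.card_eq_zero.1 (Nat.le_zero.1 hC)
  | join X Y C _ _ _ _ ih1 ih2 => rw [ih1, ih2, Finset.union_empty]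
  | move X C C' hC _ _ _ ih =>
    rw [ih, Finset.card_eq_zero.1 (Nat.le_zero.1 hC), Finset.union_empty]

section game

variable {M : Type} {K : ℕ} {V V' : Type} {I : Interp S ar M} {X C : Set M} {ℓ : M → Fin K}

/-- The code of the elements of the new structure. -/
private def code57 {M : Type} {K : ℕ} (V' : Type) (X C : Set M) (ℓ : M → Fin K) :
    {x : M // x ∈ C ∨ x ∉ X} ⊕ V' → Fin K ⊕ V'
  | Sum.inl x => Sum.inl (ℓ x)
  | Sum.inr y => Sum.inr y

/-- The elements of the new structure in the pumped part. -/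
private def dom57 {M : Type} (V' : Type) (X C : Set M) : {x : M // x ∈ C ∨ x ∉ X} ⊕ V' → Prop
  | Sum.inl x => (x : M) ∈ C
  | Sum.inr _ => True

/-- The new structure. -/
private def new57 (I : Interp S ar M) (X C : Set M) (ℓ : M → Fin K)
    (J' : Interp S ar (Fin K ⊕ V')) : Interp S ar ({x : M // x ∈ C ∨ x ∉ X} ⊕ V') :=
  fun s w => (∃ u : Fin (ar s) → {x : M // x ∈ C ∨ x ∉ X}, w = (fun i => Sum.inl (u i)) ∧
      I s fun i => (u i : M)) ∨
    ((∀ i, dom57 V' X C (w i)) ∧ J' s fun i => code57 V' X C ℓ (w i))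

/-- The pairs in the structures with sources. -/
private def src57 (K : ℕ) (P : Set (V × V')) : Set ((Fin K ⊕ V) × (Fin K ⊕ V')) :=
  prs (Sum.inl : Fin K → Fin K ⊕ V) (Sum.inl : Fin K → Fin K ⊕ V') ∪
    {p | ∃ y ∈ P, p = (Sum.inr y.1, Sum.inr y.2)}

/-- The pairs in the old and the new structure. -/
private def tgt57 (X C : Set M) (γ : V → M) (P : Set (V × V')) :
    Set (M × ({x : M // x ∈ C ∨ x ∉ X} ⊕ V')) :=
  {p | ∃ (c : M) (h : c ∈ C), p = (c, Sum.inl ⟨c, Or.inl h⟩)} ∪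
    {p | ∃ y ∈ P, p = (γ y.1, Sum.inr y.2)}

private theorem src_insert57 (P : Set (V × V')) (y : V) (y' : V') :
    src57 K (insert (y, y') P) = insert (Sum.inr y, Sum.inr y') (src57 K P) := by
  unfold src57
  ext p
  simp only [Set.mem_union, Set.mem_ofPred_eq, Set.mem_insert_iff]
  constructor
  · rintro (h | ⟨z, rfl | hz, rfl⟩)
    · exact Or.inr (Or.inl h)
    · exact Or.inl rfl
    · exact Or.inr (Or.inr ⟨z, hz, rfl⟩)
  · rintro (rfl | h | ⟨z, hz, rfl⟩)
    · exact Or.inr ⟨(y, y'), Or.inl rfl, rfl⟩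
    · exact Or.inl h
    · exact Or.inr ⟨z, Or.inr hz, rfl⟩

private theorem tgt_insert57 (γ : V → M) (P : Set (V × V')) (y : V) (y' : V') :
    tgt57 X C γ (insert (y, y') P) = insert (γ y, Sum.inr y') (tgt57 X C γ P) := by
  unfold tgt57
  ext p
  simp only [Set.mem_union, Set.mem_ofPred_eq, Set.mem_insert_iff]
  constructor
  · rintro (h | ⟨z, rfl | hz, rfl⟩)
    · exact Or.inr (Or.inl h)
    · exact Or.inl rfl
    · exact Or.inr (Or.inr ⟨z, hz, rfl⟩)
  · rintro (rfl | h | ⟨z, hz, rfl⟩)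
    · exact Or.inr ⟨(y, y'), Or.inl rfl, rfl⟩
    · exact Or.inl h
    · exact Or.inr ⟨z, Or.inr hz, rfl⟩

/-- The data of a representation. -/
private structure Data57 (I : Interp S ar M) (X C : Set M) (ℓ : M → Fin K)
    (J : Interp S ar (Fin K ⊕ V)) (code : M → Fin K ⊕ V) (γ : V → M) : Prop where
  sub : C ⊆ X
  inC : ∀ x ∈ C, code x = Sum.inl (ℓ x)
  inX : ∀ x ∈ X, x ∉ C → ∃ y, γ y = x
  gam : ∀ y, γ y ∈ X ∧ γ y ∉ C ∧ code (γ y) = Sum.inr y
  inj : Set.InjOn code X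
  rel : ∀ (s : S) (u : Fin (ar s) → Fin K ⊕ V), J s u ↔
      ∃ v : Fin (ar s) → M, I s v ∧ (∀ i, v i ∈ X) ∧ u = fun i => code (v i)

variable {J : Interp S ar (Fin K ⊕ V)} {J' : Interp S ar (Fin K ⊕ V')} {code : M → Fin K ⊕ V}
  {γ : V → M}

private theorem rel_iff57 (d : Data57 I X C ℓ J code γ) (s : S) (v : Fin (ar s) → M)
    (hv : ∀ i, v i ∈ X) : I s v ↔ J s fun i => code (v i) := by
  rw [d.rel]
  constructor
  · intro h
    exact ⟨v, h, hv, rfl⟩
  · rintro ⟨w, hw, hX, he⟩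
    have : v = w := by
      funext i
      exact d.inj (hv i) (hX i) (congrFun he i)
    rwa [this]

private theorem relC57 (d : Data57 I X C ℓ J code γ)
    (h0 : PIso J J' (prs (Sum.inl : Fin K → Fin K ⊕ V) (Sum.inl : Fin K → Fin K ⊕ V')))
    (s : S) (v : Fin (ar s) → M) (hv : ∀ i, v i ∈ C) :
    I s v ↔ J' s fun i => Sum.inl (ℓ (v i)) := by
  rw [rel_iff57 d s v fun i => d.sub (hv i)]
  have e : (fun i => code (v i)) = fun i => Sum.inl (ℓ (v i)) := funext fun i => d.inC _ (hv i)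
  rw [e]
  exact h0.2 s (fun i => (Sum.inl (ℓ (v i)), Sum.inl (ℓ (v i)))) fun i => ⟨ℓ (v i), rfl⟩

private theorem new_iff57 (d : Data57 I X C ℓ J code γ)
    (h0 : PIso J J' (prs (Sum.inl : Fin K → Fin K ⊕ V) (Sum.inl : Fin K → Fin K ⊕ V')))
    (s : S) (w : Fin (ar s) → {x : M // x ∈ C ∨ x ∉ X} ⊕ V') (hw : ∀ i, dom57 V' X C (w i)) :
    new57 I X C ℓ J' s w ↔ J' s fun i => code57 V' X C ℓ (w i) := by
  constructor
  · rintro (⟨u, rfl, hu⟩ | h)
    · exact (relC57 d h0 s _ hw).1 hu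
    · exact h.2
  · intro h
    exact Or.inr ⟨hw, h⟩

private theorem piso57 (d : Data57 I X C ℓ J code γ) (P : Set (V × V'))
    (h : PIso J J' (src57 K P)) : PIso I (new57 I X C ℓ J') (tgt57 X C γ P) := by
  have h0 : PIso J J' (prs (Sum.inl : Fin K → Fin K ⊕ V) (Sum.inl : Fin K → Fin K ⊕ V')) :=
    ⟨fun p hp p' hp' => h.1 p (Or.inl hp) p' (Or.inl hp'),
      fun s v hv => h.2 s v fun i => Or.inl (hv i)⟩
  have hγ : Function.Injective γ := by
    intro y z hyz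
    have h1 := (d.gam y).2.2
    rw [hyz, (d.gam z).2.2] at h1
    exact (Sum.inr.inj h1).symm
  refine ⟨?_, ?_⟩
  · rintro p (⟨c, hc, rfl⟩ | ⟨y, hy, rfl⟩) p' (⟨c', hc', rfl⟩ | ⟨z, hz, rfl⟩)
    · simp only [Sum.inl.injEq, Subtype.mk.injEq]
    · refine iff_of_false (fun e => ?_) (fun e => by cases e)
      exact (d.gam z.1).2.1 (by rw [← (show c = γ z.1 from e)]; exact hc)
    · refine iff_of_false (fun e => ?_) (fun e => by cases e)
      exact (d.gam y.1).2.1 (by rw [(show γ y.1 = c' from e)]; exact hc')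
    · have h1 := h.1 (Sum.inr y.1, Sum.inr y.2) (Or.inr ⟨y, hy, rfl⟩) (Sum.inr z.1, Sum.inr z.2)
        (Or.inr ⟨z, hz, rfl⟩)
      simp only [Sum.inr.injEq] at h1 ⊢
      rw [← h1]
      exact ⟨fun e => hγ e, fun e => by rw [e]⟩
  · intro s v hv
    have hX : ∀ i, (v i).1 ∈ X := by
      intro i
      rcases hv i with ⟨c, hc, e⟩ | ⟨y, hy, e⟩
      · rw [e]
        exact d.sub hc
      · rw [e]
        exact (d.gam y.1).1
    have hD : ∀ i, dom57 V' X C (v i).2 := by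
      intro i
      rcases hv i with ⟨c, hc, e⟩ | ⟨y, hy, e⟩
      · rw [e]
        exact hc
      · rw [e]
        trivial
    rw [new_iff57 d h0 s _ hD, rel_iff57 d s _ hX]
    refine h.2 s (fun i => (code (v i).1, code57 V' X C ℓ (v i).2)) fun i => ?_
    rcases hv i with ⟨c, hc, e⟩ | ⟨y, hy, e⟩
    · rw [e]
      refine Or.inl ⟨ℓ c, ?_⟩
      rw [d.inC c hc]
      rfl
    · rw [e]
      refine Or.inr ⟨y, hy, ?_⟩
      rw [(d.gam y.1).2.2]
      rfl

private theorem bf57 (d : Data57 I X C ℓ J code γ) (q : ℕ) : ∀ P : Set (V × V'),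
    BF J J' (Set.range Sum.inr) (Set.range Sum.inr) q (src57 K P) →
      BF I (new57 I X C ℓ J') (X \ C) (Set.range Sum.inr) q (tgt57 X C γ P) := by
  induction q with
  | zero => exact fun P h => piso57 d P h
  | succ q ih =>
    rintro P ⟨h, h1, h2⟩
    refine ⟨piso57 d P h, ?_, ?_⟩
    · rintro x ⟨hx, hxC⟩
      obtain ⟨y, rfl⟩ := d.inX x hx hxC
      obtain ⟨_, ⟨y', rfl⟩, h3⟩ := h1 (Sum.inr y) ⟨y, rfl⟩
      refine ⟨Sum.inr y', ⟨y', rfl⟩, ?_⟩
      rw [← tgt_insert57]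
      rw [← src_insert57] at h3
      exact ih _ h3
    · rintro _ ⟨y', rfl⟩
      obtain ⟨_, ⟨y, rfl⟩, h3⟩ := h2 (Sum.inr y') ⟨y', rfl⟩
      refine ⟨γ y, ⟨(d.gam y).1, (d.gam y).2.1⟩, ?_⟩
      rw [← tgt_insert57]
      rw [← src_insert57] at h3
      exact ih _ h3

private theorem src_empty57 : src57 K (∅ : Set (V × V')) = prs Sum.inl Sum.inl := by
  unfold src57
  ext p
  simp

open scoped Classical in
private theorem game57 (d : Data57 I X C ℓ J code γ) (q : ℕ)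
    (hsep : ∀ (s : S) (v : Fin (ar s) → M), I s v → (∀ i, v i ∈ X) ∨ ∀ i, v i ∈ C ∨ v i ∉ X)
    (h : BF J J' (Set.range Sum.inr) (Set.range Sum.inr) q
      (prs (Sum.inl : Fin K → Fin K ⊕ V) (Sum.inl : Fin K → Fin K ⊕ V')))
    (f : M → {x : M // x ∈ C ∨ x ∉ X} ⊕ V')
    (hf : ∀ x (hx : x ∈ C ∨ x ∉ X), f x = Sum.inl ⟨x, hx⟩) :
    BF I (new57 I X C ℓ J') Set.univ Set.univ q {p | (p.1 ∈ C ∨ p.1 ∉ X) ∧ p.2 = f p.1} := by
  have h0 := h.piso
  have b1 : BF I (new57 I X C ℓ J') (X \ C) (Set.range Sum.inr) q (tgt57 X C γ (∅ : Set (V × V'))) := by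
    apply bf57 d
    rw [src_empty57]
    exact h
  -- the part outside `X`
  have hfi : Set.InjOn f {x : M | x ∈ C ∨ x ∉ X} := by
    intro x hx y hy hxy
    rw [hf x hx, hf y hy] at hxy
    simpa using hxy
  have b2 : BF I (new57 I X C ℓ J') Xᶜ (f '' Xᶜ) q {p | (p.1 ∈ C ∨ p.1 ∉ X) ∧ p.2 = f p.1} := by
    refine BF.emb f {x : M | x ∈ C ∨ x ∉ X} hfi ?_ (fun x hx => Or.inr hx) q ?_
    · intro s v hv
      have e : (fun i => f (v i)) =
          fun i => Sum.inl (⟨v i, hv i⟩ : {x : M // x ∈ C ∨ x ∉ X}) :=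
        funext fun i => hf _ (hv i)
      rw [e]
      constructor
      · intro hI
        exact Or.inl ⟨fun i => ⟨v i, hv i⟩, rfl, hI⟩
      · rintro (⟨u, hu, hI⟩ | ⟨hD, hJ⟩)
        · have e1 : (fun i => (u i : M)) = v := by
            funext i
            have := congrFun hu i
            rw [Sum.inl.injEq] at this
            rw [← this]
          rwa [e1] at hI
        · exact (relC57 d h0 s v hD).2 hJ
    · exact fun p hp => hp
  have s1 : Sep I (X \ C) Xᶜ := by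
    refine ⟨fun x hx hx' => hx' hx.1, ?_⟩
    rintro s v hI ⟨i, hi⟩ ⟨j, hj⟩
    rcases hsep s v hI with h1 | h1
    · exact hj (h1 j)
    · rcases h1 i with h2 | h2
      · exact hi.2 h2
      · exact h2 hi.1
  have s2 : Sep (new57 I X C ℓ J') (Set.range Sum.inr) (f '' Xᶜ) := by
    refine ⟨?_, ?_⟩
    · rintro _ ⟨y, rfl⟩ ⟨x, hx, e⟩
      rw [hf x (Or.inr hx)] at e
      cases e
    · rintro s w hI ⟨i, y, hy⟩ ⟨j, x, hx, e⟩
      rw [hf x (Or.inr hx)] at e
      rcases hI with ⟨u, rfl, hu⟩ | ⟨hD, hJ⟩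
      · cases hy
      · have h2 := hD j
        rw [← e] at h2
        exact hx (d.sub h2)
  have h3 : ∀ p ∈ tgt57 X C γ (∅ : Set (V × V')), p.1 ∉ X \ C ∧ p.1 ∉ Xᶜ ∧
      p.2 ∉ Set.range Sum.inr ∧ p.2 ∉ f '' Xᶜ := by
    rintro p (⟨c, hc, rfl⟩ | ⟨y, hy, rfl⟩)
    · refine ⟨fun h1 => h1.2 hc, fun h1 => h1 (d.sub hc), ?_, ?_⟩
      · rintro ⟨y, e⟩
        cases e
      · rintro ⟨x, hx, e⟩
        rw [hf x (Or.inr hx)] at e
        simp only [Sum.inl.injEq, Subtype.mk.injEq] at e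
        rw [e] at hx
        exact hx (d.sub hc)
    · exact absurd hy (Set.notMem_empty y)
  have h4 : tgt57 X C γ (∅ : Set (V × V')) ⊆ {p | (p.1 ∈ C ∨ p.1 ∉ X) ∧ p.2 = f p.1} := by
    rintro p (⟨c, hc, rfl⟩ | ⟨y, hy, rfl⟩)
    · exact ⟨Or.inl hc, (hf c (Or.inl hc)).symm⟩
    · exact absurd hy (Set.notMem_empty y)
  have h5 : {p : M × ({x : M // x ∈ C ∨ x ∉ X} ⊕ V') | (p.1 ∈ C ∨ p.1 ∉ X) ∧ p.2 = f p.1} ⊆
      tgt57 X C γ (∅ : Set (V × V')) ∪ Xᶜ ×ˢ (f '' Xᶜ) := by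
    rintro ⟨x, z⟩ ⟨hx | hx, hz⟩
    · refine Or.inl (Or.inl ⟨x, hx, ?_⟩)
      have hz' : z = f x := hz
      rw [hz', hf x (Or.inl hx)]
    · refine Or.inr ⟨hx, x, hx, ?_⟩
      exact (show z = f x from hz).symm
  have b3 := BF.union s1 s2 h3 q (P₁ := tgt57 X C γ (∅ : Set (V × V')))
    (P₂ := {p | (p.1 ∈ C ∨ p.1 ∉ X) ∧ p.2 = f p.1}) subset_rfl h4 Set.subset_union_left
    h5 b1 b2
  rw [Set.union_eq_self_of_subset_left h4] at b3
  have b4 := BF.consts (P0 := tgt57 X C γ (∅ : Set (V × V'))) h4 b3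
  have e1 : X \ C ∪ Xᶜ ∪ Prod.fst '' tgt57 X C γ (∅ : Set (V × V')) = Set.univ := by
    rw [Set.eq_univ_iff_forall]
    intro x
    by_cases hx : x ∈ X
    · by_cases hc : x ∈ C
      · exact Or.inr ⟨(x, Sum.inl ⟨x, Or.inl hc⟩), Or.inl ⟨x, hc, rfl⟩, rfl⟩
      · exact Or.inl (Or.inl ⟨hx, hc⟩)
    · exact Or.inl (Or.inr hx)
  have e2 : Set.range Sum.inr ∪ f '' Xᶜ ∪ Prod.snd '' tgt57 X C γ (∅ : Set (V × V')) = Set.univ := by
    rw [Set.eq_univ_iff_forall]
    rintro (⟨x, hx⟩ | y)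
    · by_cases hc : x ∈ C
      · exact Or.inr ⟨(x, Sum.inl ⟨x, Or.inl hc⟩), Or.inl ⟨x, hc, rfl⟩, rfl⟩
      · have hx' : x ∉ X := hx.resolve_left hc
        exact Or.inl (Or.inr ⟨x, hx', hf x hx⟩)
    · exact Or.inl (Or.inl ⟨y, rfl⟩)
  rw [e1, e2] at b4
  exact b4

end game

theorem shrink [Finite S] (q K : ℕ) : ∃ B : ℕ, ∀ (n : ℕ) (I : Interp S ar (Fin n))
    (X C : Finset (Fin n)), Dec I K X C →
    (∀ (s : S) (v : Fin (ar s) → Fin n), I s v → (∀ i, v i ∈ X) ∨ ∀ i, v i ∈ C ∨ v i ∉ X) →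
    B ≤ (X \ C).card →
    ∃ (n' : ℕ) (I' : Interp S ar (Fin n')) (ι : Fin n → Fin n'), n' < n ∧
      BF I I' Set.univ Set.univ q {p | (p.1 ∈ C ∨ p.1 ∉ X) ∧ p.2 = ι p.1} := by
  refine ⟨2 ^ Nat.card (Stt S ar (q + 1) K 0) + 1, ?_⟩
  intro n I X C hdec hsep hB
  have hB1 : 1 ≤ (X \ C).card := le_trans (Nat.le_add_left _ _) hB
  have hK : 1 ≤ K := by
    by_contra hK
    have hK0 : K = 0 := by omega
    subst hK0
    rw [dec_zero57 hdec, Finset.empty_sdiff, Finset.card_empty] at hB1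
    omega
  obtain ⟨ℓ, hℓ, _⟩ := exists_lab (D := (∅ : Finset (Fin n))) (Finset.empty_subset C) hdec.card_le
    (fun _ => (⟨0, by omega⟩ : Fin K)) (by rw [Finset.coe_empty]; exact Set.injOn_empty _)
  obtain ⟨V, J, code, hG, h1, h2, h3, h4, h5⟩ := hdec.rep ℓ hℓ
  choose γ hγX hγC hγ using h3
  have hCX : C ⊆ X := hdec.sub
  have d : Data57 I (X : Set (Fin n)) (C : Set (Fin n)) ℓ J code γ :=
    { sub := Finset.coe_subset.2 hCX
      inC := h1
      inX := by
        intro x hx hxC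
        obtain ⟨y, hy⟩ := h2 x hx hxC
        refine ⟨y, h4 (hγX y) hx ?_⟩
        rw [hγ y, hy]
      gam := fun y => ⟨hγX y, hγC y, hγ y⟩
      inj := h4
      rel := h5 }
  -- the number of inner elements
  have hfinV := hG.finite
  have hcV : Nat.card V = (X \ C).card := by
    have hb : Function.Bijective (fun y : V => (⟨γ y, by
        rw [Finset.mem_sdiff]; exact ⟨hγX y, hγC y⟩⟩ : {x // x ∈ X \ C})) := by
      constructor
      · intro y z hyz
        have e : γ y = γ z := congrArg Subtype.val hyz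
        have e1 := hγ y
        rw [e, hγ z] at e1
        exact (Sum.inr.inj e1).symm
      · rintro ⟨x, hx⟩
        rw [Finset.mem_sdiff] at hx
        obtain ⟨y, hy⟩ := d.inX x hx.1 hx.2
        exact ⟨y, Subtype.ext hy⟩
    rw [Nat.card_eq_of_bijective _ hb, Nat.card_eq_fintype_card, Fintype.card_coe]
  obtain ⟨V', J', hG', ht, hc'⟩ := shrink_act57 (q + 1) K _ V J hG
  have hfinV' := hG'.finite
  have hbf := (tp_eq_iff (q + 1) _ _).1 ht.symm
  have hneV : Nonempty V := (Nat.card_pos_iff.1 (by rw [hcV]; omega)).1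
  have hne : Nonempty V' := by
    obtain ⟨y⟩ := hneV
    obtain ⟨_, ⟨y', _⟩, _⟩ := hbf.2.1 (Sum.inr y) ⟨y, rfl⟩
    exact ⟨y'⟩
  classical
  let f : Fin n → {x : Fin n // x ∈ (C : Set (Fin n)) ∨ x ∉ (X : Set (Fin n))} ⊕ V' := fun x =>
    if hx : x ∈ (C : Set (Fin n)) ∨ x ∉ (X : Set (Fin n)) then Sum.inl ⟨x, hx⟩ else Sum.inr hne.some
  have hf : ∀ x (hx : x ∈ (C : Set (Fin n)) ∨ x ∉ (X : Set (Fin n))), f x = Sum.inl ⟨x, hx⟩ :=
    fun x hx => dif_pos hx
  have hgame := game57 (J' := J') d q hsep (hbf.mono (Nat.le_succ q)) f hf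
  -- the number of elements
  have hcN : Nat.card ({x : Fin n // x ∈ (C : Set (Fin n)) ∨ x ∉ (X : Set (Fin n))} ⊕ V') < n := by
    have h6 : Nat.card {x : Fin n // x ∈ (C : Set (Fin n)) ∨ x ∉ (X : Set (Fin n))} =
        (X \ C)ᶜ.card := by
      rw [Nat.card_eq_fintype_card]
      refine Fintype.card_of_subtype _ fun x => ?_
      rw [Finset.mem_compl, Finset.mem_sdiff, Finset.mem_coe, Finset.mem_coe]
      tauto
    have h7 : (X \ C).card ≤ n := by
      have := Finset.card_le_univ (X \ C)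
      rwa [Fintype.card_fin] at this
    rw [Nat.card_sum, h6, Finset.card_compl, Fintype.card_fin]
    omega
  have e : ({x : Fin n // x ∈ (C : Set (Fin n)) ∨ x ∉ (X : Set (Fin n))} ⊕ V') ≃
      Fin (Nat.card ({x : Fin n // x ∈ (C : Set (Fin n)) ∨ x ∉ (X : Set (Fin n))} ⊕ V')) :=
    Finite.equivFinOfCardEq rfl
  refine ⟨_, _, fun x => e (f x), hcN, (bf_equiv57 e q _ hgame).anti ?_⟩
  rintro ⟨x, z⟩ ⟨hx, hz⟩
  refine ⟨hx, ?_⟩
  rw [show z = e (f x) from hz, Equiv.symm_apply_apply]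

end Pool.Agent.Helper38.SPT
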