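import Pool.Agent.Helper38.SPT.Defs
import Pool.Agent.Helper29.TD.BFBasic
import Pool.Agent.Helper29.TD.BFSat

/-!
# Block SPT-G2: the game and the Gaifman graph

`R` := the maximal arity + 1.  `bf_adj`: if `x`, `y` are in a tuple of a relation `s` of arity at most `R`, play all elements of the tuple; the
answers form a tuple of the same relation containing `x'`, `y'`; `x ≠ y` is preserved by `PIso`.
`bf_count`: play the elements `f i` one after the other; the pairs `(f i, f' i)` are in the final position `Q ⊇ P` with `BF R Q`; `f'` is injective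
by `PIso` (`BF.piso`); `BF.mono` if needed.
`bf_sat`: `BF.sat`, `Sat.univ`, `BF.anti`.
-/

set_option autoImplicit false

namespace Pool.Agent.Helper38.SPT

open FirstOrder FirstOrder.Language Pool.Agent.Helper20.Spectra Pool.Agent.Helper29.TD

variable {S : Type} {ar : S → ℕ}

private lemma play22 {R : ℕ} {M N : Type} {I : Interp S ar M} {J : Interp S ar N} (k : ℕ) :
    ∀ {P : Set (M × N)}, BF I J Set.univ Set.univ (R + k) P → ∀ f : Fin k → M, ∃ (f' : Fin k → N) (Q : Set (M × N)),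
      P ⊆ Q ∧ BF I J Set.univ Set.univ R Q ∧ ∀ i, (f i, f' i) ∈ Q := by
  induction k with
  | zero =>
    intro P h f
    exact ⟨fun i => i.elim0, P, subset_rfl, h, fun i => i.elim0⟩
  | succ k ih =>
    intro P h f
    obtain ⟨y, _, hy⟩ := h.2.1 (f 0) (Set.mem_univ _)
    obtain ⟨f', Q, hQ, hb, hf⟩ := ih hy (fun i => f i.succ)
    refine ⟨Fin.cons y f', Q, (Set.subset_insert _ _).trans hQ, hb, fun i => ?_⟩
    induction i using Fin.cases with
    | zero =>
      rw [Fin.cons_zero]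
      exact hQ (Set.mem_insert _ _)
    | succ i =>
      rw [Fin.cons_succ]
      exact hf i

private lemma playb22 {R : ℕ} {M N : Type} {I : Interp S ar M} {J : Interp S ar N} (k : ℕ) :
    ∀ {P : Set (M × N)}, BF I J Set.univ Set.univ (R + k) P → ∀ f' : Fin k → N, ∃ (f : Fin k → M) (Q : Set (M × N)),
      P ⊆ Q ∧ BF I J Set.univ Set.univ R Q ∧ ∀ i, (f i, f' i) ∈ Q := by
  induction k with
  | zero =>
    intro P h f
    exact ⟨fun i => i.elim0, P, subset_rfl, h, fun i => i.elim0⟩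
  | succ k ih =>
    intro P h f'
    obtain ⟨x, _, hx⟩ := h.2.2 (f' 0) (Set.mem_univ _)
    obtain ⟨f, Q, hQ, hb, hf⟩ := ih hx (fun i => f' i.succ)
    refine ⟨Fin.cons x f, Q, (Set.subset_insert _ _).trans hQ, hb, fun i => ?_⟩
    induction i using Fin.cases with
    | zero =>
      rw [Fin.cons_zero]
      exact hQ (Set.mem_insert _ _)
    | succ i =>
      rw [Fin.cons_succ]
      exact hf i

/-- adjacency is preserved -/
theorem bf_adj (S : Type) [Finite S] (ar : S → ℕ) : ∃ R : ℕ, ∀ {M N : Type} (I : Interp S ar M)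
    (J : Interp S ar N) (P : Set (M × N)), BF I J Set.univ Set.univ R P →
    ∀ p ∈ P, ∀ p' ∈ P, Adj I p.1 p'.1 ↔ Adj J p.2 p'.2 := by
  obtain ⟨R, hR⟩ : ∃ R : ℕ, ∀ s, ar s ≤ R := by
    obtain ⟨R, hR⟩ := (Set.finite_range ar).bddAbove
    exact ⟨R, fun s => hR ⟨s, rfl⟩⟩
  refine ⟨R, fun {M N} I J P h p hp p' hp' => ?_⟩
  have h0 := h.piso.1 p hp p' hp'
  constructor
  · rintro ⟨hne, s, v, hv, ⟨i, hi⟩, ⟨j, hj⟩⟩
    obtain ⟨f', Q, hQ, hb, hf⟩ := play22 (R := 0) (ar s) (h.mono (by rw [zero_add]; exact hR s)) v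
    refine ⟨fun he => hne (h0.2 he), s, f', (hb.2 s (fun l => (v l, f' l)) hf).1 hv, ⟨i, ?_⟩, ⟨j, ?_⟩⟩
    · exact (hb.1 _ (hf i) _ (hQ hp)).1 hi
    · exact (hb.1 _ (hf j) _ (hQ hp')).1 hj
  · rintro ⟨hne, s, v, hv, ⟨i, hi⟩, ⟨j, hj⟩⟩
    obtain ⟨f, Q, hQ, hb, hf⟩ := playb22 (R := 0) (ar s) (h.mono (by rw [zero_add]; exact hR s)) v
    refine ⟨fun he => hne (h0.1 he), s, f, (hb.2 s (fun l => (f l, v l)) hf).2 hv, ⟨i, ?_⟩, ⟨j, ?_⟩⟩
    · exact (hb.1 _ (hf i) _ (hQ hp)).2 hi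
    · exact (hb.1 _ (hf j) _ (hQ hp')).2 hj

/-- having `k` neighbours with a property which is preserved by the game is preserved -/
theorem bf_count {R : ℕ} {M N : Type} {I : Interp S ar M} {J : Interp S ar N} {P : Set (M × N)}
    (E : M → M → Prop) (E' : N → N → Prop)
    (hR : ∀ Q : Set (M × N), P ⊆ Q → BF I J Set.univ Set.univ R Q → ∀ p ∈ Q, ∀ p' ∈ Q,
      (E p.1 p'.1 ↔ E' p.2 p'.2)) (k : ℕ)
    (h : BF I J Set.univ Set.univ (R + k) P) {p : M × N} (hp : p ∈ P) :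
    (∃ f : Fin k → M, Function.Injective f ∧ ∀ i, E p.1 (f i)) ↔
      ∃ f : Fin k → N, Function.Injective f ∧ ∀ i, E' p.2 (f i) := by
  constructor
  · rintro ⟨f, hf, hE⟩
    obtain ⟨f', Q, hQ, hb, hQf⟩ := play22 k h f
    have h1 := hb.piso.1
    refine ⟨f', fun i j hij => hf ((h1 _ (hQf i) _ (hQf j)).2 hij), fun i => ?_⟩
    exact (hR Q hQ hb p (hQ hp) _ (hQf i)).1 (hE i)
  · rintro ⟨f', hf, hE⟩
    obtain ⟨f, Q, hQ, hb, hQf⟩ := playb22 k h f'
    have h1 := hb.piso.1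
    refine ⟨f, fun i j hij => hf ((h1 _ (hQf i) _ (hQf j)).1 hij), fun i => ?_⟩
    exact (hR Q hQ hb p (hQ hp) _ (hQf i)).2 (hE i)

/-- sentences are preserved -/
theorem bf_sat (φ : (RelLang S ar).Sentence) : ∃ q : ℕ, ∀ (M N : Type) (I : Interp S ar M)
    (J : Interp S ar N) (P : Set (M × N)), BF I J Set.univ Set.univ q P → (Sat I φ ↔ Sat J φ) := by
  obtain ⟨q, hq⟩ := BF.sat (S := S) (ar := ar) φ
  refine ⟨q, fun M N I J P h => ?_⟩
  rw [← Sat.univ I, ← Sat.univ J]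
  exact hq M N I J _ _ (h.anti (Set.empty_subset _))

end Pool.Agent.Helper38.SPT
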