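import Pool.Agent.Helper38.SPT.A5

/-!
# Block SPT-G3A: the protrusion of `prot_branch` has only elements of degree at most two

As `prot_branch` (file A5, by helper54: copy its proof), with the additional statement that the elements of `X \ C` have less than three neighbours
(there `X \ C` consists of elements which are not in the set `N` of the elements with at least three neighbours).
-/

set_option autoImplicit false

namespace Pool.Agent.Helper38.SPT

open Pool.Agent.Helper20.Spectra Pool.Agent.Helper29.TD Pool.Agent.Helper29.TW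

variable {S : Type} {ar : S → ℕ}

section graph

variable {V : Type} [Fintype V] [DecidableEq V]

open scoped Classical in
/-- The spheres of a graph with degrees at most two have at most two elements. -/
private theorem lev_card96 (H : SimpleGraph V)
    (hdeg : ∀ x a b c, H.Adj x a → H.Adj x b → H.Adj x c → a ≠ b → a ≠ c → b ≠ c → False)
    (r : V) (i : ℕ) :
    (Finset.univ.filter (fun x => H.Reachable r x ∧ H.dist r x = i)).card ≤ 2 := by
  -- the predecessor
  have hpre : ∀ (i : ℕ) (x : V), H.Reachable r x → H.dist r x = i + 1 →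
      ∃ y, H.Adj x y ∧ H.Reachable r y ∧ H.dist r y = i := by
    intro i x hr hd
    obtain ⟨p, hp⟩ := hr.exists_walk_length_eq_dist
    rw [hd] at hp
    have hpr : p.reverse.length = i + 1 := by rw [SimpleGraph.Walk.length_reverse, hp]
    cases hq : p.reverse with
    | nil => rw [hq] at hpr; simp at hpr
    | @cons _ y _ h q =>
      rw [hq, SimpleGraph.Walk.length_cons] at hpr
      have h1 : H.dist r y ≤ i := by
        rw [SimpleGraph.dist_comm]
        exact (SimpleGraph.dist_le q).trans (by omega)
      have h2 : H.Reachable r y := q.reachable.symm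
      have h3 : H.dist r x ≤ H.dist r y + H.dist y x := h2.dist_triangle_left x
      have h4 : H.dist y x = 1 := SimpleGraph.dist_eq_one_iff_adj.mpr h.symm
      exact ⟨y, h, h2, by omega⟩
  rcases Nat.eq_zero_or_pos i with rfl | hi
  · have h1 : Finset.univ.filter (fun x => H.Reachable r x ∧ H.dist r x = 0) ⊆ {r} := by
      intro x hx
      rw [Finset.mem_filter] at hx
      rw [Finset.mem_singleton]
      exact (hx.2.1.dist_eq_zero_iff.mp hx.2.2).symm
    have := Finset.card_le_card h1
    rw [Finset.card_singleton] at this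
    omega
  obtain ⟨j, rfl⟩ : ∃ j, i = j + 1 := ⟨i - 1, by omega⟩
  clear hi
  induction j with
  | zero =>
    by_contra hcon
    rw [not_le, Finset.two_lt_card] at hcon
    obtain ⟨a, ha, b, hb, c, hc, h1, h2, h3⟩ := hcon
    rw [Finset.mem_filter] at ha hb hc
    exact hdeg r a b c (SimpleGraph.dist_eq_one_iff_adj.mp ha.2.2)
      (SimpleGraph.dist_eq_one_iff_adj.mp hb.2.2) (SimpleGraph.dist_eq_one_iff_adj.mp hc.2.2)
      h1 h2 h3
  | succ j ih =>
    refine le_trans ?_ ih
    have hex : ∀ x ∈ Finset.univ.filter (fun x => H.Reachable r x ∧ H.dist r x = j + 1 + 1),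
        ∃ y, H.Adj x y ∧ H.Reachable r y ∧ H.dist r y = j + 1 := by
      intro x hx
      rw [Finset.mem_filter] at hx
      exact hpre _ x hx.2.1 hx.2.2
    choose! g hg using hex
    refine Finset.card_le_card_of_injOn g ?_ ?_
    · intro x hx
      rw [Finset.mem_coe, Finset.mem_filter]
      exact ⟨Finset.mem_univ _, (hg x hx).2⟩
    · intro x hx x' hx' hxx
      by_contra hne
      have h1 := hg x hx
      have h2 := hg x' hx'
      rw [← hxx] at h2
      obtain ⟨y, hy1, hy2, hy3⟩ := hpre _ (g x) h1.2.1 h1.2.2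
      rw [Finset.mem_coe, Finset.mem_filter] at hx hx'
      refine hdeg (g x) x x' y h1.1.symm h2.1.symm hy1 hne ?_ ?_
      · rintro rfl
        omega
      · rintro rfl
        omega

open scoped Classical in
/-- A connected set of elements with at most two neighbours has at most two neighbours outside. -/
private theorem comp_nbrs96 (G H : SimpleGraph V) (N : Finset V)
    (hdeg : ∀ x, x ∉ N → (Finset.univ.filter (fun y => G.Adj x y)).card ≤ 2)
    (hH : ∀ x y, H.Adj x y → G.Adj x y ∧ y ∉ N) (c : H.ConnectedComponent)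
    (hc : ∀ x ∈ c.supp, x ∉ N) :
    (N.filter (fun y => ∃ x ∈ c.supp, G.Adj x y)).card ≤ 2 := by
  set C : Finset V := Finset.univ.filter (fun x => x ∈ c.supp) with hC
  have hmC : ∀ x, x ∈ C ↔ x ∈ c.supp := fun x => by rw [hC, Finset.mem_filter]; simp
  -- the sum of the numbers of neighbours
  have h1 : ∑ x ∈ C, (Finset.univ.filter (fun y => G.Adj x y)).card ≤ C.card * 2 := by
    rw [← smul_eq_mul]
    exact Finset.sum_le_card_nsmul _ _ _ fun x hx => hdeg x (hc x ((hmC x).mp hx))
  have h2 : ∀ x ∈ C, (Finset.univ.filter (fun y => H.Adj x y)).card +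
      (N.filter (fun y => G.Adj x y)).card ≤
      (Finset.univ.filter (fun y => G.Adj x y)).card := by
    intro x _
    rw [← Finset.card_union_of_disjoint]
    · apply Finset.card_le_card
      intro y hy
      rw [Finset.mem_union, Finset.mem_filter, Finset.mem_filter] at hy
      rw [Finset.mem_filter]
      rcases hy with hy | hy
      · exact ⟨Finset.mem_univ _, (hH x y hy.2).1⟩
      · exact ⟨Finset.mem_univ _, hy.2⟩
    · rw [Finset.disjoint_left]
      intro y hy1 hy2
      rw [Finset.mem_filter] at hy1 hy2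
      exact (hH x y hy1.2).2 hy2.1
  have h3 := Finset.sum_le_sum h2
  rw [Finset.sum_add_distrib] at h3
  -- the edges of the component
  have h4 : ∑ v : c, c.toSimpleGraph.degree v ≤
      ∑ x ∈ C, (Finset.univ.filter (fun y => H.Adj x y)).card := by
    have e : ∑ x ∈ C, (Finset.univ.filter (fun y => H.Adj x y)).card =
        ∑ v : c, (Finset.univ.filter (fun y => H.Adj (v : V) y)).card := by
      refine Finset.sum_subtype C (p := fun x => x ∈ c) (fun x => hmC x) _
    rw [e]
    refine Finset.sum_le_sum fun v _ => ?_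
    rw [← SimpleGraph.card_neighborFinset_eq_degree]
    refine Finset.card_le_card_of_injOn Subtype.val ?_ Subtype.val_injective.injOn
    intro w hw
    rw [Finset.mem_coe, SimpleGraph.mem_neighborFinset] at hw
    rw [Finset.mem_coe, Finset.mem_filter]
    exact ⟨Finset.mem_univ _, (c.toSimpleGraph_adj v.2 w.2).mp hw⟩
  have h5 := c.connected_toSimpleGraph.card_vert_le_card_edgeSet_add_one
  have h6 : Nat.card c = C.card := by
    rw [Nat.card_eq_fintype_card, Fintype.card_of_subtype C (p := fun x => x ∈ c) (fun x => hmC x)]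
  have h7 : Nat.card c.toSimpleGraph.edgeSet = c.toSimpleGraph.edgeFinset.card := by
    rw [Nat.card_eq_fintype_card, SimpleGraph.edgeFinset_card]
  have h8 := c.toSimpleGraph.sum_degrees_eq_twice_card_edges
  -- the union
  have h9 : (N.filter (fun y => ∃ x ∈ c.supp, G.Adj x y)).card ≤
      ∑ x ∈ C, (N.filter (fun y => G.Adj x y)).card := by
    refine le_trans (Finset.card_le_card ?_) Finset.card_biUnion_le
    intro y hy
    rw [Finset.mem_filter] at hy
    obtain ⟨hy, x, hx, hxy⟩ := hy
    rw [Finset.mem_biUnion]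
    exact ⟨x, (hmC x).mpr hx, Finset.mem_filter.mpr ⟨hy, hxy⟩⟩
  omega

end graph

theorem prot_branch_in {n k B : ℕ} (I : Interp S ar (Fin n)) (hk : MeasLe .branch I k)
    (hn : (k ^ 2 + 1) * B + k ≤ n) : ∃ X C : Finset (Fin n), Dec I 6 X C ∧
    (∀ (s : S) (v : Fin (ar s) → Fin n), I s v → (∀ i, v i ∈ X) ∨ ∀ i, v i ∈ C ∨ v i ∉ X) ∧
    B ≤ (X \ C).card ∧ ∀ x ∈ X \ C, {y | Adj I x y}.ncard < 3 := by
  classical
  set N : Finset (Fin n) := Finset.univ.filter (fun x => 3 ≤ {y : Fin n | Adj I x y}.ncard) with hN
  have hNk : N.card ≤ k := by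
    have h1 : {x : Fin n | 3 ≤ {y : Fin n | Adj I x y}.ncard}.ncard ≤ k := hk
    have h2 : {x : Fin n | 3 ≤ {y : Fin n | Adj I x y}.ncard} = (N : Set (Fin n)) := by
      ext x
      simp [hN]
    rwa [h2, Set.ncard_coe_finset] at h1
  set G : SimpleGraph (Fin n) := gaif I with hG
  have hGadj : ∀ x y, G.Adj x y ↔ Adj I x y := fun x y => Iff.rfl
  have hdeg : ∀ x, x ∉ N → (Finset.univ.filter (fun y => G.Adj x y)).card ≤ 2 := by
    intro x hx
    have h1 : {y : Fin n | Adj I x y} =
        ((Finset.univ.filter (fun y => G.Adj x y) : Finset (Fin n)) : Set (Fin n)) := by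
      ext y
      simp [hGadj]
    have h2 : ¬ 3 ≤ {y : Fin n | Adj I x y}.ncard := fun h => hx (by
      rw [hN, Finset.mem_filter]; exact ⟨Finset.mem_univ _, h⟩)
    rw [h1, Set.ncard_coe_finset] at h2
    omega
  let H : SimpleGraph (Fin n) :=
    { Adj := fun x y => G.Adj x y ∧ x ∉ N ∧ y ∉ N
      symm := ⟨fun _ _ h => ⟨h.1.symm, h.2.2, h.2.1⟩⟩
      loopless := ⟨fun _ h => G.loopless.irrefl _ h.1⟩ }
  have hHadj : ∀ x y, H.Adj x y ↔ G.Adj x y ∧ x ∉ N ∧ y ∉ N := fun x y => Iff.rfl
  have hHdeg : ∀ x a b c, H.Adj x a → H.Adj x b → H.Adj x c → a ≠ b → a ≠ c → b ≠ c → False := by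
    intro x a b c ha hb hc hab hac hbc
    have h1 := hdeg x ((hHadj x a).mp ha).2.1
    have h2 : 2 < (Finset.univ.filter (fun y => G.Adj x y)).card := by
      rw [Finset.two_lt_card]
      exact ⟨a, Finset.mem_filter.mpr ⟨Finset.mem_univ _, ha.1⟩, b,
        Finset.mem_filter.mpr ⟨Finset.mem_univ _, hb.1⟩, c,
        Finset.mem_filter.mpr ⟨Finset.mem_univ _, hc.1⟩, hab, hac, hbc⟩
    omega
  -- components outside `N`
  have hwalk : ∀ x y, H.Walk x y → x ∉ N → y ∉ N := by
    intro x y p
    induction p with
    | nil => exact id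
    | cons h _ ih => exact fun _ => ih ((hHadj _ _).mp h).2.2
  have hout : ∀ x, x ∉ N → ∀ y ∈ (H.connectedComponentMk x).supp, y ∉ N := by
    intro x hx y hy
    rw [SimpleGraph.ConnectedComponent.mem_supp_iff] at hy
    obtain ⟨p⟩ := SimpleGraph.ConnectedComponent.exact hy.symm
    exact hwalk x y p hx
  let a : H.ConnectedComponent → Finset (Fin n) := fun c =>
    N.filter (fun y => ∃ x ∈ c.supp, G.Adj x y)
  have ha2 : ∀ x, x ∉ N → (a (H.connectedComponentMk x)).card ≤ 2 := by
    intro x hx
    have h := comp_nbrs96 G H N hdeg (fun u v huv => ⟨huv.1, huv.2.2⟩) _ (hout x hx)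
    convert h
  -- pigeonhole
  let t : Finset (Finset (Fin n)) :=
    (insert none ((N ×ˢ N).image some)).image
      (fun o : Option (Fin n × Fin n) => o.elim ∅ (fun p => {p.1, p.2}))
  have htc : t.card ≤ k ^ 2 + 1 := by
    refine Finset.card_image_le.trans ((Finset.card_insert_le _ _).trans ?_)
    refine Nat.add_le_add_right (Finset.card_image_le.trans ?_) 1
    rw [Finset.card_product, sq]
    exact Nat.mul_le_mul hNk hNk
  have hmt : ∀ D : Finset (Fin n), D ⊆ N → D.card ≤ 2 → D ∈ t := by
    intro D hD hD2
    rw [Finset.mem_image]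
    have h1 : D.card = 0 ∨ D.card = 1 ∨ D.card = 2 := by omega
    rcases h1 with h1 | h1 | h1
    · exact ⟨none, Finset.mem_insert_self _ _, (Finset.card_eq_zero.mp h1).symm⟩
    · obtain ⟨u, rfl⟩ := Finset.card_eq_one.mp h1
      refine ⟨some (u, u), Finset.mem_insert_of_mem (Finset.mem_image_of_mem _
        (Finset.mem_product.mpr ⟨hD (by simp), hD (by simp)⟩)), ?_⟩
      simp
    · obtain ⟨u, v, -, rfl⟩ := Finset.card_eq_two.mp h1
      refine ⟨some (u, v), Finset.mem_insert_of_mem (Finset.mem_image_of_mem _
        (Finset.mem_product.mpr ⟨hD (by simp), hD (by simp)⟩)), ?_⟩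
      simp
  have htN : ∀ D ∈ t, D ⊆ N ∧ D.card ≤ 2 := by
    intro D hD
    obtain ⟨o, ho, rfl⟩ := Finset.mem_image.mp hD
    rcases o with _ | ⟨u, v⟩
    · simp
    · rw [Finset.mem_insert] at ho
      rcases ho with ho | ho
      · simp at ho
      · obtain ⟨p, hp, hp'⟩ := Finset.mem_image.mp ho
        have e : p = (u, v) := Option.some_injective _ hp'
        subst e
        have hp2 := Finset.mem_product.mp hp
        refine ⟨?_, Finset.card_le_two⟩
        intro w hw
        have hw' : w = u ∨ w = v := by simpa using hw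
        rcases hw' with rfl | rfl
        · exact hp2.1
        · exact hp2.2
  have hcard : (k ^ 2 + 1) * B ≤ (Finset.univ \ N).card := by
    rw [Finset.card_sdiff_of_subset (Finset.subset_univ _), Finset.card_univ, Fintype.card_fin]
    omega
  obtain ⟨D, hDt, hDB⟩ := Finset.exists_le_card_fiber_of_mul_le_card_of_maps_to
    (s := Finset.univ \ N) (t := t) (f := fun x => a (H.connectedComponentMk x)) (n := B)
    (fun x hx => hmt _ (Finset.filter_subset _ _) (ha2 x (by
      rw [Finset.mem_sdiff] at hx; exact hx.2)))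
    ⟨∅, hmt ∅ (Finset.empty_subset _) (by simp)⟩
    (le_trans (Nat.mul_le_mul_right B htc) hcard)
  obtain ⟨hDN, hD2⟩ := htN D hDt
  set X : Finset (Fin n) := (Finset.univ \ N).filter
    (fun x => a (H.connectedComponentMk x) = D) with hX
  have hmX : ∀ x, x ∈ X ↔ x ∉ N ∧ a (H.connectedComponentMk x) = D := by
    intro x
    rw [hX, Finset.mem_filter, Finset.mem_sdiff]
    simp
  -- roots of the components
  have hrep : ∀ c : H.ConnectedComponent, ∃ v, H.connectedComponentMk v = c := fun c => c.exists_rep
  choose r hr using hrep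
  have hreach : ∀ x, H.Reachable (r (H.connectedComponentMk x)) x := fun x =>
    SimpleGraph.ConnectedComponent.exact (hr _)
  refine ⟨X ∪ D, D, ?_, ?_, ?_, ?_⟩
  · refine dec_mono (K := 2 * 2 + D.card) (by omega) ?_
    refine dec_tree (T := H.ConnectedComponent × ℕ)
      (fun x => (H.connectedComponentMk x, H.dist (r (H.connectedComponentMk x)) x))
      (fun t => (t.1, t.2 - 1)) (fun t => t.2) X D 2 (fun t ht => ?_) (fun t => ?_) ?_
    · exact Nat.sub_lt (Nat.pos_of_ne_zero ht) one_pos
    · have h0 := lev_card96 H hHdeg (r t.1) t.2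
      rw [← Set.ncard_coe_finset] at h0 ⊢
      refine le_trans (Set.ncard_le_ncard ?_ (Set.toFinite _)) h0
      intro x hx
      simp only [Finset.coe_filter, Set.mem_ofPred_eq, Finset.mem_univ, true_and] at hx ⊢
      have h1 : H.connectedComponentMk x = t.1 := congrArg Prod.fst hx.2
      have h2 : H.dist (r (H.connectedComponentMk x)) x = t.2 := congrArg Prod.snd hx.2
      refine ⟨?_, ?_⟩
      · rw [← h1]; exact hreach x
      · rw [← h1]; exact h2
    · intro x hx y hy hxy
      have hxN := ((hmX x).mp hx).1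
      have hyN := ((hmX y).mp hy).1
      have hadj : H.Adj x y := ⟨hxy, hxN, hyN⟩
      have hc : H.connectedComponentMk y = H.connectedComponentMk x :=
        (SimpleGraph.ConnectedComponent.sound hadj.reachable).symm
      have h1 : H.dist (r (H.connectedComponentMk x)) x ≤
          H.dist (r (H.connectedComponentMk x)) y + 1 := by
        have h3 : H.Reachable (r (H.connectedComponentMk x)) y := (hreach x).trans hadj.reachable
        have h4 := h3.dist_triangle_left x
        have h5 : H.dist y x = 1 := SimpleGraph.dist_eq_one_iff_adj.mpr hadj.symm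
        omega
      have h2 : H.dist (r (H.connectedComponentMk x)) y ≤
          H.dist (r (H.connectedComponentMk x)) x + 1 := by
        have h4 := (hreach x).dist_triangle_left y
        have h5 : H.dist x y = 1 := SimpleGraph.dist_eq_one_iff_adj.mpr hadj
        omega
      simp only [hc, Prod.mk.injEq, true_and]
      omega
  · intro s v hv
    by_cases hex : ∃ i, v i ∈ X
    · left
      obtain ⟨i, hi⟩ := hex
      obtain ⟨hiN, hia⟩ := (hmX (v i)).mp hi
      intro j
      by_cases hij : v i = v j
      · rw [← hij]; exact Finset.mem_union_left _ hi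
      have hadj : G.Adj (v i) (v j) := ⟨hij, s, v, hv, ⟨i, rfl⟩, ⟨j, rfl⟩⟩
      by_cases hjN : v j ∈ N
      · refine Finset.mem_union_right _ ?_
        rw [← hia]
        exact Finset.mem_filter.mpr ⟨hjN, v i, rfl, hadj⟩
      · refine Finset.mem_union_left _ ((hmX (v j)).mpr ⟨hjN, ?_⟩)
        have hadj' : H.Adj (v i) (v j) := ⟨hadj, hiN, hjN⟩
        have hc : H.connectedComponentMk (v j) = H.connectedComponentMk (v i) :=
          (SimpleGraph.ConnectedComponent.sound hadj'.reachable).symm
        rw [hc, hia]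
    · right
      push Not at hex
      intro i
      by_cases hD : v i ∈ D
      · exact Or.inl hD
      · right
        rw [Finset.mem_union]
        rintro (h | h)
        · exact hex i h
        · exact hD h
  · refine le_trans hDB (Finset.card_le_card ?_)
    intro x hx
    have hx' : x ∈ X := hx
    rw [Finset.mem_sdiff]
    exact ⟨Finset.mem_union_left _ hx', fun h => ((hmX x).mp hx').1 (hDN h)⟩
  · intro x hx
    have hxX : x ∈ X := by
      rw [Finset.mem_sdiff, Finset.mem_union] at hx
      exact hx.1.resolve_right hx.2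
    have hxN := ((hmX x).mp hxX).1
    by_contra hcon
    apply hxN
    rw [hN, Finset.mem_filter]
    exact ⟨Finset.mem_univ _, not_lt.mp hcon⟩

end Pool.Agent.Helper38.SPT
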