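import Pool.Agent.Helper38.SPT.GDefs
import Pool.Agent.Helper38.SPT.G3A
import Pool.Agent.Helper38.SPT.G1
import Pool.Agent.Helper38.SPT.G2

/-!
# Block SPT-G3: the gap for the number of elements with three neighbours

Let `R` be as in `bf_adj`, `q` as in `bf_sat`, `B` from `shrink (max q (R + 3)) 6`, `B := B + 1`.  If the first alternative fails then for every `N` there is
a model with more than `N` elements of degree `≥ 3`; take one with the least number `n` of elements, with `k > N` elements of degree `≥ 3`.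
If `(k ^ 2 + 1) B + k ≤ n` then `prot_branch_in` and `shrink` give a model with fewer elements; the elements of degree `≥ 3` are all outside `X \ C`,
and by `bf_adj`, `bf_count` (`k = 3`) the elements `ι x` have degree `≥ 3`, and `ι` is injective on them (`BF.piso`): contradiction.  So
`n < (k ^ 2 + 1) B + k ≤ (2 B + 1) k ^ 2`, and `k ≥ δ √n` with `δ = 1 / √(2 B + 1)`; `n ≥ k > N`.
-/

set_option autoImplicit false

namespace Pool.Agent.Helper38.SPT

open FirstOrder FirstOrder.Language Pool.Agent.Helper20.Spectra Pool.Agent.Helper29.TD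
  Pool.Agent.Helper29.TW

variable {S : Type} {ar : S → ℕ}

private lemma three62 {n : ℕ} (A : Set (Fin n)) :
    3 ≤ A.ncard ↔ ∃ f : Fin 3 → Fin n, Function.Injective f ∧ ∀ i, f i ∈ A := by
  constructor
  · intro h
    classical
    have h1 : Fintype.card (Fin 3) ≤ Fintype.card A := by
      rw [Fintype.card_fin, ← Nat.card_eq_fintype_card, Nat.card_coe_set_eq]
      exact h
    obtain ⟨e⟩ := Function.Embedding.nonempty_of_card_le h1
    exact ⟨fun i => (e i : Fin n), Subtype.val_injective.comp e.injective, fun i => (e i).2⟩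
  · rintro ⟨f, hf, hA⟩
    have h1 : (Set.range f).ncard = 3 := by
      rw [← Set.image_univ, Set.ncard_image_of_injective _ hf, Set.ncard_univ, Nat.card_fin]
    calc 3 = (Set.range f).ncard := h1.symm
      _ ≤ A.ncard := Set.ncard_le_ncard (by rintro _ ⟨i, rfl⟩; exact hA i) (Set.toFinite _)

/-- one step down -/
private lemma step62 [Finite S] (φ : (RelLang S ar).Sentence) : ∃ B : ℕ, ∀ (n k : ℕ) (I : Interp S ar (Fin n)),
    Sat I φ → {x : Fin n | 3 ≤ {y : Fin n | Adj I x y}.ncard}.ncard = k → (k ^ 2 + 1) * B + k ≤ n →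
    ∃ (n' : ℕ) (I' : Interp S ar (Fin n')), n' < n ∧ Sat I' φ ∧
      k ≤ {x : Fin n' | 3 ≤ {y : Fin n' | Adj I' x y}.ncard}.ncard := by
  obtain ⟨R, hR⟩ := bf_adj S ar
  obtain ⟨q, hq⟩ := bf_sat φ
  obtain ⟨B, hB⟩ := shrink (S := S) (ar := ar) (max q (R + 3)) 6
  refine ⟨B, fun n k I hI hk hn => ?_⟩
  obtain ⟨X, C, hD, hX, hBX, hdeg⟩ := prot_branch_in (B := B) I (show MeasLe .branch I k from hk.le) hn
  obtain ⟨n', I', ι, hn', hBF⟩ := hB n I X C hD hX hBX
  refine ⟨n', I', hn', ?_, ?_⟩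
  · exact (hq _ _ I I' _ (hBF.mono (le_max_left _ _))).1 hI
  · rw [← hk]
    have hBF3 : BF I I' Set.univ Set.univ (R + 3) {p | (p.1 ∈ C ∨ p.1 ∉ X) ∧ p.2 = ι p.1} :=
      hBF.mono (le_max_right _ _)
    have hmem : ∀ x : Fin n, 3 ≤ {y : Fin n | Adj I x y}.ncard →
        (x, ι x) ∈ {p : Fin n × Fin n' | (p.1 ∈ C ∨ p.1 ∉ X) ∧ p.2 = ι p.1} := by
      intro x hx
      refine ⟨?_, rfl⟩
      by_contra h
      push Not at h
      have h1 := hdeg x (Finset.mem_sdiff.2 ⟨h.2, h.1⟩)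
      omega
    refine Set.ncard_le_ncard_of_injOn ι ?_ ?_ (Set.toFinite _)
    · intro x hx
      have hx' : 3 ≤ {y : Fin n | Adj I x y}.ncard := hx
      have h1 := (bf_count (R := R) (I := I) (J := I') (Adj I) (Adj I')
        (fun Q _ hQ p hp p' hp' => hR I I' Q hQ p hp p' hp') 3 hBF3 (hmem x hx')).1 ((three62 _).1 hx')
      exact (three62 {y : Fin n' | Adj I' (ι x) y}).2 h1
    · intro x hx y hy hxy
      exact (hBF3.piso.1 _ (hmem x hx) _ (hmem y hy)).2 hxy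

theorem gap_branch [Finite S] (φ : (RelLang S ar).Sentence) : Gap .branch φ := by
  classical
  obtain ⟨B, hB⟩ := step62 φ
  by_cases h : ∃ L : ℕ, ∀ (n : ℕ) (I : Interp S ar (Fin n)), 1 ≤ n → Sat I φ → MeasLe .branch I (base .branch n + L)
  · exact Or.inl h
  right
  push Not at h
  refine ⟨1 / √(2 * B + 1), by positivity, fun N => ?_⟩
  have hex : ∃ n : ℕ, ∃ I : Interp S ar (Fin n), Sat I φ ∧
      N < {x : Fin n | 3 ≤ {y : Fin n | Adj I x y}.ncard}.ncard := by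
    obtain ⟨n, I, _, hs, hm⟩ := h N
    refine ⟨n, I, hs, ?_⟩
    by_contra h1
    apply hm
    show {x : Fin n | 3 ≤ {y : Fin n | Adj I x y}.ncard}.ncard ≤ 0 + N
    omega
  obtain ⟨n, ⟨I, hs, hN⟩, hmin⟩ : ∃ n : ℕ, (∃ I : Interp S ar (Fin n), Sat I φ ∧
      N < {x : Fin n | 3 ≤ {y : Fin n | Adj I x y}.ncard}.ncard) ∧ ∀ m < n, ¬ ∃ I : Interp S ar (Fin m), Sat I φ ∧
      N < {x : Fin m | 3 ≤ {y : Fin m | Adj I x y}.ncard}.ncard :=
    ⟨Nat.find hex, Nat.find_spec hex, fun m hm => Nat.find_min hex hm⟩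
  obtain ⟨k, hk⟩ : ∃ k : ℕ, k = {x : Fin n | 3 ≤ {y : Fin n | Adj I x y}.ncard}.ncard := ⟨_, rfl⟩
  rw [← hk] at hN
  have hkn : k ≤ n := by
    rw [hk]
    have h1 := Set.ncard_le_ncard (Set.subset_univ {x : Fin n | 3 ≤ {y : Fin n | Adj I x y}.ncard}) (Set.toFinite _)
    rwa [Set.ncard_univ, Nat.card_fin] at h1
  have hlt : n < (k ^ 2 + 1) * B + k := by
    by_contra hcon
    obtain ⟨n', I', hn', hs', hk'⟩ := hB n k I hs hk.symm (not_lt.1 hcon)
    exact hmin n' hn' ⟨I', hs', lt_of_lt_of_le hN hk'⟩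
  refine ⟨n, by omega, I, hs, fun t ht => ?_⟩
  have hkt : k ≤ t := by
    rw [hk]
    exact ht
  have hk1 : 1 ≤ k := by omega
  have h1 : n ≤ (2 * B + 1) * k ^ 2 := by
    have h2 : 1 ≤ k ^ 2 := Nat.one_le_pow _ _ hk1
    have h3 : k ≤ k ^ 2 := by nlinarith
    nlinarith
  show 1 / √(2 * (B : ℝ) + 1) * √(n : ℝ) ≤ t
  have h2 : (0 : ℝ) < √(2 * (B : ℝ) + 1) := Real.sqrt_pos.2 (by positivity)
  rw [one_div_mul_eq_div, div_le_iff₀ h2]
  have h3 : (n : ℝ) ≤ (t * √(2 * (B : ℝ) + 1)) ^ 2 := by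
    rw [mul_pow, Real.sq_sqrt (by positivity)]
    have h4 : (n : ℝ) ≤ (2 * B + 1) * (k : ℝ) ^ 2 := by exact_mod_cast h1
    have h5 : (k : ℝ) ≤ t := by exact_mod_cast hkt
    have h6 : (k : ℝ) ^ 2 ≤ (t : ℝ) ^ 2 := pow_le_pow_left₀ (by positivity) h5 2
    have h7 : (0 : ℝ) ≤ 2 * B + 1 := by positivity
    nlinarith
  exact Real.sqrt_le_iff.2 ⟨by positivity, h3⟩

end Pool.Agent.Helper38.SPT
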