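import Mathlib

/-!
# Block SPT-G4: a large part of a forest with few neighbours, second version

As `exists_group` (file A4, by helper96: its proof is copied here), with the additional statement that at most one vertex of `D` has its parent in `Y`
(in the groups (1) it is `z`, in the groups (2) and (3) there is none).
-/

set_option autoImplicit false

namespace Pool.Agent.Helper38.SPT

section Top

variable {V : Type} [DecidableEq V] (par : V → V) (dep : V → ℕ)

/-- `y` is the parent of `x`. -/
private def St61 (x y : V) : Prop := dep x ≠ 0 ∧ par x = y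

/-- The highest ancestor such that the path avoids `Z`. -/
private def top61 (hpar : ∀ v, dep v ≠ 0 → dep (par v) + 1 = dep v) (Z : Finset V) (v : V) : V :=
  if h : dep v ≠ 0 ∧ par v ∉ Z then
    have : dep (par v) < dep v := by
      have := hpar v h.1
      omega
    top61 hpar Z (par v)
  else v
termination_by dep v

variable (hpar : ∀ v, dep v ≠ 0 → dep (par v) + 1 = dep v)

include hpar

private theorem top_step61 {Z : Finset V} {v : V} (h : dep v ≠ 0 ∧ par v ∉ Z) :
    top61 par dep hpar Z v = top61 par dep hpar Z (par v) := by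
  rw [top61, dif_pos h]

private theorem top_stop61 {Z : Finset V} {v : V} (h : ¬ (dep v ≠ 0 ∧ par v ∉ Z)) :
    top61 par dep hpar Z v = v := by
  rw [top61, dif_neg h]

private theorem top_end61 (Z : Finset V) (v : V) :
    dep (top61 par dep hpar Z v) = 0 ∨ par (top61 par dep hpar Z v) ∈ Z := by
  induction hn : dep v using Nat.strong_induction_on generalizing v with
  | _ n ih =>
    by_cases h : dep v ≠ 0 ∧ par v ∉ Z
    · rw [top_step61 par dep hpar h]
      have := hpar v h.1
      exact ih _ (by omega) (par v) rfl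
    · rw [top_stop61 par dep hpar h]
      tauto

private theorem top_notMem61 (Z : Finset V) (v : V) (hv : v ∉ Z) : top61 par dep hpar Z v ∉ Z := by
  induction hn : dep v using Nat.strong_induction_on generalizing v with
  | _ n ih =>
    by_cases h : dep v ≠ 0 ∧ par v ∉ Z
    · rw [top_step61 par dep hpar h]
      have := hpar v h.1
      exact ih _ (by omega) (par v) h.2 rfl
    · rw [top_stop61 par dep hpar h]
      exact hv

private theorem top_top61 (Z : Finset V) (v : V) :
    top61 par dep hpar Z (top61 par dep hpar Z v) = top61 par dep hpar Z v := by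
  refine top_stop61 par dep hpar ?_
  have := top_end61 par dep hpar Z v
  tauto

private theorem top_dep61 (Z : Finset V) (v : V) : dep (top61 par dep hpar Z v) ≤ dep v ∧
    (dep (top61 par dep hpar Z v) = dep v → top61 par dep hpar Z v = v) := by
  induction hn : dep v using Nat.strong_induction_on generalizing v with
  | _ n ih =>
    by_cases h : dep v ≠ 0 ∧ par v ∉ Z
    · rw [top_step61 par dep hpar h]
      have h1 := hpar v h.1
      have h2 := (ih _ (by omega) (par v) rfl).1
      exact ⟨by omega, fun h3 => by omega⟩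
    · rw [top_stop61 par dep hpar h]
      exact ⟨hn.le, fun _ => rfl⟩

private theorem top_mem61 {A : V → Prop} (hA : ∀ v, A v → dep v ≠ 0 → A (par v)) (Z : Finset V) (v : V) (hv : A v) :
    A (top61 par dep hpar Z v) := by
  induction hn : dep v using Nat.strong_induction_on generalizing v with
  | _ n ih =>
    by_cases h : dep v ≠ 0 ∧ par v ∉ Z
    · rw [top_step61 par dep hpar h]
      have := hpar v h.1
      exact ih _ (by omega) (par v) (hA v hv h.1) rfl
    · rw [top_stop61 par dep hpar h]
      exact hv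

/-- The first vertex of `Z` below `r`. -/
private theorem first61 {Z : Finset V} {r : V} (hr : r ∉ Z) {y : V} (h : Relation.ReflTransGen (St61 par dep) y r) :
    (∃ z ∈ Z, dep z ≠ 0 ∧ par z ∉ Z ∧ top61 par dep hpar Z (par z) = top61 par dep hpar Z r) ∨
      (y ∉ Z ∧ top61 par dep hpar Z y = top61 par dep hpar Z r) := by
  induction h using Relation.ReflTransGen.head_induction_on with
  | refl => exact Or.inr ⟨hr, rfl⟩
  | @head a c hst _ ih =>
    obtain ⟨h1, h2⟩ := hst
    rcases ih with h3 | ⟨h3, h4⟩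
    · exact Or.inl h3
    · by_cases ha : a ∈ Z
      · exact Or.inl ⟨a, ha, h1, by rw [h2]; exact h3, by rw [h2]; exact h4⟩
      · refine Or.inr ⟨ha, ?_⟩
        rw [top_step61 par dep hpar ⟨h1, by rw [h2]; exact h3⟩, h2]
        exact h4

/-- The part of `A` below a vertex is a path as long as it avoids `Z`. -/
private theorem path61 {A : V → Prop} (hA : ∀ v, A v → dep v ≠ 0 → A (par v)) {Z : Finset V}
    (hZ : ∀ u v w, A u → A v → dep u ≠ 0 → dep v ≠ 0 → par u = w → par v = w → w ∉ Z → u = v) (n : ℕ) :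
    ∀ a b : V, dep b = n → dep a ≤ dep b → A a → a ∉ Z → A b → b ∉ Z →
      top61 par dep hpar Z a = top61 par dep hpar Z b →
      Relation.ReflTransGen (fun x y => dep x ≠ 0 ∧ par x = y ∧ A x ∧ x ∉ Z) b a := by
  induction n using Nat.strong_induction_on with
  | _ n ih =>
    intro a b hb hab ha haZ hb' hbZ htop
    have ta := top_dep61 par dep hpar Z a
    have tb := top_dep61 par dep hpar Z b
    rcases Nat.lt_or_ge (dep a) (dep b) with h1 | h1
    · -- `b` is not the top
      have h2 : dep b ≠ 0 ∧ par b ∉ Z := by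
        by_contra h3
        have h4 := top_stop61 par dep hpar h3
        rw [h4] at htop
        rw [htop] at ta
        omega
      have h3 := hpar b h2.1
      have h4 := ih (dep (par b)) (by omega) a (par b) rfl (by omega) ha haZ (hA b hb' h2.1) h2.2
        (by rw [htop, top_step61 par dep hpar h2])
      exact Relation.ReflTransGen.head ⟨h2.1, rfl, hb', hbZ⟩ h4
    · have hd : dep a = dep b := by omega
      by_cases h3 : dep b ≠ 0 ∧ par b ∉ Z
      · have h4 : dep a ≠ 0 ∧ par a ∉ Z := by
          by_contra h5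
          have h6 := top_stop61 par dep hpar h5
          rw [h6, top_step61 par dep hpar h3] at htop
          have h7 := (top_dep61 par dep hpar Z (par b)).1
          have h8 := hpar b h3.1
          rw [← htop] at h7
          omega
        have h5 := hpar b h3.1
        have h6 := hpar a h4.1
        have h7 := ih (dep (par b)) (by omega) (par a) (par b) rfl (by omega) (hA a ha h4.1) h4.2
          (hA b hb' h3.1) h3.2 (by rw [← top_step61 par dep hpar h3, ← top_step61 par dep hpar h4, htop])
        have h8 : par b = par a := by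
          rcases Relation.ReflTransGen.cases_head h7 with h9 | ⟨c, ⟨h9, h10, -, -⟩, h11⟩
          · exact h9
          · exfalso
            have h12 := hpar _ h9
            have h13 : ∀ x y, Relation.ReflTransGen (fun x y => dep x ≠ 0 ∧ par x = y ∧ A x ∧ x ∉ Z) x y →
                dep y ≤ dep x := by
              intro x y hxy
              induction hxy with
              | refl => exact le_rfl
              | tail _ h14 ih' =>
                have h15 := hpar _ h14.1
                rw [h14.2.1] at h15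
                omega
            have h16 := h13 _ _ h11
            rw [h10] at h12
            omega
        have h9 : b = a := hZ b a (par a) hb' ha h3.1 h4.1 h8 rfl h4.2
        rw [h9]
      · have h4 := top_stop61 par dep hpar h3
        rw [h4] at htop
        have h5 := ta.2 (by rw [htop]; omega)
        rw [htop] at h5
        rw [h5]

omit hpar in
/-- Counting the branching vertices. -/
private theorem count61 {A X : Finset V} (hA : ∀ v ∈ A, dep v ≠ 0 → par v ∈ A)
    (hX : ∀ v ∈ A, (∀ u ∈ A, dep u ≠ 0 → par u ≠ v) → v ∈ X) :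
    (A.filter fun v => 2 ≤ (A.filter fun u => dep u ≠ 0 ∧ par u = v).card).card ≤ X.card := by
  set c : V → ℕ := fun v => (A.filter fun u => dep u ≠ 0 ∧ par u = v).card with hc
  have h1 : ∑ v ∈ A, c v ≤ A.card := by
    have h2 : ∑ v ∈ A, c v = (A.filter fun u => dep u ≠ 0).card := by
      rw [Finset.card_eq_sum_card_fiberwise (s := A.filter fun u => dep u ≠ 0) (t := A) (f := par)
        (fun u hu => by
          have := Finset.mem_filter.1 (Finset.mem_coe.1 hu)
          exact hA u this.1 this.2)]
      refine Finset.sum_congr rfl fun v _ => ?_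
      rw [hc, Finset.filter_filter]
    rw [h2]
    exact Finset.card_filter_le _ _
  have h3 : (A.filter fun v => 2 ≤ c v).card + A.card ≤ ∑ v ∈ A, c v + (A.filter fun v => c v = 0).card := by
    rw [Finset.card_filter, Finset.card_filter, Finset.card_eq_sum_ones A, ← Finset.sum_add_distrib,
      ← Finset.sum_add_distrib]
    refine Finset.sum_le_sum fun v _ => ?_
    split_ifs <;> omega
  have h4 : A.filter (fun v => c v = 0) ⊆ X := by
    intro v hv
    rw [Finset.mem_filter] at hv
    refine hX v hv.1 fun u hu h5 h6 => ?_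
    have h7 := hv.2
    rw [hc, Finset.card_eq_zero] at h7
    have h8 : u ∈ A.filter fun u => dep u ≠ 0 ∧ par u = v := Finset.mem_filter.2 ⟨hu, h5, h6⟩
    rw [h7] at h8
    exact absurd h8 (Finset.notMem_empty u)
  have h5 := Finset.card_le_card h4
  change (A.filter fun v => 2 ≤ c v).card ≤ X.card
  omega

/-- The vertex of `Z` below a path is unique, first half. -/
private theorem uniq61 {A Z : Finset V} (hA : ∀ v ∈ A, dep v ≠ 0 → par v ∈ A)
    (hZ : ∀ u v w, u ∈ A → v ∈ A → dep u ≠ 0 → dep v ≠ 0 → par u = w → par v = w → w ∉ Z → u = v) (hZA : Z ⊆ A)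
    {u z : V} (hu : u ∈ Z) (hz : z ∈ Z) (hu0 : dep u ≠ 0) (hz0 : dep z ≠ 0) (hpu : par u ∉ Z) (hpz : par z ∉ Z)
    (htop : top61 par dep hpar Z (par u) = top61 par dep hpar Z (par z)) (hle : dep (par u) ≤ dep (par z)) : u = z := by
  have h1 := path61 par dep hpar (A := fun v => v ∈ A) hA hZ (dep (par z)) (par u) (par z) rfl hle
    (hA u (hZA hu) hu0) hpu (hA z (hZA hz) hz0) hpz htop
  rcases Relation.ReflTransGen.cases_tail h1 with h2 | ⟨c, -, h2, h3, h4, h5⟩
  · exact hZ u z (par u) (hZA hu) (hZA hz) hu0 hz0 rfl h2.symm hpu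
  · have h6 := hZ u c (par u) (hZA hu) h4 hu0 h2 rfl h3 hpu
    rw [h6] at hu
    exact absurd hu h5

end Top

theorem exists_group_one {V : Type} [Fintype V] [DecidableEq V] (par : V → V) (dep : V → ℕ)
    (hpar : ∀ v, dep v ≠ 0 → dep (par v) + 1 = dep v) (X : Finset V) (B : ℕ)
    (hB : (4 * X.card + 1) * B + 2 * X.card ≤ Fintype.card V) :
    ∃ Y D : Finset V, Disjoint Y X ∧ Disjoint Y D ∧ D.card ≤ 2 ∧ B ≤ Y.card ∧
      (∀ v ∈ Y, dep v ≠ 0 → par v ∈ Y ∨ par v ∈ D) ∧
      (∀ u, dep u ≠ 0 → par u ∈ Y → u ∈ Y ∨ u ∈ D) ∧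
      ∀ u ∈ D, ∀ u' ∈ D, dep u ≠ 0 → dep u' ≠ 0 → par u ∈ Y → par u' ∈ Y → u = u' := by
  classical
  -- the ancestors of the marked vertices
  obtain ⟨A, hmemA⟩ : ∃ A : Finset V, ∀ v, v ∈ A ↔ ∃ x ∈ X, Relation.ReflTransGen (St61 par dep) x v :=
    ⟨Finset.univ.filter fun v => ∃ x ∈ X, Relation.ReflTransGen (St61 par dep) x v, fun v => by
      rw [Finset.mem_filter]
      exact ⟨fun h => h.2, fun h => ⟨Finset.mem_univ _, h⟩⟩⟩
  have hAp : ∀ v ∈ A, dep v ≠ 0 → par v ∈ A := by
    intro v hv h0
    obtain ⟨x, hx, h⟩ := (hmemA v).1 hv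
    exact (hmemA _).2 ⟨x, hx, h.tail ⟨h0, rfl⟩⟩
  have hXA : X ⊆ A := fun x hx => (hmemA x).2 ⟨x, hx, Relation.ReflTransGen.refl⟩
  have hleaf : ∀ v ∈ A, (∀ u ∈ A, dep u ≠ 0 → par u ≠ v) → v ∈ X := by
    intro v hv h
    obtain ⟨x, hx, hxv⟩ := (hmemA v).1 hv
    rcases Relation.ReflTransGen.cases_tail hxv with h1 | ⟨c, h1, h2, h3⟩
    · rw [h1]
      exact hx
    · exact absurd h3 (h c ((hmemA c).2 ⟨x, hx, h1⟩) h2)
  obtain ⟨Z, hZdef⟩ : ∃ Z : Finset V, Z = X ∪ A.filter fun v => 2 ≤ (A.filter fun u => dep u ≠ 0 ∧ par u = v).card :=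
    ⟨_, rfl⟩
  have hZcard : Z.card ≤ 2 * X.card := by
    have h1 := count61 par dep hAp hleaf
    have h2 := Finset.card_union_le X (A.filter fun v => 2 ≤ (A.filter fun u => dep u ≠ 0 ∧ par u = v).card)
    rw [← hZdef] at h2
    omega
  have hZA : Z ⊆ A := by
    rw [hZdef]
    exact Finset.union_subset hXA (Finset.filter_subset _ _)
  have hXZ : X ⊆ Z := by
    rw [hZdef]
    exact Finset.subset_union_left
  have hbr : ∀ u v w, u ∈ A → v ∈ A → dep u ≠ 0 → dep v ≠ 0 → par u = w → par v = w → w ∉ Z → u = v := by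
    intro u v w hu hv h1 h2 h3 h4 hw
    by_contra hne
    apply hw
    rw [hZdef]
    refine Finset.mem_union_right _ (Finset.mem_filter.2 ⟨h3 ▸ hAp u hu h1, ?_⟩)
    have h6 : ({u, v} : Finset V) ⊆ A.filter fun u => dep u ≠ 0 ∧ par u = w := by
      intro y hy
      rw [Finset.mem_insert, Finset.mem_singleton] at hy
      rcases hy with rfl | rfl
      · exact Finset.mem_filter.2 ⟨hu, h1, h3⟩
      · exact Finset.mem_filter.2 ⟨hv, h2, h4⟩
    have h5 := Finset.card_le_card h6
    rw [Finset.card_pair hne] at h5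
    exact h5
  have huniq : ∀ u z, u ∈ Z → z ∈ Z → dep u ≠ 0 → dep z ≠ 0 → par u ∉ Z → par z ∉ Z →
      top61 par dep hpar Z (par u) = top61 par dep hpar Z (par z) → u = z := by
    intro u z hu hz hu0 hz0 hpu hpz ht
    rcases le_total (dep (par u)) (dep (par z)) with h | h
    · exact uniq61 par dep hpar hAp hbr hZA hu hz hu0 hz0 hpu hpz ht h
    · exact (uniq61 par dep hpar hAp hbr hZA hz hu hz0 hu0 hpz hpu ht.symm h).symm
  -- a group and its neighbours
  have key : ∀ (P : V → Prop) (D : Finset V), D ⊆ Z → D.card ≤ 2 →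
      B ≤ (Zᶜ.filter fun v => P (top61 par dep hpar Z v)).card →
      (∀ v, dep v ≠ 0 → par v ∈ Z → P v → par v ∈ D) →
      (∀ u ∈ Z, dep u ≠ 0 → par u ∉ Z → P (top61 par dep hpar Z (par u)) → u ∈ D) →
      (∀ u u', u ∈ Z → u' ∈ Z → dep u ≠ 0 → dep u' ≠ 0 → par u ∉ Z → par u' ∉ Z →
        P (top61 par dep hpar Z (par u)) → P (top61 par dep hpar Z (par u')) → u = u') →
      ∃ Y D : Finset V, Disjoint Y X ∧ Disjoint Y D ∧ D.card ≤ 2 ∧ B ≤ Y.card ∧
        (∀ v ∈ Y, dep v ≠ 0 → par v ∈ Y ∨ par v ∈ D) ∧
        (∀ u, dep u ≠ 0 → par u ∈ Y → u ∈ Y ∨ u ∈ D) ∧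
        ∀ u ∈ D, ∀ u' ∈ D, dep u ≠ 0 → dep u' ≠ 0 → par u ∈ Y → par u' ∈ Y → u = u' := by
    intro P D hDZ hD hBY h1 h2 h3
    have hdis : Disjoint (Zᶜ.filter fun v => P (top61 par dep hpar Z v)) Z := by
      rw [Finset.disjoint_left]
      intro v hv
      exact Finset.mem_compl.1 (Finset.mem_filter.1 hv).1
    refine ⟨Zᶜ.filter fun v => P (top61 par dep hpar Z v), D, Finset.disjoint_of_subset_right hXZ hdis,
      Finset.disjoint_of_subset_right hDZ hdis, hD, hBY, ?_, ?_, ?_⟩
    · intro v hv hv0
      rw [Finset.mem_filter, Finset.mem_compl] at hv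
      by_cases hpv : par v ∈ Z
      · right
        rw [top_stop61 par dep hpar (fun h => h.2 hpv)] at hv
        exact h1 v hv0 hpv hv.2
      · left
        rw [top_step61 par dep hpar ⟨hv0, hpv⟩] at hv
        exact Finset.mem_filter.2 ⟨Finset.mem_compl.2 hpv, hv.2⟩
    · intro u hu0 hu
      rw [Finset.mem_filter, Finset.mem_compl] at hu
      by_cases huZ : u ∈ Z
      · exact Or.inr (h2 u huZ hu0 hu.1 hu.2)
      · left
        refine Finset.mem_filter.2 ⟨Finset.mem_compl.2 huZ, ?_⟩
        rw [top_step61 par dep hpar ⟨hu0, hu.1⟩]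
        exact hu.2
    · intro u hu u' hu' hu0 hu0' hp hp'
      rw [Finset.mem_filter, Finset.mem_compl] at hp hp'
      exact h3 u u' (hDZ hu) (hDZ hu') hu0 hu0' hp.1 hp'.1 hp.2 hp'.2
  -- every vertex outside of `Z` is in a group
  obtain ⟨Q, hQ⟩ : ∃ Q : Option (V × Bool) → V → Prop,
      Q = fun k t => match k with
        | none => t ∉ A ∧ dep t = 0
        | some (z, false) => t ∉ A ∧ dep t ≠ 0 ∧ par t = z
        | some (z, true) => dep z ≠ 0 ∧ par z ∉ Z ∧ top61 par dep hpar Z (par z) = t := ⟨_, rfl⟩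
  have hex : ∀ v, v ∈ Zᶜ → ∃ k, k ∈ Finset.insertNone (Z ×ˢ (Finset.univ : Finset Bool)) ∧
      Q k (top61 par dep hpar Z v) := by
    intro v hv
    rw [Finset.mem_compl] at hv
    by_cases h1 : top61 par dep hpar Z v ∈ A
    · obtain ⟨x, hx, h2⟩ := (hmemA _).1 h1
      rcases first61 par dep hpar (top_notMem61 par dep hpar Z v hv) h2 with ⟨z, hz, h3, h4, h5⟩ | ⟨h3, -⟩
      · refine ⟨some (z, true), ?_, ?_⟩
        · rw [Finset.some_mem_insertNone]
          exact Finset.mem_product.2 ⟨hz, Finset.mem_univ _⟩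
        · rw [hQ]
          refine ⟨h3, h4, ?_⟩
          rw [h5, top_top61]
      · exact absurd (hXZ hx) h3
    · by_cases h2 : dep (top61 par dep hpar Z v) = 0
      · refine ⟨none, Finset.none_mem_insertNone, ?_⟩
        rw [hQ]
        exact ⟨h1, h2⟩
      · refine ⟨some (par (top61 par dep hpar Z v), false), ?_, ?_⟩
        · rw [Finset.some_mem_insertNone]
          exact Finset.mem_product.2 ⟨(top_end61 par dep hpar Z v).resolve_left h2, Finset.mem_univ _⟩
        · rw [hQ]
          exact ⟨h1, h2, rfl⟩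
  have hex' : ∀ v, ∃ k, v ∈ Zᶜ → k ∈ Finset.insertNone (Z ×ˢ (Finset.univ : Finset Bool)) ∧
      Q k (top61 par dep hpar Z v) := by
    intro v
    by_cases hv : v ∈ Zᶜ
    · obtain ⟨k, hk⟩ := hex v hv
      exact ⟨k, fun _ => hk⟩
    · exact ⟨none, fun h => absurd h hv⟩
  choose f hf using hex'
  have hcard : (Finset.insertNone (Z ×ˢ (Finset.univ : Finset Bool))).card = 2 * Z.card + 1 := by
    rw [Finset.card_insertNone, Finset.card_product, Finset.card_univ, Fintype.card_bool]
    ring
  obtain ⟨k, hk, hk2⟩ := Finset.exists_le_card_fiber_of_mul_le_card_of_maps_to (s := Zᶜ) (f := f)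
    (t := Finset.insertNone (Z ×ˢ (Finset.univ : Finset Bool))) (n := B) (fun v hv => (hf v hv).1)
    ⟨none, Finset.none_mem_insertNone⟩ (by
      rw [hcard, Finset.card_compl]
      have h1 : (2 * Z.card + 1) * B ≤ (4 * X.card + 1) * B := Nat.mul_le_mul_right _ (by omega)
      omega)
  have hBY : B ≤ (Zᶜ.filter fun v => Q k (top61 par dep hpar Z v)).card := by
    refine le_trans hk2 (Finset.card_le_card fun v hv => ?_)
    rw [Finset.mem_filter] at hv
    refine Finset.mem_filter.2 ⟨hv.1, ?_⟩
    have h1 := (hf v hv.1).2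
    rw [hv.2] at h1
    exact h1
  have hAtop : ∀ u ∈ Z, dep u ≠ 0 → top61 par dep hpar Z (par u) ∈ A := fun u hu hu0 =>
    top_mem61 par dep hpar (A := fun v => v ∈ A) hAp Z (par u) (hAp u (hZA hu) hu0)
  rcases k with _ | ⟨z, b⟩
  · refine key (Q none) ∅ (Finset.empty_subset _) (by simp) hBY ?_ ?_ ?_
    · intro v hv0 _ hv
      rw [hQ] at hv
      exact absurd hv.2 hv0
    · intro u hu hu0 _ hq
      rw [hQ] at hq
      exact absurd (hAtop u hu hu0) hq.1
    · intro u u' hu _ hu0 _ _ _ hq _
      rw [hQ] at hq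
      exact absurd (hAtop u hu hu0) hq.1
  · rw [Finset.some_mem_insertNone, Finset.mem_product] at hk
    have hz : z ∈ Z := hk.1
    cases b with
    | false =>
      refine key (Q (some (z, false))) {z} (Finset.singleton_subset_iff.2 hz) (by simp) hBY ?_ ?_ ?_
      · intro v hv0 _ hv
        rw [hQ] at hv
        exact Finset.mem_singleton.2 hv.2.2
      · intro u hu hu0 _ hq
        rw [hQ] at hq
        exact absurd (hAtop u hu hu0) hq.1
      · intro u u' hu _ hu0 _ _ _ hq _
        rw [hQ] at hq
        exact absurd (hAtop u hu hu0) hq.1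
    | true =>
      have h61 : ∀ u u', u ∈ Z → u' ∈ Z → dep u ≠ 0 → dep u' ≠ 0 → par u ∉ Z → par u' ∉ Z →
          Q (some (z, true)) (top61 par dep hpar Z (par u)) → Q (some (z, true)) (top61 par dep hpar Z (par u')) →
          u = u' := by
        intro u u' hu hu' hu0 hu0' hp hp' hq hq'
        rw [hQ] at hq hq'
        exact huniq u u' hu hu' hu0 hu0' hp hp' (hq.2.2.symm.trans hq'.2.2)
      by_cases h0 : dep (top61 par dep hpar Z (par z)) = 0
      · refine key (Q (some (z, true))) {z} (Finset.singleton_subset_iff.2 hz) (by simp) hBY ?_ ?_ ?_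
        · intro v hv0 _ hv
          rw [hQ] at hv
          rw [hv.2.2] at h0
          exact absurd h0 hv0
        · intro u hu hu0 hpu hq
          rw [hQ] at hq
          exact Finset.mem_singleton.2 (huniq u z hu hz hu0 hq.1 hpu hq.2.1 hq.2.2.symm)
        · exact h61
      · refine key (Q (some (z, true))) {z, par (top61 par dep hpar Z (par z))} ?_ Finset.card_le_two hBY ?_ ?_ ?_
        · intro y hy
          rw [Finset.mem_insert, Finset.mem_singleton] at hy
          rcases hy with rfl | rfl
          · exact hz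
          · exact (top_end61 par dep hpar Z (par z)).resolve_left h0
        · intro v hv0 _ hv
          rw [hQ] at hv
          rw [Finset.mem_insert, Finset.mem_singleton, hv.2.2]
          exact Or.inr rfl
        · intro u hu hu0 hpu hq
          rw [hQ] at hq
          rw [Finset.mem_insert]
          exact Or.inl (huniq u z hu hz hu0 hq.1 hpu hq.2.1 hq.2.2.symm)
        · exact h61

end Pool.Agent.Helper38.SPT
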