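import Pool.Agent.Helper38.SPT.GDefs

/-!
# Block SPT-G5: edges inside sets, the part of a forest

`Y` is a set of vertices of a forest part: every edge meeting `Y` is of the form `s(v, par v)` with `dep v ≠ 0`; all such `v` are in `Y` or
are the one element `z ∉ Y` (in `eIn_cut0` all are in `Y`).  The edges inside `U` which meet `Y` are injected into `(U ∩ Y) ∪ {z}` by `s(v, par v) ↦ v`; so
there are at most `|U ∩ Y| + 1`.  If there are exactly `|U ∩ Y| + 1` of them then every `v ∈ U ∩ Y` occurs (so `dep v ≠ 0` and `par v ∈ U`), and `z` occurs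
(`z ∈ U`, `dep z ≠ 0`, `par z ∈ U ∩ Y`).  (`eIn G U` is the number of edges inside `U` meeting `Y` plus `eIn G (U \ Y)`.)
-/

set_option autoImplicit false

namespace Pool.Agent.Helper38.SPT

/-- the vertices whose edge to the parent is inside `U` and meets `Y` -/
private def Sv61 {V : Type} (par : V → V) (dep : V → ℕ) (Y U : Set V) : Set V :=
  {v | dep v ≠ 0 ∧ v ∈ U ∧ par v ∈ U ∧ (v ∈ Y ∨ par v ∈ Y)}

private theorem eIn_le61 {V : Type} [Finite V] (G : SimpleGraph V) (par : V → V) (dep : V → ℕ) (Y : Set V)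
    (h1 : ∀ x y, G.Adj x y → x ∈ Y → (dep x ≠ 0 ∧ par x = y) ∨ (dep y ≠ 0 ∧ par y = x)) (U : Set V) :
    eIn G U ≤ eIn G (U \ Y) + (Sv61 par dep Y U).ncard := by
  unfold eIn
  have hsub : {e : Sym2 V | e ∈ G.edgeSet ∧ ∀ x ∈ e, x ∈ U} ⊆
      {e : Sym2 V | e ∈ G.edgeSet ∧ ∀ x ∈ e, x ∈ U \ Y} ∪ (fun v => s(v, par v)) '' Sv61 par dep Y U := by
    rintro e ⟨he, hU⟩
    by_cases hY : ∃ x ∈ e, x ∈ Y
    · right
      obtain ⟨x, hx, hxY⟩ := hY
      obtain ⟨y, rfl⟩ := Sym2.mem_iff_exists.1 hx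
      have hadj : G.Adj x y := (SimpleGraph.mem_edgeSet G).1 he
      have hxU := hU x (Sym2.mem_mk_left x y)
      have hyU := hU y (Sym2.mem_mk_right x y)
      rcases h1 x y hadj hxY with ⟨h2, h3⟩ | ⟨h2, h3⟩
      · exact ⟨x, ⟨h2, hxU, by rw [h3]; exact hyU, Or.inl hxY⟩, by
          show s(x, par x) = s(x, y)
          rw [h3]⟩
      · exact ⟨y, ⟨h2, hyU, by rw [h3]; exact hxU, Or.inr (by rw [h3]; exact hxY)⟩, by
          show s(y, par y) = s(x, y)
          rw [h3, Sym2.eq_swap]⟩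
    · left
      exact ⟨he, fun x hx => ⟨hU x hx, fun h => hY ⟨x, hx, h⟩⟩⟩
  refine (Set.ncard_le_ncard hsub (Set.toFinite _)).trans ((Set.ncard_union_le _ _).trans ?_)
  exact Nat.add_le_add_left (Set.ncard_image_le (Set.toFinite _)) _

theorem eIn_cut0 {V : Type} [Finite V] (G : SimpleGraph V) (par : V → V) (dep : V → ℕ)
    (hpar : ∀ v, dep v ≠ 0 → dep (par v) < dep v) (Y : Set V)
    (h1 : ∀ x y, G.Adj x y → x ∈ Y → (dep x ≠ 0 ∧ par x = y) ∨ (dep y ≠ 0 ∧ par y = x))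
    (h2 : ∀ u, dep u ≠ 0 → par u ∈ Y → u ∈ Y) (U : Set V) :
    eIn G U ≤ eIn G (U \ Y) + (U ∩ Y).ncard := by
  refine (eIn_le61 G par dep Y h1 U).trans (Nat.add_le_add_left (Set.ncard_le_ncard ?_ (Set.toFinite _)) _)
  rintro v ⟨h3, h4, -, h5⟩
  exact ⟨h4, h5.elim id fun h => h2 v h3 h⟩

theorem eIn_cut {V : Type} [Finite V] (G : SimpleGraph V) (par : V → V) (dep : V → ℕ)
    (hpar : ∀ v, dep v ≠ 0 → dep (par v) < dep v) (Y : Set V) (z : V) (hz : z ∉ Y)
    (h1 : ∀ x y, G.Adj x y → x ∈ Y → (dep x ≠ 0 ∧ par x = y) ∨ (dep y ≠ 0 ∧ par y = x))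
    (h2 : ∀ u, dep u ≠ 0 → par u ∈ Y → u ∈ Y ∨ u = z) (U : Set V) :
    eIn G U ≤ eIn G (U \ Y) + (U ∩ Y).ncard ∨
    (eIn G U ≤ eIn G (U \ Y) + (U ∩ Y).ncard + 1 ∧ (∀ v ∈ U ∩ Y, dep v ≠ 0 ∧ par v ∈ U) ∧
      z ∈ U ∧ dep z ≠ 0 ∧ par z ∈ U ∩ Y) := by
  have h0 := eIn_le61 G par dep Y h1 U
  have hS : ∀ v ∈ Sv61 par dep Y U, v ∈ U ∩ Y ∨ v = z := by
    rintro v ⟨h3, h4, -, h5⟩
    rcases h5 with h5 | h5
    · exact Or.inl ⟨h4, h5⟩
    · rcases h2 v h3 h5 with h6 | h6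
      · exact Or.inl ⟨h4, h6⟩
      · exact Or.inr h6
  by_cases hzS : z ∈ Sv61 par dep Y U
  · by_cases hall : ∀ v ∈ U ∩ Y, v ∈ Sv61 par dep Y U
    · right
      refine ⟨?_, fun v hv => ⟨(hall v hv).1, (hall v hv).2.2.1⟩, hzS.2.1, hzS.1, hzS.2.2.1, hzS.2.2.2.resolve_left hz⟩
      have h3 : Sv61 par dep Y U ⊆ insert z (U ∩ Y) := by
        intro v hv
        rcases hS v hv with h4 | h4
        · exact Or.inr h4
        · exact Or.inl h4
      have h4 := Set.ncard_le_ncard h3 (Set.toFinite _)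
      have h5 := Set.ncard_insert_le z (U ∩ Y)
      omega
    · left
      push Not at hall
      obtain ⟨v, hv, hvS⟩ := hall
      have h3 : Sv61 par dep Y U ⊆ insert z ((U ∩ Y) \ {v}) := by
        intro w hw
        rcases hS w hw with h4 | h4
        · refine Or.inr ⟨h4, ?_⟩
          rintro rfl
          exact hvS hw
        · exact Or.inl h4
      have h4 := Set.ncard_le_ncard h3 (Set.toFinite _)
      have h5 := Set.ncard_insert_le z ((U ∩ Y) \ {v})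
      have h6 := Set.ncard_sdiff_singleton_add_one hv (Set.toFinite _)
      omega
  · left
    have h3 : Sv61 par dep Y U ⊆ U ∩ Y := by
      intro v hv
      rcases hS v hv with h4 | rfl
      · exact h4
      · exact absurd hv hzS
    have h4 := Set.ncard_le_ncard h3 (Set.toFinite _)
    omega

end Pool.Agent.Helper38.SPT

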