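import Pool.Agent.Helper38.SPT.GDefs

/-!
# Block SPT-G5B: edges inside sets, paths, maps, connected extensions

`eIn_path`: `P` is a set of vertices each of which has exactly two neighbours in `P ∪ {a, b}`, `a ≠ b`, `a, b ∉ P` have exactly one neighbour in `P` each.
Double counting: the sum over `v ∈ P` of the degrees in `P ∪ {a, b}` is `2 |P| = 2 (edges inside P) + 2`, so the number of edges inside `P ∪ {a, b}` meeting
`P` is `|P| + 1`.
`eIn_map`: an injective map on `U` which preserves adjacency.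
`eIn_extend`: as long as `U ≠ W` there is a vertex of `W \ U` with a neighbour in `U` (walk from a vertex of `W \ U` to `U`, inside `W` because `W` is closed);
add it: at least one new edge and one new vertex.
-/

set_option autoImplicit false

namespace Pool.Agent.Helper38.SPT

private theorem two_fibre28 {V : Type} [DecidableEq V] (D : Finset (V × V)) (e : Sym2 V) :
    (D.filter (fun p => s(p.1, p.2) = e)).card ≤ 2 := by
  induction e with
  | _ x y =>
    refine (Finset.card_le_card (t := {(x, y), (y, x)}) ?_).trans Finset.card_le_two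
    intro p hp
    have h := (Finset.mem_filter.1 hp).2
    rw [Sym2.eq_iff] at h
    rcases h with ⟨h1, h2⟩ | ⟨h1, h2⟩
    · simp [Prod.ext_iff, h1, h2]
    · simp [Prod.ext_iff, h1, h2]

theorem eIn_path {V : Type} [Finite V] (G : SimpleGraph V) (P T : Set V) (a b : V) (hab : a ≠ b)
    (ha : a ∈ T) (hb : b ∈ T) (hPT : Disjoint P T)
    (h2 : ∀ v ∈ P, {y | G.Adj v y ∧ (y ∈ P ∨ y = a ∨ y = b)}.ncard = 2)
    (ha1 : {y | G.Adj a y ∧ y ∈ P}.ncard = 1) (hb1 : {y | G.Adj b y ∧ y ∈ P}.ncard = 1) :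
    eIn G T + P.ncard + 1 ≤ eIn G (T ∪ P) := by
  classical
  have := Fintype.ofFinite V
  have haP : a ∉ P := fun h => Set.disjoint_left.1 hPT h ha
  have hbP : b ∉ P := fun h => Set.disjoint_left.1 hPT h hb
  set D : Finset (V × V) := Finset.univ.filter (fun p => G.Adj p.1 p.2 ∧
    (p.1 ∈ P ∧ (p.2 ∈ P ∨ p.2 = a ∨ p.2 = b) ∨ (p.1 = a ∨ p.1 = b) ∧ p.2 ∈ P)) with hD
  set Pf : Finset V := P.toFinset with hPf
  have hPc : Pf.card = P.ncard := by rw [hPf, Set.ncard_eq_toFinset_card']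
  have haPf : a ∉ insert b Pf := by
    rw [Finset.mem_insert, hPf, Set.mem_toFinset]
    rintro (h | h)
    · exact hab h
    · exact haP h
  have hbPf : b ∉ Pf := by rw [hPf, Set.mem_toFinset]; exact hbP
  have hfib : ∀ x : V, (D.filter (fun p => p.1 = x)).card =
      {y | G.Adj x y ∧ (x ∈ P ∧ (y ∈ P ∨ y = a ∨ y = b) ∨ (x = a ∨ x = b) ∧ y ∈ P)}.ncard := by
    intro x
    rw [Set.ncard_eq_toFinset_card']
    refine (Finset.card_nbij (fun y => (x, y)) ?_ ?_ ?_).symm
    · intro y hy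
      have hy' := Set.mem_toFinset.1 hy
      exact Finset.mem_filter.2 ⟨Finset.mem_filter.2 ⟨Finset.mem_univ _, hy'⟩, rfl⟩
    · intro y _ y' _ h
      exact (Prod.ext_iff.1 h).2
    · rintro ⟨u, y⟩ hp
      have hp' := Finset.mem_filter.1 (Finset.mem_coe.1 hp)
      obtain ⟨h3, h4⟩ := hp'
      simp only at h4
      subst h4
      rw [hD] at h3
      simp only [Finset.mem_filter, Finset.mem_univ, true_and] at h3
      exact ⟨y, by simpa using h3, rfl⟩
  have hDc : D.card = 2 * P.ncard + 2 := by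
    have h3 := Finset.card_eq_sum_card_fiberwise (f := Prod.fst) (s := D) (t := insert a (insert b Pf)) (by
      intro p hp
      have hp' := (Finset.mem_filter.1 (Finset.mem_coe.1 hp)).2.2
      rw [Finset.mem_coe, Finset.mem_insert, Finset.mem_insert, hPf, Set.mem_toFinset]
      rcases hp' with ⟨h4, -⟩ | ⟨h4 | h4, -⟩
      · exact Or.inr (Or.inr h4)
      · exact Or.inl h4
      · exact Or.inr (Or.inl h4))
    rw [h3, Finset.sum_insert haPf, Finset.sum_insert hbPf, hfib a, hfib b]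
    have e1 : {y | G.Adj a y ∧ (a ∈ P ∧ (y ∈ P ∨ y = a ∨ y = b) ∨ (a = a ∨ a = b) ∧ y ∈ P)} =
        {y | G.Adj a y ∧ y ∈ P} := by
      ext y
      simp [haP]
    have e2 : {y | G.Adj b y ∧ (b ∈ P ∧ (y ∈ P ∨ y = a ∨ y = b) ∨ (b = a ∨ b = b) ∧ y ∈ P)} =
        {y | G.Adj b y ∧ y ∈ P} := by
      ext y
      simp [hbP]
    rw [e1, e2, ha1, hb1]
    have e3 : ∑ x ∈ Pf, (D.filter (fun p => p.1 = x)).card = ∑ x ∈ Pf, 2 := by
      refine Finset.sum_congr rfl fun x hx => ?_
      have hxP : x ∈ P := by rw [hPf, Set.mem_toFinset] at hx; exact hx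
      rw [hfib x, ← h2 x hxP]
      congr 1
      ext y
      have hxa : x ≠ a := fun h => haP (h ▸ hxP)
      have hxb : x ≠ b := fun h => hbP (h ▸ hxP)
      simp [hxP, hxa, hxb]
    rw [e3, Finset.sum_const, hPc, smul_eq_mul]
    omega
  have hE := Finset.card_le_mul_card_image (f := fun p : V × V => s(p.1, p.2)) D 2
    (fun e _ => two_fibre28 D e)
  set E1 : Set (Sym2 V) := ((D.image (fun p : V × V => s(p.1, p.2)) : Finset (Sym2 V)) : Set (Sym2 V)) with hE1
  have hE1c : E1.ncard = (D.image (fun p : V × V => s(p.1, p.2))).card := Set.ncard_coe_finset _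
  have hge : P.ncard + 1 ≤ E1.ncard := by
    rw [hE1c]
    omega
  have hmem : ∀ e ∈ E1, e ∈ G.edgeSet ∧ (∀ x ∈ e, x ∈ T ∪ P) ∧ ∃ x ∈ e, x ∈ P := by
    intro e he
    rw [hE1, Finset.mem_coe, Finset.mem_image] at he
    obtain ⟨⟨x, y⟩, hp, rfl⟩ := he
    rw [hD, Finset.mem_filter] at hp
    obtain ⟨-, h3, h4⟩ := hp
    simp only at h3 h4
    refine ⟨by rw [SimpleGraph.mem_edgeSet]; exact h3, ?_, ?_⟩
    · intro z hz
      rw [Sym2.mem_iff] at hz
      rcases h4 with ⟨h5, h6⟩ | ⟨h5, h6⟩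
      · rcases hz with rfl | rfl
        · exact Or.inr h5
        · rcases h6 with h6 | h6 | h6
          · exact Or.inr h6
          · exact Or.inl (h6 ▸ ha)
          · exact Or.inl (h6 ▸ hb)
      · rcases hz with rfl | rfl
        · rcases h5 with h5 | h5
          · exact Or.inl (h5 ▸ ha)
          · exact Or.inl (h5 ▸ hb)
        · exact Or.inr h6
    · rcases h4 with ⟨h5, -⟩ | ⟨-, h6⟩
      · exact ⟨x, Sym2.mem_mk_left x y, h5⟩
      · exact ⟨y, Sym2.mem_mk_right x y, h6⟩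
  unfold eIn
  have hdis : Disjoint {e : Sym2 V | e ∈ G.edgeSet ∧ ∀ x ∈ e, x ∈ T} E1 := by
    rw [Set.disjoint_left]
    rintro e ⟨-, h3⟩ h4
    obtain ⟨x, hx, hxP⟩ := (hmem e h4).2.2
    exact Set.disjoint_left.1 hPT hxP (h3 x hx)
  have hun := Set.ncard_union_eq hdis (Set.toFinite _) (Set.toFinite _)
  have hsub : {e : Sym2 V | e ∈ G.edgeSet ∧ ∀ x ∈ e, x ∈ T} ∪ E1 ⊆
      {e : Sym2 V | e ∈ G.edgeSet ∧ ∀ x ∈ e, x ∈ T ∪ P} := by
    rintro e (⟨h3, h4⟩ | h3)
    · exact ⟨h3, fun x hx => Or.inl (h4 x hx)⟩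
    · exact ⟨(hmem e h3).1, (hmem e h3).2.1⟩
  have hle := Set.ncard_le_ncard hsub (Set.toFinite _)
  omega

theorem eIn_map {V V' : Type} [Finite V] [Finite V'] (G : SimpleGraph V) (G' : SimpleGraph V')
    (U : Set V) (f : V → V') (hf : Set.InjOn f U)
    (h : ∀ x ∈ U, ∀ y ∈ U, G.Adj x y → G'.Adj (f x) (f y)) : eIn G U ≤ eIn G' (f '' U) := by
  unfold eIn
  refine Set.ncard_le_ncard_of_injOn (Sym2.map f) ?_ ?_ (Set.toFinite _)
  · intro e
    induction e with
    | _ x y =>
      rintro ⟨h1, h2⟩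
      rw [SimpleGraph.mem_edgeSet] at h1
      have hx := h2 x (Sym2.mem_mk_left x y)
      have hy := h2 y (Sym2.mem_mk_right x y)
      refine ⟨?_, ?_⟩
      · rw [Sym2.map_mk]
        exact h x hx y hy h1
      · intro z hz
        rw [Sym2.map_mk] at hz
        rcases Sym2.mem_iff.1 hz with rfl | rfl
        · exact ⟨x, hx, rfl⟩
        · exact ⟨y, hy, rfl⟩
  · intro e he e' he' hee
    induction e with
    | _ x y =>
      induction e' with
      | _ x' y' =>
        have hx := he.2 x (Sym2.mem_mk_left x y)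
        have hy := he.2 y (Sym2.mem_mk_right x y)
        have hx' := he'.2 x' (Sym2.mem_mk_left x' y')
        have hy' := he'.2 y' (Sym2.mem_mk_right x' y')
        rw [Sym2.map_mk, Sym2.map_mk] at hee
        rw [Sym2.eq_iff]
        rcases Sym2.eq_iff.1 hee with ⟨h1, h2⟩ | ⟨h1, h2⟩
        · exact Or.inl ⟨hf hx hx' h1, hf hy hy' h2⟩
        · exact Or.inr ⟨hf hx hy' h1, hf hy hx' h2⟩

private theorem walk_cross28 {V : Type} {G : SimpleGraph V} {U W : Set V}
    (hcl : ∀ x ∈ W, ∀ y, G.Adj x y → y ∈ W) {x y : V} (p : G.Walk x y) (hx : x ∉ U) (hxW : x ∈ W)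
    (hy : y ∈ U) : ∃ u v, G.Adj u v ∧ u ∉ U ∧ u ∈ W ∧ v ∈ U := by
  induction p with
  | nil => exact absurd hy hx
  | @cons a b c hab q ih =>
    by_cases hb : b ∈ U
    · exact ⟨a, b, hab, hx, hxW, hb⟩
    · exact ih hb (hcl a hxW b hab) hy

theorem eIn_extend {V : Type} [Finite V] (G : SimpleGraph V) (U W : Set V) (hUW : U ⊆ W)
    (hW : ∀ x ∈ W, ∃ y ∈ U, G.Reachable x y) (hcl : ∀ x ∈ W, ∀ y, G.Adj x y → y ∈ W) :
    eIn G U + W.ncard ≤ eIn G W + U.ncard := by
  obtain ⟨k, hk⟩ : ∃ k, (W \ U).ncard = k := ⟨_, rfl⟩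
  induction k generalizing U with
  | zero =>
    have h1 : W \ U = ∅ := (Set.ncard_eq_zero (Set.toFinite _)).1 hk
    have h2 : W = U := Set.Subset.antisymm (Set.sdiff_eq_empty.1 h1) hUW
    rw [h2]
  | succ k ih =>
    have h1 : (W \ U).Nonempty := by
      rw [← Set.ncard_pos (Set.toFinite _)]
      omega
    obtain ⟨x, hxW, hxU⟩ := h1
    obtain ⟨y, hyU, ⟨p⟩⟩ := hW x hxW
    obtain ⟨u, v, huv, hu, huW, hv⟩ := walk_cross28 hcl p hxU hxW hyU
    have h2 := ih (insert u U) (Set.insert_subset huW hUW)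
      (fun z hz => by
        obtain ⟨w, hw, hr⟩ := hW z hz
        exact ⟨w, Set.mem_insert_of_mem _ hw, hr⟩) (by
        have e : W \ U = insert u (W \ insert u U) := by
          ext z
          simp only [Set.mem_sdiff, Set.mem_insert_iff, not_or]
          constructor
          · rintro ⟨h3, h4⟩
            by_cases hzu : z = u
            · exact Or.inl hzu
            · exact Or.inr ⟨h3, hzu, h4⟩
          · rintro (rfl | ⟨h3, h4, h5⟩)
            · exact ⟨huW, hu⟩
            · exact ⟨h3, h5⟩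
        rw [e, Set.ncard_insert_of_notMem (by simp) (Set.toFinite _)] at hk
        omega)
    rw [Set.ncard_insert_of_notMem hu (Set.toFinite _)] at h2
    have h3 : eIn G U + 1 ≤ eIn G (insert u U) := by
      unfold eIn
      have hnot : s(u, v) ∉ {e : Sym2 V | e ∈ G.edgeSet ∧ ∀ x ∈ e, x ∈ U} := by
        rintro ⟨-, h4⟩
        exact hu (h4 u (Sym2.mem_mk_left u v))
      rw [← Set.ncard_insert_of_notMem hnot (Set.toFinite _)]
      refine Set.ncard_le_ncard ?_ (Set.toFinite _)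
      rintro e (rfl | ⟨h4, h5⟩)
      · refine ⟨by rw [SimpleGraph.mem_edgeSet]; exact huv, fun z hz => ?_⟩
        rcases Sym2.mem_iff.1 hz with rfl | rfl
        · exact Set.mem_insert _ _
        · exact Set.mem_insert_of_mem _ hv
      · exact ⟨h4, fun z hz => Set.mem_insert_of_mem _ (h5 z hz)⟩
    omega

end Pool.Agent.Helper38.SPT
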