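import Pool.Agent.Helper38.SPT.GDefs
import Pool.Agent.Helper38.SPT.G1
import Pool.Agent.Helper38.SPT.G2
import Pool.Agent.Helper38.SPT.G5B

/-!
# Block SPT-G6: shrinking preserves the excess (1)

`Exc I L`: there is a set `U` with at least `|U| + L` edges inside.
`exc_out`: `U` is disjoint from `X \ C`; `q` from `bf_sat`, `R` from `bf_adj`, `B` from `shrink (max q R) K`: `ι` is injective on `U` (`PIso`) and preserves
adjacency; `eIn_map`.
-/

set_option autoImplicit false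

namespace Pool.Agent.Helper38.SPT

open FirstOrder FirstOrder.Language Pool.Agent.Helper20.Spectra Pool.Agent.Helper29.TD
  Pool.Agent.Helper29.TW

variable {S : Type} {ar : S → ℕ}

/-- some set `U` has at least `|U| + L` edges -/
def Exc {M : Type} (I : Interp S ar M) (L : ℕ) : Prop := ∃ U : Set M, U.ncard + L ≤ eIn (gaif I) U

theorem exc_out [Finite S] (φ : (RelLang S ar).Sentence) (K : ℕ) : ∃ B : ℕ, ∀ (n L : ℕ)
    (I : Interp S ar (Fin n)) (X C : Finset (Fin n)), Dec I K X C →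
    (∀ (s : S) (v : Fin (ar s) → Fin n), I s v → (∀ i, v i ∈ X) ∨ ∀ i, v i ∈ C ∨ v i ∉ X) →
    B ≤ (X \ C).card → Sat I φ →
    (∃ U : Set (Fin n), (∀ x ∈ U, x ∈ C ∨ x ∉ X) ∧ U.ncard + L ≤ eIn (gaif I) U) →
    ∃ (n' : ℕ) (I' : Interp S ar (Fin n')), n' < n ∧ Sat I' φ ∧ Exc I' L := by
  obtain ⟨q, hq⟩ := bf_sat φ
  obtain ⟨R, hR⟩ := bf_adj S ar
  obtain ⟨B, hB⟩ := shrink (S := S) (ar := ar) (max q R) K
  refine ⟨B, fun n L I X C hdec hatt hBX hsat hU => ?_⟩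
  obtain ⟨n', I', ι, hn, hBF⟩ := hB n I X C hdec hatt hBX
  obtain ⟨U, hU1, hU2⟩ := hU
  have hsat' : Sat I' φ := (hq _ _ I I' _ (hBF.mono (le_max_left q R))).1 hsat
  have hadj := hR I I' _ (hBF.mono (le_max_right q R))
  have hmem : ∀ x ∈ U, ((x, ι x) : Fin n × Fin n') ∈ {p : Fin n × Fin n' | (p.1 ∈ C ∨ p.1 ∉ X) ∧ p.2 = ι p.1} :=
    fun x hx => ⟨hU1 x hx, rfl⟩
  have hinj : Set.InjOn ι U := by
    intro x hx y hy hxy
    exact (hBF.piso.1 _ (hmem x hx) _ (hmem y hy)).2 hxy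
  refine ⟨n', I', hn, hsat', ι '' U, ?_⟩
  rw [hinj.ncard_image]
  refine hU2.trans (eIn_map (gaif I) (gaif I') U ι hinj ?_)
  intro x hx y hy hxy
  exact (hadj _ (hmem x hx) _ (hmem y hy)).1 hxy

end Pool.Agent.Helper38.SPT
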