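import Pool.Agent.Helper38.SPT.G6
import Pool.Agent.Helper38.SPT.G5

/-!
# Block SPT-G6B: shrinking preserves the excess (2)

`exc_shrink`: a tree-like protrusion for the Gaifman graph: if `U` has at least `|U| + L` edges inside then, if there is no `z ∈ C` with `dep z ≠ 0`,
`par z ∈ Y` then `eIn_cut0`, otherwise `eIn_cut` with this `z`: either `U \ Y` has at least `|U \ Y| + L` edges (use `exc_out`), or `z ∈ C ∩ U`, and the
vertices `par z`, `par (par z)`, … are in `U ∩ Y` until `p = par^[k + 1] z ∈ C ∩ U`, `k ≥ 1` (`dep` decreases, all elements of `U ∩ Y` have `dep ≠ 0`,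
parents of elements of `Y` are in `Y` or `C`).  Let `Pa := {par^[i] z | 1 ≤ i ≤ k}` and expand the structure by the unary predicate `Pa` (vocabulary
`Option S`, `none` of arity one; `Adj` does not change; `Dec` and the separation condition do not change, `Dec` by induction).  Apply `shrink` to the expanded
structure (with `max q (R + 4)`, `R` from `bf_adj` for the expanded vocabulary, `q` from `bf_sat` for `φ`; a `BF` for the expanded structures is one for the
reducts, by induction on the number of rounds): in the new structure let `P'` be the new predicate.  No `ι x` with `x` outside `X \ C` is in `P'`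
(`X := Y ∪ C`); every element of `P'` has exactly two neighbours in `P' ∪ {ι z, ι p}`, `ι z` and `ι p` have exactly one neighbour in `P'` (`bf_count` with
`k = 1, 2, 3` and `E x y := Adj I x y ∧ (y ∈ Pa ∨ y = z ∨ y = p)`, because this holds in the old structure: all edges meeting `Y` are `s(v, par v)`;
for an element of `P'` first play it).  `eIn_path` with `T = ι '' (U \ Y)` (`ι` is injective outside `Y`, `eIn_map`): the set `T ∪ P'` has at least
`eIn (U \ Y) + |P'| + 1` edges inside, and `eIn U ≤ eIn (U \ Y) + |U ∩ Y| + 1`, so `T ∪ P'` has at least `|T ∪ P'| + L` edges inside.  Take the reduct.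
-/

set_option autoImplicit false

namespace Pool.Agent.Helper38.SPT

open FirstOrder FirstOrder.Language Pool.Agent.Helper20.Spectra Pool.Agent.Helper29.TD
  Pool.Agent.Helper29.TW

variable {S : Type} {ar : S → ℕ}

/-- the arities with one more unary symbol -/
private def arX69 (ar : S → ℕ) : Option S → ℕ
  | none => 1
  | some s => ar s

/-- the expansion by a unary predicate -/
private def expd69 {M : Type} (I : Interp S ar M) (A : Set M) : Interp (Option S) (arX69 ar) M
  | none => fun v => v (0 : Fin 1) ∈ A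
  | some s => I s

/-- the reduct -/
private def red69 {M : Type} (J : Interp (Option S) (arX69 ar) M) : Interp S ar M :=
  fun s => J (some s)

private lemma adj_red69 {M : Type} (J : Interp (Option S) (arX69 ar) M) (x y : M) :
    Adj J x y ↔ Adj (red69 J) x y := by
  constructor
  · rintro ⟨h, s, v, h1, ⟨i, hi⟩, j, hj⟩
    cases s with
    | none =>
      exfalso
      have hij : i = j := @Subsingleton.elim (Fin 1) _ i j
      exact h (by rw [← hi, ← hj, hij])
    | some s => exact ⟨h, s, v, h1, ⟨i, hi⟩, j, hj⟩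
  · rintro ⟨h, s, v, h1, ⟨i, hi⟩, j, hj⟩
    exact ⟨h, some s, v, h1, ⟨i, hi⟩, j, hj⟩

private lemma bf_red69 {M N : Type} (I : Interp (Option S) (arX69 ar) M)
    (J : Interp (Option S) (arX69 ar) N) (q : ℕ) :
    ∀ P, BF I J Set.univ Set.univ q P → BF (red69 I) (red69 J) Set.univ Set.univ q P := by
  have h0 : ∀ P, PIso I J P → PIso (red69 I) (red69 J) P :=
    fun P h => ⟨h.1, fun s v hv => h.2 (some s) v hv⟩
  induction q with
  | zero => exact h0
  | succ q ih =>
    rintro P ⟨h1, h2, h3⟩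
    exact ⟨h0 P h1, fun x hx => (h2 x hx).imp fun y hy => ⟨hy.1, ih _ hy.2⟩,
      fun y hy => (h3 y hy).imp fun x hx => ⟨hx.1, ih _ hx.2⟩⟩

private lemma dec_expd69 {M : Type} [DecidableEq M] (I : Interp S ar M) (A : Set M) (K : ℕ)
    {X C : Finset M} (h : Dec I K X C) : Dec (expd69 I A) K X C := by
  induction h with
  | leaf C hC => exact Dec.leaf C hC
  | join X Y C h1 h2 _ _ ih1 ih2 =>
    refine Dec.join X Y C h1 ?_ ih1 ih2
    intro s v hs hv
    cases s with
    | none =>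
      have e : ∀ i : Fin (arX69 ar none), v i = v (0 : Fin 1) := fun i =>
        congrArg v (@Subsingleton.elim (Fin 1) _ i 0)
      rcases Finset.mem_union.1 (hv (0 : Fin 1)) with h | h
      · exact Or.inl fun i => by rw [e i]; exact h
      · exact Or.inr fun i => by rw [e i]; exact h
    | some s => exact h2 s v hs hv
  | move X C C' h1 h2 h3 _ ih =>
    refine Dec.move X C C' h1 h2 ?_ ih
    intro s v hs hv
    cases s with
    | none =>
      have e : ∀ i : Fin (arX69 ar none), v i = v (0 : Fin 1) := fun i =>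
        congrArg v (@Subsingleton.elim (Fin 1) _ i 0)
      rcases Finset.mem_union.1 (hv (0 : Fin 1)) with h | h
      · exact Or.inl fun i => by rw [e i]; exact h
      · exact Or.inr fun i => by rw [e i]; exact h
    | some s => exact h3 s v hs hv

private lemma le_ncard69 {N : Type} [Finite N] (A : Set N) (k : ℕ) :
    k ≤ A.ncard ↔ ∃ f : Fin k → N, Function.Injective f ∧ ∀ i, f i ∈ A := by
  constructor
  · intro h
    have e : Fin (Nat.card A) ≃ A := (Finite.equivFin A).symm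
    refine ⟨fun i => (e (Fin.castLE h i) : N), ?_, fun i => (e _).2⟩
    intro i j hij
    exact Fin.castLE_injective h (e.injective (Subtype.ext hij))
  · rintro ⟨f, hf, hA⟩
    have h1 : (Set.range f).ncard = k := by
      rw [← Set.image_univ, Set.ncard_image_of_injective _ hf, Set.ncard_univ,
        Nat.card_eq_fintype_card, Fintype.card_fin]
    rw [← h1]
    exact Set.ncard_le_ncard (by rintro _ ⟨i, rfl⟩; exact hA i) (Set.toFinite _)

private lemma count69 {S : Type} {ar : S → ℕ} {R : ℕ} {M N : Type} [Finite M] [Finite N]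
    {I : Interp S ar M} {J : Interp S ar N} {P : Set (M × N)}
    (E : M → M → Prop) (E' : N → N → Prop)
    (hR : ∀ Q : Set (M × N), P ⊆ Q → BF I J Set.univ Set.univ R Q → ∀ p ∈ Q, ∀ p' ∈ Q,
      (E p.1 p'.1 ↔ E' p.2 p'.2)) (k : ℕ)
    (h : BF I J Set.univ Set.univ (R + (k + 1)) P) {p : M × N} (hp : p ∈ P)
    (hk : {y | E p.1 y}.ncard = k) : {y | E' p.2 y}.ncard = k := by
  have h1 := bf_count E E' hR k (h.mono (by omega)) hp
  have h2 := bf_count E E' hR (k + 1) h hp
  have h3 := (le_ncard69 {y | E' p.2 y} k).2 (h1.1 ((le_ncard69 {y | E p.1 y} k).1 hk.ge))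
  have h4 : ¬ (k + 1 ≤ {y | E' p.2 y}.ncard) := fun h5 => by
    have h6 := (le_ncard69 {y | E p.1 y} (k + 1)).2
      (h2.2 ((le_ncard69 {y | E' p.2 y} (k + 1)).1 h5))
    omega
  omega

/-- the game: a path through the protrusion is replaced by a new one -/
private lemma core69 [Finite S] (φ : (RelLang S ar).Sentence) (K : ℕ) : ∃ B : ℕ, ∀ (n : ℕ)
    (I : Interp S ar (Fin n)) (X C : Finset (Fin n)) (Pa U0 : Set (Fin n)) (z p : Fin n),
    Dec I K X C →
    (∀ (s : S) (v : Fin (ar s) → Fin n), I s v → (∀ i, v i ∈ X) ∨ ∀ i, v i ∈ C ∨ v i ∉ X) →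
    B ≤ (X \ C).card → Sat I φ → (∀ x ∈ U0, x ∈ C ∨ x ∉ X) → (∀ x ∈ Pa, x ∈ X ∧ x ∉ C) →
    z ∈ U0 → p ∈ U0 → z ≠ p →
    (∀ v ∈ Pa, {y | Adj I v y ∧ (y ∈ Pa ∨ y = z ∨ y = p)}.ncard = 2) →
    {y | Adj I z y ∧ y ∈ Pa}.ncard = 1 → {y | Adj I p y ∧ y ∈ Pa}.ncard = 1 →
    ∃ (n' : ℕ) (I' : Interp S ar (Fin n')) (T P' : Set (Fin n')), n' < n ∧ Sat I' φ ∧
      eIn (gaif I) U0 + P'.ncard + 1 ≤ eIn (gaif I') (T ∪ P') ∧ T.ncard ≤ U0.ncard := by
  obtain ⟨q, hq⟩ := bf_sat φ
  obtain ⟨R, hR⟩ := bf_adj (Option S) (arX69 ar)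
  obtain ⟨B, hB⟩ := shrink (S := Option S) (ar := arX69 ar) (max q (R + 4)) K
  refine ⟨B, fun n I X C Pa U0 z p hD hsep hBc hsat hU0 hPa hz hp hzp h2 hz1 hp1 => ?_⟩
  obtain ⟨n', J, ι, hn', hbf⟩ := hB n (expd69 I Pa) X C (dec_expd69 I Pa K hD) (by
    intro s v hs
    cases s with
    | none =>
      have e : ∀ i : Fin (arX69 ar none), v i = v (0 : Fin 1) := fun i =>
        congrArg v (@Subsingleton.elim (Fin 1) _ i 0)
      by_cases h : v (0 : Fin 1) ∈ X
      · exact Or.inl fun i => by rw [e i]; exact h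
      · exact Or.inr fun i => by rw [e i]; exact Or.inr h
    | some s => exact hsep s v hs) hBc
  set P0 : Set (Fin n × Fin n') := {p | (p.1 ∈ C ∨ p.1 ∉ X) ∧ p.2 = ι p.1} with hP0
  have hsat' : Sat (red69 J) φ := by
    have h3 := bf_red69 (expd69 I Pa) J q P0 (hbf.mono (le_max_left _ _))
    exact (hq _ _ _ _ _ h3).1 hsat
  have hbf4 : BF (expd69 I Pa) J Set.univ Set.univ (R + 4) P0 := hbf.mono (le_max_right _ _)
  have hmem : ∀ x ∈ U0, (x, ι x) ∈ P0 := fun x hx => ⟨hU0 x hx, rfl⟩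
  set P' : Set (Fin n') := {y | J none (fun _ => y)} with hP'
  -- membership in the new predicate
  have hpa : ∀ Q : Set (Fin n × Fin n'), PIso (expd69 I Pa) J Q → ∀ r ∈ Q,
      (r.1 ∈ Pa ↔ r.2 ∈ P') := by
    intro Q hQ r hr
    exact hQ.2 none (fun _ => r) (fun _ => hr)
  have hadj : ∀ Q : Set (Fin n × Fin n'), BF (expd69 I Pa) J Set.univ Set.univ R Q →
      ∀ r ∈ Q, ∀ r' ∈ Q, (Adj I r.1 r'.1 ↔ Adj (red69 J) r.2 r'.2) := by
    intro Q hQ r hr r' hr'
    have h3 := hR (expd69 I Pa) J Q hQ r hr r' hr'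
    rw [adj_red69, adj_red69] at h3
    exact h3
  have heq : ∀ Q : Set (Fin n × Fin n'), P0 ⊆ Q → PIso (expd69 I Pa) J Q → ∀ r ∈ Q, ∀ x ∈ U0,
      (r.1 = x ↔ r.2 = ι x) := by
    intro Q hPQ hQ r hr x hx
    exact hQ.1 r hr (x, ι x) (hPQ (hmem x hx))
  have hE : ∀ Q : Set (Fin n × Fin n'), P0 ⊆ Q → BF (expd69 I Pa) J Set.univ Set.univ R Q →
      ∀ r ∈ Q, ∀ r' ∈ Q, ((Adj I r.1 r'.1 ∧ (r'.1 ∈ Pa ∨ r'.1 = z ∨ r'.1 = p)) ↔
        (Adj (red69 J) r.2 r'.2 ∧ (r'.2 ∈ P' ∨ r'.2 = ι z ∨ r'.2 = ι p))) := by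
    intro Q hPQ hQ r hr r' hr'
    rw [hadj Q hQ r hr r' hr', hpa Q hQ.piso r' hr', heq Q hPQ hQ.piso r' hr' z hz,
      heq Q hPQ hQ.piso r' hr' p hp]
  have hF : ∀ Q : Set (Fin n × Fin n'), P0 ⊆ Q → BF (expd69 I Pa) J Set.univ Set.univ R Q →
      ∀ r ∈ Q, ∀ r' ∈ Q, ((Adj I r.1 r'.1 ∧ r'.1 ∈ Pa) ↔
        (Adj (red69 J) r.2 r'.2 ∧ r'.2 ∈ P')) := by
    intro Q hPQ hQ r hr r' hr'
    rw [hadj Q hQ r hr r' hr', hpa Q hQ.piso r' hr']
  have hι : Set.InjOn ι U0 := by
    intro x hx y hy hxy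
    exact (hbf4.piso.1 (x, ι x) (hmem x hx) (y, ι y) (hmem y hy)).2 hxy
  -- the degrees in the new structure
  have h2' : ∀ v ∈ P', {y | Adj (red69 J) v y ∧ (y ∈ P' ∨ y = ι z ∨ y = ι p)}.ncard = 2 := by
    intro v hv
    obtain ⟨x, -, hx⟩ := hbf4.2.2 v (Set.mem_univ _)
    have hxP : x ∈ Pa := (hpa _ hx.piso (x, v) (Set.mem_insert _ _)).2 hv
    exact count69 (R := R) (P := insert (x, v) P0)
      (fun a y => Adj I a y ∧ (y ∈ Pa ∨ y = z ∨ y = p))
      (fun a y => Adj (red69 J) a y ∧ (y ∈ P' ∨ y = ι z ∨ y = ι p))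
      (fun Q hQ hb => hE Q ((Set.subset_insert _ _).trans hQ) hb) 2 hx
      (Set.mem_insert _ _) (h2 x hxP)
  have hz1' : {y | Adj (red69 J) (ι z) y ∧ y ∈ P'}.ncard = 1 :=
    count69 (R := R) (P := P0) (fun a y => Adj I a y ∧ y ∈ Pa)
      (fun a y => Adj (red69 J) a y ∧ y ∈ P') hF 1 (hbf4.mono (by omega)) (hmem z hz) hz1
  have hp1' : {y | Adj (red69 J) (ι p) y ∧ y ∈ P'}.ncard = 1 :=
    count69 (R := R) (P := P0) (fun a y => Adj I a y ∧ y ∈ Pa)
      (fun a y => Adj (red69 J) a y ∧ y ∈ P') hF 1 (hbf4.mono (by omega)) (hmem p hp) hp1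
  have hdis : Disjoint P' (ι '' U0) := by
    rw [Set.disjoint_left]
    rintro _ hy ⟨x, hx, rfl⟩
    have h3 := (hpa _ hbf4.piso (x, ι x) (hmem x hx)).2 hy
    have h4 := hPa x h3
    rcases hU0 x hx with h5 | h5
    · exact h4.2 h5
    · exact h5 h4.1
  have hpath := eIn_path (gaif (red69 J)) P' (ι '' U0) (ι z) (ι p) (fun h => hzp (hι hz hp h))
    ⟨z, hz, rfl⟩ ⟨p, hp, rfl⟩ hdis h2' hz1' hp1'
  have hmap := eIn_map (gaif I) (gaif (red69 J)) U0 ι hι (by
    intro x hx y hy hxy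
    exact (hadj P0 (hbf4.mono (by omega)) (x, ι x) (hmem x hx) (y, ι y) (hmem y hy)).1 hxy)
  exact ⟨n', red69 J, ι '' U0, P', hn', hsat', by omega, Set.ncard_image_le (Set.toFinite _)⟩

/-- the chain of the parents -/
private lemma chain69 {V : Type} (par : V → V) (dep : V → ℕ)
    (hpar : ∀ v, dep v ≠ 0 → dep (par v) < dep v) (W : Set V) (hW : ∀ v ∈ W, dep v ≠ 0)
    (z : V) (hz : dep z ≠ 0) (hzW : par z ∈ W) :
    ∃ k : ℕ, 1 ≤ k ∧ (∀ i, 1 ≤ i → i ≤ k → par^[i] z ∈ W) ∧ par^[k + 1] z ∉ W := by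
  classical
  have hex : ∃ m : ℕ, 1 ≤ m ∧ par^[m] z ∉ W := by
    by_contra hcon
    push Not at hcon
    have h1 : ∀ m : ℕ, dep (par^[m] z) + m ≤ dep z := by
      intro m
      induction m with
      | zero => simp
      | succ m ih =>
        have h2 : dep (par^[m] z) ≠ 0 := by
          rcases Nat.eq_zero_or_pos m with rfl | hm
          · exact hz
          · exact hW _ (hcon m hm)
        have h3 := hpar _ h2
        rw [Function.iterate_succ_apply']
        omega
    have h4 := h1 (dep z + 1)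
    omega
  have hf := Nat.find_spec hex
  have hmin : ∀ i, 1 ≤ i → i < Nat.find hex → par^[i] z ∈ W := by
    intro i hi hlt
    by_contra h
    exact Nat.find_min hex hlt ⟨hi, h⟩
  have h2 : 2 ≤ Nat.find hex := by
    by_contra h
    have h3 : Nat.find hex = 1 := by omega
    rw [h3] at hf
    exact hf.2 hzW
  refine ⟨Nat.find hex - 1, by omega, fun i hi hik => hmin i hi (by omega), ?_⟩
  rw [show Nat.find hex - 1 + 1 = Nat.find hex by omega]
  exact hf.2

theorem exc_shrink [Finite S] (φ : (RelLang S ar).Sentence) (K : ℕ) : ∃ B : ℕ, ∀ (n L : ℕ)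
    (I : Interp S ar (Fin n)) (Y C : Finset (Fin n)) (par : Fin n → Fin n) (dep : Fin n → ℕ),
    Dec I K (Y ∪ C) C → Disjoint Y C →
    (∀ v, dep v ≠ 0 → Adj I v (par v) ∧ dep (par v) < dep v) →
    (∀ x y, Adj I x y → x ∈ Y → (dep x ≠ 0 ∧ par x = y) ∨ (dep y ≠ 0 ∧ par y = x)) →
    (∀ v ∈ Y, dep v ≠ 0 → par v ∈ Y ∨ par v ∈ C) →
    (∀ u, dep u ≠ 0 → par u ∈ Y → u ∈ Y ∨ u ∈ C) →
    (∀ u ∈ C, ∀ u' ∈ C, dep u ≠ 0 → dep u' ≠ 0 → par u ∈ Y → par u' ∈ Y → u = u') →
    B ≤ Y.card → Sat I φ → Exc I L →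
    ∃ (n' : ℕ) (I' : Interp S ar (Fin n')), n' < n ∧ Sat I' φ ∧ Exc I' L := by
  obtain ⟨B1, hB1⟩ := exc_out φ K
  obtain ⟨B2, hB2⟩ := core69 φ K
  refine ⟨max B1 B2, fun n L I Y C par dep hD hYC hpar hedge hup hdown huniq hB hsat hexc => ?_⟩
  obtain ⟨U, hU⟩ := hexc
  have hYC' : ∀ x ∈ Y, x ∉ C := fun x hx hx' => Finset.disjoint_left.1 hYC hx hx'
  have hcard : ((Y ∪ C) \ C).card = Y.card := by
    congr 1
    ext x
    simp only [Finset.mem_sdiff, Finset.mem_union]
    exact ⟨fun h => h.1.resolve_right h.2, fun h => ⟨Or.inl h, hYC' x h⟩⟩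
  have hsep : ∀ (s : S) (v : Fin (ar s) → Fin n), I s v →
      (∀ i, v i ∈ Y ∪ C) ∨ ∀ i, v i ∈ C ∨ v i ∉ Y ∪ C := by
    intro s v hs
    by_cases hex : ∃ i, v i ∈ Y
    · left
      obtain ⟨i, hi⟩ := hex
      intro j
      by_cases hij : v i = v j
      · rw [← hij]
        exact Finset.mem_union_left _ hi
      · rcases hedge (v i) (v j) ⟨hij, s, v, hs, ⟨i, rfl⟩, j, rfl⟩ hi with ⟨h1, h2⟩ | ⟨h1, h2⟩
        · rw [← h2]
          exact Finset.mem_union.2 (hup (v i) hi h1)
        · exact Finset.mem_union.2 (hdown (v j) h1 (by rw [h2]; exact hi))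
    · right
      push Not at hex
      intro i
      by_cases hi : v i ∈ C
      · exact Or.inl hi
      · exact Or.inr fun h => (Finset.mem_union.1 h).elim (hex i) hi
  have hout : ∀ x ∈ U \ (Y : Set (Fin n)), x ∈ C ∨ x ∉ Y ∪ C := by
    rintro x ⟨-, hx⟩
    by_cases hxC : x ∈ C
    · exact Or.inl hxC
    · exact Or.inr fun h => (Finset.mem_union.1 h).elim (fun h1 => hx h1) hxC
  have hsplit : (U ∩ (Y : Set (Fin n))).ncard + (U \ (Y : Set (Fin n))).ncard = U.ncard :=
    Set.ncard_inter_add_ncard_sdiff_eq_ncard U (Y : Set (Fin n)) (Set.toFinite _)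
  have hfin : eIn (gaif I) U ≤ eIn (gaif I) (U \ (Y : Set (Fin n))) + (U ∩ (Y : Set (Fin n))).ncard →
      ∃ (n' : ℕ) (I' : Interp S ar (Fin n')), n' < n ∧ Sat I' φ ∧ Exc I' L := by
    intro h
    exact hB1 n L I (Y ∪ C) C hD hsep (by rw [hcard]; exact (le_max_left _ _).trans hB) hsat
      ⟨U \ (Y : Set (Fin n)), hout, by omega⟩
  by_cases hz : ∃ z ∈ C, dep z ≠ 0 ∧ par z ∈ Y
  swap
  · push Not at hz
    exact hfin (eIn_cut0 (gaif I) par dep (fun v hv => (hpar v hv).2) Y hedge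
      (fun u hu hpu => (hdown u hu hpu).resolve_right fun h => hz u h hu hpu) U)
  obtain ⟨z, hzC, hz0, hzY⟩ := hz
  have hzY' : z ∉ (Y : Set (Fin n)) := fun h => hYC' z h hzC
  rcases eIn_cut (gaif I) par dep (fun v hv => (hpar v hv).2) (Y : Set (Fin n)) z hzY' hedge
    (fun u hu hpu => (hdown u hu hpu).imp id fun h => huniq u h z hzC hu hz0 hpu hzY) U with
    hcut | ⟨hcut, hall, hzU, -, hpz⟩
  · exact hfin hcut
  -- the path
  obtain ⟨k, hk, hin, hlast⟩ := chain69 par dep (fun v hv => (hpar v hv).2)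
    (U ∩ (Y : Set (Fin n))) (fun v hv => (hall v hv).1) z hz0 hpz
  set c : ℕ → Fin n := fun i => par^[i] z with hc
  have hc0 : c 0 = z := rfl
  have hcs : ∀ i, c (i + 1) = par (c i) := fun i => Function.iterate_succ_apply' par i z
  have hcin : ∀ i, 1 ≤ i → i ≤ k → c i ∈ U ∩ (Y : Set (Fin n)) := hin
  have hcdep : ∀ i, i ≤ k → dep (c i) ≠ 0 := by
    intro i hi
    rcases Nat.eq_zero_or_pos i with rfl | h
    · exact hz0
    · exact (hall _ (hcin i h hi)).1
  have hstep : ∀ i, i ≤ k → dep (c (i + 1)) < dep (c i) := by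
    intro i hi
    rw [hcs]
    exact (hpar _ (hcdep i hi)).2
  have hlt : ∀ d i, i + d ≤ k → dep (c (i + d + 1)) < dep (c i) := by
    intro d
    induction d with
    | zero => intro i hi; exact hstep i hi
    | succ d ih =>
      intro i hi
      have h1 := ih i (by omega)
      have h2 := hstep (i + d + 1) (by omega)
      exact h2.trans h1
  have hlt' : ∀ i j, i < j → j ≤ k + 1 → dep (c j) < dep (c i) := by
    intro i j hij hj
    obtain ⟨d, rfl⟩ := Nat.exists_eq_add_of_lt hij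
    exact hlt d i (by omega)
  have hinj : ∀ i j, i ≤ k + 1 → j ≤ k + 1 → c i = c j → i = j := by
    intro i j hi hj hij
    rcases lt_trichotomy i j with h | h | h
    · have := hlt' i j h hj
      rw [hij] at this
      omega
    · exact h
    · have := hlt' j i h hi
      rw [hij] at this
      omega
  have hcadj : ∀ i, i ≤ k → Adj I (c i) (c (i + 1)) := by
    intro i hi
    rw [hcs]
    exact (hpar _ (hcdep i hi)).1
  have hpU : c (k + 1) ∈ U := by
    rw [hcs]
    exact (hall _ (hcin k hk le_rfl)).2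
  have hpY : c (k + 1) ∉ Y := fun h => hlast ⟨hpU, h⟩
  have hpC : c (k + 1) ∈ C := by
    have h1 := hup (c k) (hcin k hk le_rfl).2 (hcdep k le_rfl)
    rw [← hcs] at h1
    exact h1.resolve_left hpY
  have hpz' : z ≠ c (k + 1) := by
    intro h
    have := hinj 0 (k + 1) (by omega) le_rfl h
    omega
  have hpnot : dep (c (k + 1)) ≠ 0 → par (c (k + 1)) ∉ Y := by
    intro h h1
    exact hpz' (huniq _ hpC z hzC h hz0 h1 hzY).symm
  set Pa : Set (Fin n) := {v | ∃ i, 1 ≤ i ∧ i ≤ k ∧ v = c i} with hPa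
  have hPaY : ∀ v ∈ Pa, v ∈ Y := by
    rintro v ⟨i, hi, hik, rfl⟩
    exact (hcin i hi hik).2
  -- the neighbours of the elements of the path
  have hnb : ∀ i, 1 ≤ i → i ≤ k → ∀ j, j ≤ k + 1 → Adj I (c i) (c j) → j = i + 1 ∨ j + 1 = i := by
    intro i hi hik j hj hadj
    rcases hedge (c i) (c j) hadj (hcin i hi hik).2 with ⟨-, h2⟩ | ⟨h1, h2⟩
    · left
      rw [← hcs] at h2
      exact (hinj _ _ (by omega) hj h2).symm
    · right
      rcases Nat.lt_or_ge j (k + 1) with h3 | h3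
      · rw [← hcs] at h2
        exact hinj _ _ (by omega) (by omega) h2
      · have h4 : j = k + 1 := by omega
        subst h4
        exact absurd (by rw [h2]; exact (hcin i hi hik).2) (hpnot h1)
  have hset2 : ∀ v ∈ Pa, {y | Adj I v y ∧ (y ∈ Pa ∨ y = z ∨ y = c (k + 1))}.ncard = 2 := by
    rintro v ⟨i, hi, hik, rfl⟩
    have e : {y | Adj I (c i) y ∧ (y ∈ Pa ∨ y = z ∨ y = c (k + 1))} = {c (i + 1), c (i - 1)} := by
      ext y
      constructor
      · rintro ⟨hadj, hy⟩
        have hj : ∃ j, j ≤ k + 1 ∧ y = c j := by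
          rcases hy with ⟨j, -, hj, rfl⟩ | rfl | rfl
          · exact ⟨j, by omega, rfl⟩
          · exact ⟨0, by omega, rfl⟩
          · exact ⟨k + 1, le_rfl, rfl⟩
        obtain ⟨j, hj, rfl⟩ := hj
        rcases hnb i hi hik j hj hadj with rfl | h
        · exact Or.inl rfl
        · refine Or.inr ?_
          show c j = c (i - 1)
          congr 1
          omega
      · rintro (rfl | rfl)
        · refine ⟨hcadj i hik, ?_⟩
          rcases Nat.lt_or_ge i k with h | h
          · exact Or.inl ⟨i + 1, by omega, by omega, rfl⟩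
          · have : i = k := by omega
            subst this
            exact Or.inr (Or.inr rfl)
        · constructor
          · have h1 := hcadj (i - 1) (by omega)
            rw [show i - 1 + 1 = i by omega] at h1
            exact (gaif I).symm.symm _ _ h1
          · rcases Nat.lt_or_ge 1 i with h | h
            · exact Or.inl ⟨i - 1, by omega, by omega, rfl⟩
            · have : i = 1 := by omega
              subst this
              exact Or.inr (Or.inl rfl)
    rw [e]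
    exact Set.ncard_pair fun h => by
      have := hinj _ _ (by omega) (by omega) h
      omega
  have hsetz : {y | Adj I z y ∧ y ∈ Pa}.ncard = 1 := by
    have e : {y | Adj I z y ∧ y ∈ Pa} = {c 1} := by
      ext y
      constructor
      · rintro ⟨hadj, i, hi, hik, rfl⟩
        rcases hnb i hi hik 0 (by omega) ((gaif I).symm.symm _ _ hadj) with h | h
        · omega
        · show c i = c 1
          rw [← h]
      · rintro rfl
        exact ⟨hcadj 0 (by omega), 1, le_rfl, hk, rfl⟩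
    rw [e]
    exact Set.ncard_singleton _
  have hsetp : {y | Adj I (c (k + 1)) y ∧ y ∈ Pa}.ncard = 1 := by
    have e : {y | Adj I (c (k + 1)) y ∧ y ∈ Pa} = {c k} := by
      ext y
      constructor
      · rintro ⟨hadj, i, hi, hik, rfl⟩
        rcases hnb i hi hik (k + 1) le_rfl ((gaif I).symm.symm _ _ hadj) with h | h
        · show c i = c k
          congr 1
          omega
        · omega
      · rintro rfl
        exact ⟨(gaif I).symm.symm _ _ (hcadj k le_rfl), k, hk, le_rfl, rfl⟩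
    rw [e]
    exact Set.ncard_singleton _
  have hzY2 : z ∈ U \ (Y : Set (Fin n)) := ⟨hzU, hzY'⟩
  obtain ⟨n', I', T, P', hn', hsat', hcnt, hT⟩ := hB2 n I (Y ∪ C) C Pa (U \ (Y : Set (Fin n))) z
    (c (k + 1)) hD hsep (by rw [hcard]; exact (le_max_right _ _).trans hB) hsat hout
    (fun x hx => ⟨Finset.mem_union_left _ (hPaY x hx), hYC' x (hPaY x hx)⟩) hzY2
    ⟨hpU, hpY⟩ hpz' hset2 hsetz hsetp
  refine ⟨n', I', hn', hsat', T ∪ P', ?_⟩
  have h1 := Set.ncard_union_le T P'
  omega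

end Pool.Agent.Helper38.SPT
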