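import Pool.Agent.Helper38.SPT.GDefs
import Pool.Agent.Helper38.SPT.G5B

/-!
# Block SPT-G7A: splitting a graph into the components with more edges than vertices and the others

`W` := the union of the components `c` with `eIn G c > |c|`.  `eIn G U` and `|U|` are sums over the components (`Finset.sum` over
`G.ConnectedComponent`): for a component `c` with `U ∩ c ≠ ∅`: `eIn G (U ∩ c) + |c| ≤ eIn G c + |U ∩ c|` by `eIn_extend`; if `U ∩ c = ∅` both numbers are `0`.
So `eIn G U - |U| ≤ ∑ over c ⊆ W of (eIn G c - |c|) = eIn G W - |W|`.  Every component in `W` contributes at least `1` to `eIn G W - |W|`, so the number of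
components is at most `(eIn G W - |W|) + |Wᶜ|`.  Last statement: for `T ⊆ Wᶜ` the same computation: `eIn G T ≤ |T|`.
-/

set_option autoImplicit false

namespace Pool.Agent.Helper38.SPT

private lemma ncard_fiber_g7a {α β : Type} [Finite α] [Fintype β] (S : Set α) (f : α → β) :
    S.ncard = ∑ b, {x | x ∈ S ∧ f x = b}.ncard := by
  classical
  rw [Set.ncard_eq_toFinset_card S (Set.toFinite S),
    Finset.card_eq_sum_card_fiberwise (f := f) (t := Finset.univ) (fun x _ => by simp)]
  refine Finset.sum_congr rfl fun b _ => ?_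
  rw [Set.ncard_eq_toFinset_card _ (Set.toFinite _)]
  congr 1
  ext x
  simp

private lemma ncard_comp_g7a {V : Type} [Finite V] (G : SimpleGraph V)
    [Fintype G.ConnectedComponent] (A : Set V) :
    A.ncard = ∑ c : G.ConnectedComponent, (A ∩ c.supp).ncard := by
  rw [ncard_fiber_g7a A G.connectedComponentMk]
  refine Finset.sum_congr rfl fun c _ => ?_
  congr 1

private lemma eIn_comp_g7a {V : Type} [Finite V] (G : SimpleGraph V)
    [Fintype G.ConnectedComponent] (A : Set V) :
    eIn G A = ∑ c : G.ConnectedComponent, eIn G (A ∩ c.supp) := by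
  unfold eIn
  rw [ncard_fiber_g7a _ (fun e : Sym2 V => G.connectedComponentMk (Quot.out e).1)]
  refine Finset.sum_congr rfl fun c _ => ?_
  congr 1
  ext e
  have hout : ∀ e : Sym2 V, (Quot.out e).1 ∈ e := fun e => Sym2.out_fst_mem e
  constructor
  · rintro ⟨⟨he, hA⟩, hc⟩
    refine ⟨he, fun x hx => ⟨hA x hx, ?_⟩⟩
    show G.connectedComponentMk x = c
    rw [← hc]
    by_cases hxe : x = (Quot.out e).1
    · rw [hxe]
    · have h2 : e = s(x, (Quot.out e).1) := ((Sym2.mem_and_mem_iff hxe).1 ⟨hx, hout e⟩)
      have h3 : G.Adj x (Quot.out e).1 := by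
        rw [← SimpleGraph.mem_edgeSet, ← h2]
        exact he
      exact SimpleGraph.ConnectedComponent.sound h3.reachable
  · rintro ⟨he, hA⟩
    exact ⟨⟨he, fun x hx => (hA x hx).1⟩, (hA _ (hout e)).2⟩

private lemma eIn_empty_g7a {V : Type} (G : SimpleGraph V) : eIn G (∅ : Set V) = 0 := by
  unfold eIn
  rw [show {e : Sym2 V | e ∈ G.edgeSet ∧ ∀ x ∈ e, x ∈ (∅ : Set V)} = ∅ from ?_, Set.ncard_empty]
  ext e
  simp only [Set.mem_setOf_eq, Set.mem_empty_iff_false, iff_false, not_and, not_forall]
  intro _
  exact ⟨_, Sym2.out_fst_mem e, id⟩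

private lemma supp_ext_g7a {V : Type} [Finite V] (G : SimpleGraph V) (A : Set V)
    (c : G.ConnectedComponent) (hne : (A ∩ c.supp).Nonempty) :
    eIn G (A ∩ c.supp) + c.supp.ncard ≤ eIn G c.supp + (A ∩ c.supp).ncard := by
  obtain ⟨y, hy⟩ := hne
  refine eIn_extend G _ _ Set.inter_subset_right (fun x hx => ⟨y, hy, ?_⟩) (fun x hx y hxy => ?_)
  · have h1 : G.connectedComponentMk x = c := hx
    have h2 : G.connectedComponentMk y = c := hy.2
    exact SimpleGraph.ConnectedComponent.exact (h1.trans h2.symm)
  · have h1 : G.connectedComponentMk x = c := hx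
    show G.connectedComponentMk y = c
    rw [← h1]
    exact SimpleGraph.ConnectedComponent.sound hxy.symm.reachable

theorem exc_split {V : Type} [Finite V] (G : SimpleGraph V) (U : Set V) (L : ℕ)
    (hU : U.ncard + L ≤ eIn G U) : ∃ W : Set V, (∀ x y, G.Adj x y → (x ∈ W ↔ y ∈ W)) ∧
      W.ncard + L ≤ eIn G W ∧ G.edgeSet.ncard = eIn G W + eIn G Wᶜ ∧
      Nat.card G.ConnectedComponent + W.ncard ≤ eIn G W + Wᶜ.ncard ∧
      ∀ T : Set V, T ⊆ Wᶜ → eIn G T ≤ T.ncard := by
  classical
  haveI : Finite G.ConnectedComponent := Quot.finite _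
  haveI : Fintype G.ConnectedComponent := Fintype.ofFinite _
  set good : G.ConnectedComponent → Prop := fun c => c.supp.ncard < eIn G c.supp with hgood
  set W : Set V := {x | good (G.connectedComponentMk x)} with hWdef
  have hWg : ∀ c, good c → W ∩ c.supp = c.supp := by
    intro c hc
    refine Set.inter_eq_right.2 fun x hx => ?_
    have h1 : G.connectedComponentMk x = c := hx
    show good (G.connectedComponentMk x)
    rw [h1]; exact hc
  have hWb : ∀ c, ¬ good c → W ∩ c.supp = ∅ := by
    intro c hc
    ext x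
    simp only [Set.mem_inter_iff, Set.mem_empty_iff_false, iff_false, not_and]
    intro hx hx2
    have h1 : G.connectedComponentMk x = c := hx2
    apply hc
    rw [← h1]; exact hx
  have hCg : ∀ c, good c → Wᶜ ∩ c.supp = ∅ := by
    intro c hc
    ext x
    simp only [Set.mem_inter_iff, Set.mem_compl_iff, Set.mem_empty_iff_false, iff_false, not_and]
    intro hx hx2
    apply hx
    have : x ∈ W ∩ c.supp := by rw [hWg c hc]; exact hx2
    exact this.1
  have hCb : ∀ c, ¬ good c → Wᶜ ∩ c.supp = c.supp := by
    intro c hc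
    refine Set.inter_eq_right.2 fun x hx hxW => ?_
    have : x ∈ W ∩ c.supp := ⟨hxW, hx⟩
    rw [hWb c hc] at this
    exact this
  have hpos : ∀ c : G.ConnectedComponent, 1 ≤ c.supp.ncard := by
    intro c
    have hne : c.supp.Nonempty := by
      induction c using SimpleGraph.ConnectedComponent.ind with
      | h v => exact ⟨v, rfl⟩
    exact (Set.ncard_pos (Set.toFinite _)).2 hne
  have hadj : ∀ x y, G.Adj x y → (x ∈ W ↔ y ∈ W) := by
    intro x y h
    have : G.connectedComponentMk x = G.connectedComponentMk y :=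
      SimpleGraph.ConnectedComponent.sound h.reachable
    show good (G.connectedComponentMk x) ↔ good (G.connectedComponentMk y)
    rw [this]
  refine ⟨W, hadj, ?_, ?_, ?_, ?_⟩
  · have key : eIn G U + W.ncard ≤ eIn G W + U.ncard := by
      rw [eIn_comp_g7a G U, ncard_comp_g7a G W, eIn_comp_g7a G W, ncard_comp_g7a G U,
        ← Finset.sum_add_distrib, ← Finset.sum_add_distrib]
      refine Finset.sum_le_sum fun c _ => ?_
      by_cases hc : good c
      · rw [hWg c hc]
        by_cases hne : (U ∩ c.supp).Nonempty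
        · exact supp_ext_g7a G U c hne
        · rw [Set.not_nonempty_iff_eq_empty.1 hne, eIn_empty_g7a, Set.ncard_empty]
          have : c.supp.ncard < eIn G c.supp := hc
          omega
      · rw [hWb c hc, eIn_empty_g7a, Set.ncard_empty]
        by_cases hne : (U ∩ c.supp).Nonempty
        · have h1 := supp_ext_g7a G U c hne
          have h2 : ¬ c.supp.ncard < eIn G c.supp := hc
          omega
        · rw [Set.not_nonempty_iff_eq_empty.1 hne, eIn_empty_g7a, Set.ncard_empty]
    omega
  · have h0 : G.edgeSet.ncard = eIn G Set.univ := by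
      unfold eIn
      congr 1
      ext e
      simp
    rw [h0, eIn_comp_g7a G Set.univ, eIn_comp_g7a G W, eIn_comp_g7a G Wᶜ,
      ← Finset.sum_add_distrib]
    refine Finset.sum_congr rfl fun c _ => ?_
    rw [Set.univ_inter]
    by_cases hc : good c
    · rw [hWg c hc, hCg c hc, eIn_empty_g7a, Nat.add_zero]
    · rw [hWb c hc, hCb c hc, eIn_empty_g7a, Nat.zero_add]
  · rw [Nat.card_eq_fintype_card, ← Finset.card_univ, Finset.card_eq_sum_ones,
      ncard_comp_g7a G W, eIn_comp_g7a G W, ncard_comp_g7a G Wᶜ,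
      ← Finset.sum_add_distrib, ← Finset.sum_add_distrib]
    refine Finset.sum_le_sum fun c _ => ?_
    by_cases hc : good c
    · rw [hWg c hc, hCg c hc, Set.ncard_empty]
      have : c.supp.ncard < eIn G c.supp := hc
      omega
    · rw [hWb c hc, hCb c hc, eIn_empty_g7a, Set.ncard_empty]
      have := hpos c
      omega
  · intro T hT
    rw [eIn_comp_g7a G T, ncard_comp_g7a G T]
    refine Finset.sum_le_sum fun c _ => ?_
    by_cases hne : (T ∩ c.supp).Nonempty
    · have hc : ¬ good c := by
        intro hc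
        obtain ⟨x, hx⟩ := hne
        have : x ∈ Wᶜ ∩ c.supp := ⟨hT hx.1, hx.2⟩
        rw [hCg c hc] at this
        exact this
      have h1 := supp_ext_g7a G T c hne
      have h2 : ¬ c.supp.ncard < eIn G c.supp := hc
      omega
    · rw [Set.not_nonempty_iff_eq_empty.1 hne, eIn_empty_g7a, Set.ncard_empty]

end Pool.Agent.Helper38.SPT
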