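import Pool.Agent.Helper38.SPT.GDefs
import Pool.Agent.Helper38.SPT.A2
import Pool.Agent.Helper38.SPT.A3

/-!
# Block SPT-G7B: components with at most one cycle

Let `c ⊆ R` be (the vertex set of) a component; `exists_forest` for the induced graph `(gaif I).induce c` (one component, at most `|c|` edges by the hypothesis
for `c`): `|X| ≤ 2`, all edges in `c` which are not edges of the forest are inside `X`.  `dec_tree` with `π = id`, the set `c \ X` and `D := X`
(extend `par`, `dep` to `M`): `Dec I 4 c X`; `Dec.move` to `∅`.  `Dec.join` over the components contained in `R`.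
-/

set_option autoImplicit false

namespace Pool.Agent.Helper38.SPT

open Pool.Agent.Helper20.Spectra Pool.Agent.Helper29.TD Pool.Agent.Helper29.TW

variable {S : Type} {ar : S → ℕ}

/-- the edges of an induced subgraph -/
private theorem induce_card61 {V : Type} [Finite V] (G : SimpleGraph V) (U : Set V) :
    (G.induce U).edgeSet.ncard ≤ eIn G U := by
  unfold eIn
  refine Set.ncard_le_ncard_of_injOn (Sym2.map Subtype.val) ?_
    (fun a _ b _ h => Sym2.map.injective Subtype.val_injective h) (Set.toFinite _)
  intro e he
  induction e using Sym2.ind with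
  | _ x y =>
    have h1 : G.Adj x y := he
    refine ⟨h1, ?_⟩
    intro z hz
    rw [Sym2.map_mk, Sym2.mem_iff] at hz
    rcases hz with rfl | rfl
    · exact x.2
    · exact y.2

/-- one component -/
private theorem dec_comp61 {M : Type} [Finite M] [DecidableEq M] (I : Interp S ar M) (C : (gaif I).ConnectedComponent)
    (c : Finset M) (hc : (c : Set M) = C.supp) (h : eIn (gaif I) C.supp ≤ C.supp.ncard) : Dec I 4 c ∅ := by
  classical
  obtain ⟨par, dep, X, h1, h2, h3⟩ := exists_forest ((gaif I).induce C.supp)
  have hconn : ((gaif I).induce C.supp).Connected := SimpleGraph.ConnectedComponent.connected_toSimpleGraph C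
  have hsub : Subsingleton ((gaif I).induce C.supp).ConnectedComponent :=
    hconn.preconnected.subsingleton_connectedComponent
  have hone : Nat.card ((gaif I).induce C.supp).ConnectedComponent ≤ 1 := Finite.card_le_one_iff_subsingleton.2 hsub
  have hedge := induce_card61 (gaif I) C.supp
  have hV : Nat.card C.supp = C.supp.ncard := rfl
  have hX : X.card ≤ 2 := by
    rw [hV] at h3
    omega
  have hmem : ∀ x, x ∈ c ↔ x ∈ C.supp := fun x => by rw [← hc]; exact Finset.mem_coe.symm
  set par' : M → M := fun x => if hx : x ∈ C.supp then (par ⟨x, hx⟩ : M) else x with hpar'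
  set dep' : M → ℕ := fun x => if hx : x ∈ C.supp then dep ⟨x, hx⟩ else 0 with hdep'
  have hp : ∀ x (hx : x ∈ C.supp), par' x = par ⟨x, hx⟩ := fun x hx => by
    rw [hpar']
    simp only
    rw [dif_pos hx]
  have hd : ∀ x (hx : x ∈ C.supp), dep' x = dep ⟨x, hx⟩ := fun x hx => by
    rw [hdep']
    simp only
    rw [dif_pos hx]
  set D : Finset M := X.image Subtype.val with hD
  have hDc : D ⊆ c := by
    intro x hx
    rw [hD, Finset.mem_image] at hx
    obtain ⟨y, -, rfl⟩ := hx
    exact (hmem _).2 y.2
  have hDcard : D.card ≤ 2 := Finset.card_image_le.trans hX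
  have hdec : Dec I (2 * 1 + D.card) (c \ D ∪ D) D := by
    refine dec_tree id par' dep' (c \ D) D 1 (fun t ht => ?_) (fun t => ?_) (fun x hx y hy hxy => ?_)
    · by_cases hx : t ∈ C.supp
      · rw [hd t hx] at ht ⊢
        rw [hp t hx, hd _ (par ⟨t, hx⟩).2]
        have h4 := (h1 ⟨t, hx⟩ ht).2
        show dep (par ⟨t, hx⟩) < _
        omega
      · rw [hdep'] at ht
        simp only at ht
        rw [dif_neg hx] at ht
        exact absurd rfl ht
    · refine Finset.card_le_one.2 fun x hx y hy => ?_
      simp only [Finset.mem_filter] at hx hy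
      exact hx.2.trans hy.2.symm
    · rw [Finset.mem_sdiff, hmem] at hx hy
      have hadj : ((gaif I).induce C.supp).Adj ⟨x, hx.1⟩ ⟨y, hy.1⟩ := hxy
      rcases h2 _ _ hadj with h4 | h4 | h4
      · exact absurd (Finset.mem_image.2 ⟨_, h4.1, rfl⟩) hx.2
      · refine Or.inr (Or.inl ⟨?_, ?_⟩)
        · show dep' x ≠ 0
          rw [hd x hx.1]
          exact h4.1
        · show par' x = y
          rw [hp x hx.1, h4.2]
      · refine Or.inr (Or.inr ⟨?_, ?_⟩)
        · show dep' y ≠ 0
          rw [hd y hy.1]
          exact h4.1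
        · show par' y = x
          rw [hp y hy.1, h4.2]
  rw [Finset.sdiff_union_of_subset hDc] at hdec
  have h5 : Dec I 4 c D := dec_mono (by omega) hdec
  have h6 := Dec.move c D ∅ (by simp) (by simp) (fun s v _ hv => Or.inl fun i => by
    have := hv i
    rwa [Finset.union_empty] at this) h5
  rwa [Finset.union_empty] at h6

theorem dec_thin {M : Type} [Finite M] [DecidableEq M] (I : Interp S ar M) (R : Finset M)
    (hcl : ∀ x ∈ R, ∀ y, Adj I x y → y ∈ R)
    (h : ∀ T : Set M, T ⊆ (R : Set M) → eIn (gaif I) T ≤ T.ncard) : Dec I 4 R ∅ := by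
  classical
  induction hn : R.card using Nat.strong_induction_on generalizing R with
  | _ n ih =>
    rcases R.eq_empty_or_nonempty with rfl | ⟨x, hx⟩
    · exact Dec.leaf ∅ (by simp)
    · set C := (gaif I).connectedComponentMk x with hC
      set c : Finset M := (Set.toFinite C.supp).toFinset with hcdef
      have hcC : (c : Set M) = C.supp := Set.Finite.coe_toFinset _
      have hmem : ∀ y, y ∈ c ↔ y ∈ C.supp := fun y => by rw [← hcC]; exact Finset.mem_coe.symm
      have hadjC : ∀ y ∈ c, ∀ z, Adj I y z → z ∈ c := by
        intro y hy z hyz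
        rw [hmem] at hy ⊢
        exact C.mem_supp_of_adj_mem_supp hy hyz
      have hcR : c ⊆ R := by
        intro y hy
        rw [hmem, SimpleGraph.ConnectedComponent.mem_supp_iff, hC, SimpleGraph.ConnectedComponent.eq] at hy
        obtain ⟨p⟩ := hy.symm
        have hw : ∀ (a b : M), (gaif I).Walk a b → a ∈ R → b ∈ R := by
          intro a b q
          induction q with
          | nil => exact id
          | cons hadj _ ih' => exact fun ha => ih' (hcl _ ha _ hadj)
        exact hw _ _ p hx
      have h1 : Dec I 4 c ∅ := dec_comp61 I C c hcC (h _ (by rw [← hcC]; exact Finset.coe_subset.2 hcR))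
      have hxc : x ∈ c := (hmem x).2 (SimpleGraph.ConnectedComponent.connectedComponentMk_mem)
      have h2 : Dec I 4 (R \ c) ∅ := by
        refine ih (R \ c).card ?_ (R \ c) ?_ ?_ rfl
        · rw [← hn]
          exact Finset.card_lt_card (Finset.sdiff_ssubset hcR ⟨x, hxc⟩)
        · intro y hy z hyz
          rw [Finset.mem_sdiff] at hy ⊢
          refine ⟨hcl y hy.1 z hyz, fun hz => hy.2 (hadjC z hz y (SimpleGraph.Adj.symm (G := gaif I) hyz))⟩
        · intro T hT
          refine h T (hT.trans ?_)
          exact Finset.coe_subset.2 Finset.sdiff_subset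
      have h3 := Dec.join c (R \ c) ∅ (by rw [Finset.inter_sdiff_self]) (fun s v hv hmv => by
        by_cases h4 : ∃ i, v i ∈ c
        · left
          obtain ⟨i, hi⟩ := h4
          intro j
          by_cases hij : v i = v j
          · rwa [← hij]
          · exact hadjC _ hi _ ⟨hij, s, v, hv, ⟨i, rfl⟩, ⟨j, rfl⟩⟩
        · right
          push Not at h4
          intro i
          rcases Finset.mem_union.1 (hmv i) with h5 | h5
          · exact absurd h5 (h4 i)
          · exact h5) h1 h2
      rwa [Finset.union_sdiff_of_subset hcR] at h3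

end Pool.Agent.Helper38.SPT

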