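import Pool.Agent.Helper38.SPT.G4
import Pool.Agent.Helper38.SPT.G6B
import Pool.Agent.Helper38.SPT.G7A
import Pool.Agent.Helper38.SPT.G7B

/-!
# Block SPT-G7: the gap for the number of edges

Suppose that the first alternative fails: for every `L` there is a model with more than `n + L` edges, so `Exc I L` (`U = univ`).  Let `B₁` be from `exc_out φ 4`,
`B₂` from `exc_shrink φ 4`, `B := max B₁ B₂ + 1`.  Given `N`, let `L := 100 B + N ^ 2 + 1`, and take a model with `Exc I L` and the least number `n` of elements.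
`exc_split` for `gaif I`: `W`; `R := Wᶜ`.  If `|R| ≥ B` then `dec_thin` and `exc_out` (`X = R`, `C = ∅`, `U = W`) give a smaller model: contradiction.  So
`|R| < B`.  Let `ρ := eIn W - |W| ≥ L`.  `exists_forest (gaif I)`: `par`, `dep`, `X` with `|X| ≤ 2 (m + c - n)`, where the number of edges is
`m = eIn W + eIn R ≤ eIn W + |R|` and the number of components is `c ≤ ρ + |R|`: so `|X| ≤ 2 (2 ρ + 2 B)`.
If `(4 |X| + 1) B + 2 |X| ≤ n` then `exists_group_one` gives `Y`, `D`; `dec_tree` (as in `prot_forest`, file A7) and `exc_shrink` (`C = D`) give a smaller model: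
contradiction.  So `n < (4 |X| + 1) B + 2 |X| ≤ C₁ ρ` with `C₁ := 100 B ^ 2` or so, and `m ≥ |W| + ρ ≥ n + ρ - B ≥ n + ρ / 2 ≥ (1 + 1 / (2 C₁)) n`.
`n ≥ N` because `n ^ 2 ≥ m ≥ L`.
-/

set_option autoImplicit false

namespace Pool.Agent.Helper38.SPT

open FirstOrder FirstOrder.Language Pool.Agent.Helper20.Spectra Pool.Agent.Helper29.TD
  Pool.Agent.Helper29.TW

variable {S : Type} {ar : S → ℕ}

private lemma sep41 {n : ℕ} (I : Interp S ar (Fin n)) (Y D : Finset (Fin n))
    (hadj : ∀ x ∈ Y, ∀ y, Adj I x y → y ∈ Y ∨ y ∈ D) (s : S) (v : Fin (ar s) → Fin n) (hv : I s v) :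
    (∀ i, v i ∈ Y ∪ D) ∨ ∀ i, v i ∈ D ∨ v i ∉ Y ∪ D := by
  by_cases h : ∃ i, v i ∈ Y
  · obtain ⟨i, hi⟩ := h
    refine Or.inl fun j => ?_
    rw [Finset.mem_union]
    by_cases hij : v i = v j
    · rw [← hij]
      exact Or.inl hi
    · exact hadj _ hi _ ⟨hij, s, v, hv, ⟨i, rfl⟩, ⟨j, rfl⟩⟩
  · push Not at h
    refine Or.inr fun j => ?_
    by_cases hj : v j ∈ D
    · exact Or.inl hj
    · refine Or.inr ?_
      rw [Finset.mem_union]
      rintro (h1 | h1)
      · exact h j h1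
      · exact hj h1

private lemma eIn_univ41 {V : Type} (G : SimpleGraph V) : eIn G Set.univ = G.edgeSet.ncard := by
  unfold eIn
  congr 1
  ext e
  simp

private lemma edges_le41 {n : ℕ} (G : SimpleGraph (Fin n)) : G.edgeSet.ncard ≤ n ^ 2 := by
  classical
  have h := G.card_edgeFinset_le_card_choose_two
  rw [Fintype.card_fin] at h
  have h1 : G.edgeSet.ncard = G.edgeFinset.card := by
    rw [← SimpleGraph.coe_edgeFinset, Set.ncard_coe_finset]
  rw [h1]
  exact h.trans (Nat.choose_le_pow n 2)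

/-- the main step: in a smallest model with excess `L` the number of edges is at least `(1 + 1 / (100 B)) n` -/
private lemma step41 [Finite S] (φ : (RelLang S ar).Sentence) : ∃ B : ℕ, 1 ≤ B ∧ ∀ (n L : ℕ)
    (I : Interp S ar (Fin n)), 100 * B ≤ L → Sat I φ → Exc I L →
    (¬ ∃ (n' : ℕ) (I' : Interp S ar (Fin n')), n' < n ∧ Sat I' φ ∧ Exc I' L) →
    n + 100 * B * n ≤ 100 * B * (gaif I).edgeSet.ncard ∧ L ≤ (gaif I).edgeSet.ncard := by
  classical
  obtain ⟨B₁, h₁⟩ := exc_out φ 4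
  obtain ⟨B₂, h₂⟩ := exc_shrink φ 4
  obtain ⟨B, hBd⟩ : ∃ B, B = max B₁ B₂ + 1 := ⟨_, rfl⟩
  have hB₁ : B₁ ≤ B := by
    have := le_max_left B₁ B₂
    omega
  have hB₂ : B₂ ≤ B := by
    have := le_max_right B₁ B₂
    omega
  refine ⟨B, by omega, fun n L I hL hsat hexc hmin => ?_⟩
  obtain ⟨U, hU⟩ := id hexc
  obtain ⟨W, hWcl, hWL, hm, hc, hthin⟩ := exc_split (gaif I) U L hU
  let R : Finset (Fin n) := Finset.univ.filter fun x => x ∉ W
  have hR : (R : Set (Fin n)) = Wᶜ := by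
    ext x
    simp [R]
  have hRc : Wᶜ.ncard = R.card := by
    rw [← hR, Set.ncard_coe_finset]
  have hWR : W.ncard + R.card = n := by
    have h := Set.ncard_add_ncard_compl W
    rw [Nat.card_fin, hRc] at h
    exact h
  have hRB : R.card < B := by
    by_contra hlt
    push Not at hlt
    have hcl : ∀ x ∈ R, ∀ y, Adj I x y → y ∈ R := by
      intro x hx y hxy
      have h3 : x ∉ W := (Finset.mem_filter.1 hx).2
      exact Finset.mem_filter.2 ⟨Finset.mem_univ _, fun h4 => h3 ((hWcl x y hxy).2 h4)⟩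
    have hdec : Dec I 4 R ∅ := dec_thin I R hcl fun T hT => hthin T (by rw [← hR]; exact hT)
    refine hmin (h₁ n L I R ∅ hdec (fun s v hv => ?_) ?_ hsat ⟨W, fun x hx => Or.inr fun h3 => ?_, hWL⟩)
    · have h5 := sep41 I R ∅ (fun x hx y hxy => Or.inl (hcl x hx y hxy)) s v hv
      rwa [Finset.union_empty] at h5
    · rw [Finset.sdiff_empty]
      exact hB₁.trans hlt
    · exact (Finset.mem_filter.1 h3).2 hx
  have hRthin : eIn (gaif I) Wᶜ ≤ R.card := by
    rw [← hRc]
    exact hthin _ (le_refl _)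
  obtain ⟨par, dep, X, hpar, hadj, hcard⟩ := exists_forest (gaif I)
  rw [Nat.card_fin] at hcard
  rw [hRc] at hc
  obtain ⟨ρ, hρ⟩ : ∃ ρ, eIn (gaif I) W = W.ncard + ρ := ⟨eIn (gaif I) W - W.ncard, by omega⟩
  have hρL : L ≤ ρ := by omega
  have hX : X.card ≤ 4 * ρ + 2 * B := by omega
  have hX8 : X.card ≤ 5 * ρ := by omega
  have hn : n < (4 * X.card + 1) * B + 2 * X.card := by
    by_contra hge
    push Not at hge
    have hge' : (4 * X.card + 1) * B + 2 * X.card ≤ Fintype.card (Fin n) := by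
      rw [Fintype.card_fin]
      exact hge
    obtain ⟨Y, D, hYX, hYD, hD, hBY, h3, h4, h5⟩ :=
      exists_group_one par dep (fun v hv => (hpar v hv).2) X B hge'
    have hadjY : ∀ x y, Adj I x y → x ∈ Y → (dep x ≠ 0 ∧ par x = y) ∨ (dep y ≠ 0 ∧ par y = x) := by
      intro x y hxy hx
      rcases hadj x y hxy with h6 | h6 | h6
      · exact absurd h6.1 (Finset.disjoint_left.1 hYX hx)
      · exact Or.inl h6
      · exact Or.inr h6
    have hpar' : ∀ v, dep v ≠ 0 → Adj I v (par v) ∧ dep (par v) < dep v := by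
      intro v hv
      have := hpar v hv
      exact ⟨this.1, by omega⟩
    have hdec : Dec I (2 * 1 + D.card) (Y ∪ D) D := by
      refine dec_tree id par dep Y D 1 (fun t ht => (hpar' t ht).2) (fun t => ?_)
        (fun x hx y hy h => Or.inr (hadjY x y h hx))
      refine Finset.card_le_one.2 fun x hx y hy => ?_
      simp only [Finset.mem_filter] at hx hy
      exact hx.2.trans hy.2.symm
    exact hmin (h₂ n L I Y D par dep (dec_mono (by omega) hdec) hYD hpar' hadjY h3 h4 h5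
      (hB₂.trans hBY) hsat hexc)
  have hm' : W.ncard + ρ ≤ (gaif I).edgeSet.ncard := by omega
  have hnB : n ≤ 50 * (B * ρ) := by
    have h6 : X.card * B ≤ 5 * ρ * B := Nat.mul_le_mul_right B hX8
    have h7 : (4 * X.card + 1) * B = 4 * (X.card * B) + B := by ring
    have h8 : 5 * ρ * B = 5 * (B * ρ) := by ring
    have h9 : 1 * ρ ≤ B * ρ := Nat.mul_le_mul_right ρ (by omega)
    rw [h7] at hn
    rw [h8] at h6
    omega
  refine ⟨?_, by omega⟩
  obtain ⟨e, he⟩ : ∃ e, (gaif I).edgeSet.ncard = n + e := ⟨(gaif I).edgeSet.ncard - n, by omega⟩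
  have he' : ρ ≤ 2 * e := by omega
  have h6 : B * ρ ≤ B * (2 * e) := Nat.mul_le_mul_left B he'
  have h7 : 100 * B * (n + e) = 100 * B * n + 50 * (B * (2 * e)) := by ring
  rw [he, h7]
  omega

theorem gap_edges [Finite S] (φ : (RelLang S ar).Sentence) : Gap .edges φ := by
  classical
  obtain ⟨B, hB, hstep⟩ := step41 φ
  by_cases hfirst : ∃ L : ℕ, ∀ (n : ℕ) (I : Interp S ar (Fin n)), 1 ≤ n → Sat I φ →
      MeasLe .edges I (base .edges n + L)
  · exact Or.inl hfirst
  · refine Or.inr ⟨1 / (100 * (B : ℝ)), by positivity, fun N => ?_⟩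
    push Not at hfirst
    obtain ⟨L, hLd⟩ : ∃ L, L = 100 * B + N ^ 2 + 1 := ⟨_, rfl⟩
    have hex : ∃ n : ℕ, ∃ I : Interp S ar (Fin n), Sat I φ ∧ Exc I L := by
      obtain ⟨n, I, -, hsat, hm⟩ := hfirst L
      refine ⟨n, I, hsat, Set.univ, ?_⟩
      rw [eIn_univ41, Set.ncard_univ, Nat.card_fin]
      have h : ¬ (gaif I).edgeSet.ncard ≤ n + L := hm
      omega
    obtain ⟨I, hsat, hexc⟩ := Nat.find_spec hex
    have hmin : ¬ ∃ (n' : ℕ) (I' : Interp S ar (Fin n')), n' < Nat.find hex ∧ Sat I' φ ∧ Exc I' L := by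
      rintro ⟨n', I', hn', hs', he'⟩
      exact Nat.find_min hex hn' ⟨I', hs', he'⟩
    obtain ⟨h1, h2⟩ := hstep _ L I (by omega) hsat hexc hmin
    refine ⟨Nat.find hex, ?_, I, hsat, fun t ht => ?_⟩
    · have h3 := h2.trans (edges_le41 (gaif I))
      have h4 : N ^ 2 ≤ Nat.find hex ^ 2 := by omega
      exact (Nat.pow_le_pow_iff_left (by norm_num)).1 h4
    · have ht' : (gaif I).edgeSet.ncard ≤ t := ht
      have h3 : Nat.find hex + 100 * B * Nat.find hex ≤ 100 * B * t :=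
        h1.trans (Nat.mul_le_mul_left _ ht')
      have h4 : ((Nat.find hex : ℕ) : ℝ) + 100 * (B : ℝ) * ((Nat.find hex : ℕ) : ℝ)
          ≤ 100 * (B : ℝ) * (t : ℝ) := by exact_mod_cast h3
      have hBpos : (0 : ℝ) < 100 * (B : ℝ) := by
        have : (0 : ℝ) < (B : ℝ) := by exact_mod_cast hB
        positivity
      show (1 + 1 / (100 * (B : ℝ))) * ((Nat.find hex : ℕ) : ℝ) ≤ (t : ℝ)
      have h5 : (1 + 1 / (100 * (B : ℝ))) * ((Nat.find hex : ℕ) : ℝ)
          = (((Nat.find hex : ℕ) : ℝ) + 100 * (B : ℝ) * ((Nat.find hex : ℕ) : ℝ)) / (100 * (B : ℝ)) := by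
        field_simp
        ring
      rw [h5, div_le_iff₀ hBpos]
      linarith

end Pool.Agent.Helper38.SPT
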