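import Pool.Agent.Helper38.SPT.GDefs
import Pool.Agent.Helper38.SPT.A6

/-!
# Block SPT-G8: the gap for the vertex cover number (relations of arity at most two)

`cover_shrink`: as `cover_succ` (file A6, by helper85; copy the private lemmas), but remove an element.  `C` a vertex cover with at most `k` elements;
`n ≥ a ^ (k + 1)` with `a` large: there is a class `U` of more than `max q k + 1` elements outside `C` of the same type over `C`.  Remove `u₁ ∈ U`: the
structure `I` is isomorphic with the extension of the rest by a new element of the type of `u₀ ∈ U \ {u₁}` (or play the game directly).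
If `C'` is a vertex cover of the rest with `t ≤ k` elements then some `u ∈ U \ {u₁}` is not in `C'`, so all neighbours of `u` are in `C'`; the neighbours of `u₁`
are the neighbours of `u` (they are in `C`); so `C'` is a vertex cover of `I`.
`gap_cover`: if the first alternative fails then for `L = N` take the least `n` with a model of `φ` with `n` elements and `¬ MeasLe .cover I N`; let `k` be its vertex
cover number (least `t` with `MeasLe .cover I t`; `univ` is a vertex cover), `k > N`.  If `a ^ (k + 1) ≤ n` then `cover_shrink` gives a smaller one: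
contradiction.  So `n < (a + 1) ^ (k + 1)`, `log n ≤ (k + 1) log (a + 1) ≤ 2 k log (a + 1)`; `δ := 1 / (2 log (a + 1))`; `n ≥ k > N`.
-/

set_option autoImplicit false

namespace Pool.Agent.Helper38.SPT

open FirstOrder FirstOrder.Language Pool.Agent.Helper20.Spectra Pool.Agent.Helper29.TD
  Pool.Agent.Helper29.TW

variable {S : Type} {ar : S → ℕ}

variable {M : Type}

/-- the type of an element over `C` -/
private def typ6 (I : Interp S ar M) (C : Finset M) (x : M) : S × Option C → Prop × Prop :=
  fun z => match z.2 with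
    | none => (I z.1 (fun _ => x), True)
    | some c => (I z.1 (fun i => if i.val = 0 then x else (c : M)),
        I z.1 (fun i => if i.val = 0 then (c : M) else x))

open Classical in
private lemma typ_subst6 (har : ∀ s, ar s ≤ 2) {I : Interp S ar M} {C : Finset M} {u u' : M}
    (h : typ6 I C u = typ6 I C u') (s : S) (w : Fin (ar s) → M) (hw : ∀ i, w i ∈ C ∨ w i = u)
    (_hu : u ∉ C) : I s w ↔ I s (fun i => if w i = u then u' else w i) := by
  by_cases hall : ∀ i, w i = u
  · have e1 : w = fun _ => u := funext hall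
    have e2 : (fun i => if w i = u then u' else w i) = fun _ => u' := by
      funext i
      rw [if_pos (hall i)]
    rw [e2, e1]
    have h1 := congrArg Prod.fst (congrFun h (s, none))
    exact iff_of_eq h1
  · push Not at hall
    obtain ⟨i₀, hi₀⟩ := hall
    have hc : w i₀ ∈ C := (hw i₀).resolve_right hi₀
    by_cases hex : ∃ i₁, w i₁ = u
    · obtain ⟨i₁, hi₁⟩ := hex
      have hne : i₀ ≠ i₁ := by
        rintro rfl
        exact hi₀ hi₁
      have hne' : i₀.val ≠ i₁.val := fun h' => hne (Fin.ext h')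
      have hs := har s
      have l0 := i₀.isLt
      have l1 := i₁.isLt
      by_cases h0 : i₁.val = 0
      · have e0 : ∀ i : Fin (ar s), (i.val = 0 → i = i₁) ∧ (i.val ≠ 0 → i = i₀) := by
          intro i
          have := i.isLt
          exact ⟨fun h' => Fin.ext (by omega), fun h' => Fin.ext (by omega)⟩
        have e1 : w = fun i => if i.val = 0 then u else w i₀ := by
          funext i
          split_ifs with h'
          · rw [(e0 i).1 h', hi₁]
          · rw [(e0 i).2 h']
        have e2 : (fun i => if w i = u then u' else w i) = fun i => if i.val = 0 then u' else w i₀ := by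
          funext i
          by_cases h' : i.val = 0
          · rw [(e0 i).1 h', if_pos hi₁, if_pos (by rw [h0])]
          · rw [(e0 i).2 h', if_neg hi₀, if_neg]
            intro h''
            exact hne' (by rw [h'', h0])
        rw [e2]
        have h1 := congrArg Prod.fst (congrFun h (s, some ⟨w i₀, hc⟩))
        have h2 : I s (fun i => if i.val = 0 then u else w i₀) ↔
            I s (fun i => if i.val = 0 then u' else w i₀) := iff_of_eq h1
        rw [← h2, ← e1]
      · have e0 : ∀ i : Fin (ar s), (i.val = 0 → i = i₀) ∧ (i.val ≠ 0 → i = i₁) := by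
          intro i
          have := i.isLt
          exact ⟨fun h' => Fin.ext (by omega), fun h' => Fin.ext (by omega)⟩
        have h0' : i₀.val = 0 := by omega
        have e1 : w = fun i => if i.val = 0 then w i₀ else u := by
          funext i
          split_ifs with h'
          · rw [(e0 i).1 h']
          · rw [(e0 i).2 h', hi₁]
        have e2 : (fun i => if w i = u then u' else w i) = fun i => if i.val = 0 then w i₀ else u' := by
          funext i
          by_cases h' : i.val = 0
          · rw [(e0 i).1 h', if_neg hi₀, if_pos h0']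
          · rw [(e0 i).2 h', if_pos hi₁, if_neg h0]
        rw [e2]
        have h1 := congrArg Prod.snd (congrFun h (s, some ⟨w i₀, hc⟩))
        have h2 : I s (fun i => if i.val = 0 then w i₀ else u) ↔
            I s (fun i => if i.val = 0 then w i₀ else u') := iff_of_eq h1
        rw [← h2, ← e1]
    · push Not at hex
      have e2 : (fun i => if w i = u then u' else w i) = w := by
        funext i
        rw [if_neg (hex i)]
      rw [e2]

/-- the structure with one more element -/
private def ext6 (I : Interp S ar M) (C : Finset M) (u : M) : Interp S ar (Option M) := fun s v =>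
  I s (fun i => (v i).getD u) ∧ ((∃ i, v i = none) → ∀ i, v i = none ∨ ∃ c ∈ C, v i = some c)

/-- the positions -/
private def Inv6 (U : Finset M) (P : Set (M × Option M)) : Prop :=
  (∀ p ∈ P, (p.1 ∉ U ∧ p.2 = some p.1) ∨ (p.1 ∈ U ∧ (p.2 = none ∨ ∃ u ∈ U, p.2 = some u))) ∧
  ∀ p ∈ P, ∀ p' ∈ P, p.1 = p'.1 ↔ p.2 = p'.2

private lemma Inv_insert6 {U : Finset M} {P : Set (M × Option M)} (h : Inv6 U P) {x : M} {y : Option M}
    (h1 : (x ∉ U ∧ y = some x) ∨ (x ∈ U ∧ (y = none ∨ ∃ u ∈ U, y = some u)))
    (h2 : ∀ p' ∈ P, x = p'.1 ↔ y = p'.2) : Inv6 U (insert (x, y) P) := by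
  obtain ⟨ha, hb⟩ := h
  refine ⟨?_, ?_⟩
  · rintro p (rfl | hp)
    · exact h1
    · exact ha p hp
  · rintro p (rfl | hp) p' (rfl | hp')
    · exact ⟨fun _ => rfl, fun _ => rfl⟩
    · exact h2 p' hp'
    · have := h2 p hp
      exact ⟨fun h => (this.1 h.symm).symm, fun h => (this.2 h.symm).symm⟩
    · exact hb p hp p' hp'

open Classical in
private lemma piso6 (har : ∀ s, ar s ≤ 2) {I : Interp S ar M} {C U : Finset M}
    (hC : ∀ (s : S) (w : Fin (ar s) → M), I s w → ∀ i j, w i ≠ w j → w i ∈ C ∨ w j ∈ C)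
    (hU : ∀ u ∈ U, u ∉ C) (hty : ∀ u ∈ U, ∀ u' ∈ U, typ6 I C u = typ6 I C u') {u₀ : M}
    (hu₀ : u₀ ∈ U) {P : Set (M × Option M)} (hP : Inv6 U P) : PIso I (ext6 I C u₀) P := by
  obtain ⟨ha, hb⟩ := hP
  have hK : ∀ p ∈ P, p.1 ∉ C → ∀ c ∈ C, p.2 ≠ some c := by
    intro p hp hpc c hc heq
    rcases ha p hp with ⟨-, h⟩ | ⟨-, h | ⟨u, hu, h⟩⟩
    · rw [h] at heq
      exact hpc ((Option.some_injective _ heq) ▸ hc)
    · rw [h] at heq
      exact absurd heq (by simp)
    · rw [h] at heq
      exact hU u hu ((Option.some_injective _ heq) ▸ hc)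
  refine ⟨hb, fun s v hv => ?_⟩
  by_cases H : ∃ i j, (v i).1 ≠ (v j).1 ∧ (v i).1 ∉ C ∧ (v j).1 ∉ C
  · obtain ⟨i, j, hij, hi, hj⟩ := H
    have hij2 : (v i).2 ≠ (v j).2 := fun h => hij ((hb _ (hv i) _ (hv j)).2 h)
    constructor
    · intro h
      rcases hC s _ h i j hij with h' | h'
      · exact absurd h' hi
      · exact absurd h' hj
    · rintro ⟨h1, h2⟩
      exfalso
      by_cases hn : ∃ l, (v l).2 = none
      · rcases h2 hn i with e1 | ⟨c, hc, e1⟩
        · rcases h2 hn j with e2 | ⟨c, hc, e2⟩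
          · exact hij2 (e1.trans e2.symm)
          · exact hK _ (hv j) hj c hc e2
        · exact hK _ (hv i) hi c hc e1
      · push Not at hn
        obtain ⟨x, hx⟩ := Option.ne_none_iff_exists'.1 (hn i)
        obtain ⟨y, hy⟩ := Option.ne_none_iff_exists'.1 (hn j)
        have hxy : x ≠ y := fun h => hij2 (by rw [hx, hy, h])
        have h3 : (v i).2.getD u₀ ∈ C ∨ (v j).2.getD u₀ ∈ C := hC s _ h1 i j (by
          change (v i).2.getD u₀ ≠ (v j).2.getD u₀
          rw [hx, hy]
          exact hxy)
        rw [hx, hy] at h3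
        rcases h3 with h3 | h3
        · exact hK _ (hv i) hi x h3 hx
        · exact hK _ (hv j) hj y h3 hy
  · push Not at H
    by_cases hU1 : ∃ i₁, (v i₁).1 ∈ U
    · obtain ⟨i₁, hi₁⟩ := hU1
      have hu1 : (v i₁).1 ∉ C := hU _ hi₁
      have hall : ∀ i, (v i).1 ∈ C ∨ (v i).1 = (v i₁).1 := by
        intro i
        by_cases h : (v i).1 = (v i₁).1
        · exact Or.inr h
        · exact Or.inl (by
            by_contra hcon
            exact hcon (H i₁ i (fun h' => h h'.symm) hu1))
      have hu2 : (v i₁).2.getD u₀ ∈ U := by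
        rcases ha _ (hv i₁) with ⟨h, -⟩ | ⟨-, h | ⟨u, hu, h⟩⟩
        · exact absurd hi₁ h
        · rw [h]
          exact hu₀
        · rw [h]
          exact hu
      have hsome : ∀ i, (v i).1 ≠ (v i₁).1 → (v i).2 = some (v i).1 := by
        intro i h
        rcases ha _ (hv i) with ⟨-, h'⟩ | ⟨h', -⟩
        · exact h'
        · exact absurd ((hall i).resolve_right h) (hU _ h')
      have hsame : ∀ i, (v i).1 = (v i₁).1 → (v i).2 = (v i₁).2 := fun i h =>
        (hb _ (hv i) _ (hv i₁)).1 h
      have hget : (fun i => (v i).2.getD u₀) =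
          fun i => if (v i).1 = (v i₁).1 then (v i₁).2.getD u₀ else (v i).1 := by
        funext i
        split_ifs with h
        · rw [hsame i h]
        · rw [hsome i h]
          rfl
      have hcond : (∃ i, (v i).2 = none) → ∀ i, (v i).2 = none ∨ ∃ c ∈ C, (v i).2 = some c := by
        rintro ⟨l, hl⟩ i
        have hl1 : (v l).1 = (v i₁).1 := by
          by_contra h
          rw [hsome l h] at hl
          exact absurd hl (by simp)
        have hn : (v i₁).2 = none := by rw [← hsame l hl1, hl]
        by_cases h : (v i).1 = (v i₁).1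
        · left
          rw [hsame i h, hn]
        · right
          exact ⟨(v i).1, (hall i).resolve_right h, hsome i h⟩
      have h1 := typ_subst6 har (hty _ hi₁ _ hu2) s (fun i => (v i).1) hall hu1
      rw [h1]
      constructor
      · intro h
        refine ⟨?_, hcond⟩
        rw [hget]
        exact h
      · rintro ⟨h, -⟩
        rw [hget] at h
        exact h
    · push Not at hU1
      have hsome : ∀ i, (v i).2 = some (v i).1 := by
        intro i
        rcases ha _ (hv i) with ⟨-, h'⟩ | ⟨h', -⟩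
        · exact h'
        · exact absurd h' (hU1 i)
      have hget : (fun i => (v i).2.getD u₀) = fun i => (v i).1 := by
        funext i
        rw [hsome i]
        rfl
      constructor
      · intro h
        refine ⟨?_, ?_⟩
        · rw [hget]
          exact h
        · rintro ⟨l, hl⟩
          have hl' : (v l).2 = none := hl
          rw [hsome l] at hl'
          exact absurd hl' (by simp)
      · rintro ⟨h, -⟩
        rw [hget] at h
        exact h

open Classical in
private lemma bf6 (har : ∀ s, ar s ≤ 2) {I : Interp S ar M} {C U : Finset M}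
    (hC : ∀ (s : S) (w : Fin (ar s) → M), I s w → ∀ i j, w i ≠ w j → w i ∈ C ∨ w j ∈ C)
    (hU : ∀ u ∈ U, u ∉ C) (hty : ∀ u ∈ U, ∀ u' ∈ U, typ6 I C u = typ6 I C u') {u₀ : M}
    (hu₀ : u₀ ∈ U) {q : ℕ} (hq : q < U.card) (r : ℕ) {P : Set (M × Option M)} (hP : Inv6 U P)
    (F : Finset (M × Option M)) (hF : ∀ p ∈ P, p.1 ∈ U → p ∈ F) (hc : F.card + r ≤ q) :
    BF I (ext6 I C u₀) Set.univ Set.univ r P := by
  induction r generalizing P F with
  | zero => exact piso6 har hC hU hty hu₀ hP
  | succ r ih =>
    have hsingle : ∀ x : M, x ∉ U → BF I (ext6 I C u₀) Set.univ Set.univ r (insert (x, some x) P) := by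
      intro x hx
      refine ih (Inv_insert6 hP (Or.inl ⟨hx, rfl⟩) ?_) F ?_ (by omega)
      · intro p' hp'
        constructor
        · intro h
          rcases hP.1 p' hp' with ⟨-, h'⟩ | ⟨h', -⟩
          · rw [h', h]
          · exact absurd (h ▸ h') hx
        · intro h
          rcases hP.1 p' hp' with ⟨-, h'⟩ | ⟨-, h' | ⟨u, hu, h'⟩⟩
          · rw [h'] at h
            exact Option.some_injective _ h
          · rw [h'] at h
            exact absurd h (by simp)
          · rw [h'] at h
            exact absurd ((Option.some_injective _ h) ▸ hu) hx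
      · rintro p (rfl | hp) hpU
        · exact absurd hpU hx
        · exact hF p hp hpU
    have hold : ∀ p ∈ P, BF I (ext6 I C u₀) Set.univ Set.univ r (insert (p.1, p.2) P) := by
      intro p hp
      have e : insert (p.1, p.2) P = P := Set.insert_eq_of_mem hp
      rw [e]
      exact ih hP F hF (by omega)
    have hnew : ∀ (x : M) (y : Option M), x ∈ U → (y = none ∨ ∃ u ∈ U, y = some u) →
        (∀ p ∈ P, x ≠ p.1) → (∀ p ∈ P, y ≠ p.2) →
        BF I (ext6 I C u₀) Set.univ Set.univ r (insert (x, y) P) := by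
      intro x y hx hy h1 h2
      refine ih (Inv_insert6 hP (Or.inr ⟨hx, hy⟩) ?_) (insert (x, y) F) ?_ ?_
      · intro p' hp'
        exact ⟨fun h => absurd h (h1 p' hp'), fun h => absurd h (h2 p' hp')⟩
      · rintro p (rfl | hp) hpU
        · exact Finset.mem_insert_self _ _
        · exact Finset.mem_insert_of_mem (hF p hp hpU)
      · have := Finset.card_insert_le (x, y) F
        omega
    refine ⟨piso6 har hC hU hty hu₀ hP, ?_, ?_⟩
    · intro x _
      by_cases hx : x ∈ U
      · by_cases hex : ∃ p ∈ P, p.1 = x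
        · obtain ⟨p, hp, rfl⟩ := hex
          exact ⟨p.2, Set.mem_univ _, hold p hp⟩
        · push Not at hex
          have hcard : (F.image Prod.snd).card < (insert none (U.image some)).card := by
            have e1 : (F.image Prod.snd).card ≤ F.card := Finset.card_image_le
            have e2 : (insert none (U.image some)).card = U.card + 1 := by
              rw [Finset.card_insert_of_notMem (by simp), Finset.card_image_of_injective _
                (Option.some_injective _)]
            omega
          obtain ⟨y, hy, hyF⟩ := Finset.exists_mem_notMem_of_card_lt_card hcard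
          have hy' : y = none ∨ ∃ u ∈ U, y = some u := by
            rcases Finset.mem_insert.1 hy with h | h
            · exact Or.inl h
            · obtain ⟨u, hu, h⟩ := Finset.mem_image.1 h
              exact Or.inr ⟨u, hu, h.symm⟩
          refine ⟨y, Set.mem_univ _, hnew x y hx hy' (fun p hp h => hex p hp h.symm) ?_⟩
          intro p hp h
          by_cases hpU : p.1 ∈ U
          · exact hyF (Finset.mem_image.2 ⟨p, hF p hp hpU, h.symm⟩)
          · rcases hP.1 p hp with ⟨-, h'⟩ | ⟨h', -⟩
            · rw [h'] at h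
              rcases hy' with h'' | ⟨u, hu, h''⟩
              · rw [h''] at h
                exact absurd h (by simp)
              · rw [h''] at h
                exact hpU ((Option.some_injective _ h) ▸ hu)
            · exact hpU h'
      · exact ⟨some x, Set.mem_univ _, hsingle x hx⟩
    · intro y _
      by_cases hy : y = none ∨ ∃ u ∈ U, y = some u
      · by_cases hex : ∃ p ∈ P, p.2 = y
        · obtain ⟨p, hp, rfl⟩ := hex
          exact ⟨p.1, Set.mem_univ _, hold p hp⟩
        · push Not at hex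
          have hcard : (F.image Prod.fst).card < U.card := by
            have e1 : (F.image Prod.fst).card ≤ F.card := Finset.card_image_le
            omega
          obtain ⟨x, hx, hxF⟩ := Finset.exists_mem_notMem_of_card_lt_card hcard
          refine ⟨x, Set.mem_univ _, hnew x y hx hy ?_ (fun p hp h => hex p hp h.symm)⟩
          intro p hp h
          exact hxF (Finset.mem_image.2 ⟨p, hF p hp (h ▸ hx), h.symm⟩)
      · push Not at hy
        obtain ⟨x, rfl⟩ := Option.ne_none_iff_exists'.1 hy.1
        refine ⟨x, Set.mem_univ _, hsingle x ?_⟩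
        intro hx
        exact hy.2 x hx rfl

/-- adjacency is stable under the replacement of `u` by an element of the same type -/
private lemma adj_subst6 (har : ∀ s, ar s ≤ 2) {I : Interp S ar M} {C : Finset M} {u u' y : M}
    (hu : u ∉ C) (hu' : u' ∉ C) (h : typ6 I C u = typ6 I C u') (hy : y ∈ C) (ha : Adj I u y) : Adj I u' y := by
  classical
  obtain ⟨hne, s, v, hv, ⟨i, hi⟩, ⟨j, hj⟩⟩ := ha
  have hij : i ≠ j := by
    rintro rfl
    exact hne (hi.symm.trans hj)
  have hij' : i.val ≠ j.val := fun h' => hij (Fin.ext h')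
  have hall : ∀ l, v l ∈ C ∨ v l = u := by
    intro l
    have hs := har s
    have l0 := i.isLt
    have l1 := j.isLt
    have l2 := l.isLt
    by_cases hl : l.val = i.val
    · right
      rw [Fin.ext hl, hi]
    · left
      rw [Fin.ext (show l.val = j.val by omega), hj]
      exact hy
  have h1 := (typ_subst6 har h s v hall hu).1 hv
  refine ⟨fun h' => hu' (h' ▸ hy), s, _, h1, ⟨i, if_pos hi⟩, ⟨j, ?_⟩⟩
  have hju : v j ≠ u := fun h' => hne (h'.symm.trans hj)
  rw [if_neg hju, hj]

/-- the structure without the element `u₁` -/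
private def del6 {m : ℕ} (I : Interp S ar (Fin (m + 1))) (u₁ : Fin (m + 1)) : Interp S ar (Fin m) :=
  fun s v => I s (fun i => u₁.succAbove (v i))

private lemma typ_del6 {m : ℕ} {I : Interp S ar (Fin (m + 1))} {u₁ : Fin (m + 1)} {C : Finset (Fin (m + 1))}
    {C₁ : Finset (Fin m)} (hC₁ : ∀ x, x ∈ C₁ ↔ u₁.succAbove x ∈ C) {x y : Fin m}
    (h : typ6 I C (u₁.succAbove x) = typ6 I C (u₁.succAbove y)) : typ6 (del6 I u₁) C₁ x = typ6 (del6 I u₁) C₁ y := by
  funext z
  obtain ⟨s, _ | c⟩ := z
  · exact congrFun h (s, none)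
  · have h1 := congrFun h (s, some ⟨u₁.succAbove c.1, (hC₁ _).1 c.2⟩)
    have e1 : ∀ x : Fin m, typ6 (del6 I u₁) C₁ x (s, some c) =
        typ6 I C (u₁.succAbove x) (s, some ⟨u₁.succAbove c.1, (hC₁ _).1 c.2⟩) := by
      intro x
      have a1 : (fun i : Fin (ar s) => u₁.succAbove (if i.val = 0 then x else (c : Fin m))) =
          fun i : Fin (ar s) => if i.val = 0 then u₁.succAbove x else u₁.succAbove c.1 := by
        funext i
        split_ifs <;> rfl
      have a2 : (fun i : Fin (ar s) => u₁.succAbove (if i.val = 0 then (c : Fin m) else x)) =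
          fun i : Fin (ar s) => if i.val = 0 then u₁.succAbove c.1 else u₁.succAbove x := by
        funext i
        split_ifs <;> rfl
      change ((I s (fun i : Fin (ar s) => u₁.succAbove (if i.val = 0 then x else (c : Fin m))), _) : Prop × Prop) =
        (I s (fun i : Fin (ar s) => if i.val = 0 then u₁.succAbove x else u₁.succAbove c.1), _)
      rw [a1]
      change ((_, I s (fun i : Fin (ar s) => u₁.succAbove (if i.val = 0 then (c : Fin m) else x))) : Prop × Prop) =
        (_, I s (fun i : Fin (ar s) => if i.val = 0 then u₁.succAbove c.1 else u₁.succAbove x))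
      rw [a2]
    rw [e1, e1]
    exact h1

/-- the structure is the extension of the structure without `u₁` -/
private lemma ext_del6 (har : ∀ s, ar s ≤ 2) {m : ℕ} {I : Interp S ar (Fin (m + 1))} {u₁ : Fin (m + 1)}
    {C : Finset (Fin (m + 1))} {C₁ : Finset (Fin m)} (hC₁ : ∀ x, x ∈ C₁ ↔ u₁.succAbove x ∈ C)
    (hC : ∀ (s : S) (w : Fin (ar s) → Fin (m + 1)), I s w → ∀ i j, w i ≠ w j → w i ∈ C ∨ w j ∈ C)
    (hu₁ : u₁ ∉ C) {u₀ : Fin m} (h : typ6 I C u₁ = typ6 I C (u₁.succAbove u₀))
    (s : S) (v : Fin (ar s) → Option (Fin m)) :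
    ext6 (del6 I u₁) C₁ u₀ s v ↔ I s (fun i => (finSuccEquiv' u₁).symm (v i)) := by
  classical
  have g1 : ∀ o : Option (Fin m), o ≠ none → u₁.succAbove (o.getD u₀) = (finSuccEquiv' u₁).symm o := by
    intro o ho
    obtain ⟨x, rfl⟩ := Option.ne_none_iff_exists'.1 ho
    rw [finSuccEquiv'_symm_some]
    rfl
  by_cases hn : ∃ l, v l = none
  · obtain ⟨l, hl⟩ := hn
    have hl' : (finSuccEquiv' u₁).symm (v l) = u₁ := by rw [hl, finSuccEquiv'_symm_none]
    have key : (∀ i, (finSuccEquiv' u₁).symm (v i) ∈ C ∨ (finSuccEquiv' u₁).symm (v i) = u₁) →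
        (I s (fun i => (finSuccEquiv' u₁).symm (v i)) ↔ del6 I u₁ s (fun i => (v i).getD u₀)) := by
      intro hall
      rw [typ_subst6 har h s _ hall hu₁]
      refine iff_of_eq (congrArg (I s) (funext fun i => ?_))
      by_cases hi : v i = none
      · rw [if_pos (by rw [hi, finSuccEquiv'_symm_none])]
        change u₁.succAbove u₀ = u₁.succAbove ((v i).getD u₀)
        rw [hi]
        rfl
      · rw [if_neg, ← g1 _ hi]
        rw [← g1 _ hi]
        exact Fin.succAbove_ne _ _
    constructor
    · rintro ⟨h1, h2⟩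
      refine (key fun i => ?_).2 h1
      rcases h2 ⟨l, hl⟩ i with h3 | ⟨c, hc, h3⟩
      · right
        rw [h3, finSuccEquiv'_symm_none]
      · left
        rw [h3, finSuccEquiv'_symm_some]
        exact (hC₁ c).1 hc
    · intro h1
      have hall : ∀ i, (finSuccEquiv' u₁).symm (v i) ∈ C ∨ (finSuccEquiv' u₁).symm (v i) = u₁ := by
        intro i
        by_cases hi : (finSuccEquiv' u₁).symm (v i) = u₁
        · exact Or.inr hi
        · left
          rcases hC s _ h1 i l (by
            rw [hl']
            exact hi) with h2 | h2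
          · exact h2
          · rw [hl'] at h2
            exact absurd h2 hu₁
      refine ⟨(key hall).1 h1, fun _ i => ?_⟩
      rcases Option.eq_none_or_eq_some (v i) with h3 | ⟨c, h3⟩
      · exact Or.inl h3
      · right
        refine ⟨c, ?_, h3⟩
        rcases hall i with h4 | h4
        · rw [h3, finSuccEquiv'_symm_some] at h4
          exact (hC₁ c).2 h4
        · rw [h3, finSuccEquiv'_symm_some] at h4
          exact absurd h4 (Fin.succAbove_ne _ _)
  · have e : (fun i => u₁.succAbove ((v i).getD u₀)) = fun i => (finSuccEquiv' u₁).symm (v i) := by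
      funext i
      exact g1 _ fun h' => hn ⟨i, h'⟩
    constructor
    · rintro ⟨h1, -⟩
      have h1' : I s (fun i => u₁.succAbove ((v i).getD u₀)) := h1
      rw [e] at h1'
      exact h1'
    · intro h1
      refine ⟨?_, fun h' => absurd h' hn⟩
      change I s (fun i => u₁.succAbove ((v i).getD u₀))
      rw [e]
      exact h1

theorem cover_shrink [Finite S] (har : ∀ s, ar s ≤ 2) (φ : (RelLang S ar).Sentence) :
    ∃ a : ℕ, 1 ≤ a ∧ ∀ (n k : ℕ) (I : Interp S ar (Fin n)), MeasLe .cover I k → a ^ (k + 1) ≤ n →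
      Sat I φ → ∃ (n' : ℕ) (I' : Interp S ar (Fin n')), n' < n ∧ Sat I' φ ∧
        ∀ t ≤ k, MeasLe .cover I' t → MeasLe .cover I t := by
  classical
  obtain ⟨q, hq⟩ := BF.sat φ
  have := Fintype.ofFinite S
  obtain ⟨b, hb⟩ : ∃ b, b = 4 ^ Fintype.card S := ⟨_, rfl⟩
  have hb1 : 1 ≤ b := by
    rw [hb]
    exact Nat.one_le_pow _ _ (by norm_num)
  refine ⟨b * (q + 5), Nat.mul_pos hb1 (by omega), ?_⟩
  intro n k I hcov hn hsat
  obtain ⟨C', hC'k, hC'⟩ := hcov
  obtain ⟨C, hCdef⟩ : ∃ C : Finset (Fin n), C = C'.toFinset := ⟨_, rfl⟩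
  have hmem : ∀ x, x ∈ C ↔ x ∈ C' := by
    intro x
    rw [hCdef, Set.mem_toFinset]
  have hCk : C.card ≤ k := by
    rw [hCdef, ← Set.ncard_eq_toFinset_card']
    exact hC'k
  have hC : ∀ (s : S) (w : Fin (ar s) → Fin n), I s w → ∀ i j, w i ≠ w j → w i ∈ C ∨ w j ∈ C := by
    intro s w hw i j hij
    rcases hC' (w i) (w j) ⟨hij, s, w, hw, ⟨i, rfl⟩, ⟨j, rfl⟩⟩ with h | h
    · exact Or.inl ((hmem _).2 h)
    · exact Or.inr ((hmem _).2 h)
  have hcardT : Fintype.card (S × Option C → Prop × Prop) ≤ b ^ (k + 1) := by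
    rw [Fintype.card_fun, Fintype.card_prod, Fintype.card_prod, Fintype.card_option, Fintype.card_coe]
    have e1 : Fintype.card Prop * Fintype.card Prop = 4 := by
      have e0 : Fintype.card Prop = 2 := by
        rw [Fintype.card_congr Equiv.propEquivBool]
        exact Fintype.card_bool
      rw [e0]
    rw [e1, hb, ← pow_mul]
    exact Nat.pow_le_pow_right (by norm_num) (Nat.mul_le_mul_left _ (by omega))
  have hpg : Fintype.card (S × Option C → Prop × Prop) * (q + k + 1) < (Finset.univ \ C).card := by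
    rw [Finset.card_sdiff_of_subset (Finset.subset_univ C), Finset.card_univ, Fintype.card_fin]
    have e2 : Fintype.card (S × Option C → Prop × Prop) * (q + k + 1) ≤ b ^ (k + 1) * (q + k + 1) :=
      Nat.mul_le_mul_right _ hcardT
    have e4 : q + k + 1 + (k + 1) ≤ (q + 5) ^ (k + 1) := by
      have f2 : 5 ^ k ≤ (q + 5) ^ k := Nat.pow_le_pow_left (by omega) _
      have f3 : k < 5 ^ k := Nat.lt_pow_self (by norm_num)
      have f4 : (q + 5) ^ (k + 1) = (q + 5) ^ k * (q + 5) := pow_succ _ _
      rw [f4]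
      nlinarith
    have e5 : 1 ≤ b ^ (k + 1) := Nat.one_le_pow _ _ hb1
    have e6 : (b * (q + 5)) ^ (k + 1) = b ^ (k + 1) * (q + 5) ^ (k + 1) := mul_pow _ _ _
    have e7 : b ^ (k + 1) * (q + k + 1 + (k + 1)) ≤ n := by
      refine le_trans (Nat.mul_le_mul_left _ e4) ?_
      rw [← e6]
      exact hn
    have e8 : k + 1 ≤ b ^ (k + 1) * (k + 1) := Nat.le_mul_of_pos_left _ e5
    have e9 : b ^ (k + 1) * (q + k + 1 + (k + 1)) = b ^ (k + 1) * (q + k + 1) + b ^ (k + 1) * (k + 1) := mul_add _ _ _
    omega
  obtain ⟨τ, -, hτ⟩ := Finset.exists_lt_card_fiber_of_mul_lt_card_of_maps_to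
    (s := Finset.univ \ C) (t := (Finset.univ : Finset (S × Option C → Prop × Prop)))
    (f := typ6 I C) (n := q + k + 1) (fun _ _ => Finset.mem_univ _) (by rw [Finset.card_univ]; exact hpg)
  obtain ⟨U, hUdef⟩ : ∃ U, U = (Finset.univ \ C).filter (fun x => typ6 I C x = τ) := ⟨_, rfl⟩
  rw [← hUdef] at hτ
  have hU : ∀ u ∈ U, u ∉ C := by
    intro u hu
    rw [hUdef, Finset.mem_filter, Finset.mem_sdiff] at hu
    exact hu.1.2
  have hty : ∀ u ∈ U, ∀ u' ∈ U, typ6 I C u = typ6 I C u' := by
    intro u hu u' hu'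
    rw [hUdef, Finset.mem_filter] at hu hu'
    rw [hu.2, hu'.2]
  obtain ⟨u₁, hu₁⟩ : U.Nonempty := Finset.card_pos.1 (by omega)
  obtain ⟨m, rfl⟩ : ∃ m, n = m + 1 := ⟨n - 1, by have := u₁.isLt; omega⟩
  obtain ⟨C₁, hC₁⟩ : ∃ C₁ : Finset (Fin m), ∀ x, x ∈ C₁ ↔ u₁.succAbove x ∈ C :=
    ⟨Finset.univ.filter (fun x => u₁.succAbove x ∈ C), fun x => by simp⟩
  obtain ⟨U₁, hU₁⟩ : ∃ U₁ : Finset (Fin m), ∀ x, x ∈ U₁ ↔ u₁.succAbove x ∈ U :=
    ⟨Finset.univ.filter (fun x => u₁.succAbove x ∈ U), fun x => by simp⟩
  have hU₁c : q + k < U₁.card := by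
    have e1 : U ⊆ insert u₁ (U₁.image u₁.succAbove) := by
      intro x hx
      rw [Finset.mem_insert]
      by_cases hxu : x = u₁
      · exact Or.inl hxu
      · right
        obtain ⟨y, rfl⟩ := Fin.exists_succAbove_eq hxu
        exact Finset.mem_image_of_mem _ ((hU₁ y).2 hx)
    have e2 := Finset.card_le_card e1
    have e3 := Finset.card_insert_le u₁ (U₁.image u₁.succAbove)
    have e4 : (U₁.image u₁.succAbove).card ≤ U₁.card := Finset.card_image_le
    omega
  obtain ⟨u₀, hu₀⟩ : U₁.Nonempty := Finset.card_pos.1 (by omega)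
  have hC1 : ∀ (s : S) (w : Fin (ar s) → Fin m), del6 I u₁ s w → ∀ i j, w i ≠ w j → w i ∈ C₁ ∨ w j ∈ C₁ := by
    intro s w hw i j hij
    rw [hC₁, hC₁]
    exact hC s _ hw i j (fun h => hij (Fin.succAbove_right_injective h))
  have hU1 : ∀ u ∈ U₁, u ∉ C₁ := by
    intro u hu h
    exact hU _ ((hU₁ u).1 hu) ((hC₁ u).1 h)
  have hty1 : ∀ u ∈ U₁, ∀ u' ∈ U₁, typ6 (del6 I u₁) C₁ u = typ6 (del6 I u₁) C₁ u' := fun u hu u' hu' =>
    typ_del6 hC₁ (hty _ ((hU₁ u).1 hu) _ ((hU₁ u').1 hu'))
  refine ⟨m, del6 I u₁, Nat.lt_succ_self m, ?_, ?_⟩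
  · have hbf := bf6 har hC1 hU1 hty1 hu₀ (q := q) (by omega) q (P := ∅) ⟨fun p hp => absurd hp (Set.notMem_empty p),
      fun p hp => absurd hp (Set.notMem_empty p)⟩ ∅ (fun p hp => absurd hp (Set.notMem_empty p)) (by simp)
    have h1 := hq _ _ (del6 I u₁) (ext6 (del6 I u₁) C₁ u₀) Set.univ Set.univ hbf
    rw [Sat.univ, Sat.univ] at h1
    rw [h1]
    have h2 : ext6 (del6 I u₁) C₁ u₀ = fun s v => I s (fun i => (finSuccEquiv' u₁).symm (v i)) := by
      funext s v
      exact propext (ext_del6 har hC₁ hC (hU _ hu₁) (hty _ hu₁ _ ((hU₁ u₀).1 hu₀)) s v)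
    rw [h2, ← Sat.iso I (finSuccEquiv' u₁) φ]
    exact hsat
  · rintro t htk ⟨D, hDt, hD⟩
    obtain ⟨u, huU, huD⟩ : ∃ u ∈ U₁, u ∉ D := by
      by_contra hcon
      push Not at hcon
      have e1 : (U₁ : Set (Fin m)) ⊆ D := fun x hx => hcon x hx
      have e2 := Set.ncard_le_ncard e1 (Set.toFinite D)
      rw [Set.ncard_coe_finset] at e2
      omega
    refine ⟨u₁.succAbove '' D, ?_, ?_⟩
    · exact (Set.ncard_image_le (Set.toFinite D)).trans hDt
    · have huC : u₁.succAbove u ∉ C := hU _ ((hU₁ u).1 huU)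
      -- adjacency away from `u₁`
      have hadj : ∀ x y : Fin m, Adj I (u₁.succAbove x) (u₁.succAbove y) → Adj (del6 I u₁) x y := by
        rintro x y ⟨hne, s, v, hv, ⟨i, hi⟩, ⟨j, hj⟩⟩
        have hij : i ≠ j := by
          rintro rfl
          exact hne (hi.symm.trans hj)
        have hij' : i.val ≠ j.val := fun h' => hij (Fin.ext h')
        refine ⟨fun h => hne (by rw [h]), s, fun l => if l = i then x else y, ?_, ⟨i, if_pos rfl⟩, ⟨j, if_neg hij.symm⟩⟩
        have e : v = fun l => u₁.succAbove (if l = i then x else y) := by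
          funext l
          by_cases hl : l = i
          · rw [if_pos hl, hl, hi]
          · rw [if_neg hl]
            have hs := har s
            have l0 := i.isLt
            have l1 := j.isLt
            have l2 := l.isLt
            have hl' : l.val ≠ i.val := fun h' => hl (Fin.ext h')
            rw [Fin.ext (show l.val = j.val by omega), hj]
        change I s (fun l => u₁.succAbove (if l = i then x else y))
        rw [← e]
        exact hv
      have hcase : ∀ y, Adj I u₁ y → y ∈ u₁.succAbove '' D := by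
        intro y hy
        obtain ⟨z, rfl⟩ := Fin.exists_succAbove_eq (show y ≠ u₁ from fun h => hy.1 h.symm)
        have hyC : u₁.succAbove z ∈ C := by
          obtain ⟨hne, s, v, hv, ⟨i, hi⟩, ⟨j, hj⟩⟩ := hy
          rcases hC s v hv i j (by rw [hi, hj]; exact hne) with h | h
          · rw [hi] at h
            exact absurd h (hU _ hu₁)
          · rw [hj] at h
            exact h
        have h1 := adj_subst6 har (hU _ hu₁) huC (hty _ hu₁ _ ((hU₁ u).1 huU)) hyC hy
        rcases hD _ _ (hadj _ _ h1) with h2 | h2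
        · exact absurd h2 huD
        · exact ⟨z, h2, rfl⟩
      intro x y hxy
      by_cases hx : x = u₁
      · right
        rw [hx] at hxy
        exact hcase y hxy
      · by_cases hy : y = u₁
        · left
          rw [hy] at hxy
          exact hcase x ⟨hxy.1.symm, hxy.2.imp fun _ h1 => h1.imp fun _ h2 => ⟨h2.1, h2.2.2, h2.2.1⟩⟩
        · obtain ⟨x', rfl⟩ := Fin.exists_succAbove_eq hx
          obtain ⟨y', rfl⟩ := Fin.exists_succAbove_eq hy
          rcases hD _ _ (hadj _ _ hxy) with h | h
          · exact Or.inl ⟨x', h, rfl⟩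
          · exact Or.inr ⟨y', h, rfl⟩

theorem gap_cover [Finite S] (har : ∀ s, ar s ≤ 2) (φ : (RelLang S ar).Sentence) :
    Gap .cover φ := by
  classical
  obtain ⟨a, ha1, ha⟩ := cover_shrink har φ
  by_cases hall : ∃ L : ℕ, ∀ (n : ℕ) (I : Interp S ar (Fin n)), 1 ≤ n → Sat I φ → MeasLe .cover I (base .cover n + L)
  · exact Or.inl hall
  right
  have hmono : ∀ {n : ℕ} (I : Interp S ar (Fin n)) {t t' : ℕ}, t ≤ t' → MeasLe .cover I t → MeasLe .cover I t' := by
    rintro n I t t' htt ⟨D, hD, h⟩
    exact ⟨D, hD.trans htt, h⟩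
  have hlog : 0 < Real.log ((a : ℝ) + 1) := Real.log_pos (by
    have : (1 : ℝ) ≤ a := by exact_mod_cast ha1
    linarith)
  refine ⟨1 / (2 * Real.log ((a : ℝ) + 1)), by positivity, fun N => ?_⟩
  have hex : ∃ n : ℕ, ∃ I : Interp S ar (Fin n), Sat I φ ∧ ¬ MeasLe .cover I N := by
    by_contra hcon
    push Not at hcon
    exact hall ⟨N, fun n I _ hI => by
      have := hcon n I hI
      have e : base .cover n + N = N := Nat.zero_add N
      rw [e]
      exact this⟩
  obtain ⟨n, hn⟩ : ∃ n, n = Nat.find hex := ⟨_, rfl⟩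
  obtain ⟨I, hI, hIN⟩ : ∃ I : Interp S ar (Fin n), Sat I φ ∧ ¬ MeasLe .cover I N := by
    rw [hn]
    exact Nat.find_spec hex
  have hle : MeasLe .cover I n := ⟨Set.univ, by rw [Set.ncard_univ, Nat.card_eq_fintype_card, Fintype.card_fin],
    fun x y _ => Or.inl (Set.mem_univ x)⟩
  have hexk : ∃ t, MeasLe .cover I t := ⟨n, hle⟩
  obtain ⟨k, hk⟩ : ∃ k, k = Nat.find hexk := ⟨_, rfl⟩
  have hkI : MeasLe .cover I k := by
    rw [hk]
    exact Nat.find_spec hexk
  have hkmin : ∀ t, MeasLe .cover I t → k ≤ t := fun t ht => by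
    rw [hk]
    exact Nat.find_min' hexk ht
  have hkN : N < k := by
    by_contra hcon
    exact hIN (hmono I (by omega) hkI)
  have hkn : k ≤ n := hkmin n hle
  have hlt : n < a ^ (k + 1) := by
    by_contra hcon
    obtain ⟨n', I', hn', hI', hmeas⟩ := ha n k I hkI (by omega) hI
    have h1 : ¬ MeasLe .cover I' N := fun h => hIN (hmeas N hkN.le h)
    have h2 : Nat.find hex ≤ n' := Nat.find_min' hex ⟨I', hI', h1⟩
    omega
  refine ⟨n, by omega, I, hI, fun t ht => ?_⟩
  have hkt : (k : ℝ) ≤ t := by exact_mod_cast hkmin t ht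
  have hn0 : 0 < n := by omega
  have hlogn : Real.log n ≤ (k + 1) * Real.log ((a : ℝ) + 1) := by
    have h1 : (n : ℝ) ≤ ((a : ℝ) + 1) ^ (k + 1) := by
      have h2 : n ≤ (a + 1) ^ (k + 1) := hlt.le.trans (Nat.pow_le_pow_left (Nat.le_succ a) _)
      exact_mod_cast h2
    have h3 := Real.log_le_log (by exact_mod_cast hn0) h1
    rw [Real.log_pow] at h3
    push_cast at h3
    exact h3
  change 1 / (2 * Real.log ((a : ℝ) + 1)) * Real.log n ≤ t
  have hk1 : (1 : ℝ) ≤ k := by exact_mod_cast (by omega : 1 ≤ k)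
  have h4 : 1 / (2 * Real.log ((a : ℝ) + 1)) * Real.log n ≤
      1 / (2 * Real.log ((a : ℝ) + 1)) * ((k + 1) * Real.log ((a : ℝ) + 1)) :=
    mul_le_mul_of_nonneg_left hlogn (by positivity)
  have h5 : 1 / (2 * Real.log ((a : ℝ) + 1)) * ((k + 1) * Real.log ((a : ℝ) + 1)) = (k + 1) / 2 := by
    field_simp
  linarith

end Pool.Agent.Helper38.SPT
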