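import Pool.Agent.Helper38.SPT.Defs

/-!
# The gap theorem: statements
-/

set_option autoImplicit false

namespace Pool.Agent.Helper38.SPT

open FirstOrder FirstOrder.Language Pool.Agent.Helper20.Spectra Pool.Agent.Helper20.OP
  Pool.Agent.Helper29.TD

/-- the thresholds `(1 + δ) n`, `δ √n`, `δ log n` -/
noncomputable def thr : Meas → ℝ → ℕ → ℝ
  | .edges, δ, n => (1 + δ) * n
  | .branch, δ, n => δ * √n
  | .cover, δ, n => δ * Real.log n

/-- `n` for the number of edges, otherwise `0` -/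
def base : Meas → ℕ → ℕ
  | .edges, n => n
  | _, _ => 0

/-- The gap: either the measure of the models of `φ` with `n` elements is at most `n + L`, `L`, `L`, or there are
`δ > 0` and models of `φ` with arbitrarily many elements whose measure is at least `(1 + δ) n`, `δ √n`, `δ log n`. -/
def Gap (μ : Meas) {S : Type} {ar : S → ℕ} (φ : (RelLang S ar).Sentence) : Prop :=
  (∃ L : ℕ, ∀ (n : ℕ) (I : Interp S ar (Fin n)), 1 ≤ n → Sat I φ → MeasLe μ I (base μ n + L)) ∨
  ∃ δ : ℝ, 0 < δ ∧ ∀ N : ℕ, ∃ n, N ≤ n ∧ ∃ I : Interp S ar (Fin n), Sat I φ ∧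
    ∀ t : ℕ, MeasLe μ I t → thr μ δ n ≤ t

/-- the number of edges of `G` inside `U` -/
noncomputable def eIn {V : Type} (G : SimpleGraph V) (U : Set V) : ℕ :=
  {e : Sym2 V | e ∈ G.edgeSet ∧ ∀ x ∈ e, x ∈ U}.ncard

end Pool.Agent.Helper38.SPT
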