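import Pool.Agent.Helper38.SPT.Main
import Pool.Agent.Helper38.SPT.G3
import Pool.Agent.Helper38.SPT.G7
import Pool.Agent.Helper38.SPT.G8

/-!
# The gap theorem for sparse structures
-/

set_option autoImplicit false

namespace Pool.Agent.Helper38.SPT

open FirstOrder FirstOrder.Language Filter Pool.Agent.Helper20.Spectra Pool.Agent.Helper20.OP
  Pool.Agent.Helper29.TD

variable {S : Type} {ar : S → ℕ}

theorem gap [Finite S] (μ : Meas) (φ : (RelLang S ar).Sentence) (h : μ = .cover → ∀ s, ar s ≤ 2) :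
    Gap μ φ := by
  cases μ with
  | edges => exact gap_edges φ
  | branch => exact gap_branch φ
  | cover => exact gap_cover (h rfl) φ

private lemma above38 (μ : Meas) (w : ℕ → ℕ) :
    Above μ w ↔ ∃ δ : ℝ, 0 < δ ∧ ∀ᶠ n : ℕ in atTop, thr μ δ n ≤ w n := by
  cases μ <;> exact Iff.rfl

private lemma below38 (μ : Meas) (w : ℕ → ℕ) :
    Below μ w ↔ ∀ ε : ℝ, 0 < ε → ∀ᶠ n : ℕ in atTop, (w n : ℝ) ≤ thr μ ε n := by
  cases μ <;> exact Iff.rfl

private lemma below_base38 (μ : Meas) (L : ℕ) : Below μ (fun n => base μ n + L) := by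
  rw [below38]
  intro ε hε
  cases μ with
  | edges =>
    have h1 : Tendsto (fun n : ℕ => ε * (n : ℝ)) atTop atTop :=
      Tendsto.const_mul_atTop hε tendsto_natCast_atTop_atTop
    filter_upwards [h1.eventually_ge_atTop (L : ℝ)] with n hn
    change ((n + L : ℕ) : ℝ) ≤ (1 + ε) * n
    push_cast
    linarith
  | branch =>
    have h1 : Tendsto (fun n : ℕ => ε * √(n : ℝ)) atTop atTop :=
      Tendsto.const_mul_atTop hε (Real.tendsto_sqrt_atTop.comp tendsto_natCast_atTop_atTop)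
    filter_upwards [h1.eventually_ge_atTop (L : ℝ)] with n hn
    change ((0 + L : ℕ) : ℝ) ≤ ε * √n
    rw [zero_add]
    exact hn
  | cover =>
    have h1 : Tendsto (fun n : ℕ => ε * Real.log (n : ℝ)) atTop atTop :=
      Tendsto.const_mul_atTop hε (Real.tendsto_log_atTop.comp tendsto_natCast_atTop_atTop)
    filter_upwards [h1.eventually_ge_atTop (L : ℝ)] with n hn
    change ((0 + L : ℕ) : ℝ) ≤ ε * Real.log n
    rw [zero_add]
    exact hn

private lemma thr_lt38 (μ : Meas) {δ : ℝ} (hδ : 0 < δ) {n : ℕ} (hn : 2 ≤ n) :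
    thr μ (δ / 2) n < thr μ δ n := by
  have h1 : (2 : ℝ) ≤ n := by exact_mod_cast hn
  have h2 : 0 < √(n : ℝ) := Real.sqrt_pos.2 (by linarith)
  have h3 : 0 < Real.log (n : ℝ) := Real.log_pos (by linarith)
  cases μ with
  | edges => change (1 + δ / 2) * (n : ℝ) < (1 + δ) * n; nlinarith
  | branch => change δ / 2 * √(n : ℝ) < δ * √n; nlinarith
  | cover => change δ / 2 * Real.log (n : ℝ) < δ * Real.log n; nlinarith

theorem gap_main (μ : Meas) :
    (∀ (S : Type) (_ : Finite S) (ar : S → ℕ) (φ : (RelLang S ar).Sentence),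
      (μ = .cover → ∀ s, ar s ≤ 2) →
      ((∃ L : ℕ, ∀ (n : ℕ) (I : Interp S ar (Fin n)), 1 ≤ n → Sat I φ →
          MeasLe μ I (base μ n + L)) ∧
        UltPeriodic {n : ℕ | 1 ≤ n ∧ ∃ I : Interp S ar (Fin n), Sat I φ}) ∨
      ∃ δ : ℝ, 0 < δ ∧ ∀ N : ℕ, ∃ n, N ≤ n ∧ ∃ I : Interp S ar (Fin n), Sat I φ ∧
        ∀ t : ℕ, MeasLe μ I t → thr μ δ n ≤ t) ∧
    ∀ w : ℕ → ℕ,
      ((∃ δ : ℝ, 0 < δ ∧ ∀ᶠ n : ℕ in atTop, thr μ δ n ≤ w n) →
        (∃ U : Set ℕ, SparseSpectrum μ w U ∧ ∀ A : Set ℕ, IsSpectrum A ↔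
          ∃ h : Polynomial ℕ, A = {n : ℕ | 1 ≤ n ∧ h.eval n ∈ U}) ∧
        ((∀ A : Set ℕ, SparseSpectrum μ w A → IsRudimentary A) ↔
          ∀ A : Set ℕ, IsSpectrum A ↔ (IsRudimentary A ∧ 0 ∉ A))) ∧
      ((∀ ε : ℝ, 0 < ε → ∀ᶠ n : ℕ in atTop, (w n : ℝ) ≤ thr μ ε n) →
        ∀ A : Set ℕ, SparseSpectrum μ w A → UltPeriodic A ∧
          ∃ L : ℕ, SparseSpectrum μ (fun n => base μ n + L) A) := by
  refine ⟨fun S hS ar φ har => ?_, fun w => ⟨fun h => ?_, fun h A hA => ?_⟩⟩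
  · rcases gap μ φ har with ⟨L, hL⟩ | h
    · refine Or.inl ⟨⟨L, hL⟩, ?_⟩
      exact tame μ (fun n => base μ n + L) (below_base38 μ L)
        ⟨S, hS, ar, φ, har, hL, fun n => Iff.rfl⟩
    · exact Or.inr h
  · exact (sparse_threshold μ w).1 ((above38 μ w).2 h)
  · refine ⟨tame μ w ((below38 μ w).2 h) hA, ?_⟩
    obtain ⟨S, hS, ar, φ, har, h1, h2⟩ := hA
    rcases gap μ φ har with ⟨L, hL⟩ | ⟨δ, hδ, hd⟩
    · exact ⟨L, S, hS, ar, φ, har, hL, h2⟩
    · exfalso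
      obtain ⟨N₀, hN₀⟩ := eventually_atTop.1 (h (δ / 2) (by positivity))
      obtain ⟨n, hn, I, hI, ht⟩ := hd (N₀ + 2)
      have h3 := ht (w n) (h1 n I (by omega) hI)
      have h4 := hN₀ n (by omega)
      have h5 := thr_lt38 μ hδ (show 2 ≤ n by omega)
      linarith

end Pool.Agent.Helper38.SPT
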