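import Pool.Agent.Helper38.SPT.PDefs
import Pool.Agent.Helper20.OP.SqDef

/-!
# Block SPT-P1: path codes are definable

`def_sqCode` (OP/SqDef) for the field `sq`; `PO₂`, `PT`: `Def.exTuple`, `Def.all_fin`, `Def.rel`.  The other fields: closure lemmas of `Def`; write
the structure as the conjunction of its fields (`Def.congr`).
-/

set_option autoImplicit false

namespace Pool.Agent.Helper38.SPT

open Pool.Agent.Helper20.OP Pool.Agent.Helper29.Prefix

section

variable {q : ℕ}

private lemma d_plt62 : Def2 (q + 3) (fun _ R => plt R) := Def.rel _ 0 1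

private lemma d_nx62 : Def2 (q + 3) (fun _ R => nx R) := Def.rel _ 0 1

private lemma d_core62 : Def1 (q + 3) (fun _ R => core R) := Def.rel _ 0 0

private lemma d_ptile62 (g : Fin q) : Def1 (q + 3) (fun _ R => ptile R g) := Def.rel _ 0 0

private lemma d_path62 (m : ℕ) {r : ℕ} (i j : Fin r) (c : Fin (m + 1) → Fin r) :
    Def (q + 3) r (fun _ R v => Path R m (v i) (v j) (fun k => v (c k))) := by
  unfold Path
  refine Def.and (d_nx62.app _ _) (Def.and (Def.all_fin fun k => d_nx62.app _ _)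
    (Def.and (d_nx62.app _ _) (Def.all_fin fun k => Def.not (d_core62.app _))))

private lemma d_PO₁62 : Def2 (q + 3) (fun _ R => PO₁ R) := by
  unfold Def2 PO₁
  exact Def.and (Def.eq _ _) (d_core62.app _)

private lemma d_PO₂62 (m : ℕ) : Def3 (q + 3) (fun _ R => PO₂ R m) := by
  unfold Def3 PO₂
  refine Def.and (d_core62.app _) (Def.and (d_core62.app _) ?_)
  refine Def.exTuple (m + 1) (P := fun V R v c => Path R m (v 1) (v 2) c ∧ ∃ i, v 0 = c i) ?_
  exact Def.and (d_path62 m _ _ _) (Def.ex_fin fun k => Def.eq _ _)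

private lemma d_PT62 {Γ : Type} (m : ℕ) (c₀ : Fin q → Γ) (γ : Γ) :
    Def2 (q + 3) (fun _ R x y => PT R m c₀ x y γ) := by
  unfold Def2 PT
  refine Def.ex_fin fun g => Def.and (Def.const _) ?_
  refine Def.exTuple (m + 1) (P := fun V R v c => Path R m (v 0) (v 1) c ∧ ptile R g (c 0)) ?_
  exact Def.and (d_path62 m _ _ _) ((d_ptile62 g).app _)

end

theorem def_pathCode {q m : ℕ} {Γ : Type} [Finite Γ] (W : Wang Γ) (c₀ : Fin q → Γ) :
    Def0 (q + 3) (fun _ R => PathCode R m W c₀) := by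
  have hsq : Def0 (q + 3) (fun _ R =>
      SqCode W 1 (m + 1) 0 (core R) (plt R) (PT R m c₀) (PO₁ R) (PO₂ R m) (fun _ => False)) :=
    def_sqCode W 1 (m + 1) 0 (I := fun _ R => core R) (lt := fun _ R => plt R) (t := fun _ R => PT R m c₀)
      (O₁ := fun _ R => PO₁ R) (O₂ := fun _ R => PO₂ R m) (Ex := fun _ _ _ => False)
      d_core62 d_plt62 (d_PT62 m c₀) d_PO₁62 (d_PO₂62 m) (Def.const _)
  refine Def.congr (P := fun V R _ =>
    SqCode W 1 (m + 1) 0 (core R) (plt R) (PT R m c₀) (PO₁ R) (PO₂ R m) (fun _ => False) ∧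
    (∀ r : Fin (q + 3), 2 ≤ r.1 → ∀ x y, R r x y → x = y) ∧
    (∀ x y, plt R x y → core R x ∧ core R y) ∧
    (∀ x y, nx R x y → ¬ core R x ∨ ¬ core R y) ∧
    (∀ x x' y, ¬ core R y → nx R x y → nx R x' y → x = x') ∧
    (∀ x y y', ¬ core R x → nx R x y → nx R x y' → y = y') ∧
    (∀ x y v v', PO₂ R m v x y → PO₂ R m v' x y → nx R v y → nx R v' y → v = v')) ?_
    (fun V R _ => ⟨fun h => ⟨h.sq, h.loops, h.lt_core, h.nx_core, h.in_uniq, h.out_uniq, h.last_uniq⟩,
      fun ⟨h1, h2, h3, h4, h5, h6, h7⟩ => ⟨h1, h2, h3, h4, h5, h6, h7⟩⟩)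
  refine Def.and hsq ?_
  repeat' first
    | exact Def.const _
    | exact Def.rel _ _ _
    | exact d_core62.app _
    | exact d_plt62.app _ _
    | exact d_nx62.app _ _
    | exact (d_PO₂62 m).app _ _ _
    | exact Def.eq _ _
    | refine Def.not ?_
    | refine Def.and ?_ ?_
    | refine Def.or ?_ ?_
    | refine Def.imp ?_ ?_
    | refine Def.all ?_
    | refine Def.ex ?_
    | refine Def.all_fin (fun _ => ?_)

end Pool.Agent.Helper38.SPT
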