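import Pool.Agent.Helper38.SPT.PDefs
import Pool.Agent.Helper20.OP.SqEnc

/-!
# Block SPT-P2: the intended path codes

`V := Fin N ⊕ (Fin N × Fin N × Fin (m + 1))`; core `inl x`; `plt (inl x) (inl y) ↔ x < y`; `nx (inl x) (inr (x, y, 0))`, `nx (inr (x, y, i)) (inr (x, y, i + 1))`,
`nx (inr (x, y, m)) (inl y)`; `ptile g (inr (x, y, 0)) ↔ c₀ g = f x y` for the given tiling `f` (choose one `g`, `c₀` is surjective); all relations with
index `≥ 2` are contained in the diagonal.  The only path from `inl x` to `inl y` is `c i = inr (x, y, i)`.  The field `sq`: use the theorem on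
`SqStd` of OP/SqEnc with `z i = inl i`, `own (inl x) = some (inl x)`, `own (inr (x, y, i)) = some (inr (x, y))`, or prove the fields directly.
-/

set_option autoImplicit false

namespace Pool.Agent.Helper38.SPT

open Pool.Agent.Helper20.OP Pool.Agent.Helper29.Prefix

/-- the universe -/
private abbrev V38 (N m : ℕ) : Type := Fin N ⊕ (Fin N × Fin N × Fin (m + 1))

private def lt38 {N m : ℕ} : V38 N m → V38 N m → Prop
  | .inl a, .inl b => a < b
  | _, _ => False

private def nx38 {N m : ℕ} : V38 N m → V38 N m → Prop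
  | .inl a, .inr p => a = p.1 ∧ p.2.2.1 = 0
  | .inr p, .inr p' => p.1 = p'.1 ∧ p.2.1 = p'.2.1 ∧ p'.2.2.1 = p.2.2.1 + 1
  | .inr p, .inl b => p.2.1 = b ∧ p.2.2.1 = m
  | .inl _, .inl _ => False

private def R38 {N m q : ℕ} (g : Fin N → Fin N → Fin q) : Str (q + 3) (V38 N m) := fun r x y =>
  if r.1 = 0 then lt38 x y else if r.1 = 1 then nx38 x y else if r.1 = 2 then x = y ∧ ∃ a, x = .inl a
  else x = y ∧ ∃ (a b : Fin N) (i : Fin (m + 1)), x = .inr (a, b, i) ∧ i.1 = 0 ∧ r.1 = 3 + (g a b).1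

section

variable {N m q : ℕ} (g : Fin N → Fin N → Fin q)

private lemma plt_iff38 (x y : V38 N m) : plt (R38 g) x y ↔ lt38 x y := by
  unfold plt R38
  simp

private lemma nx_iff38 (x y : V38 N m) : nx (R38 g) x y ↔ nx38 x y := by
  unfold nx R38
  simp

private lemma core_iff38 (x : V38 N m) : core (R38 g) x ↔ ∃ a, x = .inl a := by
  unfold core R38
  simp

private lemma ptile_iff38 (h : Fin q) (x : V38 N m) : ptile (R38 g) h x ↔
    ∃ (a b : Fin N) (i : Fin (m + 1)), x = .inr (a, b, i) ∧ i.1 = 0 ∧ h = g a b := by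
  unfold ptile R38
  have h1 : ¬ (3 + h.1 = 0) := by omega
  have h2 : ¬ (3 + h.1 = 1) := by omega
  have h3 : ¬ (3 + h.1 = 2) := by omega
  rw [if_neg h1, if_neg h2, if_neg h3]
  constructor
  · rintro ⟨-, a, b, i, h4, h5, h6⟩
    have h7 : 3 + h.1 = 3 + (g a b).1 := h6
    exact ⟨a, b, i, h4, h5, Fin.ext (by omega)⟩
  · rintro ⟨a, b, i, h4, h5, h6⟩
    exact ⟨rfl, a, b, i, h4, h5, by rw [h6]⟩

private lemma path_iff38 (x y : V38 N m) (c : Fin (m + 1) → V38 N m) (hx : ∃ a, x = .inl a) :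
    Path (R38 g) m x y c ↔ ∃ a b : Fin N, x = .inl a ∧ y = .inl b ∧ ∀ i, c i = .inr (a, b, i) := by
  constructor
  · rintro ⟨h1, h2, h3, h4⟩
    obtain ⟨a, rfl⟩ := hx
    rw [nx_iff38] at h1 h3
    have hno : ∀ i, ∃ p, c i = .inr p := by
      intro i
      rcases h : c i with b | p
      · exact absurd ((core_iff38 g _).2 ⟨b, h⟩) (h4 i)
      · exact ⟨p, rfl⟩
    obtain ⟨p₀, hp₀⟩ := hno 0
    rw [hp₀] at h1
    have hall : ∀ (k : ℕ) (hk : k < m + 1), c ⟨k, hk⟩ = .inr (a, p₀.2.1, ⟨k, hk⟩) := by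
      intro k
      induction k with
      | zero =>
        intro hk
        have e : (⟨0, hk⟩ : Fin (m + 1)) = 0 := rfl
        rw [e, hp₀]
        obtain ⟨e1, e2⟩ := h1
        congr 1
        refine Prod.ext e1.symm (Prod.ext rfl ?_)
        exact Fin.ext e2
      | succ k ih =>
        intro hk
        have h5 := h2 ⟨k, by omega⟩
        have e1 : (⟨k, by omega⟩ : Fin m).castSucc = (⟨k, by omega⟩ : Fin (m + 1)) := rfl
        have e2 : (⟨k, by omega⟩ : Fin m).succ = (⟨k + 1, hk⟩ : Fin (m + 1)) := rfl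
        rw [e1, e2, ih (by omega), nx_iff38] at h5
        obtain ⟨p, hp⟩ := hno ⟨k + 1, hk⟩
        rw [hp] at h5 ⊢
        obtain ⟨e3, e4, e5⟩ := h5
        congr 1
        exact Prod.ext e3.symm (Prod.ext e4.symm (Fin.ext e5))
    have hl := hall m (by omega)
    have e : Fin.last m = (⟨m, by omega⟩ : Fin (m + 1)) := rfl
    rw [e, hl] at h3
    refine ⟨a, p₀.2.1, rfl, ?_, fun i => hall i.1 i.2⟩
    rcases y with b | p
    · rw [h3.1]
    · exfalso
      have h6 := h3.2.2
      have h7 := p.2.2.2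
      simp only at h6
      omega
  · rintro ⟨a, b, rfl, rfl, hc⟩
    refine ⟨?_, fun i => ?_, ?_, fun i h => ?_⟩
    · rw [nx_iff38, hc]
      exact ⟨rfl, rfl⟩
    · rw [nx_iff38, hc, hc]
      exact ⟨rfl, rfl, rfl⟩
    · rw [nx_iff38, hc]
      exact ⟨rfl, rfl⟩
    · rw [core_iff38, hc] at h
      obtain ⟨a', h'⟩ := h
      cases h'

private lemma PO₂_iff38 (v x y : V38 N m) : PO₂ (R38 g) m v x y ↔
    ∃ (a b : Fin N) (i : Fin (m + 1)), x = .inl a ∧ y = .inl b ∧ v = .inr (a, b, i) := by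
  constructor
  · rintro ⟨hx, hy, c, hc, i, rfl⟩
    obtain ⟨a, b, h1, h2, h3⟩ := (path_iff38 g x y c ((core_iff38 g x).1 hx)).1 hc
    exact ⟨a, b, i, h1, h2, h3 i⟩
  · rintro ⟨a, b, i, rfl, rfl, rfl⟩
    exact ⟨(core_iff38 g _).2 ⟨a, rfl⟩, (core_iff38 g _).2 ⟨b, rfl⟩, fun i => .inr (a, b, i),
      (path_iff38 g _ _ _ ⟨a, rfl⟩).2 ⟨a, b, rfl, rfl, fun _ => rfl⟩, i, rfl⟩

private lemma PT_iff38 {Γ : Type} (c₀ : Fin q → Γ) (a b : Fin N) (γ : Γ) :
    PT (R38 (m := m) g) m c₀ (.inl a) (.inl b) γ ↔ γ = c₀ (g a b) := by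
  constructor
  · rintro ⟨h, hγ, c, hc, ht⟩
    obtain ⟨a', b', h1, h2, h3⟩ := (path_iff38 g _ _ c ⟨a, rfl⟩).1 hc
    cases h1
    cases h2
    rw [ptile_iff38, h3] at ht
    obtain ⟨a', b', i, h4, -, h6⟩ := ht
    cases h4
    rw [← hγ, h6]
  · rintro rfl
    exact ⟨g a b, rfl, fun i => .inr (a, b, i), (path_iff38 g _ _ _ ⟨a, rfl⟩).2
      ⟨a, b, rfl, rfl, fun _ => rfl⟩, (ptile_iff38 g _ _).2 ⟨a, b, 0, rfl, rfl, rfl⟩⟩

end

theorem path_encode {q m : ℕ} {Γ : Type} (W : Wang Γ) (c₀ : Fin q → Γ)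
    (hc₀ : Function.Surjective c₀) {N : ℕ} (hN : 2 ≤ N) (ht : Tiles W N) :
    ∃ (V : Type) (_ : Finite V) (R : Str (q + 3) V),
      Nat.card V = (m + 1) * N ^ 2 + N ∧ PathCode R m W c₀ := by
  obtain ⟨f, tR, tU, tl, tr, tb, tt, tc⟩ := ht
  choose s hs using hc₀
  obtain ⟨g, hg⟩ : ∃ g : Fin N → Fin N → Fin q, ∀ a b, c₀ (g a b) = f a.1 b.1 :=
    ⟨fun a b => s (f a.1 b.1), fun a b => hs _⟩
  obtain ⟨z, hz⟩ : ∃ z : ℕ → V38 N m, ∀ i (hi : i < N), z i = .inl ⟨i, hi⟩ :=
    ⟨fun i => if hi : i < N then .inl ⟨i, hi⟩ else .inl ⟨0, by omega⟩, fun i hi => dif_pos hi⟩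
  obtain ⟨own, ho1, ho2⟩ : ∃ own : V38 N m → Option (ℕ ⊕ ℕ × ℕ),
      (∀ a : Fin N, own (.inl a) = some (Sum.inl a.1)) ∧
      ∀ p : Fin N × Fin N × Fin (m + 1), own (.inr p) = some (Sum.inr (p.1.1, p.2.1.1)) :=
    ⟨fun v => match v with
      | .inl a => some (Sum.inl a.1)
      | .inr p => some (Sum.inr (p.1.1, p.2.1.1)), fun _ => rfl, fun _ => rfl⟩
  have hstd : SqStd W N f 1 (m + 1) 0 (core (R38 g)) (plt (R38 g)) (PT (R38 g) m c₀) (PO₁ (R38 g))
      (PO₂ (R38 g) m) (fun _ => False) z own := by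
    refine
      { hN := hN
        tR := tR
        tU := tU
        tl := tl
        tr := tr
        tb := tb
        tt := tt
        tc := tc
        inj := ?_
        I_iff := ?_
        lt_iff := ?_
        t_iff := ?_
        O₁_iff := ?_
        O₂_iff := ?_
        own_ex := fun v h => h.elim
        own_some := ?_
        cnt₁ := ?_
        cnt₂ := ?_
        ext := ?_ }
    · intro i j hi hj h
      rw [hz i hi, hz j hj] at h
      simpa using h
    · intro x
      rw [core_iff38]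
      constructor
      · rintro ⟨a, rfl⟩
        exact ⟨a.1, a.2, (hz _ a.2).symm⟩
      · rintro ⟨i, hi, rfl⟩
        exact ⟨_, hz i hi⟩
    · intro i j hi hj
      rw [plt_iff38, hz i hi, hz j hj]
      exact Iff.rfl
    · intro i j γ hi hj
      rw [hz i hi, hz j hj, PT_iff38, hg]
    · intro v x
      constructor
      · rintro ⟨rfl, hx⟩
        obtain ⟨a, rfl⟩ := (core_iff38 g _).1 hx
        exact ⟨a.1, a.2, ho1 a, (hz _ a.2).symm⟩
      · rintro ⟨i, hi, h1, rfl⟩
        rcases v with a | p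
        · rw [ho1] at h1
          have h2 : a.1 = i := by simpa using h1
          subst h2
          rw [hz _ a.2]
          exact ⟨rfl, (core_iff38 g _).2 ⟨a, rfl⟩⟩
        · rw [ho2] at h1
          simp at h1
    · intro v x y
      rw [PO₂_iff38]
      constructor
      · rintro ⟨a, b, i, rfl, rfl, rfl⟩
        exact ⟨a.1, b.1, a.2, b.2, ho2 _, (hz _ a.2).symm, (hz _ b.2).symm⟩
      · rintro ⟨i, j, hi, hj, h1, rfl, rfl⟩
        rcases v with a | p
        · rw [ho1] at h1
          simp at h1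
        · rw [ho2] at h1
          obtain ⟨a, b, k⟩ := p
          have h2 : a.1 = i ∧ b.1 = j := by simpa using h1
          obtain ⟨rfl, rfl⟩ := h2
          exact ⟨a, b, k, hz _ a.2, hz _ b.2, rfl⟩
    · intro v _
      rcases v with a | p
      · exact Or.inl ⟨a.1, a.2, ho1 a⟩
      · exact Or.inr ⟨p.1.1, p.2.1.1, p.1.2, p.2.1.2, ho2 p⟩
    · intro i hi
      rw [Nat.card_eq_one_iff_exists]
      refine ⟨⟨.inl ⟨i, hi⟩, ho1 _⟩, ?_⟩
      rintro ⟨v, hv⟩
      rcases v with a | p
      · rw [ho1] at hv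
        have h2 : a.1 = i := by simpa using hv
        subst h2
        rfl
      · rw [ho2] at hv
        simp at hv
    · intro i j hi hj
      have e : {v // own v = some (Sum.inr (i, j))} ≃ Fin (m + 1) :=
        { toFun := fun v => match v with
            | ⟨.inl a, hv⟩ => absurd hv (by rw [ho1]; simp)
            | ⟨.inr p, _⟩ => p.2.2
          invFun := fun k => ⟨.inr (⟨i, hi⟩, ⟨j, hj⟩, k), ho2 _⟩
          left_inv := by
            rintro ⟨v, hv⟩
            rcases v with a | ⟨a, b, k⟩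
            · exfalso
              rw [ho1] at hv
              simp at hv
            · rw [ho2] at hv
              have h2 : a.1 = i ∧ b.1 = j := by simpa using hv
              obtain ⟨rfl, rfl⟩ := h2
              rfl
          right_inv := fun k => rfl }
      rw [Nat.card_congr e, Nat.card_fin]
    · rw [Nat.card_eq_zero]
      exact Or.inl ⟨fun v => v.2⟩
  refine ⟨V38 N m, inferInstance, R38 g, ?_, ⟨hstd.code, ?_, ?_, ?_, ?_, ?_, ?_⟩⟩
  · rw [Nat.card_sum, Nat.card_prod, Nat.card_prod, Nat.card_fin, Nat.card_fin]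
    ring
  · intro r hr x y h
    unfold R38 at h
    have h1 : ¬ r.1 = 0 := by omega
    have h2 : ¬ r.1 = 1 := by omega
    rw [if_neg h1, if_neg h2] at h
    split_ifs at h with h3
    · exact h.1
    · exact h.1
  · intro x y h
    rw [plt_iff38] at h
    rcases x with a | p
    · rcases y with b | p'
      · exact ⟨(core_iff38 g _).2 ⟨a, rfl⟩, (core_iff38 g _).2 ⟨b, rfl⟩⟩
      · exact absurd h id
    · exact absurd h id
  · intro x y h
    rw [nx_iff38] at h
    rcases x with a | p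
    · rcases y with b | p'
      · exact absurd h id
      · refine Or.inr fun h' => ?_
        obtain ⟨a', h''⟩ := (core_iff38 g _).1 h'
        cases h''
    · refine Or.inl fun h' => ?_
      obtain ⟨a', h''⟩ := (core_iff38 g _).1 h'
      cases h''
  · intro x x' y hy h h'
    rw [nx_iff38] at h h'
    rcases y with b | p
    · exact absurd ((core_iff38 g _).2 ⟨b, rfl⟩) hy
    · rcases x with a | ⟨a1, a2, a3⟩
      · rcases x' with a' | ⟨a1', a2', a3'⟩
        · rw [h.1, h'.1]
        · exfalso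
          have e1 := h.2
          have e2 := h'.2.2
          simp only at e2
          omega
      · rcases x' with a' | ⟨a1', a2', a3'⟩
        · exfalso
          have e1 := h'.2
          have e2 := h.2.2
          simp only at e2
          omega
        · obtain ⟨e1, e2, e3⟩ := h
          obtain ⟨e1', e2', e3'⟩ := h'
          simp only at e1 e2 e3 e1' e2' e3'
          have e4 : a3 = a3' := Fin.ext (by omega)
          rw [e1, e2, e1', e2', e4]
  · intro x y y' hx h h'
    rw [nx_iff38] at h h'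
    rcases x with b | p
    · exact absurd ((core_iff38 g _).2 ⟨b, rfl⟩) hx
    · rcases y with a | ⟨a1, a2, a3⟩
      · rcases y' with a' | ⟨a1', a2', a3'⟩
        · rw [← h.1, ← h'.1]
        · exfalso
          have e1 := h.2
          have e2 := h'.2.2
          have e3 := a3'.2
          simp only at e2
          omega
      · rcases y' with a' | ⟨a1', a2', a3'⟩
        · exfalso
          have e1 := h'.2
          have e2 := h.2.2
          have e3 := a3.2
          simp only at e2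
          omega
        · obtain ⟨e1, e2, e3⟩ := h
          obtain ⟨e1', e2', e3'⟩ := h'
          simp only at e1 e2 e3 e1' e2' e3'
          have e4 : a3 = a3' := Fin.ext (by omega)
          rw [← e1, ← e2, ← e1', ← e2', e4]
  · intro x y v v' h h' h1 h1'
    rw [PO₂_iff38] at h h'
    obtain ⟨a, b, i, rfl, rfl, rfl⟩ := h
    obtain ⟨a', b', i', e1, e2, rfl⟩ := h'
    cases e1
    cases e2
    rw [nx_iff38] at h1 h1'
    have e3 : i = i' := Fin.ext (h1.2.trans h1'.2.symm)
    rw [e3]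

end Pool.Agent.Helper38.SPT
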