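import Pool.Agent.Helper38.SPT.PDefs
import Pool.Agent.Helper20.OP.SqCard

/-!
# Block SPT-P3: path codes are sparse

Let `N` be the number of core elements; `Nat.card V = (m + 1) N² + N` (`SqCode.card`), so there are `(m + 1) N²` elements outside the core.
The Gaifman graph of `toI R`: adjacent elements are two core elements, or `x`, `y` with `nx x y` or `nx y x`, not both in the core.
An element outside the core has at most two neighbours (`in_uniq`, `out_uniq`).  Edges: at most `N²` inside the core, at most `(m + 1) N²` of the form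
`nx x y` with `y` outside the core (`x` is determined by `y`), at most `N²` of the form `nx x y` with `x` outside the core, `y` in the
core: `y` is determined by `x`, `x` is an inner element of a path from `z` to `y'` (`own`), and `y' = y` (follow the path: `out_uniq`; the
elements of the path before the last one have successors outside the core), so `PO₂ x z y` and `x` is determined by `(z, y)` (`last_uniq`).
-/

set_option autoImplicit false

namespace Pool.Agent.Helper38.SPT

open Pool.Agent.Helper20.OP Pool.Agent.Helper29.Prefix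

private lemma adj_cases95 {q m : ℕ} {Γ : Type} {W : Wang Γ} {c₀ : Fin q → Γ} {V : Type}
    {R : Str (q + 3) V} (h : PathCode R m W c₀) {x y : V}
    (hxy : Pool.Agent.Helper29.TD.Adj (toI R) x y) :
    x ≠ y ∧ ((core R x ∧ core R y) ∨ nx R x y ∨ nx R y x) := by
  obtain ⟨hne, s, v, hI, ⟨i, hi⟩, j, hj⟩ := hxy
  refine ⟨hne, ?_⟩
  have key : ∀ a b : V, a ≠ b → R s a b → (core R a ∧ core R b) ∨ nx R a b := by
    intro a b hab hR
    obtain ⟨s, hs⟩ := s
    rcases Nat.lt_or_ge s 2 with h2 | h2
    · interval_cases s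
      · exact Or.inl (h.lt_core a b hR)
      · exact Or.inr hR
    · exact absurd (h.loops ⟨s, hs⟩ h2 a b hR) hab
  have hI' : R s (v 0) (v 1) := hI
  have two : ∀ k : Fin 2, k = 0 ∨ k = 1 := by decide
  have i2 : v 0 = x ∧ v 1 = y ∨ v 0 = y ∧ v 1 = x := by
    rcases two i with rfl | rfl <;> rcases two j with rfl | rfl
    · exact absurd (hi.symm.trans hj) hne
    · exact Or.inl ⟨hi, hj⟩
    · exact Or.inr ⟨hj, hi⟩
    · exact absurd (hi.symm.trans hj) hne
  rcases i2 with ⟨h0, h1⟩ | ⟨h0, h1⟩
  · rw [h0, h1] at hI'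
    rcases key x y hne hI' with h3 | h3
    · exact Or.inl h3
    · exact Or.inr (Or.inl h3)
  · rw [h0, h1] at hI'
    rcases key y x hne.symm hI' with h3 | h3
    · exact Or.inl ⟨h3.2, h3.1⟩
    · exact Or.inr (Or.inr h3)

theorem path_branch {q m : ℕ} {Γ : Type} {W : Wang Γ} {c₀ : Fin q → Γ} {V : Type} [Finite V]
    {R : Str (q + 3) V} (h : PathCode R m W c₀) :
    MeasLe .branch (toI R) (Nat.card {x // core R x}) := by
  show {x : V | 3 ≤ {y : V | Pool.Agent.Helper29.TD.Adj (toI R) x y}.ncard}.ncard ≤ _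
  have hsub : {x : V | 3 ≤ {y : V | Pool.Agent.Helper29.TD.Adj (toI R) x y}.ncard} ⊆
      {x : V | core R x} := by
    intro x hx
    by_contra hc
    have hc' : ¬ core R x := hc
    have hx' : 3 ≤ {y : V | Pool.Agent.Helper29.TD.Adj (toI R) x y}.ncard := hx
    have hs : {y : V | Pool.Agent.Helper29.TD.Adj (toI R) x y} ⊆
        {y | nx R x y} ∪ {y | nx R y x} := by
      intro y hy
      rcases adj_cases95 h hy with ⟨-, h1 | h1 | h1⟩
      · exact absurd h1.1 hc'
      · exact Or.inl h1
      · exact Or.inr h1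
    have h1 : {y | nx R x y}.ncard ≤ 1 :=
      (Set.ncard_le_one (Set.toFinite _)).2 fun a ha b hb => h.out_uniq x a b hc' ha hb
    have h2 : {y | nx R y x}.ncard ≤ 1 :=
      (Set.ncard_le_one (Set.toFinite _)).2 fun a ha b hb => h.in_uniq a b x hc' ha hb
    have h3 := Set.ncard_le_ncard hs (Set.toFinite _)
    have h4 := Set.ncard_union_le {y | nx R x y} {y | nx R y x}
    omega
  exact Set.ncard_le_ncard hsub (Set.toFinite _)

private lemma ncard_range95 {α β : Type} [Finite α] (g : α → β) :
    (Set.range g).ncard ≤ Nat.card α := by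
  rw [← Set.image_univ, ← Set.ncard_univ α]
  exact Set.ncard_image_le (Set.toFinite _)

private lemma last95 {q m : ℕ} {Γ : Type} {W : Wang Γ} {c₀ : Fin q → Γ} {V : Type}
    {R : Str (q + 3) V} (h : PathCode R m W c₀) {x y : V} (hx : ¬ core R x) (hy : core R y)
    (hxy : nx R x y) : ∃ z, core R z ∧ PO₂ R m x z y := by
  rcases h.sq.own x with h1 | ⟨z, h1⟩ | ⟨z, y', h1⟩
  · exact h1.elim
  · exact absurd (h1.1 ▸ h1.2) hx
  · obtain ⟨hz, hy', c, hc, i, hi⟩ := h1
    have hlast : nx R x y' := by
      rcases Fin.eq_castSucc_or_eq_last i with ⟨j, rfl⟩ | rfl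
      · exfalso
        have h2 : nx R x (c j.succ) := hi ▸ hc.2.1 j
        have h3 := h.out_uniq x y (c j.succ) hx hxy h2
        exact hc.2.2.2 j.succ (h3 ▸ hy)
      · exact hi ▸ hc.2.2.1
    obtain rfl := h.out_uniq x y y' hx hxy hlast
    exact ⟨z, hz, hz, hy, c, hc, i, hi⟩

theorem path_edges {q m : ℕ} {Γ : Type} {W : Wang Γ} {c₀ : Fin q → Γ} {V : Type} [Finite V]
    {R : Str (q + 3) V} (h : PathCode R m W c₀) :
    MeasLe .edges (toI R) ((m + 3) * Nat.card {x // core R x} ^ 2) := by
  classical
  show (gaif (toI R)).edgeSet.ncard ≤ _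
  let gA : {x // core R x} × {x // core R x} → Sym2 V := fun p => s(p.1.1, p.2.1)
  let gB : {y // ¬ core R y} → Sym2 V := fun y =>
    if hy : ∃ x, nx R x y.1 then s(Classical.choose hy, y.1) else s(y.1, y.1)
  let gC : {x // core R x} × {x // core R x} → Sym2 V := fun p =>
    if hp : ∃ x, PO₂ R m x p.1.1 p.2.1 ∧ nx R x p.2.1 then s(Classical.choose hp, p.2.1)
    else s(p.2.1, p.2.1)
  have hnx : ∀ x y : V, nx R x y →
      s(x, y) ∈ Set.range gA ∪ (Set.range gB ∪ Set.range gC) := by
    intro x y hxy
    by_cases hy : core R y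
    · have hx : ¬ core R x := by
        rcases h.nx_core x y hxy with h1 | h1
        · exact h1
        · exact absurd hy h1
      obtain ⟨z, hz, hP⟩ := last95 h hx hy hxy
      refine Or.inr (Or.inr ⟨(⟨z, hz⟩, ⟨y, hy⟩), ?_⟩)
      have hp : ∃ x, PO₂ R m x z y ∧ nx R x y := ⟨x, hP, hxy⟩
      have hd : Classical.choose hp = x :=
        h.last_uniq z y _ _ (Classical.choose_spec hp).1 hP (Classical.choose_spec hp).2 hxy
      show (if hp : ∃ x, PO₂ R m x z y ∧ nx R x y then s(Classical.choose hp, y)
        else s(y, y)) = s(x, y)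
      rw [dif_pos hp, hd]
    · refine Or.inr (Or.inl ⟨⟨y, hy⟩, ?_⟩)
      have hp : ∃ x, nx R x y := ⟨x, hxy⟩
      have hd : Classical.choose hp = x :=
        h.in_uniq _ _ y hy (Classical.choose_spec hp) hxy
      show (if hy : ∃ x, nx R x y then s(Classical.choose hy, y) else s(y, y)) = s(x, y)
      rw [dif_pos hp, hd]
  have hsub : (gaif (toI R)).edgeSet ⊆ Set.range gA ∪ (Set.range gB ∪ Set.range gC) := by
    intro e
    induction e using Sym2.ind with
    | _ x y =>
      intro he
      have he' : Pool.Agent.Helper29.TD.Adj (toI R) x y := he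
      rcases adj_cases95 h he' with ⟨-, h1 | h1 | h1⟩
      · exact Or.inl ⟨(⟨x, h1.1⟩, ⟨y, h1.2⟩), rfl⟩
      · exact hnx x y h1
      · rw [Sym2.eq_swap]
        exact hnx y x h1
  have hA := ncard_range95 gA
  have hB := ncard_range95 gB
  have hC := ncard_range95 gC
  have hcard : Nat.card V = Nat.card {x // core R x} + Nat.card {x // ¬ core R x} := by
    rw [← Nat.card_sum]
    exact Nat.card_congr (Equiv.sumCompl (core R)).symm
  have hc2 := h.sq.card
  have hprod : Nat.card ({x // core R x} × {x // core R x}) = Nat.card {x // core R x} ^ 2 := by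
    rw [Nat.card_prod, sq]
  rw [hprod] at hA hC
  have h1 := Set.ncard_le_ncard hsub (Set.toFinite _)
  have h2 := Set.ncard_union_le (Set.range gA) (Set.range gB ∪ Set.range gC)
  have h3 := Set.ncard_union_le (Set.range gB) (Set.range gC)
  have h4 : Nat.card {x // ¬ core R x} = (m + 1) * Nat.card {x // core R x} ^ 2 := by
    omega
  have h5 : (m + 3) * Nat.card {x // core R x} ^ 2 = Nat.card {x // core R x} ^ 2 +
      ((m + 1) * Nat.card {x // core R x} ^ 2 + Nat.card {x // core R x} ^ 2) := by ring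
  rw [h5]
  omega

end Pool.Agent.Helper38.SPT
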