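import Pool.Agent.Helper38.SPT.Wild0
import Pool.Agent.Helper38.SPT.P1
import Pool.Agent.Helper38.SPT.P2
import Pool.Agent.Helper38.SPT.P3
import Pool.Agent.Helper38.SPT.C1
import Pool.Agent.Helper38.SPT.C2
import Pool.Agent.Helper38.SPT.C3
import Pool.Agent.Helper20.OP.SqTiles
import Pool.Agent.Helper20.OP.SqCard

/-!
# Above the threshold there is a universal spectrum
-/

set_option autoImplicit false

namespace Pool.Agent.Helper38.SPT

open FirstOrder FirstOrder.Language Filter Pool.Agent.Helper20.Spectra Pool.Agent.Helper20.OP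
  Pool.Agent.Helper29.TD Pool.Agent.Helper29.TW Pool.Agent.Helper29.Prefix

/-- the sizes of the path codes -/
noncomputable def pp (m : ℕ) : Polynomial ℕ :=
  Polynomial.C (m + 1) * Polynomial.X ^ 2 + Polynomial.X

lemma pp_eval (m N : ℕ) : (pp m).eval N = (m + 1) * N ^ 2 + N := by
  simp [pp]

lemma pp_mono (m : ℕ) : StrictMono (fun n : ℕ => (pp m).eval n) := by
  intro a b hab
  simp only [pp_eval]
  have h1 : (m + 1) * a ^ 2 ≤ (m + 1) * b ^ 2 :=
    Nat.mul_le_mul_left _ (Nat.pow_le_pow_left hab.le 2)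
  omega

theorem path_family {μ : Meas} (hμ : μ = .edges ∨ μ = .branch) {w : ℕ → ℕ} (m N₀ : ℕ)
    (hN₀ : 2 ≤ N₀) (hw : ∀ N, N₀ ≤ N → (μ = .edges → (m + 3) * N ^ 2 ≤ w ((pp m).eval N)) ∧
      (μ = .branch → N ≤ w ((pp m).eval N))) (Γ : Type) (hΓ : Finite Γ) (W : Wang Γ) :
    SparseSpectrum μ w {n | ∃ N, N₀ ≤ N ∧ Tiles W N ∧ n = (pp m).eval N} := by
  obtain ⟨q, ⟨e⟩⟩ := Finite.exists_equiv_fin Γ
  refine sparse_of_code (P := fun _ R => PathCode R m W (e.symm : Fin q → Γ))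
    (def_pathCode W _) (pp_mono m) hN₀ ?_ ?_
  · intro V _ R h
    obtain ⟨x, y, hx, hy, hxy⟩ := h.sq.big
    have : Nontrivial {x // core R x} := ⟨⟨x, hx⟩, ⟨y, hy⟩, fun h => hxy (congrArg Subtype.val h)⟩
    refine ⟨Nat.card {x // core R x}, Finite.one_lt_card, ?_, h.sq.tiles, fun hN => ?_⟩
    · rw [h.sq.card, pp_eval]
      ring
    · rcases hμ with rfl | rfl
      · exact (path_edges h).mono ((hw _ hN).1 rfl)
      · exact (path_branch h).mono ((hw _ hN).2 rfl)
  · intro N hN ht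
    obtain ⟨V, hV, R, hc, hR⟩ := path_encode (m := m) W (e.symm : Fin q → Γ) e.symm.surjective hN ht
    exact ⟨V, hV, R, by rw [hc, pp_eval], hR⟩

lemma pow_mono (m : ℕ) :
    StrictMono (fun n : ℕ => (Polynomial.X ^ (m + 2) : Polynomial ℕ).eval n) := by
  intro a b hab
  simp only [Polynomial.eval_pow, Polynomial.eval_X]
  exact Nat.pow_lt_pow_left hab (by omega)

theorem cover_family {w : ℕ → ℕ} (m N₀ : ℕ) (hN₀ : 2 ≤ N₀)
    (hw : ∀ N L, N₀ ≤ N → 2 ^ L ≤ 2 * N → L ≤ w (N ^ (m + 2))) (Γ : Type) (hΓ : Finite Γ)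
    (W : Wang Γ) : SparseSpectrum .cover w
      {n | ∃ N, N₀ ≤ N ∧ Tiles W N ∧ n = (Polynomial.X ^ (m + 2) : Polynomial ℕ).eval N} := by
  obtain ⟨q, ⟨e⟩⟩ := Finite.exists_equiv_fin Γ
  refine sparse_of_code (P := fun _ R => CoverCode (m := m) R W (e.symm : Fin q → Γ))
    (def_coverCode W _) (pow_mono m) hN₀ ?_ ?_
  · intro V _ R h
    obtain ⟨N, L, hN, hc, ht, hm, hL⟩ := cover_decode h
    refine ⟨N, hN, ?_, ht, fun hN' => ?_⟩
    · rw [hc, Polynomial.eval_pow, Polynomial.eval_X]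
    · refine hm.mono ?_
      rw [Polynomial.eval_pow, Polynomial.eval_X]
      exact hw N L hN' hL
  · intro N hN ht
    obtain ⟨V, hV, R, hc, hR⟩ := cover_encode (m := m) W (e.symm : Fin q → Γ) e.symm.surjective hN ht
    exact ⟨V, hV, R, by rw [hc, Polynomial.eval_pow, Polynomial.eval_X], hR⟩

/-- above the threshold there is a universal spectrum -/
theorem wild (μ : Meas) (w : ℕ → ℕ) (hw : Above μ w) :
    (∃ U : Set ℕ, SparseSpectrum μ w U ∧ ∀ A : Set ℕ, IsSpectrum A ↔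
      ∃ h : Polynomial ℕ, A = {n : ℕ | 1 ≤ n ∧ h.eval n ∈ U}) ∧
    ((∀ A : Set ℕ, SparseSpectrum μ w A → IsRudimentary A) ↔
      ∀ A : Set ℕ, IsSpectrum A ↔ (IsRudimentary A ∧ 0 ∉ A)) := by
  cases μ with
  | edges =>
    obtain ⟨δ, hδ, h⟩ := hw
    obtain ⟨n₀, hn₀⟩ := eventually_atTop.1 h
    obtain ⟨m, hm⟩ := exists_nat_ge (2 / δ)
    have hm' : 2 ≤ δ * (m + 1) := by
      have h1 : 2 ≤ δ * m := by
        rw [div_le_iff₀ hδ] at hm
        linarith
      nlinarith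
    refine wild_of_family (pp m) (pp_mono m) (n₀ + 2) (by omega)
      (path_family (Or.inl rfl) m (n₀ + 2) (by omega) (fun N hN => ⟨fun _ => ?_, fun h => by cases h⟩))
    have h1 : N ≤ (pp m).eval N := (pp_mono m).le_apply
    have h2 := hn₀ ((pp m).eval N) (by omega)
    rw [pp_eval] at h2 ⊢
    have h3 : (((m + 3) * N ^ 2 : ℕ) : ℝ) ≤ (w ((m + 1) * N ^ 2 + N) : ℝ) := by
      refine le_trans ?_ h2
      push_cast
      have h4 : (0 : ℝ) ≤ (N : ℝ) ^ 2 := by positivity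
      have h5 : (0 : ℝ) ≤ (1 + δ) * N := by positivity
      have h6 : 2 * (N : ℝ) ^ 2 ≤ δ * (m + 1) * (N : ℝ) ^ 2 := mul_le_mul_of_nonneg_right hm' h4
      nlinarith
    exact_mod_cast h3
  | branch =>
    obtain ⟨δ, hδ, h⟩ := hw
    obtain ⟨n₀, hn₀⟩ := eventually_atTop.1 h
    obtain ⟨m, hm⟩ := exists_nat_ge (1 / δ ^ 2)
    have hm' : 1 ≤ δ ^ 2 * (m + 1) := by
      have h1 : 1 ≤ δ ^ 2 * m := by
        rw [div_le_iff₀ (by positivity)] at hm
        linarith
      have h2 : (0 : ℝ) < δ ^ 2 := by positivity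
      nlinarith
    refine wild_of_family (pp m) (pp_mono m) (n₀ + 2) (by omega)
      (path_family (Or.inr rfl) m (n₀ + 2) (by omega) (fun N hN => ⟨(fun h => by cases h), fun _ => ?_⟩))
    have h1 : N ≤ (pp m).eval N := (pp_mono m).le_apply
    have h2 := hn₀ ((pp m).eval N) (by omega)
    rw [pp_eval] at h2 ⊢
    have h3 : (N : ℝ) ≤ (w ((m + 1) * N ^ 2 + N) : ℝ) := by
      refine le_trans ?_ h2
      have h4 : (N : ℝ) = √((N : ℝ) ^ 2) := (Real.sqrt_sq (Nat.cast_nonneg N)).symm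
      have h5 : δ * √(((m + 1) * N ^ 2 + N : ℕ) : ℝ) =
          √(δ ^ 2 * (((m + 1) * N ^ 2 + N : ℕ) : ℝ)) := by
        rw [Real.sqrt_mul (by positivity), Real.sqrt_sq hδ.le]
      rw [h5]
      conv_lhs => rw [h4]
      refine Real.sqrt_le_sqrt ?_
      push_cast
      have h6 : (0 : ℝ) ≤ (N : ℝ) ^ 2 := by positivity
      have h7 : (0 : ℝ) ≤ δ ^ 2 * N := by positivity
      have h8 := mul_le_mul_of_nonneg_right hm' h6
      nlinarith
    exact_mod_cast h3
  | cover =>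
    obtain ⟨δ, hδ, h⟩ := hw
    obtain ⟨n₀, hn₀⟩ := eventually_atTop.1 h
    obtain ⟨m, hm⟩ := exists_nat_ge (4 / δ)
    have hm' : 4 ≤ δ * (m + 2) := by
      have h1 : 4 ≤ δ * m := by
        rw [div_le_iff₀ hδ] at hm
        linarith
      nlinarith
    refine wild_of_family (Polynomial.X ^ (m + 2)) (pow_mono m) (n₀ + 2) (by omega)
      (cover_family m (n₀ + 2) (by omega) (fun N L hN hL => ?_))
    have h1 : N ≤ N ^ (m + 2) := Nat.le_self_pow (by omega) N
    have h2 := hn₀ (N ^ (m + 2)) (by omega)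
    have hN1 : (2 : ℝ) ≤ N := by exact_mod_cast (show 2 ≤ N by omega)
    have hlogN : Real.log 2 ≤ Real.log N := Real.log_le_log (by norm_num) hN1
    have hlog2 : (1 / 2 : ℝ) < Real.log 2 := by
      have := Real.log_two_gt_d9
      linarith
    have h3 : (L : ℝ) * Real.log 2 ≤ Real.log 2 + Real.log N := by
      rw [← Real.log_pow, ← Real.log_mul (by norm_num) (by positivity)]
      refine Real.log_le_log (by positivity) ?_
      exact_mod_cast hL
    have h4 : (L : ℝ) ≤ 4 * Real.log N := by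
      have h5 : (L : ℝ) * (1 / 2) ≤ L * Real.log 2 :=
        mul_le_mul_of_nonneg_left hlog2.le (Nat.cast_nonneg L)
      linarith
    have h6 : (L : ℝ) ≤ (w (N ^ (m + 2)) : ℝ) := by
      refine le_trans ?_ h2
      push_cast
      rw [Real.log_pow]
      push_cast
      have h7 : 0 ≤ Real.log N := by linarith
      have h8 := mul_le_mul_of_nonneg_right hm' h7
      linarith
    exact_mod_cast h6

end Pool.Agent.Helper38.SPT
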