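import Pool.Agent.Helper38.SPT.Tame
import Pool.Agent.Helper38.SPT.Wild

/-!
# The thresholds for sparse structures
-/

set_option autoImplicit false

namespace Pool.Agent.Helper38.SPT

open Pool.Agent.Helper20.Spectra Pool.Agent.Helper20.OP

theorem sparse_threshold (μ : Meas) (w : ℕ → ℕ) :
    (Above μ w →
      (∃ U : Set ℕ, SparseSpectrum μ w U ∧ ∀ A : Set ℕ, IsSpectrum A ↔
        ∃ h : Polynomial ℕ, A = {n : ℕ | 1 ≤ n ∧ h.eval n ∈ U}) ∧
      ((∀ A : Set ℕ, SparseSpectrum μ w A → IsRudimentary A) ↔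
        ∀ A : Set ℕ, IsSpectrum A ↔ (IsRudimentary A ∧ 0 ∉ A))) ∧
    (Below μ w → ∀ A : Set ℕ, SparseSpectrum μ w A → UltPeriodic A) :=
  ⟨wild μ w, fun h _ hA => tame μ w h hA⟩

end Pool.Agent.Helper38.SPT
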