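import Pool.Agent.Helper38.SPT.Defs
import Pool.Agent.Helper20.OP.Sq

/-!
# Path codes

A linearly ordered core; every pair `(x, y)` of core elements is joined by a path `x, c 0, …, c m, y` whose `m + 1` inner elements have
no other neighbours; the tile of `(x, y)` is marked at `c 0`.
-/

set_option autoImplicit false

namespace Pool.Agent.Helper38.SPT

open Pool.Agent.Helper20.OP Pool.Agent.Helper29.Prefix

section

variable {q : ℕ} {V : Type} (R : Str (q + 3) V)

/-- the order of the core -/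
def plt (x y : V) : Prop := R ⟨0, by omega⟩ x y

/-- next element of a path -/
def nx (x y : V) : Prop := R ⟨1, by omega⟩ x y

/-- the core -/
def core (x : V) : Prop := R ⟨2, by omega⟩ x x

/-- the tile `g` is marked at `x` -/
def ptile (g : Fin q) (x : V) : Prop := R ⟨3 + g.1, by omega⟩ x x

/-- `x, c 0, …, c m, y` is a path with inner elements outside the core -/
def Path (m : ℕ) (x y : V) (c : Fin (m + 1) → V) : Prop :=
  nx R x (c 0) ∧ (∀ i : Fin m, nx R (c i.castSucc) (c i.succ)) ∧ nx R (c (Fin.last m)) y ∧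
    ∀ i, ¬ core R (c i)

/-- `v` is the core element `x` -/
def PO₁ (v x : V) : Prop := v = x ∧ core R x

/-- `v` is an inner element of a path from `x` to `y` -/
def PO₂ (m : ℕ) (v x y : V) : Prop :=
  core R x ∧ core R y ∧ ∃ c : Fin (m + 1) → V, Path R m x y c ∧ ∃ i, v = c i

/-- the tile of the pair `(x, y)` is `γ` -/
def PT {Γ : Type} (m : ℕ) (c₀ : Fin q → Γ) (x y : V) (γ : Γ) : Prop :=
  ∃ g : Fin q, c₀ g = γ ∧ ∃ c : Fin (m + 1) → V, Path R m x y c ∧ ptile R g (c 0)

/-- path codes -/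
structure PathCode {Γ : Type} (m : ℕ) (W : Wang Γ) (c₀ : Fin q → Γ) : Prop where
  sq : SqCode W 1 (m + 1) 0 (core R) (plt R) (PT R m c₀) (PO₁ R) (PO₂ R m) (fun _ => False)
  loops : ∀ r : Fin (q + 3), 2 ≤ r.1 → ∀ x y, R r x y → x = y
  lt_core : ∀ x y, plt R x y → core R x ∧ core R y
  nx_core : ∀ x y, nx R x y → ¬ core R x ∨ ¬ core R y
  in_uniq : ∀ x x' y, ¬ core R y → nx R x y → nx R x' y → x = x'
  out_uniq : ∀ x y y', ¬ core R x → nx R x y → nx R x y' → y = y'
  last_uniq : ∀ x y v v', PO₂ R m v x y → PO₂ R m v' x y → nx R v y → nx R v' y → v = v'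

end

end Pool.Agent.Helper38.SPT
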