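import Pool.Agent.Helper38.SPT.A1
import Pool.Agent.Helper38.SPT.A5
import Pool.Agent.Helper38.SPT.A6
import Pool.Agent.Helper38.SPT.A7

/-!
# Below the threshold the spectra are ultimately periodic
-/

set_option autoImplicit false

namespace Pool.Agent.Helper38.SPT

open FirstOrder FirstOrder.Language Filter Pool.Agent.Helper20.Spectra Pool.Agent.Helper20.OP
  Pool.Agent.Helper29.TD Pool.Agent.Helper29.TW

theorem tame_edges (w : ℕ → ℕ) (hw : Below .edges w) {A : Set ℕ} (hA : SparseSpectrum .edges w A) :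
    UltPeriodic A := by
  obtain ⟨S, hS, ar, φ, -, h1, h2⟩ := hA
  obtain ⟨p₁, B₁, hp₁, hpump₁⟩ := pump_prot φ 4
  obtain ⟨a, ha⟩ : ∃ a, a = 32 * (B₁ + 1) := ⟨_, rfl⟩
  obtain ⟨p₂, B₂, hp₂, hpump₂⟩ := pump_prot φ (4 * a)
  have ha0 : (0 : ℝ) < a := by
    rw [ha]
    positivity
  obtain ⟨N₀, hN₀⟩ := eventually_atTop.1 (hw (1 / a) (by positivity))
  refine ultPeriodic_of_add (p := p₁ * p₂) (N := N₀ + 2 * a * B₂ + 4 * B₁ + 1)
    (Nat.mul_pos hp₁ hp₂) (fun n hn hnA => ?_)
  obtain ⟨hn1, I, hI⟩ := (h2 n).1 hnA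
  have hm := h1 n I hn1 hI
  have hwn := hN₀ n (by omega)
  refine (h2 _).2 ⟨by omega, ?_⟩
  by_cases hc : n ≤ a * Nat.card (gaif I).ConnectedComponent
  · have hP : Prot I (4 * a) B₂ := prot_components (by omega) B₂ I (by omega) hc
    exact hpump₂ n I hP hI p₁
  · have hP : Prot I 4 B₁ := by
      refine prot_forest B₁ I (by omega) ?_
      push Not at hc
      have h3 : (gaif I).edgeSet.ncard ≤ w n := hm
      have h4 : a * (gaif I).edgeSet.ncard ≤ (a + 1) * n := by
        have h5 : ((gaif I).edgeSet.ncard : ℝ) ≤ (1 + 1 / a) * n :=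
          le_trans (by exact_mod_cast h3) hwn
        have h6 : (a : ℝ) * (gaif I).edgeSet.ncard ≤ (a + 1) * n := by
          calc (a : ℝ) * (gaif I).edgeSet.ncard ≤ a * ((1 + 1 / a) * n) :=
                mul_le_mul_of_nonneg_left h5 ha0.le
            _ = (a + 1) * n := by field_simp
        exact_mod_cast h6
      have h7 : a * ((gaif I).edgeSet.ncard + Nat.card (gaif I).ConnectedComponent - n) ≤ 2 * n := by
        rw [Nat.mul_sub, Nat.mul_add]
        have h8 : (a + 1) * n = a * n + n := by ring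
        omega
      have h9 : a * ((gaif I).edgeSet.ncard + Nat.card (gaif I).ConnectedComponent - n) =
          2 * (16 * (B₁ + 1) * ((gaif I).edgeSet.ncard +
            Nat.card (gaif I).ConnectedComponent - n)) := by
        rw [ha]
        ring
      omega
    have h10 := hpump₁ n I hP hI p₂
    rwa [mul_comm p₂ p₁] at h10

theorem tame_branch (w : ℕ → ℕ) (hw : Below .branch w) {A : Set ℕ}
    (hA : SparseSpectrum .branch w A) : UltPeriodic A := by
  obtain ⟨S, hS, ar, φ, -, h1, h2⟩ := hA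
  obtain ⟨p, B, hp, hpump⟩ := pump_prot φ 6
  have hb : (0 : ℝ) < 1 / (B + 2) := by positivity
  obtain ⟨N₀, hN₀⟩ := eventually_atTop.1 (hw (1 / (B + 2)) hb)
  refine ultPeriodic_of_add (p := p) (N := N₀ + 4 * (B + 1) + 4) hp (fun n hn hnA => ?_)
  obtain ⟨hn1, I, hI⟩ := (h2 n).1 hnA
  refine (h2 _).2 ⟨by omega, ?_⟩
  have hm := h1 n I hn1 hI
  have hwn := hN₀ n (by omega)
  have hk : (B + 2) ^ 2 * (w n) ^ 2 ≤ n := by
    have h3 : ((B : ℝ) + 2) * w n ≤ √n := by
      have h4 : ((B : ℝ) + 2) * (1 / (B + 2) * √n) = √n := by field_simp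
      rw [← h4]
      exact mul_le_mul_of_nonneg_left hwn (by positivity)
    have h5 : (((B : ℝ) + 2) * w n) ^ 2 ≤ n := by
      have h6 := pow_le_pow_left₀ (by positivity) h3 2
      rwa [Real.sq_sqrt (Nat.cast_nonneg n)] at h6
    have h7 : (((B + 2) ^ 2 * (w n) ^ 2 : ℕ) : ℝ) ≤ n := by
      push_cast
      rw [← mul_pow]
      exact h5
    exact_mod_cast h7
  have hP : Prot I 6 B := by
    refine prot_branch I hm ?_
    have h3 : w n ≤ (w n) ^ 2 := Nat.le_self_pow (by norm_num) _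
    have h4 : ((w n) ^ 2 + 1) * B + w n ≤ (B + 1) * (w n) ^ 2 + B := by nlinarith
    have h6 : 2 * ((B + 1) * (w n) ^ 2) ≤ (B + 2) ^ 2 * (w n) ^ 2 := by
      have h7 : 2 * (B + 1) ≤ (B + 2) ^ 2 := by nlinarith
      have h8 := Nat.mul_le_mul_right ((w n) ^ 2) h7
      rwa [mul_assoc] at h8
    omega
  have h10 := hpump n I hP hI 1
  rwa [one_mul] at h10

theorem tame_cover (w : ℕ → ℕ) (hw : Below .cover w) {A : Set ℕ}
    (hA : SparseSpectrum .cover w A) : UltPeriodic A := by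
  obtain ⟨S, hS, ar, φ, har, h1, h2⟩ := hA
  obtain ⟨a, ha, hs⟩ := cover_succ (har rfl) φ
  have hla : (0 : ℝ) < Real.log (a + 1) := Real.log_pos (by
    have : (1 : ℝ) ≤ a := by exact_mod_cast ha
    linarith)
  obtain ⟨N₀, hN₀⟩ := eventually_atTop.1 (hw (1 / (2 * Real.log (a + 1))) (by positivity))
  refine ultPeriodic_of_add (p := 1) (N := N₀ + (a + 1) ^ 2 + 1) le_rfl (fun n hn hnA => ?_)
  obtain ⟨hn1, I, hI⟩ := (h2 n).1 hnA
  refine (h2 _).2 ⟨by omega, ?_⟩
  refine hs n (w n) I (h1 n I hn1 hI) ?_ hI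
  have hwn := hN₀ n (by omega)
  have hn0 : (0 : ℝ) < n := by exact_mod_cast hn1
  -- `(a + 1) ^ (2 w) ≤ n`
  have h3 : 2 * (w n : ℝ) * Real.log (a + 1) ≤ Real.log n := by
    have h4 : 2 * Real.log (a + 1) * (1 / (2 * Real.log (a + 1)) * Real.log n) = Real.log n := by
      field_simp
    have h5 := mul_le_mul_of_nonneg_left hwn (show (0 : ℝ) ≤ 2 * Real.log (a + 1) by positivity)
    rw [h4] at h5
    linarith
  have h6 : ((a + 1) ^ (2 * w n) : ℕ) ≤ n := by
    have h7 : (((a + 1) ^ (2 * w n) : ℕ) : ℝ) ≤ n := by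
      push_cast
      rw [← Real.log_le_log_iff (by positivity) hn0, Real.log_pow]
      push_cast
      linarith
    exact_mod_cast h7
  have h8 : (a + 1) ^ 2 ≤ n := by omega
  have h9 : ((a + 1) ^ (w n + 1)) ^ 2 ≤ n ^ 2 := by
    calc ((a + 1) ^ (w n + 1)) ^ 2 = (a + 1) ^ (2 * w n) * (a + 1) ^ 2 := by ring
      _ ≤ n * n := Nat.mul_le_mul h6 h8
      _ = n ^ 2 := by ring
  have h10 : (a + 1) ^ (w n + 1) ≤ n := (Nat.pow_le_pow_iff_left (by norm_num)).1 h9
  exact (Nat.pow_le_pow_left (Nat.le_succ a) _).trans h10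

/-- below the threshold the spectra are ultimately periodic -/
theorem tame (μ : Meas) (w : ℕ → ℕ) (hw : Below μ w) {A : Set ℕ} (hA : SparseSpectrum μ w A) :
    UltPeriodic A := by
  cases μ with
  | edges => exact tame_edges w hw hA
  | branch => exact tame_branch w hw hA
  | cover => exact tame_cover w hw hA

end Pool.Agent.Helper38.SPT
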