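import Pool.Agent.Helper20.OP.WildOf

/-!
# Block SPT-U1: a universal tiling system with large arguments

As `exists_universal_two` (OP/WildOf), with `c` instead of `2`.  In that proof `A` is given by `n ^ (k + 1) ∈ squareSizes Θ` and `g` is
`((X ^ (k + 1) + C (2 + t)) ^ 2 + C t) ^ (k₀ + 1)` with `blk t = Θ`, so it is enough to have `t ≥ c`.  For every `a` larger than all entries of `Θ`
the set `Θ' = insert (a, a, a, a) Θ` has the same `squareSizes`: a square which uses the block `(a, a, a, a)` at `(x, y)` uses it at `(x - 1, y)`, and so on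
until `x = 0`, where the entries are `0`.  `blk t = Θ'` implies `a < t` (the entries of `blk t` are less than `t`, Spectra/Bits).
-/

set_option autoImplicit false

namespace Pool.Agent.Helper38.SPT

open Pool.Agent.Helper20.Spectra Pool.Agent.Helper20.OP

/-- A block of large equal entries cannot be used. -/
private theorem squareSizes_insert6 (Θ : Finset (ℕ × ℕ × ℕ × ℕ)) (a : ℕ) (h0 : 0 < a)
    (h : ∀ w ∈ Θ, w.2.1 < a) : squareSizes (insert (a, a, a, a) Θ) = squareSizes Θ := by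
  ext n
  constructor
  · rintro ⟨hn, b, hb, hblock⟩
    have key : ∀ x y : ℕ, x ≤ n → y ≤ n →
        (b x y, b (x + 1) y, b x (y + 1), b (x + 1) (y + 1)) ≠ (a, a, a, a) := by
      intro x
      induction x with
      | zero =>
        intro y _ _ he
        have h1 : b 0 y = a := congrArg Prod.fst he
        have h2 : b 0 y ≠ 0 := by omega
        have h3 := ((hb 0 y).1 h2).1.1
        omega
      | succ x ih =>
        intro y hx hy he
        have h1 : b (x + 1) y = a := congrArg Prod.fst he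
        have h2 := hblock x y (by omega) hy
        rcases Finset.mem_insert.1 h2 with h3 | h3
        · exact ih y (by omega) hy h3
        · have h4 : b (x + 1) y < a := h _ h3
          omega
    refine ⟨hn, b, hb, fun x y hx hy => ?_⟩
    rcases Finset.mem_insert.1 (hblock x y hx hy) with h1 | h1
    · exact absurd h1 (key x y hx hy)
    · exact h1
  · rintro ⟨hn, b, hb, hblock⟩
    exact ⟨hn, b, hb, fun x y hx hy => Finset.mem_insert_of_mem (hblock x y hx hy)⟩

/-- A large code of a tiling system with the same sizes. -/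
private theorem exists_large6 (c : ℕ) (Θ : Finset (ℕ × ℕ × ℕ × ℕ)) :
    ∃ t : ℕ, c ≤ t ∧ squareSizes (blk t) = squareSizes Θ := by
  obtain ⟨a, ha, hac⟩ : ∃ a : ℕ, (∀ w ∈ Θ, w.2.1 < a) ∧ c < a := by
    refine ⟨c + 1 + ∑ w ∈ Θ, w.2.1, fun w hw => ?_, by omega⟩
    have h1 : w.2.1 ≤ ∑ w ∈ Θ, w.2.1 :=
      Finset.single_le_sum (f := fun w : ℕ × ℕ × ℕ × ℕ => w.2.1) (fun _ _ => Nat.zero_le _) hw
    omega
  obtain ⟨t, ht⟩ := exists_blk (insert (a, a, a, a) Θ)
  have h1 : (a, a, a, a) ∈ blk t := by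
    rw [ht]
    exact Finset.mem_insert_self _ _
  have h2 := (Qd_lt ((mem_blk _ _ _ _ _).1 h1)).1
  refine ⟨t, by omega, ?_⟩
  rw [ht]
  exact squareSizes_insert6 Θ a (by omega) ha

theorem exists_universal_ge (c : ℕ) :
    ∃ Θ₀ : Finset (ℕ × ℕ × ℕ × ℕ), ∀ A : Set ℕ, IsSpectrum A →
        ∃ g : Polynomial ℕ, (∀ n, c ≤ g.eval n) ∧
          A = {n : ℕ | 1 ≤ n ∧ g.eval n ∈ squareSizes Θ₀} := by
  obtain ⟨k₀, Θ₀, hΘ₀⟩ := spectrum_blocks univSizes_spectrum
  refine ⟨Θ₀, ?_⟩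
  intro A hA
  obtain ⟨k, Θ, hΘ⟩ := spectrum_blocks hA
  obtain ⟨t, hct, hsq⟩ := exists_large6 c Θ
  rw [← hsq] at hΘ
  have hev : ∀ n : ℕ, (((Polynomial.X ^ (k + 1) + Polynomial.C (2 + t)) ^ 2 +
      Polynomial.C t) ^ (k₀ + 1) : Polynomial ℕ).eval n =
      ((n ^ (k + 1) + 2 + t) ^ 2 + t) ^ (k₀ + 1) := by
    intro n
    simp [add_assoc]
  have hone : ∀ n : ℕ, 1 ≤ (n ^ (k + 1) + 2 + t) ^ 2 + t := by
    intro n
    have : 1 ≤ (n ^ (k + 1) + 2 + t) ^ 2 := Nat.one_le_pow _ _ (by omega)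
    omega
  refine ⟨((Polynomial.X ^ (k + 1) + Polynomial.C (2 + t)) ^ 2 + Polynomial.C t) ^ (k₀ + 1),
    fun n => ?_, ?_⟩
  · rw [hev]
    have h1 : c ≤ (n ^ (k + 1) + 2 + t) ^ 2 + t := by omega
    exact h1.trans (Nat.le_self_pow (Nat.succ_ne_zero k₀) _)
  ext n
  have hpos : ∀ n ∈ A, 1 ≤ n := fun n hn => hA.pos hn
  simp only [Set.mem_ofPred_eq, hev]
  constructor
  · intro hn
    have h1 := hpos n hn
    refine ⟨h1, ?_⟩
    rw [← hΘ₀ _ (hone n), mem_univSizes, ← hΘ n h1]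
    exact hn
  · rintro ⟨h1, h2⟩
    rw [← hΘ₀ _ (hone n), mem_univSizes, ← hΘ n h1] at h2
    exact h2

end Pool.Agent.Helper38.SPT
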