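import Pool.Agent.Helper38.SPT.Defs
import Pool.Agent.Helper38.SPT.U1
import Pool.Agent.Helper29.TD.BFSat

/-!
# Families of codes give universal spectra
-/

set_option autoImplicit false

namespace Pool.Agent.Helper38.SPT

open FirstOrder FirstOrder.Language Filter Pool.Agent.Helper20.Spectra Pool.Agent.Helper20.OP
  Pool.Agent.Helper29.TD Pool.Agent.Helper29.TW Pool.Agent.Helper29.Prefix

/-- a spectrum of sparse structures is a spectrum -/
theorem SparseSpectrum.isSpectrum {μ : Meas} {w : ℕ → ℕ} {A : Set ℕ} (h : SparseSpectrum μ w A) :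
    IsSpectrum A := by
  obtain ⟨S, hS, ar, φ, -, -, h2⟩ := h
  refine ⟨RelLang S ar, inferInstance, inferInstance, φ, ?_⟩
  ext n
  rw [h2 n]
  constructor
  · rintro ⟨hn, I, hI⟩
    exact ⟨hn, Fin n, mkS I, inferInstance, by simp, hI⟩
  · rintro ⟨hn, M, T, _, hc, hr⟩
    let e : M ≃ Fin n := (Fintype.equivFin M).trans (finCongr hc)
    let I : Interp S ar M := fun s v => T.RelMap (⟨s, rfl⟩ : (RelLang S ar).Relations (ar s)) v
    have h1 : Sat I φ := by
      have hT : T = mkS I := structure_eq T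
      unfold Sat
      rw [← hT]
      exact hr
    exact ⟨hn, _, (Sat.iso I e φ).1 h1⟩

/-- monotonicity of the measures -/
theorem MeasLe.mono {S : Type} {ar : S → ℕ} {M : Type} {μ : Meas} {I : Interp S ar M} {w w' : ℕ}
    (h : MeasLe μ I w) (hw : w ≤ w') : MeasLe μ I w' := by
  cases μ with
  | edges => exact le_trans h hw
  | branch => exact le_trans h hw
  | cover =>
    obtain ⟨C, hC, h1⟩ := h
    exact ⟨C, hC.trans hw, h1⟩

/-- at least `c` elements -/
theorem def_atLeast (b c : ℕ) :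
    Def0 b (fun V _ => ∃ f : Fin c → V, ∀ i j, f i = f j → i = j) := by
  refine Def.exTuple c ?_
  exact (Def.all_fin (γ := Fin c) (P := fun i V R v => ∀ j : Fin c,
      v (Fin.natAdd 0 i) = v (Fin.natAdd 0 j) → i = j) (fun i => Def.all_fin (fun j =>
      (Def.eq _ _).imp (Def.const _)))).congr (fun V R v => Iff.rfl)

lemma toI_ofI {b n : ℕ} (I : Interp (Fin b) (fun _ => 2) (Fin n)) :
    toI (fun r x y => I r ![x, y]) = I := by
  funext r v
  have h : (![v 0, v 1] : Fin 2 → Fin n) = v := by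
    funext i
    fin_cases i <;> rfl
  exact congrArg (I r) h

/-- the sizes of the codes form a spectrum of sparse structures -/
theorem sparse_of_code {b : ℕ} {μ : Meas} {w : ℕ → ℕ} {P : ∀ V : Type, Str b V → Prop}
    (hP : Def0 b P) {p : ℕ → ℕ} (hp : StrictMono p) {N₀ : ℕ} (hN₀ : 2 ≤ N₀) {T : ℕ → Prop}
    (hdec : ∀ (V : Type) (_ : Finite V) (R : Str b V), P V R → ∃ N, 2 ≤ N ∧ Nat.card V = p N ∧
      T N ∧ (N₀ ≤ N → MeasLe μ (toI R) (w (p N))))
    (henc : ∀ N, 2 ≤ N → T N → ∃ (V : Type) (_ : Finite V) (R : Str b V),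
      Nat.card V = p N ∧ P V R) :
    SparseSpectrum μ w {n | ∃ N, N₀ ≤ N ∧ T N ∧ n = p N} := by
  have hQ : Def0 b (fun V R => P V R ∧ ∃ f : Fin (p N₀) → V, ∀ i j, f i = f j → i = j) :=
    Def.and hP (def_atLeast b (p N₀))
  obtain ⟨φ, hφ⟩ := hQ.exists_sentence
  have hsat : ∀ (V : Type) (R : Str b V), Sat (toI R) φ ↔
      (P V R ∧ ∃ f : Fin (p N₀) → V, ∀ i j, f i = f j → i = j) := hφ
  have hmod : ∀ (n : ℕ) (I : Interp (Fin b) (fun _ => 2) (Fin n)), Sat I φ →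
      ∃ N, N₀ ≤ N ∧ n = p N ∧ T N ∧ MeasLe μ I (w n) := by
    intro n I hI
    rw [← toI_ofI I] at hI ⊢
    obtain ⟨h1, f, hf⟩ := (hsat _ _).1 hI
    obtain ⟨N, -, hc, ht, hm⟩ := hdec _ inferInstance _ h1
    rw [Nat.card_fin] at hc
    have h2 : p N₀ ≤ n := by
      have := Fintype.card_le_of_injective f (fun i j => hf i j)
      simpa using this
    have h3 : N₀ ≤ N := by
      rw [← hp.le_iff_le, ← hc]
      exact h2
    refine ⟨N, h3, hc, ht, ?_⟩
    have h4 := hm h3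
    rwa [← hc] at h4
  refine ⟨Fin b, inferInstance, fun _ => 2, φ, fun _ _ => le_rfl, ?_, ?_⟩
  · intro n I _ hI
    obtain ⟨N, -, -, -, hm⟩ := hmod n I hI
    exact hm
  · intro n
    constructor
    · rintro ⟨N, hN, ht, rfl⟩
      obtain ⟨V, hV, R, hc, hPR⟩ := henc N (by omega) ht
      have h0 : N ≤ p N := hp.le_apply
      refine ⟨by omega, ?_⟩
      let e : V ≃ Fin (p N) := (Finite.equivFin V).trans (finCongr hc)
      have h1 : P V R ∧ ∃ f : Fin (p N₀) → V, ∀ i j, f i = f j → i = j := by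
        refine ⟨hPR, fun i => e.symm (Fin.castLE (hp.monotone hN) i), fun i j hij => ?_⟩
        exact Fin.castLE_injective _ (e.symm.injective hij)
      exact ⟨_, (hsat _ _).2 ((Def0.iso hQ e R).1 h1)⟩
    · rintro ⟨_, I, hI⟩
      obtain ⟨N, hN, hc, ht, -⟩ := hmod n I hI
      exact ⟨N, hN, ht, hc⟩

/-- families of codes -/
theorem wild_of_family {μ : Meas} {w : ℕ → ℕ} (p : Polynomial ℕ)
    (hp : StrictMono (fun n : ℕ => p.eval n)) (N₀ : ℕ) (hN₀ : 1 ≤ N₀)
    (h : ∀ (Γ : Type) (_ : Finite Γ) (W : Wang Γ),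
      SparseSpectrum μ w {n | ∃ N, N₀ ≤ N ∧ Tiles W N ∧ n = p.eval N}) :
    (∃ U : Set ℕ, SparseSpectrum μ w U ∧ ∀ A : Set ℕ, IsSpectrum A ↔
      ∃ h : Polynomial ℕ, A = {n : ℕ | 1 ≤ n ∧ h.eval n ∈ U}) ∧
    ((∀ A : Set ℕ, SparseSpectrum μ w A → IsRudimentary A) ↔
      ∀ A : Set ℕ, IsSpectrum A ↔ (IsRudimentary A ∧ 0 ∉ A)) := by
  obtain ⟨Θ₀, hΘ₀⟩ := exists_universal_ge N₀
  have hU := h _ inferInstance (blockWang Θ₀)
  set U : Set ℕ := {n | ∃ N, N₀ ≤ N ∧ Tiles (blockWang Θ₀) N ∧ n = p.eval N} with hUdef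
  have key : ∀ N, N₀ ≤ N → (p.eval N ∈ U ↔ N ∈ squareSizes Θ₀) := by
    intro N hN
    rw [mem_squareSizes_iff Θ₀ (by omega)]
    constructor
    · rintro ⟨N', -, ht, he⟩
      have h1 : N = N' := hp.injective he
      rw [h1]
      exact ht
    · intro ht
      exact ⟨N, hN, ht, rfl⟩
  have huniv : ∀ A : Set ℕ, IsSpectrum A →
      ∃ h : Polynomial ℕ, A = {n : ℕ | 1 ≤ n ∧ h.eval n ∈ U} := by
    intro A hA
    obtain ⟨g, hg2, hg⟩ := hΘ₀ A hA
    refine ⟨p.comp g, ?_⟩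
    rw [hg]
    ext n
    simp only [Set.mem_ofPred_eq, Polynomial.eval_comp]
    exact and_congr_right (fun _ => (key _ (hg2 n)).symm)
  refine ⟨⟨U, hU, fun A => ⟨huniv A, ?_⟩⟩, ?_⟩
  · rintro ⟨h, rfl⟩
    exact hU.isSpectrum.preimage h
  · constructor
    · intro hr A
      refine ⟨fun hA => ⟨?_, hA.zero_notMem⟩, fun hA => hA.1.isSpectrum hA.2⟩
      obtain ⟨g, hg⟩ := huniv A hA
      rw [hg]
      exact (hr _ hU).preimage g
    · intro hq A hA
      exact ((hq A).1 hA.isSpectrum).1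

end Pool.Agent.Helper38.SPT
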